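import Mathlib

/-!
# Atomic sequence spaces
-/

noncomputable section

namespace Pool.Agent.Lib.BF3

/-- a simplicial complex on the vertex set `S` (a family of finite sets that is closed under
subsets and contains the singletons) -/
structure Cx (S : Type) where
  faces : Set (Finset S)
  down : ∀ F ∈ faces, ∀ G : Finset S, G ⊆ F → G ∈ faces
  sing : ∀ s, {s} ∈ faces

variable {S : Type}

/-- the generators: the functions bounded by one whose support is a face -/
def Cx.gen (K : Cx S) : Set (S →₀ ℂ) := {g | g.support ∈ K.faces ∧ ∀ s, ‖g s‖ ≤ 1}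

/-- the finitely supported functions on `S` with the atomic norm of the complex `K` -/
def PreAtom (_K : Cx S) : Type := S →₀ ℂ

section

variable (K : Cx S)

instance : AddCommGroup (PreAtom K) := inferInstanceAs (AddCommGroup (S →₀ ℂ))
instance : Module ℂ (PreAtom K) := inferInstanceAs (Module ℂ (S →₀ ℂ))

variable {K}

/-- the linear combination given by a list -/
def PreAtom.lsum (l : List (ℂ × PreAtom K)) : PreAtom K := (l.map fun p => p.1 • p.2).sum

/-- the cost of a list -/
def PreAtom.lnorm (l : List (ℂ × PreAtom K)) : ℝ := (l.map fun p => ‖p.1‖).sum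

/-- the atomic norm: the infimum of `∑ |c_i|` over all finite representations `a = ∑ c_i g_i`
with generators `g_i` -/
def atomNorm (a : PreAtom K) : ℝ :=
  sInf {r : ℝ | ∃ l : List (ℂ × PreAtom K), (∀ p ∈ l, p.2 ∈ K.gen) ∧ PreAtom.lsum l = a ∧
    PreAtom.lnorm l = r}

theorem PreAtom.lnorm_nonneg (l : List (ℂ × PreAtom K)) : 0 ≤ PreAtom.lnorm l := by
  unfold PreAtom.lnorm
  apply List.sum_nonneg
  intro r hr
  simp only [List.mem_map] at hr
  obtain ⟨p, -, rfl⟩ := hr
  positivity

theorem PreAtom.lsum_append (l m : List (ℂ × PreAtom K)) :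
    PreAtom.lsum (l ++ m) = PreAtom.lsum l + PreAtom.lsum m := by
  simp [PreAtom.lsum, List.map_append, List.sum_append]

theorem PreAtom.lnorm_append (l m : List (ℂ × PreAtom K)) :
    PreAtom.lnorm (l ++ m) = PreAtom.lnorm l + PreAtom.lnorm m := by
  simp [PreAtom.lnorm, List.map_append, List.sum_append]

theorem PreAtom.lsum_cons (p : ℂ × PreAtom K) (m : List (ℂ × PreAtom K)) :
    PreAtom.lsum (p :: m) = p.1 • p.2 + PreAtom.lsum m := by
  simp [PreAtom.lsum]

theorem PreAtom.lnorm_cons (p : ℂ × PreAtom K) (m : List (ℂ × PreAtom K)) :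
    PreAtom.lnorm (p :: m) = ‖p.1‖ + PreAtom.lnorm m := by
  simp [PreAtom.lnorm]

theorem single_mem_gen (K : Cx S) (s : S) {c : ℂ} (hc : ‖c‖ ≤ 1) :
    (Finsupp.single s c : S →₀ ℂ) ∈ K.gen := by
  classical
  refine ⟨K.down _ (K.sing s) _ Finsupp.support_single_subset, fun t => ?_⟩
  rw [Finsupp.single_apply]
  split_ifs
  · exact hc
  · simp

theorem zero_mem_gen (K : Cx S) [Nonempty S] : (0 : S →₀ ℂ) ∈ K.gen := by
  obtain ⟨s⟩ := ‹Nonempty S›
  have := single_mem_gen K s (c := 0) (by simp)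
  simpa using this

theorem PreAtom.exists_list (a : PreAtom K) :
    ∃ l : List (ℂ × PreAtom K), (∀ p ∈ l, p.2 ∈ K.gen) ∧ PreAtom.lsum l = a := by
  induction a using Finsupp.induction_linear with
  | zero => exact ⟨[], by simp, rfl⟩
  | add a b ha hb =>
    obtain ⟨l, hl, rfl⟩ := ha
    obtain ⟨m, hm, rfl⟩ := hb
    refine ⟨l ++ m, fun p hp => ?_, PreAtom.lsum_append l m⟩
    rcases List.mem_append.1 hp with h | h
    · exact hl p h
    · exact hm p h
  | single s c =>
    refine ⟨[(c, (Finsupp.single s (1:ℂ) : S →₀ ℂ))], ?_, ?_⟩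
    · intro p hp
      rw [List.mem_singleton] at hp
      subst hp
      exact single_mem_gen K s (by simp)
    · rw [PreAtom.lsum_cons]
      change c • (Finsupp.single s (1:ℂ)) + 0 = _
      simp

theorem atomNorm_bdd (a : PreAtom K) :
    BddBelow {r : ℝ | ∃ l : List (ℂ × PreAtom K), (∀ p ∈ l, p.2 ∈ K.gen) ∧ PreAtom.lsum l = a ∧
      PreAtom.lnorm l = r} :=
  ⟨0, by rintro r ⟨l, -, -, rfl⟩; exact PreAtom.lnorm_nonneg l⟩

theorem atomNorm_nonneg (a : PreAtom K) : 0 ≤ atomNorm a := by
  refine Real.sInf_nonneg ?_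
  rintro r ⟨l, -, -, rfl⟩
  exact PreAtom.lnorm_nonneg l

theorem atomNorm_le {a : PreAtom K} {l : List (ℂ × PreAtom K)} (h0 : ∀ p ∈ l, p.2 ∈ K.gen)
    (h : PreAtom.lsum l = a) : atomNorm a ≤ PreAtom.lnorm l :=
  csInf_le (atomNorm_bdd a) ⟨l, h0, h, rfl⟩

theorem exists_lt_of_atomNorm_lt {a : PreAtom K} {r : ℝ} (h : atomNorm a < r) :
    ∃ l : List (ℂ × PreAtom K), (∀ p ∈ l, p.2 ∈ K.gen) ∧ PreAtom.lsum l = a ∧
      PreAtom.lnorm l < r := by
  have hne : {r : ℝ | ∃ l : List (ℂ × PreAtom K), (∀ p ∈ l, p.2 ∈ K.gen) ∧ PreAtom.lsum l = a ∧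
      PreAtom.lnorm l = r}.Nonempty := by
    obtain ⟨l, h0, hl⟩ := PreAtom.exists_list a
    exact ⟨_, l, h0, hl, rfl⟩
  obtain ⟨x, ⟨l, h0, hl, rfl⟩, ha⟩ := exists_lt_of_csInf_lt hne h
  exact ⟨l, h0, hl, ha⟩

theorem atomNorm_add_le (a b : PreAtom K) : atomNorm (a + b) ≤ atomNorm a + atomNorm b := by
  refine le_of_forall_pos_le_add fun ε hε => ?_
  obtain ⟨l, hl0, hl, hl'⟩ := exists_lt_of_atomNorm_lt (a := a) (r := atomNorm a + ε / 2)
    (by linarith)
  obtain ⟨m, hm0, hm, hm'⟩ := exists_lt_of_atomNorm_lt (a := b) (r := atomNorm b + ε / 2)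
    (by linarith)
  have h1 : PreAtom.lsum (l ++ m) = a + b := by rw [PreAtom.lsum_append, hl, hm]
  have := atomNorm_le (l := l ++ m) (fun p hp => by
    rcases List.mem_append.1 hp with h | h
    · exact hl0 p h
    · exact hm0 p h) h1
  rw [PreAtom.lnorm_append] at this
  linarith

theorem atomNorm_zero : atomNorm (0 : PreAtom K) = 0 := by
  refine le_antisymm ?_ (atomNorm_nonneg _)
  have := atomNorm_le (K := K) (a := 0) (l := []) (by simp) rfl
  simpa [PreAtom.lnorm] using this

theorem atomNorm_smul_le (c : ℂ) (a : PreAtom K) : atomNorm (c • a) ≤ ‖c‖ * atomNorm a := by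
  refine le_of_forall_pos_le_add fun ε hε => ?_
  obtain ⟨l, hl0, hl, hl'⟩ := exists_lt_of_atomNorm_lt (a := a)
    (r := atomNorm a + ε / (‖c‖ + 1))
    (by have : 0 < ε / (‖c‖ + 1) := by positivity
        linarith)
  have h1 : PreAtom.lsum (l.map fun p => (c * p.1, p.2)) = c • a := by
    rw [← hl]
    simp only [PreAtom.lsum, List.map_map, List.smul_sum, Function.comp_def, mul_smul]
  have h2 : PreAtom.lnorm (l.map fun p => (c * p.1, p.2)) = ‖c‖ * PreAtom.lnorm l := by
    simp only [PreAtom.lnorm, List.map_map, ← List.sum_map_mul_left]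
    congr 1
    apply List.map_congr_left
    intro p _
    simp
  have h3 := atomNorm_le (l := l.map fun p => (c * p.1, p.2)) (fun p hp => by
    simp only [List.mem_map] at hp
    obtain ⟨p', hp', rfl⟩ := hp
    exact hl0 p' hp') h1
  rw [h2] at h3
  have h4 : ‖c‖ * (ε / (‖c‖ + 1)) ≤ ε := by
    rw [mul_div_assoc', div_le_iff₀ (by positivity)]
    nlinarith [norm_nonneg c]
  nlinarith [norm_nonneg c]

theorem atomNorm_smul (c : ℂ) (a : PreAtom K) : atomNorm (c • a) = ‖c‖ * atomNorm a := by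
  refine le_antisymm (atomNorm_smul_le c a) ?_
  by_cases hc : c = 0
  · simp [hc, atomNorm_zero]
  · have := atomNorm_smul_le c⁻¹ (c • a)
    rw [smul_smul, inv_mul_cancel₀ hc, one_smul, norm_inv] at this
    have hc' : 0 < ‖c‖ := norm_pos_iff.2 hc
    calc ‖c‖ * atomNorm a ≤ ‖c‖ * (‖c‖⁻¹ * atomNorm (c • a)) := by gcongr
      _ = atomNorm (c • a) := by field_simp

variable (K) in
/-- the atomic seminorm -/
def atomSeminorm : Seminorm ℂ (PreAtom K) := Seminorm.of atomNorm atomNorm_add_le atomNorm_smul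

instance : SeminormedAddCommGroup (PreAtom K) :=
  (atomSeminorm K).toAddGroupSeminorm.toSeminormedAddCommGroup

theorem PreAtom.norm_def (a : PreAtom K) : ‖a‖ = atomNorm a := rfl

instance : NormedSpace ℂ (PreAtom K) where
  norm_smul_le c z := (atomNorm_smul c z).le

end

/-- the atomic sequence space of the complex `K` -/
abbrev Atom (K : Cx S) : Type := UniformSpace.Completion (PreAtom K)

variable {K : Cx S} {Z : Type} [NormedAddCommGroup Z] [NormedSpace ℂ Z]

/-- the embedding of the finitely supported functions -/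
def aι (K : Cx S) : (S →₀ ℂ) →ₗ[ℂ] Atom K :=
  (UniformSpace.Completion.toComplₗᵢ (𝕜 := ℂ) (E := PreAtom K)).toLinearMap

/-- the unit vector `δ_s` -/
def δ (K : Cx S) (s : S) : Atom K := aι K (Finsupp.single s 1)

theorem aι_eq_sum (g : S →₀ ℂ) : aι K g = g.sum fun s c => c • δ K s := by
  conv_lhs => rw [← Finsupp.sum_single g]
  rw [Finsupp.sum, map_sum]
  refine Finset.sum_congr rfl fun s _ => ?_
  change _ = g s • aι K (Finsupp.single s 1)
  rw [← map_smul]
  simp

/-- the generators have norm at most one -/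
theorem norm_aι_le_one {g : S →₀ ℂ} (hg : g ∈ K.gen) : ‖aι K g‖ ≤ 1 := by
  have h : ‖aι K g‖ = atomNorm (K := K) g := UniformSpace.Completion.norm_coe (E := PreAtom K) g
  rw [h]
  have h1 : PreAtom.lsum (K := K) [((1:ℂ), g)] = g := by
    rw [PreAtom.lsum_cons]
    change (1:ℂ) • g + 0 = g
    simp
  have := atomNorm_le (K := K) (l := [((1:ℂ), g)]) (fun p hp => by
    rw [List.mem_singleton] at hp
    subst hp
    exact hg) h1
  simpa [PreAtom.lnorm] using this

theorem norm_δ_le (K : Cx S) (s : S) : ‖δ K s‖ ≤ 1 :=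
  norm_aι_le_one (single_mem_gen K s (by simp))

/-- the linear extension of a family to the finitely supported functions -/
def prelin (z : S → Z) : (S →₀ ℂ) →ₗ[ℂ] Z := Finsupp.linearCombination ℂ z

theorem prelin_apply (z : S → Z) (g : S →₀ ℂ) : prelin z g = g.sum fun s c => c • z s := rfl

theorem prelin_single (z : S → Z) (s : S) (c : ℂ) :
    prelin z (Finsupp.single s c) = c • z s := by
  simp [prelin]

theorem norm_lin_le (L : (S →₀ ℂ) →ₗ[ℂ] Z) (C : ℝ) (hC : ∀ g ∈ K.gen, ‖L g‖ ≤ C)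
    (hC0 : 0 ≤ C) (a : PreAtom K) : ‖L a‖ ≤ C * ‖a‖ := by
  have key : ∀ l : List (ℂ × PreAtom K), (∀ p ∈ l, p.2 ∈ K.gen) →
      ‖L (PreAtom.lsum l)‖ ≤ C * PreAtom.lnorm l := by
    intro l
    induction l with
    | nil =>
      intro _
      have : L (PreAtom.lsum ([] : List (ℂ × PreAtom K))) = 0 := map_zero L
      rw [this]; simp [PreAtom.lnorm]
    | cons p l ih =>
      intro h
      have e1 : L (PreAtom.lsum (p :: l)) = p.1 • L p.2 + L (PreAtom.lsum l) := by
        rw [PreAtom.lsum_cons, ← map_smul]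
        exact map_add L _ _
      rw [e1, PreAtom.lnorm_cons, mul_add]
      refine (norm_add_le _ _).trans (add_le_add ?_ (ih fun q hq => h q (by simp [hq])))
      rw [norm_smul, mul_comm]
      gcongr
      exact hC _ (h p (by simp))
  rcases eq_or_lt_of_le hC0 with h0 | h0
  · obtain ⟨l, hl, rfl⟩ := PreAtom.exists_list a
    have := key l hl
    rw [← h0, zero_mul] at this
    rw [← h0, zero_mul]; exact this
  · refine le_of_forall_pos_le_add fun ε hε => ?_
    obtain ⟨l, h1, rfl, hl⟩ := exists_lt_of_atomNorm_lt (a := a) (r := atomNorm a + ε / C)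
      (by have : 0 < ε / C := by positivity
          linarith)
    refine (key l h1).trans ?_
    have : C * PreAtom.lnorm l ≤ C * (atomNorm (PreAtom.lsum l) + ε / C) := by gcongr
    rw [mul_add, mul_div_cancel₀ _ h0.ne'] at this
    exact this

/-- The bounded linear map `Atom K → Z` with `δ_s ↦ z_s`; it has good properties if the images of
the generators are bounded (see `alift_δ`). -/
def alift [CompleteSpace Z] (K : Cx S) (z : S → Z) : Atom K →L[ℂ] Z :=
  LinearMap.extendOfNorm (E := PreAtom K) (prelin z : PreAtom K →ₗ[ℂ] Z)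
    (UniformSpace.Completion.toComplₗᵢ (𝕜 := ℂ) (E := PreAtom K)).toLinearMap

/-- `z` is a bounded family for the complex `K`, with bound `C` -/
def Bdd (K : Cx S) (z : S → Z) (C : ℝ) : Prop :=
  0 ≤ C ∧ ∀ g ∈ K.gen, ‖g.sum fun s c => c • z s‖ ≤ C

theorem alift_aι [CompleteSpace Z] {z : S → Z} {C : ℝ} (h : Bdd K z C) (g : S →₀ ℂ) :
    alift K z (aι K g) = g.sum fun s c => c • z s := by
  refine LinearMap.extendOfNorm_eq (E := PreAtom K)
    (UniformSpace.Completion.denseRange_coe (α := PreAtom K)) ⟨C, fun w => ?_⟩ g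
  change _ ≤ C * ‖((w : PreAtom K) : Atom K)‖
  rw [UniformSpace.Completion.norm_coe]
  exact norm_lin_le (K := K) (prelin z) C h.2 h.1 w

@[simp] theorem alift_δ [CompleteSpace Z] {z : S → Z} {C : ℝ} (h : Bdd K z C) (s : S) :
    alift K z (δ K s) = z s := by
  rw [δ, alift_aι h]
  simp

theorem norm_alift_le [CompleteSpace Z] {z : S → Z} {C : ℝ} (h : Bdd K z C) (a : Atom K) :
    ‖alift K z a‖ ≤ C * ‖a‖ := by
  induction a using UniformSpace.Completion.induction_on with
  | hp => exact isClosed_le (by fun_prop) (by fun_prop)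
  | ih a =>
    have e : alift K z (a : Atom K) = prelin z a := alift_aι h a
    rw [e, UniformSpace.Completion.norm_coe]
    exact norm_lin_le (K := K) (prelin z) C h.2 h.1 a

/-- two bounded linear maps on `Atom K` that agree on the unit vectors are equal -/
theorem Atom.ext_of {f g : Atom K →L[ℂ] Z} (h : ∀ s, f (δ K s) = g (δ K s)) : f = g := by
  apply ContinuousLinearMap.coeFn_injective
  refine UniformSpace.Completion.ext f.continuous g.continuous fun a => ?_
  have e : ((a : PreAtom K) : Atom K) = aι K a := rfl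
  rw [e, aι_eq_sum, Finsupp.sum, map_sum, map_sum]
  refine Finset.sum_congr rfl fun s _ => ?_
  rw [map_smul, map_smul, h]

theorem Atom.apply_eq_of {f g : Atom K →L[ℂ] Z} (h : ∀ s, f (δ K s) = g (δ K s)) (a : Atom K) :
    f a = g a := by
  rw [Atom.ext_of h]

end Pool.Agent.Lib.BF3
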