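import Mathlib
import Pool.Agent.Lib.BF3.Atom

/-!
# Bilinear maps on atomic sequence spaces; the combinatorial data
-/

noncomputable section

namespace Pool.Agent.Lib.BF3

variable {S S' : Type} {Z : Type} [NormedAddCommGroup Z] [NormedSpace ℂ Z]

/-- a doubly indexed family is bounded for the complexes `K`, `K'`, with bound `C` -/
def Bdd₂ (K : Cx S) (K' : Cx S') (z : S → S' → Z) (C : ℝ) : Prop :=
  0 ≤ C ∧ ∀ g ∈ K.gen, ∀ h ∈ K'.gen,
    ‖g.sum fun s c => h.sum fun s' d => (c * d) • z s s'‖ ≤ C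

/-- the bounded bilinear map with `(δ_s, δ_s') ↦ z_{s,s'}` -/
def alift₂ [CompleteSpace Z] (K : Cx S) (K' : Cx S') (z : S → S' → Z) :
    Atom K →L[ℂ] Atom K' →L[ℂ] Z :=
  alift K fun s => alift K' (z s)

theorem Bdd₂.right {K : Cx S} {K' : Cx S'} {z : S → S' → Z} {C : ℝ} (h : Bdd₂ K K' z C) (s : S) :
    Bdd K' (z s) C := by
  refine ⟨h.1, fun g hg => ?_⟩
  have := h.2 (Finsupp.single s 1) (single_mem_gen K s (by simp)) g hg
  simpa using this

theorem Bdd₂.left [CompleteSpace Z] {K : Cx S} {K' : Cx S'} {z : S → S' → Z} {C : ℝ}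
    (h : Bdd₂ K K' z C) : Bdd K (fun s => alift K' (z s)) C := by
  refine ⟨h.1, fun g hg => ?_⟩
  refine ContinuousLinearMap.opNorm_le_bound _ h.1 fun a => ?_
  have hb : Bdd K' (fun s' => g.sum fun s c => c • z s s') C := by
    refine ⟨h.1, fun k hk => ?_⟩
    have := h.2 g hg k hk
    have e : (k.sum fun s' d => d • g.sum fun s c => c • z s s')
        = g.sum fun s c => k.sum fun s' d => (c * d) • z s s' := by
      simp only [Finsupp.sum, Finset.smul_sum]
      rw [Finset.sum_comm]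
      refine Finset.sum_congr rfl fun s _ => Finset.sum_congr rfl fun s' _ => ?_
      rw [smul_smul, mul_comm]
    rw [e]
    exact this
  have e : (g.sum fun s c => c • alift K' (z s)) = alift K' fun s' => g.sum fun s c => c • z s s' := by
    refine Atom.ext_of fun s' => ?_
    rw [alift_δ hb]
    simp only [Finsupp.sum, ContinuousLinearMap.sum_apply, ContinuousLinearMap.smul_apply]
    refine Finset.sum_congr rfl fun s _ => ?_
    rw [alift_δ (h.right s)]
  rw [e]
  exact norm_alift_le hb a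

@[simp] theorem alift₂_δ [CompleteSpace Z] {K : Cx S} {K' : Cx S'} {z : S → S' → Z} {C : ℝ}
    (h : Bdd₂ K K' z C) (s : S) (s' : S') : alift₂ K K' z (δ K s) (δ K' s') = z s s' := by
  rw [alift₂, alift_δ h.left, alift_δ (h.right s)]

theorem norm_alift₂_le [CompleteSpace Z] {K : Cx S} {K' : Cx S'} {z : S → S' → Z} {C : ℝ}
    (h : Bdd₂ K K' z C) (a : Atom K) (b : Atom K') : ‖alift₂ K K' z a b‖ ≤ C * ‖a‖ * ‖b‖ := by
  calc ‖alift₂ K K' z a b‖ ≤ ‖alift₂ K K' z a‖ * ‖b‖ := ContinuousLinearMap.le_opNorm _ _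
    _ ≤ C * ‖a‖ * ‖b‖ := by gcongr; exact norm_alift_le h.left a

/-- two bounded bilinear maps that agree on the unit vectors are equal -/
theorem Atom.ext₂_of {K : Cx S} {K' : Cx S'} {f g : Atom K →L[ℂ] Atom K' →L[ℂ] Z}
    (h : ∀ s s', f (δ K s) (δ K' s') = g (δ K s) (δ K' s')) : f = g :=
  Atom.ext_of fun s => Atom.ext_of fun s' => h s s'

/-! ### Complexes -/

/-- the disjoint union of two complexes -/
def Cx.sum (K : Cx S) (L : Cx S') : Cx (S ⊕ S') where
  faces := {F | (∃ G ∈ K.faces, F ⊆ G.map Function.Embedding.inl) ∨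
    ∃ G ∈ L.faces, F ⊆ G.map Function.Embedding.inr}
  down := by
    rintro F (⟨G, hG, hF⟩ | ⟨G, hG, hF⟩) H hH
    · exact Or.inl ⟨G, hG, hH.trans hF⟩
    · exact Or.inr ⟨G, hG, hH.trans hF⟩
  sing := by
    rintro (s | s)
    · exact Or.inl ⟨{s}, K.sing s, by simp⟩
    · exact Or.inr ⟨{s}, L.sing s, by simp⟩

variable (S) in
/-- the complex without edges: `Atom (pts S) = ℓ¹(S)` -/
def pts : Cx S where
  faces := {F | ∀ s ∈ F, ∀ s' ∈ F, s = s'}
  down := fun _ hF _ hG s hs s' hs' => hF s (hG hs) s' (hG hs')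
  sing := by simp

variable (S) in
/-- the full complex: `Atom (full S) = c₀(S)` -/
def full : Cx S where
  faces := Set.univ
  down := fun _ _ _ _ => trivial
  sing := fun _ => trivial

/-- the index set `X` -/
abbrev Xs : Type := List ℕ × (ℕ → List ℕ)

/-- the index set `T = X × ℕ` of the atoms -/
abbrev Ts : Type := Xs × ℕ

/-- the column `c(x, j) = s ++ [j] ++ τ(j)` of the atom `(x, j)`, `x = (s, τ)` -/
def col (t : Ts) : List ℕ := t.1.1 ++ (t.2 :: t.1.2 t.2)

/-- the code `k(x)` of `x = (s, τ)` is the code of the list `s` -/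
def kk (x : Xs) : ℕ := Encodable.encode x.1

/-- the complex `F₀`: finite sets of atoms `(x, j)` with the same `x` -/
def F0 : Cx Ts where
  faces := {F | ∀ t ∈ F, ∀ t' ∈ F, t.1 = t'.1}
  down := fun _ hF _ hG s hs s' hs' => hF s (hG hs) s' (hG hs')
  sing := by simp

/-- the complex `F₁`: the faces of `F₀` and the finite sets of atoms with the same column and
different codes -/
def F1 : Cx Ts where
  faces := {F | (∀ t ∈ F, ∀ t' ∈ F, t.1 = t'.1) ∨
    ∀ t ∈ F, ∀ t' ∈ F, col t = col t' ∧ (kk t.1 = kk t'.1 → t = t')}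
  down := by
    rintro F (hF | hF) G hG
    · exact Or.inl fun s hs s' hs' => hF s (hG hs) s' (hG hs')
    · exact Or.inr fun s hs s' hs' => hF s (hG hs) s' (hG hs')
  sing := fun s => Or.inl (by simp)

/-- the index set of the basis of the algebra -/
abbrev SA : Type := Ts ⊕ Xs

/-- the complex `G ⊔ X` -/
abbrev SG (G : Cx Ts) : Cx SA := G.sum (pts Xs)

open Classical in
/-- the value of the basis function `s` at the point `p`: `δ_t` is the indicator function of
the point `t`, and `1_x` the indicator function of `x` and of the atoms `(x, j)` -/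
def val : SA → SA → ℂ
  | Sum.inl t, Sum.inl t' => if t = t' then 1 else 0
  | Sum.inl _, Sum.inr _ => 0
  | Sum.inr x, Sum.inl t => if t.1 = x then 1 else 0
  | Sum.inr x, Sum.inr x' => if x = x' then 1 else 0

open Classical in
/-- the multiplication table, with values in `Atom (SG G)` -/
def tab (G : Cx Ts) : SA → SA → Atom (SG G)
  | Sum.inl t, Sum.inl t' => if t = t' then δ (SG G) (Sum.inl t) else 0
  | Sum.inl t, Sum.inr x => if t.1 = x then δ (SG G) (Sum.inl t) else 0
  | Sum.inr x, Sum.inl t => if t.1 = x then δ (SG G) (Sum.inl t) else 0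
  | Sum.inr x, Sum.inr x' => if x = x' then δ (SG G) (Sum.inr x) else 0

/-- the product `Atom (SG F1) × Atom (SG G) → Atom (SG G)` -/
def mulG (G : Cx Ts) : Atom (SG F1) →L[ℂ] Atom (SG G) →L[ℂ] Atom (SG G) :=
  alift₂ (SG F1) (SG G) (tab G)

end Pool.Agent.Lib.BF3
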