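import Mathlib
import Pool.Agent.Lib.BF3.Atom2

/-!
# The multiplication table is bounded
-/

noncomputable section

namespace Pool.Agent.Lib.BF3

open Classical in
/-- the multiplication table with values in the finitely supported functions -/
def tabF : SA → SA → (SA →₀ ℂ)
  | Sum.inl t, Sum.inl t' => if t = t' then Finsupp.single (Sum.inl t) 1 else 0
  | Sum.inl t, Sum.inr x => if t.1 = x then Finsupp.single (Sum.inl t) 1 else 0
  | Sum.inr x, Sum.inl t => if t.1 = x then Finsupp.single (Sum.inl t) 1 else 0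
  | Sum.inr x, Sum.inr x' => if x = x' then Finsupp.single (Sum.inr x) 1 else 0

theorem aι_tabF (G : Cx Ts) (s s' : SA) : aι (SG G) (tabF s s') = tab G s s' := by
  rcases s with t | x <;> rcases s' with t' | x' <;>
  · simp only [tabF, tab]
    split_ifs
    · rfl
    · exact map_zero _

/-- the product of two finitely supported functions -/
def mulF (g h : SA →₀ ℂ) : SA →₀ ℂ := g.sum fun s c => h.sum fun s' d => (c * d) • tabF s s'

theorem aι_mulF (G : Cx Ts) (g h : SA →₀ ℂ) :
    aι (SG G) (mulF g h) = g.sum fun s c => h.sum fun s' d => (c * d) • tab G s s' := by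
  simp only [mulF, Finsupp.sum, map_sum, map_smul, aι_tabF]

open Classical in
theorem sum_sum_ite (g h : SA →₀ ℂ) (a b : SA) :
    (∑ s ∈ g.support, ∑ s' ∈ h.support, g s * h s' * (if s = a ∧ s' = b then 1 else 0))
      = g a * h b := by
  have h1 : ∀ s, (∑ s' ∈ h.support, g s * h s' * (if s = a ∧ s' = b then 1 else 0))
      = if s = a then g a * h b else 0 := by
    intro s
    by_cases hs : s = a
    · subst hs
      simp only [true_and, mul_ite, mul_one, mul_zero, Finset.sum_ite_eq', Finsupp.mem_support_iff,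
        if_true]
      by_cases hb : h b = 0 <;> simp [hb]
    · simp [hs]
  simp only [h1, Finset.sum_ite_eq', Finsupp.mem_support_iff]
  by_cases ha : g a = 0 <;> simp [ha]

open Classical in
theorem mulF_inl (g h : SA →₀ ℂ) (t : Ts) : mulF g h (Sum.inl t)
    = g (Sum.inl t) * h (Sum.inl t) + g (Sum.inl t) * h (Sum.inr t.1)
      + g (Sum.inr t.1) * h (Sum.inl t) := by
  rw [← sum_sum_ite g h (Sum.inl t) (Sum.inl t), ← sum_sum_ite g h (Sum.inl t) (Sum.inr t.1),
    ← sum_sum_ite g h (Sum.inr t.1) (Sum.inl t), ← Finset.sum_add_distrib,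
    ← Finset.sum_add_distrib]
  simp only [mulF, Finsupp.sum, Finsupp.finsetSum_apply]
  refine Finset.sum_congr rfl fun s _ => ?_
  rw [← Finset.sum_add_distrib, ← Finset.sum_add_distrib]
  refine Finset.sum_congr rfl fun s' _ => ?_
  rw [← mul_add, ← mul_add, Finsupp.smul_apply, smul_eq_mul]
  congr 1
  rcases s with t1 | x1 <;> rcases s' with t2 | x2
  · simp only [tabF, Sum.inl.injEq, reduceCtorEq, and_false, false_and, if_false, add_zero]
    by_cases h1 : t1 = t2
    · subst h1
      by_cases h2 : t1 = t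
      · subst h2; simp
      · simp [h2]
    · by_cases h2 : t1 = t
      · subst h2
        have h3 : ¬ t2 = t1 := fun e => h1 e.symm
        simp [h1, h3]
      · simp [h1, h2]
  · simp only [tabF, Sum.inl.injEq, Sum.inr.injEq, reduceCtorEq, and_false, false_and, if_false,
      add_zero, zero_add]
    by_cases h2 : t1 = t
    · subst h2
      by_cases h1 : t1.1 = x2
      · subst h1; simp
      · have h3 : ¬ x2 = t1.1 := fun e => h1 e.symm
        simp [h1, h3]
    · by_cases h1 : t1.1 = x2
      · subst h1; simp [h2]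
      · simp [h1, h2]
  · simp only [tabF, Sum.inl.injEq, Sum.inr.injEq, reduceCtorEq, and_false, false_and, if_false,
      add_zero, zero_add]
    by_cases h2 : t2 = t
    · subst h2
      by_cases h1 : t2.1 = x1
      · subst h1; simp
      · have h3 : ¬ x1 = t2.1 := fun e => h1 e.symm
        simp [h1, h3]
    · by_cases h1 : t2.1 = x1
      · subst h1; simp [h2]
      · simp [h1, h2]
  · simp only [tabF, Sum.inr.injEq, reduceCtorEq, and_false, false_and, if_false, add_zero]
    split_ifs <;> simp

open Classical in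
theorem mulF_inr (g h : SA →₀ ℂ) (x : Xs) : mulF g h (Sum.inr x)
    = g (Sum.inr x) * h (Sum.inr x) := by
  rw [← sum_sum_ite g h (Sum.inr x) (Sum.inr x)]
  simp only [mulF, Finsupp.sum, Finsupp.finsetSum_apply]
  refine Finset.sum_congr rfl fun s _ => Finset.sum_congr rfl fun s' _ => ?_
  rw [Finsupp.smul_apply, smul_eq_mul]
  congr 1
  rcases s with t1 | x1 <;> rcases s' with t2 | x2
  · simp only [tabF, reduceCtorEq, and_false, if_false]
    split_ifs <;> simp
  · simp only [tabF, reduceCtorEq, false_and, if_false]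
    split_ifs <;> simp
  · simp only [tabF, reduceCtorEq, and_false, if_false]
    split_ifs <;> simp
  · simp only [tabF, Sum.inr.injEq]
    by_cases h1 : x1 = x2
    · subst h1
      by_cases h2 : x1 = x
      · subst h2; simp
      · simp [h2]
    · by_cases h2 : x1 = x
      · subst h2
        have h3 : ¬ x2 = x1 := fun e => h1 e.symm
        simp [h1, h3]
      · simp [h1, h2]

theorem mul_norm_le_one {a b : ℂ} (ha : ‖a‖ ≤ 1) (hb : ‖b‖ ≤ 1) : ‖a * b‖ ≤ 1 := by
  rw [norm_mul]
  exact mul_le_one₀ ha (norm_nonneg _) hb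

/-- the face membership criterion for the left summand -/
theorem mem_faces_inl {K : Cx Ts} {F : Finset SA} (h1 : ∀ p ∈ F, ∃ t, p = Sum.inl t)
    (G : Finset Ts) (hG : G ∈ K.faces) (h2 : ∀ t, Sum.inl t ∈ F → t ∈ G) :
    F ∈ (SG K).faces := by
  refine Or.inl ⟨G, hG, fun p hp => ?_⟩
  obtain ⟨t, rfl⟩ := h1 p hp
  exact Finset.mem_map.2 ⟨t, h2 t hp, rfl⟩

/-- the table is bounded by one -/
theorem bdd_tab (G : Cx Ts) (hG : F0.faces ⊆ G.faces) : Bdd₂ (SG F1) (SG G) (tab G) 1 := by
  classical
  refine ⟨zero_le_one, fun g hg h hh => ?_⟩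
  rw [← aι_mulF]
  apply norm_aι_le_one
  obtain ⟨hg1, hg2⟩ := hg
  obtain ⟨hh1, hh2⟩ := hh
  rcases hg1 with ⟨Fg, hFg, hgs⟩ | ⟨Fg, hFg, hgs⟩ <;>
  rcases hh1 with ⟨Fh, hFh, hhs⟩ | ⟨Fh, hFh, hhs⟩
  · -- inl, inl
    have g0 : ∀ x : Xs, g (Sum.inr x) = 0 := by
      intro x
      by_contra hne
      have := hgs (Finsupp.mem_support_iff.2 hne)
      simp at this
    have h0 : ∀ x : Xs, h (Sum.inr x) = 0 := by
      intro x
      by_contra hne
      have := hhs (Finsupp.mem_support_iff.2 hne)
      simp at this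
    have v1 : ∀ t : Ts, mulF g h (Sum.inl t) = g (Sum.inl t) * h (Sum.inl t) := by
      intro t
      rw [mulF_inl, g0, h0]; ring
    have v2 : ∀ x : Xs, mulF g h (Sum.inr x) = 0 := by
      intro x
      rw [mulF_inr, g0]; ring
    refine ⟨mem_faces_inl ?_ Fh hFh ?_, ?_⟩
    · rintro (t | x) hp
      · exact ⟨t, rfl⟩
      · exact absurd (v2 x) (Finsupp.mem_support_iff.1 hp)
    · intro t ht
      have h3 := Finsupp.mem_support_iff.1 ht
      rw [v1] at h3
      have h4 : h (Sum.inl t) ≠ 0 := right_ne_zero_of_mul h3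
      simpa using hhs (Finsupp.mem_support_iff.2 h4)
    · rintro (t | x)
      · rw [v1]; exact mul_norm_le_one (hg2 _) (hh2 _)
      · rw [v2]; simp
  · -- inl, inr
    have g0 : ∀ x : Xs, g (Sum.inr x) = 0 := by
      intro x
      by_contra hne
      have := hgs (Finsupp.mem_support_iff.2 hne)
      simp at this
    have h0 : ∀ t : Ts, h (Sum.inl t) = 0 := by
      intro x
      by_contra hne
      have := hhs (Finsupp.mem_support_iff.2 hne)
      simp at this
    have v1 : ∀ t : Ts, mulF g h (Sum.inl t) = g (Sum.inl t) * h (Sum.inr t.1) := by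
      intro t
      rw [mulF_inl, g0, h0]; ring
    have v2 : ∀ x : Xs, mulF g h (Sum.inr x) = 0 := by
      intro x
      rw [mulF_inr, g0]; ring
    have hT : (mulF g h).support.preimage Sum.inl Sum.inl_injective.injOn ∈ G.faces := by
      apply hG
      intro t ht t' ht'
      have e1 : t.1 ∈ Fh := by
        have h3 := Finsupp.mem_support_iff.1 (Finset.mem_preimage.1 ht)
        rw [v1] at h3
        simpa using hhs (Finsupp.mem_support_iff.2 (right_ne_zero_of_mul h3))
      have e2 : t'.1 ∈ Fh := by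
        have h3 := Finsupp.mem_support_iff.1 (Finset.mem_preimage.1 ht')
        rw [v1] at h3
        simpa using hhs (Finsupp.mem_support_iff.2 (right_ne_zero_of_mul h3))
      exact hFh _ e1 _ e2
    refine ⟨mem_faces_inl ?_ _ hT ?_, ?_⟩
    · rintro (t | x) hp
      · exact ⟨t, rfl⟩
      · exact absurd (v2 x) (Finsupp.mem_support_iff.1 hp)
    · intro t ht
      exact Finset.mem_preimage.2 ht
    · rintro (t | x)
      · rw [v1]; exact mul_norm_le_one (hg2 _) (hh2 _)
      · rw [v2]; simp
  · -- inr, inl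
    have g0 : ∀ t : Ts, g (Sum.inl t) = 0 := by
      intro x
      by_contra hne
      have := hgs (Finsupp.mem_support_iff.2 hne)
      simp at this
    have h0 : ∀ x : Xs, h (Sum.inr x) = 0 := by
      intro x
      by_contra hne
      have := hhs (Finsupp.mem_support_iff.2 hne)
      simp at this
    have v1 : ∀ t : Ts, mulF g h (Sum.inl t) = g (Sum.inr t.1) * h (Sum.inl t) := by
      intro t
      rw [mulF_inl, g0, h0]; ring
    have v2 : ∀ x : Xs, mulF g h (Sum.inr x) = 0 := by
      intro x
      rw [mulF_inr, h0]; ring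
    refine ⟨mem_faces_inl ?_ Fh hFh ?_, ?_⟩
    · rintro (t | x) hp
      · exact ⟨t, rfl⟩
      · exact absurd (v2 x) (Finsupp.mem_support_iff.1 hp)
    · intro t ht
      have h3 := Finsupp.mem_support_iff.1 ht
      rw [v1] at h3
      have h4 : h (Sum.inl t) ≠ 0 := right_ne_zero_of_mul h3
      simpa using hhs (Finsupp.mem_support_iff.2 h4)
    · rintro (t | x)
      · rw [v1]; exact mul_norm_le_one (hg2 _) (hh2 _)
      · rw [v2]; simp
  · -- inr, inr
    have g0 : ∀ t : Ts, g (Sum.inl t) = 0 := by
      intro x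
      by_contra hne
      have := hgs (Finsupp.mem_support_iff.2 hne)
      simp at this
    have h0 : ∀ t : Ts, h (Sum.inl t) = 0 := by
      intro x
      by_contra hne
      have := hhs (Finsupp.mem_support_iff.2 hne)
      simp at this
    have v1 : ∀ t : Ts, mulF g h (Sum.inl t) = 0 := by
      intro t
      rw [mulF_inl, g0, h0]; ring
    refine ⟨Or.inr ⟨Fg, hFg, ?_⟩, ?_⟩
    · rintro (t | x) hp
      · exact absurd (v1 t) (Finsupp.mem_support_iff.1 hp)
      · have h3 := Finsupp.mem_support_iff.1 hp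
        rw [mulF_inr] at h3
        exact hgs (Finsupp.mem_support_iff.2 (left_ne_zero_of_mul h3))
    · rintro (t | x)
      · rw [v1]; simp
      · rw [mulF_inr]; exact mul_norm_le_one (hg2 _) (hh2 _)

end Pool.Agent.Lib.BF3
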