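import Mathlib
import Pool.Agent.Lib.BF3.TabBd

/-!
# Associativity and commutativity of the multiplication
-/

noncomputable section

namespace Pool.Agent.Lib.BF3

theorem F0_le_F1 : F0.faces ⊆ F1.faces := fun _ h => Or.inl h

theorem mulG_δ (G : Cx Ts) (hG : F0.faces ⊆ G.faces) (s s' : SA) :
    mulG G (δ _ s) (δ _ s') = tab G s s' := alift₂_δ (bdd_tab G hG) s s'

private theorem assoc_δ (G : Cx Ts) (hG : F0.faces ⊆ G.faces) (s s' s'' : SA) :
    mulG G (mulG F1 (δ _ s) (δ _ s')) (δ _ s'') = mulG G (δ _ s) (mulG G (δ _ s') (δ _ s'')) := by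
  rw [mulG_δ F1 F0_le_F1, mulG_δ G hG]
  rcases s with t | x <;> rcases s' with t' | x' <;> rcases s'' with t'' | x'' <;>
    simp only [tab] <;> split_ifs <;>
    simp_all only [mulG_δ G hG, tab, map_zero, zero_apply, if_true, if_false] <;>
    simp_all <;> (intro h; exfalso; subst h; simp_all)

/-- associativity -/
theorem mulG_assoc (G : Cx Ts) (hG : F0.faces ⊆ G.faces) (a b : Atom (SG F1))
    (m : Atom (SG G)) : mulG G (mulG F1 a b) m = mulG G a (mulG G b m) := by
  refine Atom.apply_eq_of (f := mulG G (mulG F1 a b)) (g := (mulG G a).comp (mulG G b))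
    (fun s'' => ?_) m
  refine Atom.apply_eq_of (f := ((mulG G).flip (δ _ s'')).comp (mulG F1 a))
    (g := (mulG G a).comp ((mulG G).flip (δ _ s''))) (fun s' => ?_) b
  refine Atom.apply_eq_of (f := ((mulG G).flip (δ _ s'')).comp ((mulG F1).flip (δ _ s')))
    (g := (mulG G).flip (mulG G (δ _ s') (δ _ s''))) (fun s => ?_) a
  exact assoc_δ G hG s s' s''

/-- commutativity -/
theorem mulG_comm (a b : Atom (SG F1)) : mulG F1 a b = mulG F1 b a := by
  refine Atom.apply_eq_of (f := mulG F1 a) (g := (mulG F1).flip a) (fun s' => ?_) b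
  refine Atom.apply_eq_of (f := (mulG F1).flip (δ _ s')) (g := mulG F1 (δ _ s')) (fun s => ?_) a
  change mulG F1 (δ _ s) (δ _ s') = mulG F1 (δ _ s') (δ _ s)
  rw [mulG_δ F1 F0_le_F1, mulG_δ F1 F0_le_F1]
  rcases s with t | x <;> rcases s' with t' | x' <;> simp only [tab]
  · by_cases h : t = t'
    · subst h; rfl
    · rw [if_neg h, if_neg (fun e => h e.symm)]
  · by_cases h : x = x'
    · subst h; rfl
    · rw [if_neg h, if_neg (fun e => h e.symm)]

end Pool.Agent.Lib.BF3
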