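import Mathlib

/-!
# The projective tensor product of two normed spaces
-/

open scoped TensorProduct

noncomputable section

namespace Pool.Agent.Lib.BF3

/-- the algebraic tensor product `E ⊗ F` of two normed spaces; it carries the projective
seminorm below -/
def PreT (E F : Type) [NormedAddCommGroup E] [NormedSpace ℂ E] [NormedAddCommGroup F]
    [NormedSpace ℂ F] : Type := E ⊗[ℂ] F

section

variable (E F : Type) [NormedAddCommGroup E] [NormedSpace ℂ E] [NormedAddCommGroup F]
  [NormedSpace ℂ F]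

instance : AddCommGroup (PreT E F) := inferInstanceAs (AddCommGroup (E ⊗[ℂ] F))
instance : Module ℂ (PreT E F) := inferInstanceAs (Module ℂ (E ⊗[ℂ] F))

variable {E F}

/-- the elementary tensor `x ⊗ y` -/
def PreT.t (x : E) (y : F) : PreT E F := (x ⊗ₜ[ℂ] y : E ⊗[ℂ] F)

/-- the sum `∑ x_i ⊗ y_i` of a finite list of pairs -/
def PreT.lsum (l : List (E × F)) : PreT E F := (l.map fun p => PreT.t p.1 p.2).sum

/-- the number `∑ ‖x_i‖ ‖y_i‖` of a finite list of pairs -/
def PreT.lnorm (l : List (E × F)) : ℝ := (l.map fun p => ‖p.1‖ * ‖p.2‖).sum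

/-- the projective norm: the infimum of `∑ ‖x_i‖ ‖y_i‖` over all finite representations
`z = ∑ x_i ⊗ y_i` -/
def projNorm (z : PreT E F) : ℝ :=
  sInf {r : ℝ | ∃ l : List (E × F), PreT.lsum l = z ∧ PreT.lnorm l = r}

theorem PreT.lnorm_nonneg (l : List (E × F)) : 0 ≤ PreT.lnorm l := by
  unfold PreT.lnorm
  apply List.sum_nonneg
  intro r hr
  simp only [List.mem_map] at hr
  obtain ⟨p, -, rfl⟩ := hr
  positivity

theorem PreT.exists_list (z : PreT E F) : ∃ l : List (E × F), PreT.lsum l = z := by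
  induction z using TensorProduct.induction_on with
  | zero => exact ⟨[], rfl⟩
  | tmul x y => exact ⟨[(x, y)], by simp [PreT.lsum, PreT.t]⟩
  | add a b ha hb =>
    obtain ⟨l, rfl⟩ := ha
    obtain ⟨l', rfl⟩ := hb
    refine ⟨l ++ l', ?_⟩
    simp only [PreT.lsum, List.map_append, List.sum_append]
    rfl

theorem projNorm_bdd (z : PreT E F) :
    BddBelow {r : ℝ | ∃ l : List (E × F), PreT.lsum l = z ∧ PreT.lnorm l = r} :=
  ⟨0, by rintro r ⟨l, -, rfl⟩; exact PreT.lnorm_nonneg l⟩

theorem projNorm_nonneg (z : PreT E F) : 0 ≤ projNorm z := by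
  refine Real.sInf_nonneg ?_
  rintro r ⟨l, -, rfl⟩
  exact PreT.lnorm_nonneg l

theorem projNorm_le {z : PreT E F} {l : List (E × F)} (h : PreT.lsum l = z) :
    projNorm z ≤ PreT.lnorm l :=
  csInf_le (projNorm_bdd z) ⟨l, h, rfl⟩

theorem exists_lt_of_projNorm_lt {z : PreT E F} {r : ℝ} (h : projNorm z < r) :
    ∃ l : List (E × F), PreT.lsum l = z ∧ PreT.lnorm l < r := by
  have hne : {r : ℝ | ∃ l : List (E × F), PreT.lsum l = z ∧ PreT.lnorm l = r}.Nonempty := by
    obtain ⟨l, hl⟩ := PreT.exists_list z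
    exact ⟨_, l, hl, rfl⟩
  obtain ⟨a, ⟨l, hl, rfl⟩, ha⟩ := exists_lt_of_csInf_lt hne h
  exact ⟨l, hl, ha⟩

theorem projNorm_zero : projNorm (0 : PreT E F) = 0 := by
  refine le_antisymm ?_ (projNorm_nonneg _)
  have := projNorm_le (E := E) (F := F) (z := 0) (l := []) rfl
  simpa [PreT.lnorm] using this

theorem projNorm_add_le (z w : PreT E F) : projNorm (z + w) ≤ projNorm z + projNorm w := by
  refine le_of_forall_pos_le_add fun ε hε => ?_
  obtain ⟨l, hl, hl'⟩ := exists_lt_of_projNorm_lt (z := z) (r := projNorm z + ε / 2) (by linarith)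
  obtain ⟨m, hm, hm'⟩ := exists_lt_of_projNorm_lt (z := w) (r := projNorm w + ε / 2) (by linarith)
  have h1 : PreT.lsum (l ++ m) = z + w := by
    rw [← hl, ← hm]; simp [PreT.lsum, List.map_append, List.sum_append]
  have h2 : PreT.lnorm (l ++ m) = PreT.lnorm l + PreT.lnorm m := by
    simp [PreT.lnorm, List.map_append, List.sum_append]
  have := projNorm_le h1
  linarith

theorem PreT.t_smul (c : ℂ) (x : E) (y : F) : PreT.t (c • x) y = c • PreT.t x y := by
  change ((c • x) ⊗ₜ[ℂ] y : E ⊗[ℂ] F) = c • (x ⊗ₜ[ℂ] y)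
  rw [TensorProduct.smul_tmul']

theorem projNorm_smul_le (c : ℂ) (z : PreT E F) : projNorm (c • z) ≤ ‖c‖ * projNorm z := by
  refine le_of_forall_pos_le_add fun ε hε => ?_
  obtain ⟨l, hl, hl'⟩ := exists_lt_of_projNorm_lt (z := z) (r := projNorm z + ε / (‖c‖ + 1))
    (by have : 0 < ε / (‖c‖ + 1) := by positivity
        linarith)
  have h1 : PreT.lsum (l.map fun p => (c • p.1, p.2)) = c • z := by
    rw [← hl]
    simp only [PreT.lsum, List.map_map, List.smul_sum, Function.comp_def, PreT.t_smul]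
  have h2 : PreT.lnorm (l.map fun p => (c • p.1, p.2)) = ‖c‖ * PreT.lnorm l := by
    simp only [PreT.lnorm, List.map_map, ← List.sum_map_mul_left]
    congr 1
    apply List.map_congr_left
    intro p _
    simp [norm_smul, mul_assoc]
  have h3 := projNorm_le h1
  rw [h2] at h3
  have h4 : ‖c‖ * (ε / (‖c‖ + 1)) ≤ ε := by
    rw [mul_div_assoc', div_le_iff₀ (by positivity)]
    nlinarith [norm_nonneg c]
  nlinarith [norm_nonneg c]

theorem projNorm_smul (c : ℂ) (z : PreT E F) : projNorm (c • z) = ‖c‖ * projNorm z := by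
  refine le_antisymm (projNorm_smul_le c z) ?_
  by_cases hc : c = 0
  · simp [hc, projNorm_zero]
  · have := projNorm_smul_le c⁻¹ (c • z)
    rw [smul_smul, inv_mul_cancel₀ hc, one_smul, norm_inv] at this
    have hc' : 0 < ‖c‖ := norm_pos_iff.2 hc
    calc ‖c‖ * projNorm z ≤ ‖c‖ * (‖c‖⁻¹ * projNorm (c • z)) := by gcongr
      _ = projNorm (c • z) := by field_simp

variable (E F) in
/-- the projective seminorm on the algebraic tensor product -/
def projSeminorm : Seminorm ℂ (PreT E F) :=
  Seminorm.of projNorm projNorm_add_le projNorm_smul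

instance : SeminormedAddCommGroup (PreT E F) :=
  (projSeminorm E F).toAddGroupSeminorm.toSeminormedAddCommGroup

theorem PreT.norm_def (z : PreT E F) : ‖z‖ = projNorm z := rfl

instance : NormedSpace ℂ (PreT E F) where
  norm_smul_le c z := (projNorm_smul c z).le

end

/-- the projective tensor product `E ⊗̂ F`: the completion of `E ⊗ F` in the projective norm -/
abbrev PT (E F : Type) [NormedAddCommGroup E] [NormedSpace ℂ E] [NormedAddCommGroup F]
    [NormedSpace ℂ F] : Type := UniformSpace.Completion (PreT E F)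

end Pool.Agent.Lib.BF3
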