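import Mathlib
import Pool.Agent.Lib.BF3.PT

/-!
# The universal property of the projective tensor product
-/

open scoped TensorProduct

noncomputable section

namespace Pool.Agent.Lib.BF3

variable {E F G E' F' E'' F'' : Type}
  [NormedAddCommGroup E] [NormedSpace ℂ E] [NormedAddCommGroup F] [NormedSpace ℂ F]
  [NormedAddCommGroup G] [NormedSpace ℂ G] [CompleteSpace G]
  [NormedAddCommGroup E'] [NormedSpace ℂ E'] [NormedAddCommGroup F'] [NormedSpace ℂ F']
  [NormedAddCommGroup E''] [NormedSpace ℂ E''] [NormedAddCommGroup F''] [NormedSpace ℂ F'']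

/-- the elementary tensor `x ⊗ y` in the projective tensor product -/
def pt (x : E) (y : F) : PT E F := ((PreT.t x y : PreT E F) : PT E F)

theorem PreT.t_add (x x' : E) (y : F) : PreT.t (x + x') y = PreT.t x y + PreT.t x' y :=
  TensorProduct.add_tmul x x' y

theorem PreT.t_add' (x : E) (y y' : F) : PreT.t x (y + y') = PreT.t x y + PreT.t x y' :=
  TensorProduct.tmul_add x y y'

theorem PreT.t_smul' (c : ℂ) (x : E) (y : F) : PreT.t x (c • y) = c • PreT.t x y :=
  TensorProduct.tmul_smul c x y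

theorem PreT.norm_t_le (x : E) (y : F) : ‖PreT.t x y‖ ≤ ‖x‖ * ‖y‖ := by
  have := projNorm_le (l := [(x, y)]) (z := PreT.t x y) (by simp [PreT.lsum])
  rw [PreT.norm_def]
  simpa [PreT.lnorm] using this

theorem norm_pt_le (x : E) (y : F) : ‖pt x y‖ ≤ ‖x‖ * ‖y‖ := by
  rw [pt, UniformSpace.Completion.norm_coe]
  exact PreT.norm_t_le x y

@[simp] theorem pt_add_left (x x' : E) (y : F) : pt (x + x') y = pt x y + pt x' y := by
  simp only [pt, PreT.t_add, UniformSpace.Completion.coe_add]

@[simp] theorem pt_add_right (x : E) (y y' : F) : pt x (y + y') = pt x y + pt x y' := by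
  simp only [pt, PreT.t_add', UniformSpace.Completion.coe_add]

@[simp] theorem pt_smul_left (c : ℂ) (x : E) (y : F) : pt (c • x) y = c • pt x y := by
  simp only [pt, PreT.t_smul, UniformSpace.Completion.coe_smul]

@[simp] theorem pt_smul_right (c : ℂ) (x : E) (y : F) : pt x (c • y) = c • pt x y := by
  simp only [pt, PreT.t_smul', UniformSpace.Completion.coe_smul]

/-- the canonical bilinear map `E × F → E ⊗̂ F` -/
def ptL (E F : Type) [NormedAddCommGroup E] [NormedSpace ℂ E] [NormedAddCommGroup F]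
    [NormedSpace ℂ F] : E →L[ℂ] F →L[ℂ] PT E F :=
  LinearMap.mkContinuous₂
    (LinearMap.mk₂ ℂ (fun (x : E) (y : F) => pt x y) pt_add_left pt_smul_left pt_add_right
      pt_smul_right) 1 (by
      intro x y
      rw [one_mul]
      exact norm_pt_le x y)

@[simp] theorem ptL_apply (x : E) (y : F) : ptL E F x y = pt x y := rfl

@[simp] theorem pt_zero_left (y : F) : pt (0 : E) y = 0 := by
  rw [← ptL_apply, map_zero]; rfl

@[simp] theorem pt_zero_right (x : E) : pt x (0 : F) = 0 := by
  rw [← ptL_apply, map_zero]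

@[simp] theorem pt_neg_left (x : E) (y : F) : pt (-x) y = - pt x y := by
  rw [← ptL_apply, ← ptL_apply, map_neg]; rfl

@[simp] theorem pt_neg_right (x : E) (y : F) : pt x (-y) = - pt x y := by
  rw [← ptL_apply, ← ptL_apply, map_neg]

@[simp] theorem pt_sub_left (x x' : E) (y : F) : pt (x - x') y = pt x y - pt x' y := by
  rw [sub_eq_add_neg, pt_add_left, pt_neg_left, sub_eq_add_neg]

@[simp] theorem pt_sub_right (x : E) (y y' : F) : pt x (y - y') = pt x y - pt x y' := by
  rw [sub_eq_add_neg, pt_add_right, pt_neg_right, sub_eq_add_neg]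

/-- the linear map on the algebraic tensor product given by a bounded bilinear map -/
def preLift (β : E →L[ℂ] F →L[ℂ] G) : PreT E F →ₗ[ℂ] G :=
  TensorProduct.lift (LinearMap.mk₂ ℂ (fun x y => β x y) (by simp) (by simp) (by simp) (by simp))

theorem preLift_t (β : E →L[ℂ] F →L[ℂ] G) (x : E) (y : F) : preLift β (PreT.t x y) = β x y := by
  change TensorProduct.lift _ (x ⊗ₜ[ℂ] y) = _
  rw [TensorProduct.lift.tmul]
  rfl

theorem norm_preLift_le (β : E →L[ℂ] F →L[ℂ] G) (C : ℝ)
    (h : ∀ x y, ‖β x y‖ ≤ C * (‖x‖ * ‖y‖)) (hC : 0 ≤ C) (z : PreT E F) :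
    ‖preLift β z‖ ≤ C * ‖z‖ := by
  have key : ∀ l : List (E × F), ‖preLift β (PreT.lsum l)‖ ≤ C * PreT.lnorm l := by
    intro l
    induction l with
    | nil => simp [PreT.lsum, PreT.lnorm]
    | cons p l ih =>
      have e1 : PreT.lsum (p :: l) = PreT.t p.1 p.2 + PreT.lsum l := by simp [PreT.lsum]
      have e2 : PreT.lnorm (p :: l) = ‖p.1‖ * ‖p.2‖ + PreT.lnorm l := by simp [PreT.lnorm]
      rw [e1, e2, map_add, preLift_t, mul_add]
      exact (norm_add_le _ _).trans (add_le_add (h _ _) ih)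
  rcases eq_or_lt_of_le hC with hC0 | hC0
  · obtain ⟨l, rfl⟩ := PreT.exists_list z
    have := key l
    rw [← hC0, zero_mul] at this
    rw [← hC0, zero_mul]; exact this
  · refine le_of_forall_pos_le_add fun ε hε => ?_
    obtain ⟨l, rfl, hl⟩ := exists_lt_of_projNorm_lt (z := z) (r := projNorm z + ε / C)
      (by have : 0 < ε / C := by positivity
          linarith)
    refine (key l).trans ?_
    have : C * PreT.lnorm l ≤ C * (projNorm (PreT.lsum l) + ε / C) := by gcongr
    rw [mul_add, mul_div_cancel₀ _ hC0.ne'] at this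
    exact this

theorem dense_toCompl : DenseRange (UniformSpace.Completion.toComplₗᵢ (𝕜 := ℂ)
    (E := PreT E F)).toLinearMap := UniformSpace.Completion.denseRange_coe

/-- the bounded linear map on `E ⊗̂ F` given by a bounded bilinear map -/
def lift (β : E →L[ℂ] F →L[ℂ] G) : PT E F →L[ℂ] G :=
  LinearMap.extendOfNorm (preLift β) (UniformSpace.Completion.toComplₗᵢ (𝕜 := ℂ)
    (E := PreT E F)).toLinearMap

theorem lift_coe (β : E →L[ℂ] F →L[ℂ] G) (z : PreT E F) : lift β (z : PT E F) = preLift β z := by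
  refine LinearMap.extendOfNorm_eq (dense_toCompl (E := E) (F := F)) ⟨‖β‖, fun w => ?_⟩ z
  simp only [LinearIsometry.coe_toLinearMap, UniformSpace.Completion.coe_toComplₗᵢ,
    UniformSpace.Completion.norm_coe]
  refine norm_preLift_le β ‖β‖ (fun x y => ?_) (norm_nonneg β) w
  rw [← mul_assoc]
  exact β.le_opNorm₂ x y

@[simp] theorem lift_pt (β : E →L[ℂ] F →L[ℂ] G) (x : E) (y : F) : lift β (pt x y) = β x y := by
  rw [pt, lift_coe, preLift_t]

/-- two bounded linear maps on `E ⊗̂ F` that agree on the elementary tensors are equal -/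
theorem PT.ext_of {H : Type} [NormedAddCommGroup H] [NormedSpace ℂ H] {f g : PT E F →L[ℂ] H}
    (h : ∀ x y, f (pt x y) = g (pt x y)) : f = g := by
  apply ContinuousLinearMap.coeFn_injective
  refine UniformSpace.Completion.ext f.continuous g.continuous fun z => ?_
  obtain ⟨l, rfl⟩ := PreT.exists_list z
  induction l with
  | nil =>
    have : ((PreT.lsum ([] : List (E × F)) : PreT E F) : PT E F) = 0 := by
      simp only [PreT.lsum, List.map_nil, List.sum_nil]
      exact UniformSpace.Completion.coe_zero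
    rw [this, map_zero, map_zero]
  | cons p l ih =>
    have : ((PreT.lsum (p :: l) : PreT E F) : PT E F)
        = pt p.1 p.2 + ((PreT.lsum l : PreT E F) : PT E F) := by
      simp only [PreT.lsum, List.map_cons, List.sum_cons, pt]
      exact UniformSpace.Completion.coe_add _ _
    rw [this, map_add, map_add, h, ih]

theorem PT.apply_eq_of {H : Type} [NormedAddCommGroup H] [NormedSpace ℂ H]
    {f g : PT E F →L[ℂ] H} (h : ∀ x y, f (pt x y) = g (pt x y)) (z : PT E F) : f z = g z := by
  rw [PT.ext_of h]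

theorem norm_lift_apply_le (β : E →L[ℂ] F →L[ℂ] G) (C : ℝ)
    (h : ∀ x y, ‖β x y‖ ≤ C * (‖x‖ * ‖y‖)) (hC : 0 ≤ C) (z : PT E F) :
    ‖lift β z‖ ≤ C * ‖z‖ := by
  induction z using UniformSpace.Completion.induction_on with
  | hp => exact isClosed_le (by fun_prop) (by fun_prop)
  | ih a =>
    rw [lift_coe, UniformSpace.Completion.norm_coe]
    exact norm_preLift_le β C h hC a

theorem norm_lift_le (β : E →L[ℂ] F →L[ℂ] G) : ‖lift β‖ ≤ ‖β‖ :=
  ContinuousLinearMap.opNorm_le_bound _ (norm_nonneg β) fun z =>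
    norm_lift_apply_le β ‖β‖ (fun x y => by rw [← mul_assoc]; exact β.le_opNorm₂ x y)
      (norm_nonneg β) z

/-- the tensor product of two bounded linear maps -/
def ptMap (f : E →L[ℂ] E') (g : F →L[ℂ] F') : PT E F →L[ℂ] PT E' F' :=
  lift ((ptL E' F').bilinearComp f g)

@[simp] theorem ptMap_pt (f : E →L[ℂ] E') (g : F →L[ℂ] F') (x : E) (y : F) :
    ptMap f g (pt x y) = pt (f x) (g y) := by
  simp [ptMap]

theorem norm_ptMap_le (f : E →L[ℂ] E') (g : F →L[ℂ] F') (z : PT E F) :
    ‖ptMap f g z‖ ≤ ‖f‖ * ‖g‖ * ‖z‖ := by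
  refine norm_lift_apply_le _ _ (fun x y => ?_) (by positivity) z
  simp only [ContinuousLinearMap.bilinearComp_apply, ptL_apply]
  calc ‖pt (f x) (g y)‖ ≤ ‖f x‖ * ‖g y‖ := norm_pt_le _ _
    _ ≤ (‖f‖ * ‖x‖) * (‖g‖ * ‖y‖) := by gcongr <;> exact ContinuousLinearMap.le_opNorm _ _
    _ = _ := by ring

theorem ptMap_comp (f : E →L[ℂ] E') (g : F →L[ℂ] F') (f' : E' →L[ℂ] E'') (g' : F' →L[ℂ] F'')
    (z : PT E F) : ptMap f' g' (ptMap f g z) = ptMap (f'.comp f) (g'.comp g) z := by
  refine PT.apply_eq_of (f := (ptMap f' g').comp (ptMap f g)) (fun x y => ?_) z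
  simp

theorem ptMap_id (z : PT E F) :
    ptMap (ContinuousLinearMap.id ℂ E) (ContinuousLinearMap.id ℂ F) z = z := by
  refine PT.apply_eq_of (g := ContinuousLinearMap.id ℂ _) (fun x y => ?_) z
  simp

theorem ptMap_add_left (f f' : E →L[ℂ] E') (g : F →L[ℂ] F') (z : PT E F) :
    ptMap (f + f') g z = ptMap f g z + ptMap f' g z := by
  refine PT.apply_eq_of (f := ptMap (f + f') g) (g := ptMap f g + ptMap f' g) (fun x y => ?_) z
  simp

theorem ptMap_add_right (f : E →L[ℂ] E') (g g' : F →L[ℂ] F') (z : PT E F) :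
    ptMap f (g + g') z = ptMap f g z + ptMap f g' z := by
  refine PT.apply_eq_of (f := ptMap f (g + g')) (g := ptMap f g + ptMap f g') (fun x y => ?_) z
  simp

/-- two bounded trilinear-type identities: extensionality for `(E ⊗̂ F) ⊗̂ G` -/
theorem PT.ext₃_of {H K : Type} [NormedAddCommGroup H] [NormedSpace ℂ H] [NormedAddCommGroup K]
    [NormedSpace ℂ K] {f g : PT (PT E F) H →L[ℂ] K}
    (h : ∀ x y z, f (pt (pt x y) z) = g (pt (pt x y) z)) : f = g := by
  refine PT.ext_of fun w z => ?_
  have : (f.comp ((ptL (PT E F) H).flip z)) = (g.comp ((ptL (PT E F) H).flip z)) :=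
    PT.ext_of fun x y => by simpa using h x y z
  simpa using congrArg (fun T => T w) this

end Pool.Agent.Lib.BF3
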