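import Mathlib
import Pool.Agent.Lib.BF3.PTU

/-!
# The projective tensor product of two commutative unital Banach algebras
-/

open scoped TensorProduct

noncomputable section

namespace Pool.Agent.Lib.BF3

variable (A B : Type) [NormedCommRing A] [NormedAlgebra ℂ A] [NormedCommRing B]
  [NormedAlgebra ℂ B]

/-- the ring structure of the algebraic tensor product, `(a ⊗ b)(a' ⊗ b') = aa' ⊗ bb'` -/
instance PreT.commRing : CommRing (PreT A B) :=
  inferInstanceAs (CommRing (A ⊗[ℂ] B))

/-- the algebra structure of the algebraic tensor product -/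
instance PreT.algebra : Algebra ℂ (PreT A B) :=
  inferInstanceAs (Algebra ℂ (A ⊗[ℂ] B))

variable {A B}

theorem PreT.t_mul (a a' : A) (b b' : B) :
    PreT.t a b * PreT.t a' b' = PreT.t (a * a') (b * b') :=
  Algebra.TensorProduct.tmul_mul_tmul a a' b b'

theorem PreT.t_mul_lsum (a : A) (b : B) (l : List (A × B)) :
    PreT.t a b * PreT.lsum l = PreT.lsum (l.map fun p => (a * p.1, b * p.2)) := by
  induction l with
  | nil => simp [PreT.lsum]
  | cons p l ih =>
    have e1 : PreT.lsum (p :: l) = PreT.t p.1 p.2 + PreT.lsum l := by simp [PreT.lsum]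
    have e2 : PreT.lsum ((p :: l).map fun p => (a * p.1, b * p.2))
        = PreT.t (a * p.1) (b * p.2) + PreT.lsum (l.map fun p => (a * p.1, b * p.2)) := by
      simp [PreT.lsum]
    rw [e1, e2, mul_add, ih, PreT.t_mul]

theorem PreT.norm_t_mul_lsum (a : A) (b : B) (l : List (A × B)) :
    ‖PreT.t a b * PreT.lsum l‖ ≤ ‖a‖ * ‖b‖ * PreT.lnorm l := by
  rw [PreT.t_mul_lsum, PreT.norm_def]
  refine (projNorm_le rfl).trans ?_
  simp only [PreT.lnorm, List.map_map, ← List.sum_map_mul_left]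
  refine List.sum_le_sum fun p _ => ?_
  simp only [Function.comp_apply]
  calc ‖a * p.1‖ * ‖b * p.2‖ ≤ (‖a‖ * ‖p.1‖) * (‖b‖ * ‖p.2‖) := by
        gcongr <;> exact norm_mul_le _ _
    _ = _ := by ring

theorem PreT.norm_lsum_mul_lsum (l m : List (A × B)) :
    ‖PreT.lsum l * PreT.lsum m‖ ≤ PreT.lnorm l * PreT.lnorm m := by
  induction l with
  | nil => simp [PreT.lsum, PreT.lnorm]
  | cons p l ih =>
    have e1 : PreT.lsum (p :: l) = PreT.t p.1 p.2 + PreT.lsum l := by simp [PreT.lsum]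
    have e2 : PreT.lnorm (p :: l) = ‖p.1‖ * ‖p.2‖ + PreT.lnorm l := by simp [PreT.lnorm]
    rw [e1, e2, add_mul, add_mul]
    exact (norm_add_le _ _).trans (add_le_add (PreT.norm_t_mul_lsum _ _ _) ih)

theorem PreT.norm_mul_le' (z w : PreT A B) : ‖z * w‖ ≤ ‖z‖ * ‖w‖ := by
  refine le_of_forall_pos_le_add fun ε hε => ?_
  set δ := min 1 (ε / (‖z‖ + ‖w‖ + 2)) with hδ
  have h0 : 0 < ‖z‖ + ‖w‖ + 2 := by positivity
  have hδ0 : 0 < δ := lt_min one_pos (by positivity)
  obtain ⟨l, hl, hl'⟩ := exists_lt_of_projNorm_lt (z := z) (r := ‖z‖ + δ)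
    (by rw [PreT.norm_def]; linarith)
  obtain ⟨m, hm, hm'⟩ := exists_lt_of_projNorm_lt (z := w) (r := ‖w‖ + δ)
    (by rw [PreT.norm_def]; linarith)
  have h1 : ‖z * w‖ ≤ PreT.lnorm l * PreT.lnorm m := by
    rw [← hl, ← hm]; exact PreT.norm_lsum_mul_lsum l m
  have h2 : PreT.lnorm l * PreT.lnorm m ≤ (‖z‖ + δ) * (‖w‖ + δ) := by
    gcongr
    · exact PreT.lnorm_nonneg _
  have h3 : δ ≤ 1 := min_le_left _ _
  have h4 : δ * (‖z‖ + ‖w‖ + 2) ≤ ε := by
    have := min_le_right 1 (ε / (‖z‖ + ‖w‖ + 2))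
    rw [← hδ] at this
    calc δ * (‖z‖ + ‖w‖ + 2) ≤ ε / (‖z‖ + ‖w‖ + 2) * (‖z‖ + ‖w‖ + 2) := by gcongr
      _ = ε := by field_simp
  nlinarith [norm_nonneg z, norm_nonneg w]

instance PreT.seminormedCommRing : SeminormedCommRing (PreT A B) :=
  { (inferInstance : SeminormedAddCommGroup (PreT A B)), PreT.commRing A B with
    norm_mul_le := PreT.norm_mul_le' }

instance PreT.normedAlgebra : NormedAlgebra ℂ (PreT A B) :=
  { PreT.algebra A B with
    norm_smul_le := fun c z => norm_smul_le c z }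

variable (A B)

/-- The Banach algebra `A ⊗̂ B`, with the product `(a ⊗ b)(a' ⊗ b') = aa' ⊗ bb'`: the projective
tensor product `PT A B` with its algebra structure. -/
def PTA : Type := PT A B

instance : NormedCommRing (PTA A B) := inferInstanceAs (NormedCommRing (PT A B))
instance : NormedAlgebra ℂ (PTA A B) := inferInstanceAs (NormedAlgebra ℂ (PT A B))
instance : CompleteSpace (PTA A B) := inferInstanceAs (CompleteSpace (PT A B))

variable {A B}
variable {G : Type} [NormedAddCommGroup G] [NormedSpace ℂ G] [CompleteSpace G]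

/-- the elementary tensor `a ⊗ b` in the Banach algebra `A ⊗̂ B` -/
def ta (a : A) (b : B) : PTA A B := (pt a b : PT A B)

theorem norm_ta_le (a : A) (b : B) : ‖ta a b‖ ≤ ‖a‖ * ‖b‖ := norm_pt_le a b

theorem ta_mul_ta (a a' : A) (b b' : B) : ta a b * ta a' b' = ta (a * a') (b * b') := by
  simp only [ta, pt, ← PreT.t_mul]
  exact (UniformSpace.Completion.coe_mul _ _).symm

theorem ta_one_one : ta (1 : A) (1 : B) = 1 := rfl

variable (A B) in
/-- the canonical bilinear map `A × B → A ⊗̂ B` -/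
def taL : A →L[ℂ] B →L[ℂ] PTA A B :=
  LinearMap.mkContinuous₂
    (LinearMap.mk₂ ℂ (fun (x : A) (y : B) => ta x y) pt_add_left pt_smul_left pt_add_right
      pt_smul_right) 1 (by
      intro x y
      rw [one_mul]
      exact norm_pt_le x y)

@[simp] theorem taL_apply (x : A) (y : B) : taL A B x y = ta x y := rfl

variable (A B) in
/-- the identity map from the Banach space `A ⊗̂ B` to the Banach algebra `A ⊗̂ B` -/
def toPTA : PT A B →L[ℂ] PTA A B := lift (taL A B)

@[simp] theorem toPTA_pt (x : A) (y : B) : toPTA A B (pt x y) = ta x y := lift_pt _ _ _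

/-- the identity map from the Banach algebra `A ⊗̂ B` to the Banach space `A ⊗̂ B` -/
def ofPTA : PTA A B →L[ℂ] PT A B where
  toFun := fun z => z
  map_add' := fun _ _ => rfl
  map_smul' := fun _ _ => rfl
  cont := continuous_id

@[simp] theorem ofPTA_ta (x : A) (y : B) : ofPTA (ta x y) = pt x y := rfl

/-- the bounded linear map on `A ⊗̂ B` given by a bounded bilinear map -/
def liftA (β : A →L[ℂ] B →L[ℂ] G) : PTA A B →L[ℂ] G := (lift β).comp ofPTA

@[simp] theorem liftA_ta (β : A →L[ℂ] B →L[ℂ] G) (x : A) (y : B) : liftA β (ta x y) = β x y := by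
  simp [liftA]

theorem norm_liftA_apply_le (β : A →L[ℂ] B →L[ℂ] G) (C : ℝ)
    (h : ∀ x y, ‖β x y‖ ≤ C * (‖x‖ * ‖y‖)) (hC : 0 ≤ C) (z : PTA A B) :
    ‖liftA β z‖ ≤ C * ‖z‖ := norm_lift_apply_le β C h hC z

/-- two bounded linear maps on `A ⊗̂ B` that agree on the elementary tensors are equal -/
theorem PTA.ext_of {H : Type} [NormedAddCommGroup H] [NormedSpace ℂ H] {f g : PTA A B →L[ℂ] H}
    (h : ∀ x y, f (ta x y) = g (ta x y)) : f = g := by
  have h1 : f.comp (toPTA A B) = g.comp (toPTA A B) := PT.ext_of fun x y => by simpa using h x y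
  have h2 : (toPTA A B).comp ofPTA = ContinuousLinearMap.id ℂ (PTA A B) := by
    have : (ofPTA).comp (toPTA A B) = ContinuousLinearMap.id ℂ (PT A B) :=
      PT.ext_of fun x y => by simp
    ext z
    exact congrArg (fun T => T z) this
  calc f = (f.comp (toPTA A B)).comp ofPTA := by
        rw [ContinuousLinearMap.comp_assoc, h2, ContinuousLinearMap.comp_id]
    _ = g := by rw [h1, ContinuousLinearMap.comp_assoc, h2, ContinuousLinearMap.comp_id]

theorem PTA.apply_eq_of {H : Type} [NormedAddCommGroup H] [NormedSpace ℂ H]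
    {f g : PTA A B →L[ℂ] H} (h : ∀ x y, f (ta x y) = g (ta x y)) (z : PTA A B) : f z = g z := by
  rw [PTA.ext_of h]

end Pool.Agent.Lib.BF3
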