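import Mathlib
import Pool.Agent.Lib.BF3.PTRing

/-!
# Banach modules, projective modules, homological dimension
-/

open scoped TensorProduct

noncomputable section

namespace Pool.Agent.Lib.BF3

/-- A (left) Banach module over the commutative unital Banach algebra `B`: a complex Banach space
with a bounded bilinear unital associative action of `B`. -/
structure BMod (B : Type) [NormedCommRing B] [NormedAlgebra ℂ B] where
  /-- the underlying Banach space -/
  carrier : Type
  [grp : NormedAddCommGroup carrier]
  [nsp : NormedSpace ℂ carrier]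
  [cpl : CompleteSpace carrier]
  /-- the action -/
  act : B →L[ℂ] carrier →L[ℂ] carrier
  act_one : ∀ x, act 1 x = x
  act_mul : ∀ a b x, act (a * b) x = act a (act b x)

attribute [instance] BMod.grp BMod.nsp BMod.cpl

section

variable {B : Type} [NormedCommRing B] [NormedAlgebra ℂ B]

instance : CoeSort (BMod B) Type := ⟨BMod.carrier⟩

/-- `f` is a morphism of Banach modules -/
def IsHom (X Y : BMod B) (f : X →L[ℂ] Y) : Prop := ∀ b x, f (X.act b x) = Y.act b (f x)

/-- `f ↦ f ⊗ 1`, as a bounded linear map -/
def ptMapL (E E' F : Type) [NormedAddCommGroup E] [NormedSpace ℂ E] [NormedAddCommGroup F]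
    [NormedSpace ℂ F] [NormedAddCommGroup E'] [NormedSpace ℂ E'] :
    (E →L[ℂ] E') →L[ℂ] PT E F →L[ℂ] PT E' F :=
  LinearMap.mkContinuous
    { toFun := fun f => ptMap f (ContinuousLinearMap.id ℂ F)
      map_add' := fun f g => by
        ext z
        exact ptMap_add_left f g _ z
      map_smul' := fun c f => by
        apply PT.ext_of
        intro x y
        simp } 1 (by
    intro f
    refine ContinuousLinearMap.opNorm_le_bound _ (by positivity) fun z => ?_
    refine (norm_ptMap_le f (ContinuousLinearMap.id ℂ F) z).trans ?_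
    have := ContinuousLinearMap.norm_id_le (𝕜 := ℂ) (E := F)
    calc ‖f‖ * ‖ContinuousLinearMap.id ℂ F‖ * ‖z‖ ≤ ‖f‖ * 1 * ‖z‖ := by gcongr
      _ = 1 * ‖f‖ * ‖z‖ := by ring)

@[simp] theorem ptMapL_apply_pt {E E' F : Type} [NormedAddCommGroup E] [NormedSpace ℂ E]
    [NormedAddCommGroup F] [NormedSpace ℂ F] [NormedAddCommGroup E'] [NormedSpace ℂ E']
    (f : E →L[ℂ] E') (x : E) (y : F) : ptMapL E E' F f (pt x y) = pt (f x) y := by
  change ptMap f (ContinuousLinearMap.id ℂ F) (pt x y) = _
  simp

variable (B) in
/-- the free Banach module `B ⊗̂ E` over a Banach space `E`, `b · (b' ⊗ x) = bb' ⊗ x` -/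
def freeM (E : Type) [NormedAddCommGroup E] [NormedSpace ℂ E] : BMod B where
  carrier := PT B E
  act := (ptMapL B B E).comp (ContinuousLinearMap.mul ℂ B)
  act_one x := by
    refine PT.apply_eq_of (f := ptMapL B B E (ContinuousLinearMap.mul ℂ B 1))
      (g := ContinuousLinearMap.id ℂ _) (fun b y => ?_) x
    simp
  act_mul a b x := by
    refine PT.apply_eq_of (f := ptMapL B B E (ContinuousLinearMap.mul ℂ B (a * b)))
      (g := (ptMapL B B E (ContinuousLinearMap.mul ℂ B a)).comp
        (ptMapL B B E (ContinuousLinearMap.mul ℂ B b))) (fun c y => ?_) x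
    simp [mul_assoc]

@[simp] theorem freeM_act_pt (E : Type) [NormedAddCommGroup E] [NormedSpace ℂ E] (a b : B)
    (x : E) : (freeM B E).act a (pt b x : PT B E) = (pt (a * b) x : PT B E) :=
  ptMapL_apply_pt _ _ _

/-- the action map `B ⊗̂ X → X`, `b ⊗ x ↦ b x` -/
def actMap (X : BMod B) : PT B X →L[ℂ] X := lift X.act

@[simp] theorem actMap_pt (X : BMod B) (b : B) (x : X) : actMap X (pt b x) = X.act b x :=
  lift_pt _ _ _

/-- A Banach module `X` is (relatively) projective if the action map `B ⊗̂ X → X` has a right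
inverse that is a morphism of Banach modules. -/
def Projective (X : BMod B) : Prop :=
  ∃ ρ : X →L[ℂ] PT B X, IsHom X (freeM B X) ρ ∧ ∀ x, actMap X (ρ x) = x

/-- An admissible resolution `0 ← X ← P 0 ← ... ← P n ← 0` of the Banach module `X` by projective
Banach modules: `ε` and `d i` are morphisms, and the complex has a contracting homotopy `σ`,
`s i` consisting of bounded linear maps. -/
structure Res (X : BMod B) (n : ℕ) where
  /-- the modules -/
  P : ℕ → BMod B
  proj : ∀ i, Projective (P i)
  zero : ∀ i, n < i → ∀ x : P i, x = 0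
  /-- the augmentation -/
  ε : P 0 →L[ℂ] X
  /-- the differentials -/
  d : ∀ i, P (i + 1) →L[ℂ] P i
  hε : IsHom (P 0) X ε
  hd : ∀ i, IsHom (P (i + 1)) (P i) (d i)
  εd : ∀ x, ε (d 0 x) = 0
  dd : ∀ i x, d i (d (i + 1) x) = 0
  /-- the contracting homotopy, first part -/
  σ : X →L[ℂ] P 0
  /-- the contracting homotopy -/
  s : ∀ i, P i →L[ℂ] P (i + 1)
  hσ : ∀ x, ε (σ x) = x
  h0 : ∀ x, σ (ε x) + d 0 (s 0 x) = x
  hs : ∀ i x, s i (d i x) + d (i + 1) (s (i + 1) x) = x

/-- the homological dimension of a Banach module: the least `n` such that it has an admissible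
projective resolution of length `n`, and `∞` if there is none -/
def dh (X : BMod B) : ℕ∞ := sInf {m : ℕ∞ | ∃ n : ℕ, Nonempty (Res X n) ∧ m = n}

variable (B) in
/-- the bilinear map `(a, b) ↦ (x ↦ a x b)` -/
def mulMul : B →L[ℂ] B →L[ℂ] B →L[ℂ] B :=
  LinearMap.mkContinuous₂ (LinearMap.mk₂ ℂ
    (fun a b => (ContinuousLinearMap.mul ℂ B a).comp ((ContinuousLinearMap.mul ℂ B).flip b))
    (by intros; ext; simp [add_mul])
    (by intros; ext; simp)
    (by intros; ext; simp [mul_add])
    (by intros; ext; simp)) 1 (by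
      intro a b
      refine ContinuousLinearMap.opNorm_le_bound _ (by positivity) fun x => ?_
      simp only [LinearMap.mk₂_apply, ContinuousLinearMap.comp_apply,
        ContinuousLinearMap.flip_apply, ContinuousLinearMap.mul_apply', one_mul]
      calc ‖a * (x * b)‖ ≤ ‖a‖ * ‖x * b‖ := norm_mul_le _ _
        _ ≤ ‖a‖ * (‖x‖ * ‖b‖) := by gcongr; exact norm_mul_le _ _
        _ = ‖a‖ * ‖b‖ * ‖x‖ := by ring)

@[simp] theorem mulMul_apply (a b x : B) : mulMul B a b x = a * (x * b) := rfl

variable (B) in
/-- `B` as a Banach bimodule over itself, that is, as a module over the Banach algebra `B ⊗̂ B`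
(`B` is commutative, so `B ⊗̂ B = B ⊗̂ Bᵒᵖ`): `(a ⊗ b) · x = a x b` -/
def selfBimod [CompleteSpace B] : BMod (PTA B B) where
  carrier := B
  act := liftA (mulMul B)
  act_one x := by
    rw [← ta_one_one, liftA_ta]
    simp
  act_mul z w x := by
    have key : ∀ a b : B, ∀ w : PTA B B, ∀ x : B,
        liftA (mulMul B) (ta a b * w) x = liftA (mulMul B) (ta a b) (liftA (mulMul B) w x) := by
      intro a b w x
      refine PTA.apply_eq_of
        (f := (((liftA (mulMul B)).flip x).comp (ContinuousLinearMap.mul ℂ (PTA B B) (ta a b))))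
        (g := (liftA (mulMul B) (ta a b)).comp ((liftA (mulMul B)).flip x)) (fun c d => ?_) w
      simp only [ContinuousLinearMap.comp_apply, ContinuousLinearMap.mul_apply', ta_mul_ta,
        ContinuousLinearMap.flip_apply, liftA_ta, mulMul_apply]
      ring
    refine PTA.apply_eq_of
      (f := ((liftA (mulMul B)).flip x).comp ((ContinuousLinearMap.mul ℂ (PTA B B)).flip w))
      (g := (liftA (mulMul B)).flip (liftA (mulMul B) w x)) (fun a b => ?_) z
    exact key a b w x

end

section Alg

variable (A : Type) [NonUnitalNormedCommRing A] [NormedSpace ℂ A] [IsScalarTower ℂ A A]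
  [SMulCommClass ℂ A A]

/-- the unitization `A₊ = ℂ ⊕ A` with the norm `|λ| + ‖a‖` -/
abbrev Up : Type := WithLp 1 (Unitization ℂ A)

instance : NormedCommRing (Up A) :=
  { WithLp.instUnitizationNormedRing (𝕜 := ℂ) (A := A) with
    mul_comm := fun x y => by
      apply WithLp.ofLp_injective
      rw [WithLp.unitization_mul, WithLp.unitization_mul, mul_comm] }

/-- the global dimension of the commutative Banach algebra `A`: the supremum of the homological
dimensions of all Banach `A`-modules, that is, of all unital Banach `A₊`-modules -/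
def dg : ℕ∞ := ⨆ X : BMod (Up A), dh X

/-- the bidimension of the commutative Banach algebra `A`: the homological dimension of `A₊` as a
Banach `A`-bimodule, that is, as a module over the Banach algebra `A₊ ⊗̂ A₊ = A₊ ⊗̂ A₊ᵒᵖ` -/
def db [CompleteSpace A] : ℕ∞ := dh (selfBimod (Up A))

/-- A commutative Banach algebra is semisimple iff its characters separate its points. -/
def Semisimple : Prop := ∀ a : A, (∀ φ : A →ₙₐ[ℂ] ℂ, φ a = 0) → a = 0

end Alg

end Pool.Agent.Lib.BF3
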