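import Mathlib
import Pool.Agent.Lib.BF3.Mod

/-!
# Banach modules: basic constructions
-/

noncomputable section

namespace Pool.Agent.Lib.BF3

section

variable {B : Type} [NormedCommRing B] [NormedAlgebra ℂ B]

/-- An admissible short exact sequence `0 → K → P → X → 0`: `j` and `p` are morphisms, `r` and `s`
bounded linear maps that split it. -/
structure SES (K P X : BMod B) where
  j : K →L[ℂ] P
  p : P →L[ℂ] X
  r : P →L[ℂ] K
  s : X →L[ℂ] P
  hj : IsHom K P j
  hp : IsHom P X p
  rj : ∀ x, r (j x) = x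
  ps : ∀ x, p (s x) = x
  jrsp : ∀ x, j (r x) + s (p x) = x

theorem SES.j_inj {K P X : BMod B} (σ : SES K P X) {x y : K} (h : σ.j x = σ.j y) : x = y := by
  rw [← σ.rj x, h, σ.rj]

theorem SES.pj {K P X : BMod B} (σ : SES K P X) (x : K) : σ.p (σ.j x) = 0 := by
  have h := σ.jrsp (σ.j x)
  rw [σ.rj] at h
  have h2 : σ.s (σ.p (σ.j x)) = 0 := by simpa using h
  rw [← σ.ps (σ.p (σ.j x)), h2, map_zero]

theorem SES.rs {K P X : BMod B} (σ : SES K P X) (x : X) : σ.r (σ.s x) = 0 := by
  have h := σ.jrsp (σ.s x)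
  rw [σ.ps] at h
  have h2 : σ.j (σ.r (σ.s x)) = 0 := by simpa using h
  apply σ.j_inj
  rw [h2, map_zero]

/-- `Y` is a retract of `X` -/
structure Retr (Y X : BMod B) where
  i : Y →L[ℂ] X
  q : X →L[ℂ] Y
  hi : IsHom Y X i
  hq : IsHom X Y q
  qi : ∀ y, q (i y) = y

/-- `DhLe n X`: the homological dimension of `X` is at most `n` (recursive form) -/
def DhLe : ℕ → BMod B → Prop
  | 0, X => Projective X
  | n + 1, X => ∃ K P : BMod B, Projective P ∧ Nonempty (SES K P X) ∧ DhLe n K

/-- the direct sum of two Banach modules -/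
def prodM (X Y : BMod B) : BMod B where
  carrier := X × Y
  act := LinearMap.mkContinuous
    { toFun := fun b => (X.act b).prodMap (Y.act b)
      map_add' := fun a b => by
        ext x <;> simp
      map_smul' := fun c b => by
        ext x <;> simp } (max ‖X.act‖ ‖Y.act‖) (by
    intro b
    refine ContinuousLinearMap.opNorm_le_bound _ (by positivity) fun z => ?_
    refine max_le ?_ ?_
    · calc ‖X.act b z.1‖ ≤ ‖X.act‖ * ‖b‖ * ‖z.1‖ := X.act.le_opNorm₂ b z.1
        _ ≤ max ‖X.act‖ ‖Y.act‖ * ‖b‖ * ‖z‖ := by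
            gcongr
            · exact le_max_left _ _
            · exact norm_fst_le z
    · calc ‖Y.act b z.2‖ ≤ ‖Y.act‖ * ‖b‖ * ‖z.2‖ := Y.act.le_opNorm₂ b z.2
        _ ≤ max ‖X.act‖ ‖Y.act‖ * ‖b‖ * ‖z‖ := by
            gcongr
            · exact le_max_right _ _
            · exact norm_snd_le z)
  act_one x := by
    exact Prod.ext (X.act_one x.1) (Y.act_one x.2)
  act_mul a b x := by
    exact Prod.ext (X.act_mul a b x.1) (Y.act_mul a b x.2)

@[simp] theorem prodM_act (X Y : BMod B) (b : B) (z : X × Y) :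
    (prodM X Y).act b z = (X.act b z.1, Y.act b z.2) := rfl

/-- the kernel of a morphism of Banach modules -/
def kerM {X Y : BMod B} (f : X →L[ℂ] Y) (hf : IsHom X Y f) : BMod B where
  carrier := LinearMap.ker (f : X →ₗ[ℂ] Y)
  cpl := (f.isClosed_ker).completeSpace_coe
  act := LinearMap.mkContinuous₂
    (LinearMap.mk₂ ℂ (fun (b : B) (x : LinearMap.ker (f : X →ₗ[ℂ] Y)) =>
      (⟨X.act b x.1, by
        have hx : f x.1 = 0 := x.2
        change f (X.act b x.1) = 0
        rw [hf, hx, map_zero]⟩ : LinearMap.ker (f : X →ₗ[ℂ] Y)))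
      (by intros; ext; simp) (by intros; ext; simp) (by intros; ext; simp) (by intros; ext; simp))
    ‖X.act‖ (by
      intro b x
      exact X.act.le_opNorm₂ b x.1)
  act_one x := by
    apply Subtype.ext
    exact X.act_one x.1
  act_mul a b x := by
    apply Subtype.ext
    exact X.act_mul a b x.1

/-- the inclusion of the kernel -/
def kerι {X Y : BMod B} (f : X →L[ℂ] Y) (hf : IsHom X Y f) : kerM f hf →L[ℂ] X :=
  (LinearMap.ker (f : X →ₗ[ℂ] Y)).subtypeL

theorem isHom_kerι {X Y : BMod B} (f : X →L[ℂ] Y) (hf : IsHom X Y f) :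
    IsHom (kerM f hf) X (kerι f hf) := fun _ _ => rfl

theorem kerι_inj {X Y : BMod B} (f : X →L[ℂ] Y) (hf : IsHom X Y f) {x y : kerM f hf}
    (h : kerι f hf x = kerι f hf y) : x = y := Subtype.ext h

theorem f_kerι {X Y : BMod B} (f : X →L[ℂ] Y) (hf : IsHom X Y f) (x : kerM f hf) :
    f (kerι f hf x) = 0 := x.2

/-- a bounded linear map with values in the kernel -/
def kerLift {X Y : BMod B} (f : X →L[ℂ] Y) (hf : IsHom X Y f) {E : Type} [NormedAddCommGroup E]
    [NormedSpace ℂ E] (g : E →L[ℂ] X) (hg : ∀ e, f (g e) = 0) : E →L[ℂ] kerM f hf :=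
  g.codRestrict (LinearMap.ker (f : X →ₗ[ℂ] Y)) hg

@[simp] theorem kerι_kerLift {X Y : BMod B} (f : X →L[ℂ] Y) (hf : IsHom X Y f) {E : Type}
    [NormedAddCommGroup E] [NormedSpace ℂ E] (g : E →L[ℂ] X) (hg : ∀ e, f (g e) = 0) (e : E) :
    kerι f hf (kerLift f hf g hg e) = g e := rfl

/-- the Banach module `P ⊗̂ E`, where `P` is a Banach module and `E` a Banach space -/
def tenE (P : BMod B) (E : Type) [NormedAddCommGroup E] [NormedSpace ℂ E] : BMod B where
  carrier := PT P E
  act := (ptMapL P P E).comp P.act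
  act_one x := by
    refine PT.apply_eq_of (f := ptMapL P P E (P.act 1))
      (g := ContinuousLinearMap.id ℂ _) (fun b y => ?_) x
    simp [P.act_one]
  act_mul a b x := by
    refine PT.apply_eq_of (f := ptMapL P P E (P.act (a * b)))
      (g := (ptMapL P P E (P.act a)).comp (ptMapL P P E (P.act b))) (fun c y => ?_) x
    simp [P.act_mul]

@[simp] theorem tenE_act_pt (P : BMod B) (E : Type) [NormedAddCommGroup E] [NormedSpace ℂ E]
    (a : B) (p : P) (x : E) : (tenE P E).act a (pt p x : PT P E) = (pt (P.act a p) x : PT P E) :=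
  ptMapL_apply_pt _ _ _

variable (B) in
/-- the algebra as a module over itself -/
def regM [CompleteSpace B] : BMod B where
  carrier := B
  act := ContinuousLinearMap.mul ℂ B
  act_one x := one_mul x
  act_mul a b x := mul_assoc a b x

end

section Tens

variable {U V : Type} [NormedCommRing U] [NormedAlgebra ℂ U] [NormedCommRing V]
  [NormedAlgebra ℂ V]

/-- `(f, g) ↦ f ⊗ g` as a bounded bilinear map -/
def ptMap₂ (E E' F F' : Type) [NormedAddCommGroup E] [NormedSpace ℂ E] [NormedAddCommGroup F]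
    [NormedSpace ℂ F] [NormedAddCommGroup E'] [NormedSpace ℂ E'] [NormedAddCommGroup F']
    [NormedSpace ℂ F'] : (E →L[ℂ] E') →L[ℂ] (F →L[ℂ] F') →L[ℂ] PT E F →L[ℂ] PT E' F' :=
  LinearMap.mkContinuous₂ (LinearMap.mk₂ ℂ (fun f g => ptMap f g)
    (fun f f' g => by ext z; exact ptMap_add_left f f' g z)
    (fun c f g => PT.ext_of fun x y => by simp)
    (fun f g g' => by ext z; exact ptMap_add_right f g g' z)
    (fun c f g => PT.ext_of fun x y => by simp)) 1 (by
      intro f g
      refine ContinuousLinearMap.opNorm_le_bound _ (by positivity) fun z => ?_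
      rw [one_mul]
      exact norm_ptMap_le f g z)

@[simp] theorem ptMap₂_apply {E E' F F' : Type} [NormedAddCommGroup E] [NormedSpace ℂ E]
    [NormedAddCommGroup F] [NormedSpace ℂ F] [NormedAddCommGroup E'] [NormedSpace ℂ E']
    [NormedAddCommGroup F'] [NormedSpace ℂ F'] (f : E →L[ℂ] E') (g : F →L[ℂ] F') :
    ptMap₂ E E' F F' f g = ptMap f g := rfl

/-- the Banach module `Y ⊗̂ Z` over `U ⊗̂ V`: `(u ⊗ v)(y ⊗ z) = uy ⊗ vz` -/
def tensM (Y : BMod U) (Z : BMod V) : BMod (PTA U V) where
  carrier := PT Y Z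
  act := liftA ((ptMap₂ Y Y Z Z).bilinearComp Y.act Z.act)
  act_one x := by
    rw [← ta_one_one, liftA_ta]
    refine PT.apply_eq_of (g := ContinuousLinearMap.id ℂ _) (fun y z => ?_) x
    simp [Y.act_one, Z.act_one]
  act_mul a b x := by
    have key : ∀ (u : U) (v : V) (b : PTA U V) (x : PT Y Z),
        liftA ((ptMap₂ Y Y Z Z).bilinearComp Y.act Z.act) (ta u v * b) x
        = liftA ((ptMap₂ Y Y Z Z).bilinearComp Y.act Z.act) (ta u v)
          (liftA ((ptMap₂ Y Y Z Z).bilinearComp Y.act Z.act) b x) := by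
      intro u v b x
      refine PTA.apply_eq_of
        (f := (((liftA ((ptMap₂ Y Y Z Z).bilinearComp Y.act Z.act)).flip x).comp
          (ContinuousLinearMap.mul ℂ (PTA U V) (ta u v))))
        (g := (liftA ((ptMap₂ Y Y Z Z).bilinearComp Y.act Z.act) (ta u v)).comp
          ((liftA ((ptMap₂ Y Y Z Z).bilinearComp Y.act Z.act)).flip x)) (fun c d => ?_) b
      simp only [ContinuousLinearMap.comp_apply, ContinuousLinearMap.mul_apply', ta_mul_ta,
        ContinuousLinearMap.flip_apply, liftA_ta, ContinuousLinearMap.bilinearComp_apply,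
        ptMap₂_apply]
      refine PT.apply_eq_of (f := ptMap (Y.act (u * c)) (Z.act (v * d)))
        (g := (ptMap (Y.act u) (Z.act v)).comp (ptMap (Y.act c) (Z.act d))) (fun y z => ?_) x
      simp [Y.act_mul, Z.act_mul]
    refine PTA.apply_eq_of
      (f := ((liftA ((ptMap₂ Y Y Z Z).bilinearComp Y.act Z.act)).flip x).comp
        ((ContinuousLinearMap.mul ℂ (PTA U V)).flip b))
      (g := (liftA ((ptMap₂ Y Y Z Z).bilinearComp Y.act Z.act)).flip
        (liftA ((ptMap₂ Y Y Z Z).bilinearComp Y.act Z.act) b x)) (fun u v => ?_) a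
    exact key u v b x

@[simp] theorem tensM_act_ta (Y : BMod U) (Z : BMod V) (u : U) (v : V) (y : Y) (z : Z) :
    (tensM Y Z).act (ta u v) (pt y z : PT Y Z) = (pt (Y.act u y) (Z.act v z) : PT Y Z) := by
  change liftA ((ptMap₂ Y Y Z Z).bilinearComp Y.act Z.act) (ta u v) (pt y z) = _
  simp

/-- a linear map is a morphism of `U ⊗̂ V`-modules if it commutes with all `u ⊗ v` -/
theorem isHom_of_ta {X Y : BMod (PTA U V)} (f : X →L[ℂ] Y)
    (h : ∀ u v x, f (X.act (ta u v) x) = Y.act (ta u v) (f x)) : IsHom X Y f := by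
  intro b x
  exact PTA.apply_eq_of (f := f.comp (X.act.flip x)) (g := Y.act.flip (f x))
    (fun u v => h u v x) b

/-- the symmetric bimodule given by a module `M` over the commutative algebra `U`:
`(a ⊗ b) m = a (b m)` -/
def symM (M : BMod U) : BMod (PTA U U) where
  carrier := M
  act := liftA ((ContinuousLinearMap.compL ℂ M M M).bilinearComp M.act M.act)
  act_one x := by
    rw [← ta_one_one, liftA_ta]
    simp [M.act_one]
  act_mul a b x := by
    have key : ∀ (u v : U) (b : PTA U U) (x : M),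
        liftA ((ContinuousLinearMap.compL ℂ M M M).bilinearComp M.act M.act) (ta u v * b) x
        = liftA ((ContinuousLinearMap.compL ℂ M M M).bilinearComp M.act M.act) (ta u v)
          (liftA ((ContinuousLinearMap.compL ℂ M M M).bilinearComp M.act M.act) b x) := by
      intro u v b x
      refine PTA.apply_eq_of
        (f := (((liftA ((ContinuousLinearMap.compL ℂ M M M).bilinearComp M.act M.act)).flip
          x).comp (ContinuousLinearMap.mul ℂ (PTA U U) (ta u v))))
        (g := (liftA ((ContinuousLinearMap.compL ℂ M M M).bilinearComp M.act M.act)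
          (ta u v)).comp
          ((liftA ((ContinuousLinearMap.compL ℂ M M M).bilinearComp M.act M.act)).flip x))
        (fun c d => ?_) b
      simp only [ContinuousLinearMap.comp_apply, ContinuousLinearMap.mul_apply', ta_mul_ta,
        ContinuousLinearMap.flip_apply, liftA_ta, ContinuousLinearMap.bilinearComp_apply,
        ContinuousLinearMap.compL_apply]
      rw [← M.act_mul, ← M.act_mul, ← M.act_mul, ← M.act_mul]
      congr 2
      ring
    refine PTA.apply_eq_of
      (f := ((liftA ((ContinuousLinearMap.compL ℂ M M M).bilinearComp M.act M.act)).flip x).comp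
        ((ContinuousLinearMap.mul ℂ (PTA U U)).flip b))
      (g := (liftA ((ContinuousLinearMap.compL ℂ M M M).bilinearComp M.act M.act)).flip
        (liftA ((ContinuousLinearMap.compL ℂ M M M).bilinearComp M.act M.act) b x))
      (fun u v => ?_) a
    exact key u v b x

@[simp] theorem symM_act_ta (M : BMod U) (u v : U) (m : M) :
    (symM M).act (ta u v) (m : M) = (M.act u (M.act v m) : M) := by
  change liftA ((ContinuousLinearMap.compL ℂ M M M).bilinearComp M.act M.act) (ta u v) m = _
  simp

end Tens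

end Pool.Agent.Lib.BF3
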