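import Mathlib
import Pool.Agent.Lib.BF3.HDefs

/-!
# Modules over the unitization
-/

noncomputable section

namespace Pool.Agent.Lib.BF3

variable {A : Type} [NonUnitalNormedCommRing A] [NormedSpace ℂ A] [IsScalarTower ℂ A A]
  [SMulCommClass ℂ A A]

/-- the inclusion `A → A₊` -/
def inA : A →L[ℂ] Up A where
  toFun a := WithLp.toLp 1 (a : Unitization ℂ A)
  map_add' a b := by
    rw [Unitization.inr_add]; rfl
  map_smul' c a := by
    rw [Unitization.inr_smul]; rfl
  cont := WithLp.unitization_isometry_inr.continuous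

theorem norm_inA (a : A) : ‖inA a‖ = ‖a‖ := WithLp.unitization_norm_inr a

/-- the projection `A₊ → ℂ` -/
def fstU : Up A →L[ℂ] ℂ :=
  LinearMap.mkContinuous
    { toFun := fun u => (WithLp.ofLp u).fst
      map_add' := fun _ _ => rfl
      map_smul' := fun _ _ => rfl } 1 (by
    intro u
    rw [one_mul, WithLp.unitization_norm_def]
    exact le_add_of_nonneg_right (norm_nonneg _))

/-- the projection `A₊ → A` -/
def sndU : Up A →L[ℂ] A :=
  LinearMap.mkContinuous
    { toFun := fun u => (WithLp.ofLp u).snd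
      map_add' := fun _ _ => rfl
      map_smul' := fun _ _ => rfl } 1 (by
    intro u
    rw [one_mul, WithLp.unitization_norm_def]
    exact le_add_of_nonneg_left (norm_nonneg _))

theorem Up.ext_of {u v : Up A} (h1 : fstU u = fstU v) (h2 : sndU u = sndU v) : u = v := by
  apply WithLp.ofLp_injective
  exact Unitization.ext h1 h2

@[simp] theorem fstU_inA (a : A) : fstU (inA a) = 0 := Unitization.fst_inr ℂ a
@[simp] theorem sndU_inA (a : A) : sndU (inA a) = a := Unitization.snd_inr ℂ a
@[simp] theorem fstU_one : fstU (1 : Up A) = 1 := rfl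
@[simp] theorem sndU_one : sndU (1 : Up A) = 0 := rfl
@[simp] theorem fstU_mul (u v : Up A) : fstU (u * v) = fstU u * fstU v := rfl
@[simp] theorem sndU_mul (u v : Up A) :
    sndU (u * v) = fstU u • sndU v + fstU v • sndU u + sndU u * sndU v := rfl

theorem inA_mul (a b : A) : inA (a * b) = inA a * inA b := by
  apply Up.ext_of <;> simp

theorem Up.decomp (u : Up A) : u = fstU u • (1 : Up A) + inA (sndU u) := by
  apply Up.ext_of <;> simp

variable (M : Type) [NormedAddCommGroup M] [NormedSpace ℂ M] [CompleteSpace M]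

/-- the `A₊`-module given by an associative action of `A` on the Banach space `M` -/
def ofA (α : A →L[ℂ] M →L[ℂ] M) (hα : ∀ a b m, α (a * b) m = α a (α b m)) : BMod (Up A) where
  carrier := M
  act := fstU.smulRight (ContinuousLinearMap.id ℂ M) + α.comp sndU
  act_one m := by simp
  act_mul u v m := by
    simp only [add_apply, ContinuousLinearMap.smulRight_apply,
      ContinuousLinearMap.comp_apply, smul_apply,
      ContinuousLinearMap.id_apply, fstU_mul, sndU_mul, map_add, map_smul, hα, smul_add,
      smul_smul]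
    rw [mul_comm (fstU v) (fstU u)]
    abel

variable {M}

theorem ofA_act (α : A →L[ℂ] M →L[ℂ] M) (hα : ∀ a b m, α (a * b) m = α a (α b m)) (u : Up A)
    (m : M) : (ofA M α hα).act u m = (fstU u • m + α (sndU u) m : M) := rfl

@[simp] theorem ofA_act_in (α : A →L[ℂ] M →L[ℂ] M) (hα : ∀ a b m, α (a * b) m = α a (α b m))
    (a : A) (m : M) : (ofA M α hα).act (inA a) m = (α a m : M) := by
  rw [ofA_act]
  simp

/-- a bounded linear map between `A₊`-modules is a morphism if it commutes with `A` -/
theorem isHom_of_in {X Y : BMod (Up A)} (f : X →L[ℂ] Y)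
    (h : ∀ a x, f (X.act (inA a) x) = Y.act (inA a) (f x)) : IsHom X Y f := by
  intro u x
  rw [Up.decomp u]
  simp only [map_add, map_smul, add_apply, smul_apply,
    X.act_one, Y.act_one, h]

/-- `A` itself as an `A₊`-module -/
def algM (A : Type) [NonUnitalNormedCommRing A] [NormedSpace ℂ A] [IsScalarTower ℂ A A]
    [SMulCommClass ℂ A A] [CompleteSpace A] : BMod (Up A) :=
  ofA A (ContinuousLinearMap.mul ℂ A) (fun a b m => mul_assoc a b m)

/-- the trivial module `ℂ = A₊ / A` -/
def trivM (A : Type) [NonUnitalNormedCommRing A] [NormedSpace ℂ A] [IsScalarTower ℂ A A]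
    [SMulCommClass ℂ A A] : BMod (Up A) :=
  ofA ℂ (0 : A →L[ℂ] ℂ →L[ℂ] ℂ) (fun _ _ _ => rfl)

end Pool.Agent.Lib.BF3
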