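import Mathlib
import Pool.Agent.Lib.BF3.TabAlg
import Pool.Agent.Lib.BF3.Unit

/-!
# The Banach algebra
-/

noncomputable section

namespace Pool.Agent.Lib.BF3

/-- the Banach space `A = I(F₁) ⊕ ℓ¹(X)` with the pointwise multiplication -/
def AA : Type := Atom (SG F1)

instance : NormedAddCommGroup AA := inferInstanceAs (NormedAddCommGroup (Atom (SG F1)))
instance : NormedSpace ℂ AA := inferInstanceAs (NormedSpace ℂ (Atom (SG F1)))
instance : CompleteSpace AA := inferInstanceAs (CompleteSpace (Atom (SG F1)))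

/-- the basis elements -/
def bA (s : SA) : AA := δ (SG F1) s

instance : NonUnitalNormedCommRing AA :=
  { (inferInstance : NormedAddCommGroup AA) with
    mul := fun a b => mulG F1 a b
    left_distrib := fun a b c => map_add (mulG F1 a) b c
    right_distrib := fun a b c => congrArg
      (fun T : Atom (SG F1) →L[ℂ] Atom (SG F1) => T c) (map_add (mulG F1) a b)
    zero_mul := fun a => congrArg
      (fun T : Atom (SG F1) →L[ℂ] Atom (SG F1) => T a) (map_zero (mulG F1))
    mul_zero := fun a => map_zero (mulG F1 a)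
    mul_assoc := fun a b c => mulG_assoc F1 F0_le_F1 a b c
    mul_comm := fun a b => mulG_comm a b
    norm_mul_le := fun a b => by
      have := norm_alift₂_le (bdd_tab F1 F0_le_F1) a b
      rw [one_mul] at this
      exact this }

theorem mul_def (a b : AA) : a * b = mulG F1 a b := rfl

instance : IsScalarTower ℂ AA AA where
  smul_assoc c a b := congrArg
      (fun T : Atom (SG F1) →L[ℂ] Atom (SG F1) => T b) (map_smul (mulG F1) c a)

instance : SMulCommClass ℂ AA AA where
  smul_comm c a b := (map_smul (mulG F1 a) c b).symm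

/-- the algebra `U = A₊` -/
abbrev UU : Type := Up AA

example : NormedCommRing UU := inferInstance
example : NormedAlgebra ℂ UU := inferInstance
example : CompleteSpace UU := inferInstance

/-! ### Maps out of the algebra -/

variable {Y Z : Type} [NormedAddCommGroup Z] [NormedSpace ℂ Z]

/-- the bounded linear map `A → Z` with `bA s ↦ z s` -/
def aliftA [CompleteSpace Z] (z : SA → Z) : AA →L[ℂ] Z := alift (SG F1) z

@[simp] theorem aliftA_bA [CompleteSpace Z] {z : SA → Z} {C : ℝ} (h : Bdd (SG F1) z C) (s : SA) :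
    aliftA z (bA s) = z s := alift_δ h s

theorem norm_aliftA_le [CompleteSpace Z] {z : SA → Z} {C : ℝ} (h : Bdd (SG F1) z C) (a : AA) :
    ‖aliftA z a‖ ≤ C * ‖a‖ := norm_alift_le h a

theorem AA.ext_of {f g : AA →L[ℂ] Z} (h : ∀ s, f (bA s) = g (bA s)) : f = g :=
  Atom.ext_of (K := SG F1) (f := f) (g := g) h

theorem AA.apply_eq_of {f g : AA →L[ℂ] Z} (h : ∀ s, f (bA s) = g (bA s)) (a : AA) :
    f a = g a := by
  rw [AA.ext_of h]

/-- the bounded bilinear map `A × Atom L → Z` with `(bA s, δ_y) ↦ z s y` -/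
def aliftA₂ [CompleteSpace Z] (L : Cx Y) (z : SA → Y → Z) : AA →L[ℂ] Atom L →L[ℂ] Z :=
  alift₂ (SG F1) L z

@[simp] theorem aliftA₂_δ [CompleteSpace Z] {L : Cx Y} {z : SA → Y → Z} {C : ℝ}
    (h : Bdd₂ (SG F1) L z C) (s : SA) (y : Y) : aliftA₂ L z (bA s) (δ L y) = z s y :=
  alift₂_δ h s y

theorem norm_aliftA₂_le [CompleteSpace Z] {L : Cx Y} {z : SA → Y → Z} {C : ℝ}
    (h : Bdd₂ (SG F1) L z C) (a : AA) (b : Atom L) : ‖aliftA₂ L z a b‖ ≤ C * ‖a‖ * ‖b‖ :=
  norm_alift₂_le h a b

theorem AA.ext₂_of {L : Cx Y} {f g : AA →L[ℂ] Atom L →L[ℂ] Z}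
    (h : ∀ s y, f (bA s) (δ L y) = g (bA s) (δ L y)) : f = g :=
  Atom.ext₂_of (K := SG F1) (K' := L) (f := f) (g := g) h

theorem norm_bA_le (s : SA) : ‖bA s‖ ≤ 1 := norm_δ_le _ s

/-- a finite combination of basis elements with coefficients bounded by one on a face has norm
at most one -/
theorem norm_sum_bA_le {g : SA →₀ ℂ} (hg : g ∈ (SG F1).gen) : ‖g.sum fun s c => c • bA s‖ ≤ 1 := by
  have h := norm_aι_le_one hg
  rw [aι_eq_sum] at h
  exact h

open Classical in
theorem bA_mul_inl_inl (t t' : Ts) : bA (Sum.inl t) * bA (Sum.inl t') =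
    if t = t' then bA (Sum.inl t) else 0 := mulG_δ F1 F0_le_F1 (Sum.inl t) (Sum.inl t')

open Classical in
theorem bA_mul_inl_inr (t : Ts) (x : Xs) : bA (Sum.inl t) * bA (Sum.inr x) =
    if t.1 = x then bA (Sum.inl t) else 0 := mulG_δ F1 F0_le_F1 (Sum.inl t) (Sum.inr x)

open Classical in
theorem bA_mul_inr_inl (x : Xs) (t : Ts) : bA (Sum.inr x) * bA (Sum.inl t) =
    if t.1 = x then bA (Sum.inl t) else 0 := mulG_δ F1 F0_le_F1 (Sum.inr x) (Sum.inl t)

open Classical in
theorem bA_mul_inr_inr (x x' : Xs) : bA (Sum.inr x) * bA (Sum.inr x') =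
    if x = x' then bA (Sum.inr x) else 0 := mulG_δ F1 F0_le_F1 (Sum.inr x) (Sum.inr x')

end Pool.Agent.Lib.BF3
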