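import Mathlib
import Pool.Agent.Lib.BF3.HDefs

/-!
# The balanced tensor product `S ⊗̂_U Z` of a bimodule `S` and a module `Z`
-/

noncomputable section

namespace Pool.Agent.Lib.BF3

variable {U : Type} [NormedCommRing U] [NormedAlgebra ℂ U]

/-- the closed subspace of `S ⊗̂ Z` generated by the elements `su ⊗ z - s ⊗ uz`; the right action
of `u` on `S` is the action of `1 ⊗ u` -/
def balSub (S : BMod (PTA U U)) (Z : BMod U) : Submodule ℂ (PT S Z) :=
  (Submodule.span ℂ {w : PT S Z | ∃ (u : U) (s : S) (z : Z),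
    w = pt (S.act (ta 1 u) s) z - pt s (Z.act u z)}).topologicalClosure

instance (S : BMod (PTA U U)) (Z : BMod U) : IsClosed (balSub S Z : Set (PT S Z)) :=
  Submodule.isClosed_topologicalClosure _

/-- the Banach space `S ⊗̂_U Z` -/
def BalT (S : BMod (PTA U U)) (Z : BMod U) : Type := PT S Z ⧸ balSub S Z

section

variable (S : BMod (PTA U U)) (Z : BMod U)

instance : NormedAddCommGroup (BalT S Z) := inferInstanceAs (NormedAddCommGroup (PT S Z ⧸ balSub S Z))
instance : NormedSpace ℂ (BalT S Z) := inferInstanceAs (NormedSpace ℂ (PT S Z ⧸ balSub S Z))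
instance : CompleteSpace (BalT S Z) := inferInstanceAs (CompleteSpace (PT S Z ⧸ balSub S Z))

/-- the quotient map -/
def balq : PT S Z →L[ℂ] BalT S Z := (balSub S Z).mkQL

end

variable {S : BMod (PTA U U)} {Z : BMod U}

theorem balq_surj (w : BalT S Z) : ∃ v : PT S Z, balq S Z v = w :=
  Submodule.mkQ_surjective (balSub S Z) w

theorem norm_balq_le (v : PT S Z) : ‖balq S Z v‖ ≤ ‖v‖ :=
  Submodule.Quotient.norm_mk_le (balSub S Z) v

/-- the balancing relation -/
theorem balq_rel (u : U) (s : S) (z : Z) :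
    balq S Z (pt (S.act (ta 1 u) s) z) = balq S Z (pt s (Z.act u z)) := by
  rw [← sub_eq_zero, ← map_sub]
  refine (Submodule.Quotient.mk_eq_zero (balSub S Z)).2 ?_
  exact Submodule.le_topologicalClosure _ (Submodule.subset_span ⟨u, s, z, rfl⟩)

variable {E : Type} [NormedAddCommGroup E] [NormedSpace ℂ E]

/-- a bounded linear map that respects the relation vanishes on `balSub` -/
theorem balSub_le_ker (g : PT S Z →L[ℂ] E)
    (hg : ∀ u s z, g (pt (S.act (ta 1 u) s) z) = g (pt s (Z.act u z))) :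
    ∀ w ∈ balSub S Z, g w = 0 := by
  have h : balSub S Z ≤ LinearMap.ker (g : PT S Z →ₗ[ℂ] E) := by
    refine Submodule.topologicalClosure_minimal _ ?_ g.isClosed_ker
    rw [Submodule.span_le]
    rintro w ⟨u, s, z, rfl⟩
    change g _ = 0
    rw [map_sub, hg, sub_self]
  intro w hw
  exact h hw

/-- the map out of the balanced tensor product -/
def balLift (g : PT S Z →L[ℂ] E)
    (hg : ∀ u s z, g (pt (S.act (ta 1 u) s) z) = g (pt s (Z.act u z))) : BalT S Z →L[ℂ] E :=
  (balSub S Z).liftQL g (fun w hw => balSub_le_ker g hg w hw)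

@[simp] theorem balLift_balq (g : PT S Z →L[ℂ] E)
    (hg : ∀ u s z, g (pt (S.act (ta 1 u) s) z) = g (pt s (Z.act u z))) (v : PT S Z) :
    balLift g hg (balq S Z v) = g v := rfl

theorem BalT.ext_of {f g : BalT S Z →L[ℂ] E}
    (h : ∀ s z, f (balq S Z (pt s z)) = g (balq S Z (pt s z))) : f = g := by
  have h1 : f.comp (balq S Z) = g.comp (balq S Z) := PT.ext_of h
  ext w
  obtain ⟨v, rfl⟩ := balq_surj w
  exact congrArg (fun T => T v) h1

theorem BalT.apply_eq_of {f g : BalT S Z →L[ℂ] E}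
    (h : ∀ s z, f (balq S Z (pt s z)) = g (balq S Z (pt s z))) (w : BalT S Z) : f w = g w := by
  rw [BalT.ext_of h]

theorem norm_balLift_le (g : PT S Z →L[ℂ] E)
    (hg : ∀ u s z, g (pt (S.act (ta 1 u) s) z) = g (pt s (Z.act u z))) (w : BalT S Z) :
    ‖balLift g hg w‖ ≤ ‖g‖ * ‖w‖ := by
  refine le_of_forall_pos_le_add fun ε hε => ?_
  obtain ⟨v, rfl, hv⟩ : ∃ v : PT S Z, balq S Z v = w ∧ ‖v‖ < ‖w‖ + ε / (‖g‖ + 1) := by
    have h0 : 0 < ε / (‖g‖ + 1) := by positivity
    obtain ⟨v, h1, h2⟩ := QuotientAddGroup.exists_norm_mk_lt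
      (S := (balSub S Z).toAddSubgroup) w h0
    exact ⟨v, h1, h2⟩
  rw [balLift_balq]
  calc ‖g v‖ ≤ ‖g‖ * ‖v‖ := g.le_opNorm v
    _ ≤ ‖g‖ * (‖balq S Z v‖ + ε / (‖g‖ + 1)) := by gcongr
    _ = ‖g‖ * ‖balq S Z v‖ + ‖g‖ * (ε / (‖g‖ + 1)) := by ring
    _ ≤ ‖g‖ * ‖balq S Z v‖ + ε := by
        gcongr
        rw [mul_div_assoc', div_le_iff₀ (by positivity)]
        nlinarith [norm_nonneg g]

/-- two commuting actions: `(1 ⊗ v)` and `(u ⊗ 1)` commute -/
theorem act_comm (S : BMod (PTA U U)) (u v : U) (s : S) :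
    S.act (ta u 1) (S.act (ta 1 v) s) = S.act (ta 1 v) (S.act (ta u 1) s) := by
  rw [← S.act_mul, ← S.act_mul, mul_comm]

/-- the left action of `u` on the balanced tensor product -/
def balAct (S : BMod (PTA U U)) (Z : BMod U) (u : U) : BalT S Z →L[ℂ] BalT S Z :=
  balLift ((balq S Z).comp (ptMap (S.act (ta u 1)) (ContinuousLinearMap.id ℂ Z))) (by
    intro v s z
    simp only [ContinuousLinearMap.comp_apply, ptMap_pt, ContinuousLinearMap.id_apply]
    rw [act_comm, balq_rel])

@[simp] theorem balAct_balq (u : U) (s : S) (z : Z) :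
    balAct S Z u (balq S Z (pt s z)) = balq S Z (pt (S.act (ta u 1) s) z) := by
  rw [balAct, balLift_balq]
  simp

theorem norm_balAct_le (u : U) (w : BalT S Z) : ‖balAct S Z u w‖ ≤ ‖S.act‖ * ‖u‖ * ‖(1 : U)‖ * ‖w‖ := by
  refine (norm_balLift_le _ _ w).trans ?_
  gcongr
  refine ContinuousLinearMap.opNorm_le_bound _ (by positivity) fun v => ?_
  refine (norm_balq_le _).trans ((norm_ptMap_le _ _ v).trans ?_)
  have h1 : ‖ContinuousLinearMap.id ℂ Z‖ ≤ 1 := ContinuousLinearMap.norm_id_le
  have h2 : ‖S.act (ta u 1)‖ ≤ ‖S.act‖ * ‖u‖ * ‖(1 : U)‖ := by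
    refine (S.act.le_opNorm _).trans ?_
    rw [mul_assoc]
    gcongr
    exact norm_ta_le u 1
  calc ‖S.act (ta u 1)‖ * ‖ContinuousLinearMap.id ℂ Z‖ * ‖v‖
      ≤ (‖S.act‖ * ‖u‖ * ‖(1 : U)‖) * 1 * ‖v‖ := by gcongr
    _ = _ := by ring

/-- the `U`-module `S ⊗̂_U Z`, with the left action -/
def balM (S : BMod (PTA U U)) (Z : BMod U) : BMod U where
  carrier := BalT S Z
  act := LinearMap.mkContinuous
    { toFun := fun u => balAct S Z u
      map_add' := fun u v => BalT.ext_of fun s z => by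
        have : (ta (u + v) 1 : PTA U U) = ta u 1 + ta v 1 := by
          rw [← taL_apply, map_add]; rfl
        rw [add_apply, balAct_balq, balAct_balq, balAct_balq, this, map_add, add_apply,
          pt_add_left, map_add]
      map_smul' := fun c u => BalT.ext_of fun s z => by
        have : (ta (c • u) 1 : PTA U U) = c • ta u 1 := by
          rw [← taL_apply, map_smul]; rfl
        rw [smul_apply, balAct_balq, balAct_balq, this, map_smul, smul_apply,
          pt_smul_left, map_smul]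
        rfl } (‖S.act‖ * ‖(1 : U)‖) (by
    intro u
    refine ContinuousLinearMap.opNorm_le_bound _ (by positivity) fun w => ?_
    refine (norm_balAct_le u w).trans (le_of_eq (by ring)))
  act_one w := by
    refine BalT.apply_eq_of (f := balAct S Z 1) (g := ContinuousLinearMap.id ℂ _)
      (fun s z => ?_) w
    rw [balAct_balq, ta_one_one, S.act_one]
    rfl
  act_mul u v w := by
    refine BalT.apply_eq_of (f := balAct S Z (u * v)) (g := (balAct S Z u).comp (balAct S Z v))
      (fun s z => ?_) w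
    rw [ContinuousLinearMap.comp_apply, balAct_balq, balAct_balq, balAct_balq, ← S.act_mul,
      ta_mul_ta, one_mul]

theorem balM_act_balq (u : U) (s : S) (z : Z) :
    (balM S Z).act u (balq S Z (pt s z)) = balq S Z (pt (S.act (ta u 1) s) z) :=
  balAct_balq u s z

/-- the bimodule `S` as a right module: `u` acts by `1 ⊗ u` -/
def resR (S : BMod (PTA U U)) : BMod U where
  carrier := S
  act := S.act.comp (taL U U 1)
  act_one x := by
    change S.act (ta 1 1) x = x
    rw [ta_one_one, S.act_one]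
  act_mul a b x := by
    change S.act (ta 1 (a * b)) x = S.act (ta 1 a) (S.act (ta 1 b) x)
    rw [← S.act_mul, ta_mul_ta, one_mul]

theorem resR_act (S : BMod (PTA U U)) (u : U) (x : S) :
    (resR S).act u (x : S) = (S.act (ta 1 u) x : S) := rfl

/-- `T` commutes with the right actions -/
def IsRHom (S S' : BMod (PTA U U)) (T : S →L[ℂ] S') : Prop :=
  ∀ u s, T (S.act (ta 1 u) s) = S'.act (ta 1 u) (T s)

/-- the map of balanced tensor products given by a right linear map -/
def balMap (Z : BMod U) {S S' : BMod (PTA U U)} (T : S →L[ℂ] S') (hT : IsRHom S S' T) :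
    BalT S Z →L[ℂ] BalT S' Z :=
  balLift ((balq S' Z).comp (ptMap T (ContinuousLinearMap.id ℂ Z))) (by
    intro u s z
    simp only [ContinuousLinearMap.comp_apply, ptMap_pt, ContinuousLinearMap.id_apply]
    rw [hT, balq_rel])

@[simp] theorem balMap_balq (Z : BMod U) {S S' : BMod (PTA U U)} (T : S →L[ℂ] S')
    (hT : IsRHom S S' T) (s : S) (z : Z) :
    balMap Z T hT (balq S Z (pt s z)) = balq S' Z (pt (T s) z) := by
  rw [balMap, balLift_balq]
  simp

end Pool.Agent.Lib.BF3
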