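import Mathlib
import Pool.Agent.Lib.BF3.HDefs

/-!
# Projective modules: basic closure properties

PROOFS.
* `projective_free`: `ρ = ` the lift (`lift`) of the bilinear map `b ↦ x ↦ b ⊗ (1 ⊗ x)`,
  `B ⊗̂ E → B ⊗̂ (B ⊗̂ E)`, for instance `ρ = ptMap (id) (ptL B E 1)` (as `ptL B E 1 x = 1 ⊗ x`).
  It is a morphism (elementary tensors) and `b · (1 ⊗ x) = b ⊗ x`.
* `Retr.projective`: `R : Retr Y X`, `ρ_X : X → B ⊗̂ X`. Put `ρ_Y = (1 ⊗ q) ∘ ρ_X ∘ i`
  (`ptMap (id) R.q`). It is a morphism, and `actMap Y ∘ (1 ⊗ q) = q ∘ actMap X` (elementary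
  tensors), so `actMap Y (ρ_Y y) = q (i y) = y`.
* `Projective.prod`: `ρ (x, y) = (1 ⊗ inl) (ρ_X x) + (1 ⊗ inr) (ρ_Y y)`.
* `projective_of_zero`: `ρ = 0`.
* `projective_regM`: `ρ b = b ⊗ 1`, that is `ρ = (ptL B B).flip 1`.
-/

noncomputable section

namespace Pool.Agent.Lib.BF3

variable {B : Type} [NormedCommRing B] [NormedAlgebra ℂ B]

/-- free modules are projective -/
theorem projective_free (E : Type) [NormedAddCommGroup E] [NormedSpace ℂ E] :
    Projective (freeM B E) := by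
  have h1 : ∀ (b c : B) (e : E), (freeM B E).act b (pt c e : PT B E) = (pt (b * c) e : PT B E) :=
    fun b c e => freeM_act_pt E b c e
  refine ⟨(ptMap (ContinuousLinearMap.id ℂ B) (ptL B E 1) : PT B E →L[ℂ] PT B (PT B E)), ?_, ?_⟩
  · intro b x
    refine PT.apply_eq_of (E := B) (F := E)
      (f := (ptMap (ContinuousLinearMap.id ℂ B) (ptL B E 1) : PT B E →L[ℂ] PT B (PT B E)).comp
        (((freeM B E).act b : (freeM B E) →L[ℂ] (freeM B E)) : PT B E →L[ℂ] PT B E))
      (g := (((freeM B (freeM B E)).act b :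
        (freeM B (freeM B E)) →L[ℂ] (freeM B (freeM B E))) :
          PT B (PT B E) →L[ℂ] PT B (PT B E)).comp
        (ptMap (ContinuousLinearMap.id ℂ B) (ptL B E 1))) (fun c e => ?_) x
    have h2 : (freeM B (freeM B E)).act b
        (pt c (pt 1 e : PT B E) : PT B (PT B E)) = (pt (b * c) (pt 1 e : PT B E) :
          PT B (PT B E)) := freeM_act_pt (freeM B E) b c (pt 1 e : PT B E)
    have h3 : ∀ c : B, (ptMap (ContinuousLinearMap.id ℂ B) (ptL B E 1) :
        PT B E →L[ℂ] PT B (PT B E)) (pt c e) = pt c (pt 1 e) := by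
      intro c
      rw [ptMap_pt]
      rfl
    change (ptMap (ContinuousLinearMap.id ℂ B) (ptL B E 1) : PT B E →L[ℂ] PT B (PT B E))
      ((freeM B E).act b (pt c e : PT B E)) = (freeM B (freeM B E)).act b
        ((ptMap (ContinuousLinearMap.id ℂ B) (ptL B E 1) : PT B E →L[ℂ] PT B (PT B E)) (pt c e))
    rw [h3 c]
    exact (congrArg _ (h1 b c e)).trans ((h3 (b * c)).trans h2.symm)
  · intro x
    refine PT.apply_eq_of (E := B) (F := E)
      (f := ((actMap (freeM B E) : PT B (freeM B E) →L[ℂ] (freeM B E)) :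
        PT B (PT B E) →L[ℂ] PT B E).comp (ptMap (ContinuousLinearMap.id ℂ B) (ptL B E 1)))
      (g := ContinuousLinearMap.id ℂ (PT B E)) (fun c e => ?_) x
    have h3 : (ptMap (ContinuousLinearMap.id ℂ B) (ptL B E 1) :
        PT B E →L[ℂ] PT B (PT B E)) (pt c e) = pt c (pt 1 e) := by
      rw [ptMap_pt]
      rfl
    change actMap (freeM B E) ((ptMap (ContinuousLinearMap.id ℂ B) (ptL B E 1) :
        PT B E →L[ℂ] PT B (PT B E)) (pt c e)) = (pt c e : PT B E)
    rw [h3]
    have h4 : actMap (freeM B E) (pt c (pt 1 e : PT B E) : PT B (freeM B E)) =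
      (freeM B E).act c (pt 1 e : PT B E) := actMap_pt (freeM B E) c (pt 1 e : PT B E)
    refine h4.trans ((h1 c 1 e).trans ?_)
    rw [mul_one]

private theorem actMap_ptMap {X Y : BMod B} (q : X →L[ℂ] Y) (hq : IsHom X Y q) (z : PT B X) :
    actMap Y (ptMap (ContinuousLinearMap.id ℂ B) q z) = q (actMap X z) := by
  refine PT.apply_eq_of (f := (actMap Y).comp (ptMap (ContinuousLinearMap.id ℂ B) q))
    (g := q.comp (actMap X)) (fun b x => ?_) z
  simp only [ContinuousLinearMap.comp_apply, ptMap_pt, actMap_pt, ContinuousLinearMap.id_apply]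
  exact (hq b x).symm

private theorem isHom_ptMap {X Y : BMod B} (q : X →L[ℂ] Y) :
    IsHom (freeM B X) (freeM B Y) (ptMap (ContinuousLinearMap.id ℂ B) q) := by
  intro b z
  refine PT.apply_eq_of (E := B) (F := X)
    (f := (ptMap (ContinuousLinearMap.id ℂ B) q : PT B X →L[ℂ] PT B Y).comp
      ((freeM B X).act b : PT B X →L[ℂ] PT B X))
    (g := ((freeM B Y).act b : PT B Y →L[ℂ] PT B Y).comp
      (ptMap (ContinuousLinearMap.id ℂ B) q)) (fun c x => ?_) z
  change ptMap (ContinuousLinearMap.id ℂ B) q ((freeM B X).act b (pt c x : PT B X)) =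
    (freeM B Y).act b (ptMap (ContinuousLinearMap.id ℂ B) q (pt c x : PT B X) : PT B Y)
  rw [ptMap_pt, freeM_act_pt]
  have h := freeM_act_pt (B := B) Y b c (q x)
  refine Eq.trans ?_ h.symm
  rw [ptMap_pt]
  rfl

/-- retracts of projective modules are projective -/
theorem Retr.projective {Y X : BMod B} (R : Retr Y X) (hX : Projective X) : Projective Y := by
  obtain ⟨ρ, h1, h2⟩ := hX
  refine ⟨(ptMap (ContinuousLinearMap.id ℂ B) R.q : PT B X →L[ℂ] PT B Y).comp (ρ.comp R.i),
    ?_, ?_⟩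
  · intro b y
    have e1 : (ρ (R.i (Y.act b y)) : PT B X) = (freeM B X).act b (ρ (R.i y) : PT B X) :=
      (congrArg _ (R.hi b y)).trans (h1 b (R.i y))
    have e2 : ptMap (ContinuousLinearMap.id ℂ B) R.q (ρ (R.i (Y.act b y))) =
        ptMap (ContinuousLinearMap.id ℂ B) R.q ((freeM B X).act b (ρ (R.i y) : PT B X)) :=
      congrArg _ e1
    exact e2.trans (isHom_ptMap R.q b (ρ (R.i y)))
  · intro y
    have e1 : actMap Y (ptMap (ContinuousLinearMap.id ℂ B) R.q (ρ (R.i y))) = y := by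
      rw [actMap_ptMap R.q R.hq, h2, R.qi]
    exact e1

theorem Projective.prod {X Y : BMod B} (hX : Projective X) (hY : Projective Y) :
    Projective (prodM X Y) := by
  obtain ⟨ρ, h1, h2⟩ := hX
  obtain ⟨σ, h3, h4⟩ := hY
  let iX : X →L[ℂ] prodM X Y := ContinuousLinearMap.inl ℂ X Y
  let iY : Y →L[ℂ] prodM X Y := ContinuousLinearMap.inr ℂ X Y
  have hiX : IsHom X (prodM X Y) iX := by
    intro b x
    exact Prod.ext rfl (map_zero (Y.act b)).symm
  have hiY : IsHom Y (prodM X Y) iY := by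
    intro b y
    exact Prod.ext (map_zero (X.act b)).symm rfl
  refine ⟨(((ptMap (ContinuousLinearMap.id ℂ B) iX : PT B X →L[ℂ] PT B (prodM X Y)).comp
    (ρ.comp (ContinuousLinearMap.fst ℂ X Y))) +
    ((ptMap (ContinuousLinearMap.id ℂ B) iY : PT B Y →L[ℂ] PT B (prodM X Y)).comp
    (σ.comp (ContinuousLinearMap.snd ℂ X Y))) : (X × Y) →L[ℂ] PT B (prodM X Y)), ?_, ?_⟩
  · intro b z
    change ptMap (ContinuousLinearMap.id ℂ B) iX (ρ (X.act b z.1)) +
      ptMap (ContinuousLinearMap.id ℂ B) iY (σ (Y.act b z.2)) =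
      (freeM B (prodM X Y)).act b (ptMap (ContinuousLinearMap.id ℂ B) iX (ρ z.1) +
        ptMap (ContinuousLinearMap.id ℂ B) iY (σ z.2) : PT B (prodM X Y))
    have h5 := isHom_ptMap iX b (ρ z.1)
    have h6 := isHom_ptMap iY b (σ z.2)
    have h7 := map_add ((freeM B (prodM X Y)).act b)
      (ptMap (ContinuousLinearMap.id ℂ B) iX (ρ z.1) : PT B (prodM X Y))
      (ptMap (ContinuousLinearMap.id ℂ B) iY (σ z.2) : PT B (prodM X Y))
    have e1 : ptMap (ContinuousLinearMap.id ℂ B) iX (ρ (X.act b z.1)) =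
        ptMap (ContinuousLinearMap.id ℂ B) iX ((freeM B X).act b (ρ z.1 : PT B X)) :=
      congrArg _ (h1 b z.1)
    have e2 : ptMap (ContinuousLinearMap.id ℂ B) iY (σ (Y.act b z.2)) =
        ptMap (ContinuousLinearMap.id ℂ B) iY ((freeM B Y).act b (σ z.2 : PT B Y)) :=
      congrArg _ (h3 b z.2)
    refine Eq.trans ?_ h7.symm
    exact congrArg₂ (fun a c : PT B (prodM X Y) => a + c) (e1.trans h5) (e2.trans h6)
  · intro z
    change actMap (prodM X Y) (ptMap (ContinuousLinearMap.id ℂ B) iX (ρ z.1) +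
      ptMap (ContinuousLinearMap.id ℂ B) iY (σ z.2)) = z
    rw [map_add, actMap_ptMap iX hiX, actMap_ptMap iY hiY, h2, h4]
    exact Prod.ext (add_zero _) (zero_add _)

theorem projective_of_zero {X : BMod B} (h : ∀ x : X, x = 0) : Projective X := by
  refine ⟨0, ?_, ?_⟩
  · intro b x
    change (0 : PT B X) = (freeM B X).act b (0 : PT B X)
    exact (map_zero ((freeM B X).act b)).symm
  · intro x
    rw [h x, map_zero, map_zero]

theorem projective_regM [CompleteSpace B] : Projective (regM B) := by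
  refine ⟨((ptL B B).flip 1 : B →L[ℂ] PT B B), ?_, ?_⟩
  · intro b x
    exact (freeM_act_pt B b x 1).symm
  · intro x
    change actMap (regM B) (pt x (1 : B) : PT B B) = x
    refine (actMap_pt (regM B) x (1 : B)).trans ?_
    exact @mul_one B _ x

end Pool.Agent.Lib.BF3
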