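import Mathlib
import Pool.Agent.Lib.BF3.Bal
import Pool.Agent.Lib.BF3.ProjBasic

/-!
# `S ⊗̂_U Z` for a free bimodule `S`

PROOF. Let `S = freeM (PTA U U) E = (U ⊗̂ U) ⊗̂ E`. `balM S Z` is a retract of the free module
`freeM U (PT E Z)`, by the two maps
* `φ : S ⊗̂_U Z → U ⊗̂ (E ⊗̂ Z)`, `((a ⊗ b) ⊗ e) ⊗ z ↦ a ⊗ (e ⊗ b z)`: `balLift` of the bounded
  linear map `Φ : PT (PT (PTA U U) E) Z → PT U (PT E Z)` that is `lift` of
  `w ↦ (z ↦ ...)`, `w ∈ PT (PTA U U) E`, itself the `lift` of `c ↦ e ↦ (z ↦ ...)`, `c ∈ PTA U U`,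
  `liftA` of `a ↦ b ↦ (e ↦ z ↦ a ⊗ (e ⊗ b z))`. (One way: the bounded bilinear map
  `β : U → U → (E →L Z →L PT U (PT E Z))`,
  `β a b = ((ptL E Z).bilinearComp id (Z.act b))` composed with `ptL U (PT E Z) a`; any
  construction is fine. If it is convenient build it as the composition of `ptMap`s and
  associators.) `Φ` respects the balancing relation:
  `(1 ⊗ u)((a ⊗ b) ⊗ e) ⊗ z = ((a ⊗ ub) ⊗ e) ⊗ z ↦ a ⊗ (e ⊗ (ub) z)` and
  `((a ⊗ b) ⊗ e) ⊗ uz ↦ a ⊗ (e ⊗ b (u z))`; these agree on elementary tensors, and the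
  identity for all elements `w` of `S` and `z` follows from `PT.ext_of`, `PTA.ext_of`.
* `ψ : U ⊗̂ (E ⊗̂ Z) → S ⊗̂_U Z`, `a ⊗ (e ⊗ z) ↦ balq (((a ⊗ 1) ⊗ e) ⊗ z)`.
`ψ φ = id`: `((a ⊗ b) ⊗ e) ⊗ z ↦ a ⊗ (e ⊗ b z) ↦ ((a ⊗ 1) ⊗ e) ⊗ b z =
(1 ⊗ b)((a ⊗ 1) ⊗ e) ⊗ z = ((a ⊗ b) ⊗ e) ⊗ z` by `balq_rel` and `ta_mul_ta`. Both maps are
morphisms (`balM_act_balq`). Then `projective_free` and `Retr.projective`.
-/

noncomputable section

namespace Pool.Agent.Lib.BF3

variable {U : Type} [NormedCommRing U] [NormedAlgebra ℂ U]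

namespace BalFreeAux

variable (E : Type) [NormedAddCommGroup E] [NormedSpace ℂ E] (Z : BMod U)

/-- `e ↦ z ↦ a ⊗ (e ⊗ b z)` -/
def TT (a b : U) : E →L[ℂ] Z →L[ℂ] PT U (PT E Z) :=
  (ContinuousLinearMap.compL ℂ Z (PT E Z) (PT U (PT E Z)) (ptL U (PT E Z) a)).comp
    ((ptL E Z).bilinearComp (ContinuousLinearMap.id ℂ E) (Z.act b))

theorem TT_apply (a b : U) (e : E) (z : Z) : TT E Z a b e z = pt a (pt e (Z.act b z)) := rfl

theorem norm_TT_le (a b : U) : ‖TT E Z a b‖ ≤ ‖Z.act‖ * ‖a‖ * ‖b‖ := by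
  refine ContinuousLinearMap.opNorm_le_bound₂ _ (by positivity) fun e z => ?_
  rw [TT_apply]
  calc ‖pt a (pt e (Z.act b z))‖ ≤ ‖a‖ * ‖pt e (Z.act b z)‖ := norm_pt_le _ _
    _ ≤ ‖a‖ * (‖e‖ * ‖Z.act b z‖) := by gcongr; exact norm_pt_le _ _
    _ ≤ ‖a‖ * (‖e‖ * (‖Z.act‖ * ‖b‖ * ‖z‖)) := by gcongr; exact Z.act.le_opNorm₂ b z
    _ = ‖Z.act‖ * ‖a‖ * ‖b‖ * ‖e‖ * ‖z‖ := by ring

/-- the bilinear map `a ↦ b ↦ (e ↦ z ↦ a ⊗ (e ⊗ b z))` -/
def β : U →L[ℂ] U →L[ℂ] E →L[ℂ] Z →L[ℂ] PT U (PT E Z) :=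
  LinearMap.mkContinuous₂ (LinearMap.mk₂ ℂ (fun a b => TT E Z a b)
    (fun a a' b => by
      ext e z
      rw [add_apply, add_apply, TT_apply, TT_apply, TT_apply, pt_add_left])
    (fun c a b => by
      ext e z
      rw [smul_apply, smul_apply, TT_apply, TT_apply, pt_smul_left])
    (fun a b b' => by
      ext e z
      rw [add_apply, add_apply, TT_apply, TT_apply, TT_apply, map_add, add_apply,
        pt_add_right, pt_add_right])
    (fun c a b => by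
      ext e z
      rw [smul_apply, smul_apply, TT_apply, TT_apply, map_smul, smul_apply,
        pt_smul_right, pt_smul_right])) ‖Z.act‖ (by
      intro a b
      exact norm_TT_le E Z a b)

theorem β_apply (a b : U) (e : E) (z : Z) : β E Z a b e z = pt a (pt e (Z.act b z)) := rfl

/-- `c ↦ e ↦ (z ↦ ...)` -/
def δ' : PTA U U →L[ℂ] E →L[ℂ] Z →L[ℂ] PT U (PT E Z) :=
  liftA (G := E →L[ℂ] Z →L[ℂ] PT U (PT E Z)) (β E Z)

theorem δ'_ta (a b : U) (e : E) (z : Z) : δ' E Z (ta a b) e z = pt a (pt e (Z.act b z)) := by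
  rw [δ', liftA_ta, β_apply]

/-- `w ↦ (z ↦ ...)` -/
def γ : PT (PTA U U) E →L[ℂ] Z →L[ℂ] PT U (PT E Z) := lift (δ' E Z)

theorem γ_pt (c : PTA U U) (e : E) (z : Z) : γ E Z (pt c e) z = δ' E Z c e z := by
  rw [γ, lift_pt]

/-- the action on the free bimodule -/
def mS (c : PTA U U) : PT (PTA U U) E →L[ℂ] PT (PTA U U) E :=
  ptMapL (PTA U U) (PTA U U) E (ContinuousLinearMap.mul ℂ (PTA U U) c)

theorem mS_pt (c c' : PTA U U) (e : E) : mS E c (pt c' e) = pt (c * c') e := by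
  rw [mS, ptMapL_apply_pt, ContinuousLinearMap.mul_apply']

/-- the action on the free module -/
def mX (u : U) : PT U (PT E Z) →L[ℂ] PT U (PT E Z) :=
  ptMapL U U (PT E Z) (ContinuousLinearMap.mul ℂ U u)

theorem mX_pt (u a : U) (y : PT E Z) : mX E Z u (pt a y) = pt (u * a) y := by
  rw [mX, ptMapL_apply_pt, ContinuousLinearMap.mul_apply']

theorem γ_rel (u : U) (s : PT (PTA U U) E) (z : Z) :
    γ E Z (mS E (ta 1 u) s) z = γ E Z s (Z.act u z) := by
  refine PT.apply_eq_of (f := ((γ E Z).flip z).comp (mS E (ta 1 u)))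
    (g := (γ E Z).flip (Z.act u z)) (fun c e => ?_) s
  rw [ContinuousLinearMap.comp_apply, ContinuousLinearMap.flip_apply,
    ContinuousLinearMap.flip_apply, mS_pt, γ_pt, γ_pt]
  refine PTA.apply_eq_of
    (f := ((ContinuousLinearMap.flip (δ' E Z) e).flip z).comp
      (ContinuousLinearMap.mul ℂ (PTA U U) (ta 1 u)))
    (g := (ContinuousLinearMap.flip (δ' E Z) e).flip (Z.act u z)) (fun a b => ?_) c
  rw [ContinuousLinearMap.comp_apply, ContinuousLinearMap.flip_apply,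
    ContinuousLinearMap.flip_apply, ContinuousLinearMap.flip_apply,
    ContinuousLinearMap.flip_apply, ContinuousLinearMap.mul_apply', ta_mul_ta, δ'_ta, δ'_ta,
    one_mul, mul_comm u b, Z.act_mul]

theorem γ_left (u : U) (s : PT (PTA U U) E) (z : Z) :
    γ E Z (mS E (ta u 1) s) z = mX E Z u (γ E Z s z) := by
  refine PT.apply_eq_of (f := ((γ E Z).flip z).comp (mS E (ta u 1)))
    (g := (mX E Z u).comp ((γ E Z).flip z)) (fun c e => ?_) s
  rw [ContinuousLinearMap.comp_apply, ContinuousLinearMap.comp_apply,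
    ContinuousLinearMap.flip_apply, ContinuousLinearMap.flip_apply, mS_pt, γ_pt, γ_pt]
  refine PTA.apply_eq_of
    (f := ((ContinuousLinearMap.flip (δ' E Z) e).flip z).comp
      (ContinuousLinearMap.mul ℂ (PTA U U) (ta u 1)))
    (g := (mX E Z u).comp ((ContinuousLinearMap.flip (δ' E Z) e).flip z))
    (fun a b => ?_) c
  rw [ContinuousLinearMap.comp_apply, ContinuousLinearMap.comp_apply,
    ContinuousLinearMap.flip_apply, ContinuousLinearMap.flip_apply,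
    ContinuousLinearMap.mul_apply', ta_mul_ta, δ'_ta,
    ContinuousLinearMap.flip_apply, ContinuousLinearMap.flip_apply, δ'_ta, mX_pt, one_mul]

/-- the quotient map -/
def bq : PT (PT (PTA U U) E) Z →L[ℂ] BalT (freeM (PTA U U) E) Z := balq (freeM (PTA U U) E) Z

theorem bq_rel (u : U) (s : PT (PTA U U) E) (z : Z) :
    bq E Z (pt (mS E (ta 1 u) s) z) = bq E Z (pt s (Z.act u z)) :=
  balq_rel (S := freeM (PTA U U) E) (Z := Z) u s z

theorem bq_ext {F : Type} [NormedAddCommGroup F] [NormedSpace ℂ F]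
    {f g : BalT (freeM (PTA U U) E) Z →L[ℂ] F}
    (h : ∀ (s : PT (PTA U U) E) (z : Z), f (bq E Z (pt s z)) = g (bq E Z (pt s z)))
    (w : BalT (freeM (PTA U U) E) Z) : f w = g w :=
  BalT.apply_eq_of (S := freeM (PTA U U) E) (Z := Z) h w

/-- the action on the balanced tensor product -/
def bAct (u : U) : BalT (freeM (PTA U U) E) Z →L[ℂ] BalT (freeM (PTA U U) E) Z :=
  balAct (freeM (PTA U U) E) Z u

theorem bAct_bq (u : U) (s : PT (PTA U U) E) (z : Z) :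
    bAct E Z u (bq E Z (pt s z)) = bq E Z (pt (mS E (ta u 1) s) z) :=
  balAct_balq (S := freeM (PTA U U) E) (Z := Z) u s z

theorem Φ_rel (u : U) (s : PT (PTA U U) E) (z : Z) :
    lift (γ E Z) (pt (mS E (ta 1 u) s) z) = lift (γ E Z) (pt s (Z.act u z)) := by
  rw [lift_pt, lift_pt, γ_rel]

/-- the map `φ` -/
def φ : BalT (freeM (PTA U U) E) Z →L[ℂ] PT U (PT E Z) :=
  balLift (S := freeM (PTA U U) E) (Z := Z) (lift (γ E Z)) (fun u s z => Φ_rel E Z u s z)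

theorem φ_bq (s : PT (PTA U U) E) (z : Z) : φ E Z (bq E Z (pt s z)) = γ E Z s z := by
  have h : φ E Z (bq E Z (pt s z)) = lift (γ E Z) (pt s z) := rfl
  rw [h, lift_pt]

/-- `a ↦ (e ⊗ z ↦ balq (((a ⊗ 1) ⊗ e) ⊗ z))` -/
def κ : U →L[ℂ] PT E Z →L[ℂ] BalT (freeM (PTA U U) E) Z :=
  (ContinuousLinearMap.compL ℂ (PT E Z) (PT (PT (PTA U U) E) Z)
    (BalT (freeM (PTA U U) E) Z) (bq E Z)).comp
    ((ptMapL E (PT (PTA U U) E) Z).comp ((ptL (PTA U U) E).comp ((taL U U).flip 1)))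

theorem κ_pt (a : U) (e : E) (z : Z) :
    κ E Z a (pt e z) = bq E Z (pt (pt (ta a 1) e) z) := by
  have h : κ E Z a (pt e z) = bq E Z (ptMapL E (PT (PTA U U) E) Z
    (ptL (PTA U U) E (ta a 1)) (pt e z)) := rfl
  rw [h, ptMapL_apply_pt, ptL_apply]

/-- the map `ψ` -/
def ψ : PT U (PT E Z) →L[ℂ] BalT (freeM (PTA U U) E) Z := lift (κ E Z)

theorem ψ_pt (a : U) (e : E) (z : Z) :
    ψ E Z (pt a (pt e z)) = bq E Z (pt (pt (ta a 1) e) z) := by
  rw [ψ, lift_pt, κ_pt]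

theorem ψγ (s : PT (PTA U U) E) (z : Z) : ψ E Z (γ E Z s z) = bq E Z (pt s z) := by
  refine PT.apply_eq_of (f := (ψ E Z).comp ((γ E Z).flip z))
    (g := (bq E Z).comp ((ptL (PT (PTA U U) E) Z).flip z))
    (fun c e => ?_) s
  rw [ContinuousLinearMap.comp_apply, ContinuousLinearMap.comp_apply,
    ContinuousLinearMap.flip_apply, ContinuousLinearMap.flip_apply, γ_pt, ptL_apply]
  refine PTA.apply_eq_of (f := (ψ E Z).comp ((ContinuousLinearMap.flip (δ' E Z) e).flip z))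
    (g := ((bq E Z).comp ((ptL (PT (PTA U U) E) Z).flip z)).comp ((ptL (PTA U U) E).flip e))
    (fun a b => ?_) c
  rw [ContinuousLinearMap.comp_apply, ContinuousLinearMap.flip_apply,
    ContinuousLinearMap.flip_apply, δ'_ta, ψ_pt, ContinuousLinearMap.comp_apply,
    ContinuousLinearMap.comp_apply, ContinuousLinearMap.flip_apply,
    ContinuousLinearMap.flip_apply, ptL_apply, ptL_apply, ← bq_rel, mS_pt, ta_mul_ta,
    one_mul, mul_one]

theorem ψφ (w : BalT (freeM (PTA U U) E) Z) : ψ E Z (φ E Z w) = w := by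
  refine bq_ext E Z (f := (ψ E Z).comp (φ E Z)) (g := ContinuousLinearMap.id ℂ _)
    (fun s z => ?_) w
  rw [ContinuousLinearMap.comp_apply, ContinuousLinearMap.id_apply, φ_bq, ψγ]

theorem φ_hom (u : U) (w : BalT (freeM (PTA U U) E) Z) :
    φ E Z (bAct E Z u w) = mX E Z u (φ E Z w) := by
  refine bq_ext E Z (f := (φ E Z).comp (bAct E Z u))
    (g := (mX E Z u).comp (φ E Z)) (fun s z => ?_) w
  rw [ContinuousLinearMap.comp_apply, ContinuousLinearMap.comp_apply, bAct_bq, φ_bq, φ_bq,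
    γ_left]

theorem ψ_hom (u : U) (w : PT U (PT E Z)) : ψ E Z (mX E Z u w) = bAct E Z u (ψ E Z w) := by
  refine PT.apply_eq_of (f := (ψ E Z).comp (mX E Z u))
    (g := (bAct E Z u).comp (ψ E Z)) (fun a y => ?_) w
  rw [ContinuousLinearMap.comp_apply, ContinuousLinearMap.comp_apply, mX_pt]
  refine PT.apply_eq_of (f := (ψ E Z).comp (ptL U (PT E Z) (u * a)))
    (g := (bAct E Z u).comp ((ψ E Z).comp (ptL U (PT E Z) a)))
    (fun e z => ?_) y
  rw [ContinuousLinearMap.comp_apply, ContinuousLinearMap.comp_apply,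
    ContinuousLinearMap.comp_apply, ptL_apply, ptL_apply, ψ_pt, ψ_pt, bAct_bq, mS_pt,
    ta_mul_ta, one_mul]

/-- the retraction -/
def retr : Retr (balM (freeM (PTA U U) E) Z) (freeM U (PT E Z)) where
  i := φ E Z
  q := ψ E Z
  hi := fun u w => φ_hom E Z u w
  hq := fun u w => ψ_hom E Z u w
  qi := fun w => ψφ E Z w

end BalFreeAux

/-- `S ⊗̂_U Z` is a projective `U`-module if `S` is a free bimodule -/
theorem projective_balM_free (E : Type) [NormedAddCommGroup E] [NormedSpace ℂ E] (Z : BMod U) :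
    Projective (balM (freeM (PTA U U) E) Z) :=
  (BalFreeAux.retr E Z).projective (projective_free (PT E Z))

end Pool.Agent.Lib.BF3
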