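import Mathlib
import Pool.Agent.Lib.BF3.HDefs

/-!
# Constructions of admissible short exact sequences and retracts

PROOFS.
* `exists_ses`: take `r' = r ∘ (1 - s ∘ p)`. Then `r' (j x) = r (j x - s (p (j x))) = r (j x) = x`,
  and `j (r' x) + s (p x) = j (r (x - s (p x))) + s (p x) = x - s (p x) + s (p x)` because
  `p (x - s (p x)) = 0`.
* `exists_ses_ker`: `j = kerι f hf`, `p = f`, `s`, and `r x = kerLift` of `x ↦ x - s (f x)`.
* `IsHom.of_ker`: if `f (c x) = c (f x)` and `σ.p (f x) = 0` for all `x`, then `σ.r ∘ f` is a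
  morphism: `j (r (f (c x))) = f (c x) = c f x = c j (r (f x)) = j (c r (f x))` (`jrsp`, `pj`),
  and `j` is injective.
* `retr_of_coretraction`: put `ℓ' = (1 - g G) ℓ : K → N`. Then `h ℓ' = h ℓ - h g G ℓ = id`.
  `ℓ'` is a morphism: `d = ℓ (c w) - c ℓ w` satisfies `h d = 0`, so `d = g z` for some `z`
  (`hker`), and `(1 - g G) g z = g z - g z = 0`; since `1 - g G` is a morphism,
  `ℓ' (c w) - c ℓ' w = (1 - g G) d = 0`. So `K` is a retract of `N` with `i = ℓ'`, `q = h`.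
-/

noncomputable section

namespace Pool.Agent.Lib.BF3

variable {B : Type} [NormedCommRing B] [NormedAlgebra ℂ B]

theorem IsHom.comp {X Y Z : BMod B} {g : Y →L[ℂ] Z} {f : X →L[ℂ] Y} (hg : IsHom Y Z g)
    (hf : IsHom X Y f) : IsHom X Z (g.comp f) := by
  intro b x
  change g (f (X.act b x)) = Z.act b (g (f x))
  rw [hf, hg]

theorem IsHom.add {X Y : BMod B} {f g : X →L[ℂ] Y} (hf : IsHom X Y f)
    (hg : IsHom X Y g) : IsHom X Y (f + g) := by
  intro b x
  simp only [add_apply, map_add]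
  rw [hf, hg]

theorem IsHom.neg {X Y : BMod B} {f : X →L[ℂ] Y} (hf : IsHom X Y f) : IsHom X Y (-f) := by
  intro b x
  simp only [neg_apply, map_neg]
  rw [hf]

theorem IsHom.sub {X Y : BMod B} {f g : X →L[ℂ] Y} (hf : IsHom X Y f)
    (hg : IsHom X Y g) : IsHom X Y (f - g) := by
  intro b x
  simp only [sub_apply, map_sub]
  rw [hf, hg]

theorem isHom_id (X : BMod B) : IsHom X X (ContinuousLinearMap.id ℂ X) := fun _ _ => rfl

/-- an admissible short exact sequence from slightly weaker data -/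
theorem exists_ses {K P X : BMod B} (j : K →L[ℂ] P) (p : P →L[ℂ] X) (hj : IsHom K P j)
    (hp : IsHom P X p) (s : X →L[ℂ] P) (ps : ∀ x, p (s x) = x) (pj : ∀ x, p (j x) = 0)
    (r : P →L[ℂ] K) (rj : ∀ x, r (j x) = x) (jr : ∀ x, p x = 0 → j (r x) = x) :
    ∃ σ : SES K P X, σ.j = j ∧ σ.p = p ∧ σ.s = s := by
  have hr' : ∀ x : P, (r - r.comp (s.comp p)) x = r (x - s (p x)) := by
    intro x
    rw [map_sub]
    rfl
  refine ⟨⟨j, p, r - r.comp (s.comp p), s, hj, hp, fun x => ?_, ps, fun x => ?_⟩, rfl, rfl, rfl⟩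
  · rw [hr', pj, map_zero, sub_zero, rj]
  · rw [hr', jr _ (by rw [map_sub, ps, sub_self]), sub_add_cancel]

/-- the kernel of an admissible epimorphism -/
theorem exists_ses_ker {X Y : BMod B} (f : X →L[ℂ] Y) (hf : IsHom X Y f) (s : Y →L[ℂ] X)
    (hs : ∀ y, f (s y) = y) :
    ∃ σ : SES (kerM f hf) X Y, σ.j = kerι f hf ∧ σ.p = f ∧ σ.s = s := by
  have hg : ∀ x : X, f ((ContinuousLinearMap.id ℂ X - s.comp f) x) = 0 := by
    intro x
    change f (x - s (f x)) = 0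
    rw [map_sub, hs, sub_self]
  refine exists_ses (kerι f hf) f (isHom_kerι f hf) hf s hs (f_kerι f hf)
    (kerLift f hf (ContinuousLinearMap.id ℂ X - s.comp f) hg) ?_ ?_
  · intro x
    apply kerι_inj f hf
    rw [kerι_kerLift]
    change kerι f hf x - s (f (kerι f hf x)) = kerι f hf x
    rw [f_kerι, map_zero, sub_zero]
  · intro x hx
    rw [kerι_kerLift]
    change x - s (f x) = x
    rw [hx, map_zero, sub_zero]

theorem IsHom.of_ker {K P X Z : BMod B} (σ : SES K P X) (f : Z →L[ℂ] P) (hf : IsHom Z P f)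
    (h0 : ∀ x, σ.p (f x) = 0) : IsHom Z K (σ.r.comp f) := by
  have hjr : ∀ x, σ.j (σ.r (f x)) = f x := by
    intro x
    have h := σ.jrsp (f x)
    rw [h0, map_zero, add_zero] at h
    exact h
  intro b x
  change σ.r (f (Z.act b x)) = K.act b (σ.r (f x))
  apply σ.j_inj
  rw [hjr, hf, σ.hj, hjr]

theorem retr_of_coretraction {L N K : BMod B} (g : L →L[ℂ] N) (hg : IsHom L N g)
    (h : N →L[ℂ] K) (hh : IsHom N K h) (ℓ : K →L[ℂ] N) (hℓ : ∀ x, h (ℓ x) = x)
    (hgz : ∀ x, h (g x) = 0) (hker : ∀ x, h x = 0 → ∃ z, g z = x)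
    (G : N →L[ℂ] L) (hG : IsHom N L G) (hGg : ∀ x, G (g x) = x) : Nonempty (Retr K N) := by
  refine ⟨⟨ℓ - g.comp (G.comp ℓ), h, ?_, hh, ?_⟩⟩
  · intro b w
    change ℓ (K.act b w) - g (G (ℓ (K.act b w))) = N.act b (ℓ w - g (G (ℓ w)))
    have h1 : h (ℓ (K.act b w) - N.act b (ℓ w)) = 0 := by
      rw [map_sub, hℓ, hh, hℓ, sub_self]
    obtain ⟨z, hz⟩ := hker _ h1
    have h2 : g (G (ℓ (K.act b w) - N.act b (ℓ w))) = ℓ (K.act b w) - N.act b (ℓ w) := by
      rw [← hz, hGg]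
    rw [map_sub, map_sub, hG, hg] at h2
    rw [map_sub]
    have h3 : g (G (ℓ (K.act b w))) =
        ℓ (K.act b w) - N.act b (ℓ w) + N.act b (g (G (ℓ w))) := by
      rw [← h2, sub_add_cancel]
    rw [h3]
    abel
  · intro y
    change h (ℓ y - g (G (ℓ y))) = y
    rw [map_sub, hℓ, hgz, sub_zero]

end Pool.Agent.Lib.BF3
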