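import Mathlib
import Pool.Agent.Lib.BF3.HDefs

/-!
# Projective modules: the lifting property

PROOF. Let `ρ : P → B ⊗̂ P` be the morphism with `actMap P ∘ ρ = id`. Put
`G = actMap Y ∘ (1_B ⊗ (t ∘ g)) ∘ ρ`, that is
`G = ((actMap Y).comp (ptMap (ContinuousLinearMap.id ℂ B) (t.comp g))).comp ρ`.
* `G` is a morphism: `ρ` is one, `1 ⊗ (t ∘ g) : freeM B P → freeM B Y` is one and
  `actMap Y : freeM B Y → Y` is one (check on elementary tensors, `PT.apply_eq_of`,
  `freeM_act_pt`, `BMod.act_mul`).
* `q (G x) = g x`: on elementary tensors `q (actMap Y (b ⊗ t (g x))) = q (b · t (g x))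
  = b · q (t (g x)) = b · g x = g (b · x) = g (actMap P (b ⊗ x))`, hence
  `q ∘ actMap Y ∘ (1 ⊗ t g) = g ∘ actMap P` on `B ⊗̂ P`, and `actMap P ∘ ρ = id`.
-/

noncomputable section

namespace Pool.Agent.Lib.BF3

variable {B : Type} [NormedCommRing B] [NormedAlgebra ℂ B]

/-- the action map is a morphism `B ⊗̂ X → X` -/
theorem isHom_actMap (X : BMod B) : IsHom (freeM B X) X (actMap X) := by
  intro b z
  refine PT.apply_eq_of (f := (actMap X).comp
      (ptMapL B B X (ContinuousLinearMap.mul ℂ B b)))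
    (g := (X.act b).comp (actMap X)) (fun c y => ?_) z
  simp [X.act_mul]

/-- `1 ⊗ g` is a morphism of free modules -/
theorem isHom_freeMap {E F : Type} [NormedAddCommGroup E] [NormedSpace ℂ E]
    [NormedAddCommGroup F] [NormedSpace ℂ F] (g : E →L[ℂ] F) :
    IsHom (freeM B E) (freeM B F) (ptMap (ContinuousLinearMap.id ℂ B) g) := by
  intro b z
  refine PT.apply_eq_of (f := (ptMap (ContinuousLinearMap.id ℂ B) g).comp
      (ptMapL B B E (ContinuousLinearMap.mul ℂ B b)))
    (g := (ptMapL B B F (ContinuousLinearMap.mul ℂ B b)).comp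
      (ptMap (ContinuousLinearMap.id ℂ B) g)) (fun c y => ?_) z
  simp

/-- a projective module has the lifting property with respect to admissible epimorphisms -/
theorem Projective.lift {P Y Z : BMod B} (hP : Projective P) (q : Y →L[ℂ] Z) (hq : IsHom Y Z q)
    (t : Z →L[ℂ] Y) (ht : ∀ z, q (t z) = z) (g : P →L[ℂ] Z) (hg : IsHom P Z g) :
    ∃ G : P →L[ℂ] Y, IsHom P Y G ∧ ∀ x, q (G x) = g x := by
  obtain ⟨ρ, hρ, hρ'⟩ := hP
  refine ⟨((actMap Y).comp (ptMap (ContinuousLinearMap.id ℂ B) (t.comp g))).comp ρ, ?_, ?_⟩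
  · intro b x
    have h1 := hρ b x
    have h2 := isHom_freeMap (B := B) (t.comp g) b (ρ x)
    have h3 := isHom_actMap Y b (ptMap (ContinuousLinearMap.id ℂ B) (t.comp g) (ρ x))
    rw [ContinuousLinearMap.comp_apply, ContinuousLinearMap.comp_apply,
      ContinuousLinearMap.comp_apply, ContinuousLinearMap.comp_apply]
    exact (congrArg (fun w => actMap Y (ptMap (ContinuousLinearMap.id ℂ B) (t.comp g) w)) h1).trans
      ((congrArg (fun w => actMap Y w) h2).trans h3)
  · intro x
    have key : ∀ z : PT B P, q (actMap Y (ptMap (ContinuousLinearMap.id ℂ B) (t.comp g) z))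
        = g (actMap P z) := by
      intro z
      refine PT.apply_eq_of
        (f := q.comp ((actMap Y).comp (ptMap (ContinuousLinearMap.id ℂ B) (t.comp g))))
        (g := g.comp (actMap P)) (fun c y => ?_) z
      simp only [ContinuousLinearMap.comp_apply, ptMap_pt, actMap_pt,
        ContinuousLinearMap.id_apply]
      rw [hq, ht, hg]
    have := key (ρ x)
    rw [hρ'] at this
    exact this

end Pool.Agent.Lib.BF3
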