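import Mathlib
import Pool.Agent.Lib.BF3.ProjLift
import Pool.Agent.Lib.BF3.KerSES

/-!
# Schanuel's lemma; splitting

PROOF of `schanuel`. `σ : SES K P X`, `σ' : SES K' P' X`. By `Projective.lift` there are morphisms
`G : P → P'` with `σ'.p (G x) = σ.p x` and `G' : P' → P` with `σ.p (G' x) = σ'.p x`. Put
`i k = (-σ'.r (G (σ.j k)), σ.j k)` and `q (k', x) = σ.r (x - G' (σ'.j k' + G x))`.
* `σ'.p (G (σ.j k)) = σ.p (σ.j k) = 0`, so `σ'.j (σ'.r (G (σ.j k))) = G (σ.j k)` and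
  `q (i k) = σ.r (σ.j k - G' (-(G (σ.j k)) + G (σ.j k))) = σ.r (σ.j k) = k`.
* `i`, `q` are morphisms by `IsHom.of_ker` (`σ.p (x - G' (σ'.j k' + G x)) = σ.p x - σ'.p (σ'.j k'
  + G x) = σ.p x - σ.p x = 0`).

PROOF of `SES.coretr`. Lift `id_K` to a morphism `G : K → R` with `σ.p (G x) = x` and take
`v = σ.r ∘ (1 - G ∘ σ.p)` (a morphism by `IsHom.of_ker`); `v (σ.j x) = σ.r (σ.j x) = x`.
-/

noncomputable section

namespace Pool.Agent.Lib.BF3

variable {B : Type} [NormedCommRing B] [NormedAlgebra ℂ B]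

private def fstM (X Y : BMod B) : prodM X Y →L[ℂ] X := ContinuousLinearMap.fst ℂ X Y

private def sndM (X Y : BMod B) : prodM X Y →L[ℂ] Y := ContinuousLinearMap.snd ℂ X Y

private theorem isHom_fstM (X Y : BMod B) : IsHom (prodM X Y) X (fstM X Y) := fun _ _ => rfl

private theorem isHom_sndM (X Y : BMod B) : IsHom (prodM X Y) Y (sndM X Y) := fun _ _ => rfl

theorem schanuel {K P K' P' X : BMod B} (σ : SES K P X) (σ' : SES K' P' X) (hP : Projective P)
    (hP' : Projective P') : Nonempty (Retr K (prodM K' P)) := by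
  obtain ⟨G, hG, hGp⟩ := hP.lift σ'.p σ'.hp σ'.s σ'.ps σ.p σ.hp
  obtain ⟨G', hG', hGp'⟩ := hP'.lift σ.p σ.hp σ.s σ.ps σ'.p σ'.hp
  have hi1 : IsHom K K' (σ'.r.comp (-(G.comp σ.j))) :=
    IsHom.of_ker σ' _ (IsHom.neg (IsHom.comp hG σ.hj)) (by
      intro x
      simp [hGp, σ.pj])
  have hq : IsHom (prodM K' P) K
      (σ.r.comp (sndM K' P - G'.comp (σ'.j.comp (fstM K' P) + G.comp (sndM K' P)))) :=
    IsHom.of_ker σ _ (IsHom.sub (isHom_sndM _ _) (IsHom.comp hG'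
      (IsHom.add (IsHom.comp σ'.hj (isHom_fstM _ _)) (IsHom.comp hG (isHom_sndM _ _))))) (by
      intro x
      simp [hGp, hGp', σ'.pj])
  let i : K →L[ℂ] (prodM K' P) := ContinuousLinearMap.prod (σ'.r.comp (-(G.comp σ.j))) σ.j
  refine ⟨⟨i, _, ?_, hq, ?_⟩⟩
  · intro b x
    exact Prod.ext (hi1 b x) (σ.hj b x)
  · intro y
    have h1 : fstM K' P (i y) = -σ'.r (G (σ.j y)) := by
      change σ'.r (-(G (σ.j y))) = _
      rw [map_neg]
    have h2 : sndM K' P (i y) = σ.j y := rfl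
    have h3 : σ'.j (σ'.r (G (σ.j y))) = G (σ.j y) := by
      have h := σ'.jrsp (G (σ.j y))
      rw [hGp, σ.pj, map_zero, add_zero] at h
      exact h
    change σ.r (sndM K' P (i y) - G' (σ'.j (fstM K' P (i y)) + G (sndM K' P (i y)))) = y
    rw [h1, h2, map_neg, h3, neg_add_cancel, map_zero, sub_zero, σ.rj]

/-- an admissible short exact sequence with projective quotient splits -/
theorem SES.coretr {L R K : BMod B} (σ : SES L R K) (hK : Projective K) :
    ∃ v : R →L[ℂ] L, IsHom R L v ∧ ∀ x, v (σ.j x) = x := by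
  obtain ⟨G, hG, hGp⟩ := hK.lift σ.p σ.hp σ.s σ.ps (ContinuousLinearMap.id ℂ K) (isHom_id K)
  refine ⟨_, IsHom.of_ker σ (ContinuousLinearMap.id ℂ R - G.comp σ.p)
    (IsHom.sub (isHom_id R) (IsHom.comp hG σ.hp)) ?_, ?_⟩
  · intro x
    simp [hGp]
  · intro x
    change σ.r (σ.j x - G (σ.p (σ.j x))) = x
    rw [σ.pj, map_zero, sub_zero, σ.rj]

/-- an admissible short exact sequence with projective quotient splits, second form -/
theorem SES.section_of_projective {L R K : BMod B} (σ : SES L R K) (hK : Projective K) :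
    ∃ t : K →L[ℂ] R, IsHom K R t ∧ ∀ x, σ.p (t x) = x := by
  obtain ⟨G, hG, hGp⟩ := hK.lift σ.p σ.hp σ.s σ.ps (ContinuousLinearMap.id ℂ K) (isHom_id K)
  exact ⟨G, hG, fun x => hGp x⟩

end Pool.Agent.Lib.BF3
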