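import Mathlib
import Pool.Agent.Lib.BF3.Bal
import Pool.Agent.Lib.BF3.ProjBasic
import Pool.Agent.Lib.BF3.Schan

/-!
# The functor `S ↦ S ⊗̂_U Z` on admissible sequences

PROOFS. `isHom_balMap`: `BalT.apply_eq_of`, `balM_act_balq`, `balMap_balq`.
`Retr.bal`: `balMap Z R.i`, `balMap Z R.q`; the composition is the identity by `BalT.apply_eq_of`.
(A morphism of bimodules commutes with the right actions.)
`SES.bal`: `resR X` is projective, so by `SES.section_of_projective` applied to the admissible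
sequence of right modules `resR K → resR P → resR X` (same maps; they are morphisms because
`resR_act`) there is a bounded linear right section `t : X → P`, `p t = id`,
`t (x u) = t (x) u`. Put `r' = σ.r ∘ (1 - t p)`, a right linear map (the argument of
`IsHom.of_ker`), with `r' j = id`, `j r' + t p = id`. The maps `balMap Z` of `j, p, r', t` form an
admissible sequence; all identities hold on `balq (s ⊗ z)` (`BalT.apply_eq_of`).
`SES.resR_projective`: with the same `t`, `r'`, the module `resR K` is a retract of `resR P`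
(`i = j`, `q = r'`).
-/

noncomputable section

namespace Pool.Agent.Lib.BF3

variable {U : Type} [NormedCommRing U] [NormedAlgebra ℂ U]

theorem isRHom_of_isHom {S S' : BMod (PTA U U)} {T : S →L[ℂ] S'} (hT : IsHom S S' T) :
    IsRHom S S' T := fun u s => hT (ta 1 u) s

theorem isHom_balMap (Z : BMod U) {S S' : BMod (PTA U U)} {T : S →L[ℂ] S'} (hT : IsHom S S' T) :
    IsHom (balM S Z) (balM S' Z) (balMap Z T (isRHom_of_isHom hT)) := by
  intro u w
  refine BalT.apply_eq_of
    (f := (balMap Z T (isRHom_of_isHom hT)).comp ((balM S Z).act u))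
    (g := ((balM S' Z).act u : BalT S' Z →L[ℂ] BalT S' Z).comp
      (balMap Z T (isRHom_of_isHom hT))) (fun s z => ?_) w
  have h1 : (balM S Z).act u (balq S Z (pt s z)) = balq S Z (pt (S.act (ta u 1) s) z) :=
    balM_act_balq u s z
  have h2 : (balM S' Z).act u (balq S' Z (pt (T s) z))
      = balq S' Z (pt (S'.act (ta u 1) (T s)) z) := balM_act_balq u (T s) z
  change balMap Z T (isRHom_of_isHom hT) ((balM S Z).act u (balq S Z (pt s z)))
    = (balM S' Z).act u (balMap Z T (isRHom_of_isHom hT) (balq S Z (pt s z)))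
  rw [h1, balMap_balq, balMap_balq, h2, hT]

theorem Retr.bal (Z : BMod U) {S S' : BMod (PTA U U)} (R : Retr S S') :
    Nonempty (Retr (balM S Z) (balM S' Z)) := by
  refine ⟨⟨balMap Z R.i (isRHom_of_isHom R.hi), balMap Z R.q (isRHom_of_isHom R.hq),
    isHom_balMap Z R.hi, isHom_balMap Z R.hq, fun w => ?_⟩⟩
  refine BalT.apply_eq_of
    (f := (balMap Z R.q (isRHom_of_isHom R.hq)).comp (balMap Z R.i (isRHom_of_isHom R.hi)))
    (g := ContinuousLinearMap.id ℂ _) (fun s z => ?_) w
  simp only [ContinuousLinearMap.comp_apply, balMap_balq, R.qi, ContinuousLinearMap.id_apply]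

/-- the sequence of the underlying right modules -/
private def sesR {K P X : BMod (PTA U U)} (σ : SES K P X) :
    SES (resR K) (resR P) (resR X) where
  j := σ.j
  p := σ.p
  r := σ.r
  s := σ.s
  hj := fun u x => σ.hj (ta 1 u) x
  hp := fun u x => σ.hp (ta 1 u) x
  rj := σ.rj
  ps := σ.ps
  jrsp := σ.jrsp

/-- right linear splitting maps -/
private theorem exists_rsplit {K P X : BMod (PTA U U)} (σ : SES K P X)
    (hX : Projective (resR X)) : ∃ (t : X →L[ℂ] P) (r' : P →L[ℂ] K), IsRHom X P t ∧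
      IsRHom P K r' ∧ (∀ x, r' (σ.j x) = x) ∧ (∀ x, σ.p (t x) = x) ∧
      ∀ x, σ.j (r' x) + t (σ.p x) = x := by
  obtain ⟨t, ht, hpt⟩ : ∃ t : X →L[ℂ] P, IsHom (resR X) (resR P) t ∧ ∀ x, σ.p (t x) = x :=
    SES.section_of_projective (sesR σ) hX
  have hf : IsHom (resR P) (resR P)
      (ContinuousLinearMap.id ℂ P - t.comp σ.p) :=
    (isHom_id (resR P)).sub (IsHom.comp ht (sesR σ).hp)
  have h0 : ∀ x, σ.p ((ContinuousLinearMap.id ℂ P - t.comp σ.p) x) = 0 := by
    intro x
    have h1 : σ.p (t (σ.p x)) = σ.p x := hpt (σ.p x)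
    change σ.p (x - t (σ.p x)) = 0
    rw [map_sub, h1, sub_self]
  have hr : IsHom (resR P) (resR K)
      (σ.r.comp (ContinuousLinearMap.id ℂ P - t.comp σ.p)) :=
    IsHom.of_ker (sesR σ) _ hf h0
  refine ⟨t, σ.r.comp (ContinuousLinearMap.id ℂ P - t.comp σ.p),
    fun u x => ht u x, fun u x => hr u x, fun x => ?_, hpt, fun x => ?_⟩
  · change σ.r (σ.j x - t (σ.p (σ.j x))) = x
    rw [σ.pj, map_zero, sub_zero, σ.rj]
  · change σ.j (σ.r (x - t (σ.p x))) + t (σ.p x) = x
    have h1 : σ.p (x - t (σ.p x)) = 0 := h0 x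
    have h2 := σ.jrsp (x - t (σ.p x))
    rw [h1, map_zero, add_zero] at h2
    rw [h2, sub_add_cancel]

theorem SES.bal (Z : BMod U) {K P X : BMod (PTA U U)} (σ : SES K P X)
    (hX : Projective (resR X)) : Nonempty (SES (balM K Z) (balM P Z) (balM X Z)) := by
  obtain ⟨t, r', ht, hr, h1, h2, h3⟩ := exists_rsplit σ hX
  refine ⟨⟨balMap Z σ.j (isRHom_of_isHom σ.hj), balMap Z σ.p (isRHom_of_isHom σ.hp),
    balMap Z r' hr, balMap Z t ht, isHom_balMap Z σ.hj, isHom_balMap Z σ.hp,
    fun w => ?_, fun w => ?_, fun w => ?_⟩⟩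
  · refine BalT.apply_eq_of
      (f := (balMap Z r' hr).comp (balMap Z σ.j (isRHom_of_isHom σ.hj)))
      (g := ContinuousLinearMap.id ℂ _) (fun s z => ?_) w
    simp only [ContinuousLinearMap.comp_apply, balMap_balq, h1, ContinuousLinearMap.id_apply]
  · refine BalT.apply_eq_of
      (f := (balMap Z σ.p (isRHom_of_isHom σ.hp)).comp (balMap Z t ht))
      (g := ContinuousLinearMap.id ℂ _) (fun s z => ?_) w
    simp only [ContinuousLinearMap.comp_apply, balMap_balq, h2, ContinuousLinearMap.id_apply]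
  · refine BalT.apply_eq_of
      (f := (balMap Z σ.j (isRHom_of_isHom σ.hj)).comp (balMap Z r' hr)
        + (balMap Z t ht).comp (balMap Z σ.p (isRHom_of_isHom σ.hp)))
      (g := ContinuousLinearMap.id ℂ _) (fun s z => ?_) w
    simp only [add_apply, ContinuousLinearMap.comp_apply, balMap_balq,
      ContinuousLinearMap.id_apply]
    rw [← map_add, ← pt_add_left, h3]

theorem SES.resR_projective {K P X : BMod (PTA U U)} (σ : SES K P X)
    (hX : Projective (resR X)) (hP : Projective (resR P)) : Projective (resR K) := by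
  obtain ⟨t, r', ht, hr, h1, h2, h3⟩ := exists_rsplit σ hX
  exact Retr.projective (Y := resR K) (X := resR P)
    ⟨σ.j, r', fun u x => σ.hj (ta 1 u) x, fun u x => hr u x, h1⟩ hP

end Pool.Agent.Lib.BF3
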