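import Mathlib
import Pool.Agent.Lib.BF3.Atom2

/-!
# Transversals far out

PROOF of `exists_Ms`: for each list `s` there is `M` such that for all `j ≥ M` and all lists `w`
there is `τ : ℕ → List ℕ` with `τ j = w` and `m (s, τ) ≤ j`. Suppose not: for every `M` there are
`j ≥ M` and `w` such that `j < m (s, τ)` for all `τ` with `τ j = w`. Choose a strictly increasing
sequence `j 0 < j 1 < ...` of such numbers, with lists `w 0, w 1, ...`
(`Nat.rec` / `exists_seq_strictMono`-type argument), and `τ` with `τ (j i) = w i` for all `i` (and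
`τ n = []` elsewhere; `j` is injective). Then `j i < m (s, τ)` for all `i`, but `j i ≥ i`
(`StrictMono.le_apply`): absurd for `i = m (s, τ)`.

PROOF of `exists_transversal`. Let `M s` be as above. Put `s_0 = []`, `j_i = M (s_i)`,
`s_{i+1} = s_i ++ [j_i]` (so `s_i` has length `i`), `q = s_C`. For `i < C` there is a list `w_i` with
`q = s_i ++ (j_i :: w_i)` (induction on `C - i`, or `w_i` = the entries of `q` after position `i`;
one may take `w_i = q.drop (i+1)`). Choose `τ_i` with `τ_i j_i = w_i` and `m (s_i, τ_i) ≤ j_i`, and let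
`t_i = ((s_i, τ_i), j_i)`, so that `col t_i = q` and `kk t_i.1 = encode s_i`. The codes are
distinct since the lists have different lengths. `F = {t_i : i < C}` (`Finset.image` of the
injective map `i ↦ t_i` on `Finset.range C`).
-/

noncomputable section

namespace Pool.Agent.Lib.BF3

theorem exists_Ms (m : Xs → ℕ) (s : List ℕ) :
    ∃ M : ℕ, ∀ j, M ≤ j → ∀ w : List ℕ, ∃ τ : ℕ → List ℕ, τ j = w ∧ m (s, τ) ≤ j := by
  classical
  by_contra h
  push Not at h
  set τ : ℕ → List ℕ := fun j =>
    if hj : ∃ w, ∀ τ : ℕ → List ℕ, τ j = w → j < m (s, τ) then hj.choose else [] with hτ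
  obtain ⟨j, hj, hw⟩ := h (m (s, τ))
  have h2 : j < m (s, τ) := by
    refine hw.choose_spec τ ?_
    rw [hτ]
    simp only
    rw [dif_pos hw]
  omega

/-- for every function `m` there are arbitrarily large transversals consisting of atoms `(x, j)`
with `j ≥ m x` -/
theorem exists_transversal (m : Xs → ℕ) (C : ℕ) :
    ∃ F : Finset Ts, F.card = C ∧ (∀ t ∈ F, m t.1 ≤ t.2) ∧
      ∀ t ∈ F, ∀ t' ∈ F, col t = col t' ∧ (kk t.1 = kk t'.1 → t = t') := by
  classical
  choose M hM using exists_Ms m
  let S : ℕ → List ℕ := fun i => Nat.rec [] (fun _ l => l ++ [M l]) i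
  have hS : ∀ i, S (i + 1) = S i ++ [M (S i)] := fun i => rfl
  have hlen : ∀ i, (S i).length = i := by
    intro i
    induction i with
    | zero => rfl
    | succ i ih => rw [hS, List.length_append, ih]; rfl
  have hdec : ∀ i n, ∃ w, S (i + 1 + n) = S i ++ (M (S i) :: w) := by
    intro i n
    induction n with
    | zero => exact ⟨[], by rw [Nat.add_zero, hS]⟩
    | succ n ih =>
      obtain ⟨w, hw⟩ := ih
      refine ⟨w ++ [M (S (i + 1 + n))], ?_⟩
      rw [← Nat.add_assoc, hS (i + 1 + n)]
      rw [hw]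
      simp
  have key : ∀ i : Fin C, ∃ t : Ts, t.1.1 = S i ∧ col t = S C ∧ m t.1 ≤ t.2 := by
    intro i
    obtain ⟨w, hw⟩ := hdec i (C - 1 - i)
    have e : (i : ℕ) + 1 + (C - 1 - i) = C := by have := i.2; omega
    rw [e] at hw
    obtain ⟨τ, h1, h2⟩ := hM (S i) (M (S i)) le_rfl w
    refine ⟨((S i, τ), M (S i)), rfl, ?_, h2⟩
    unfold col
    simp only
    rw [h1, hw]
  choose t h1 h2 h3 using key
  have hinj : ∀ i i' : Fin C, (t i).1.1 = (t i').1.1 → i = i' := by
    intro i i' h
    rw [h1, h1] at h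
    have h4 := congrArg List.length h
    rw [hlen, hlen] at h4
    exact Fin.ext h4
  refine ⟨Finset.univ.image t, ?_, ?_, ?_⟩
  · rw [Finset.card_image_of_injective, Finset.card_univ, Fintype.card_fin]
    intro i i' h
    exact hinj i i' (by rw [h])
  · intro u hu
    rw [Finset.mem_image] at hu
    obtain ⟨i, -, rfl⟩ := hu
    exact h3 i
  · intro u hu u' hu'
    rw [Finset.mem_image] at hu hu'
    obtain ⟨i, -, rfl⟩ := hu
    obtain ⟨i', -, rfl⟩ := hu'
    refine ⟨by rw [h2, h2], fun h => ?_⟩
    have h4 : i = i' := hinj i i' (Encodable.encode_injective h)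
    rw [h4]

end Pool.Agent.Lib.BF3
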