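import Mathlib
import Pool.Agent.Lib.BF3.Atom2

/-!
# Atoms far out with small different codes have different columns

PROOF. The set of lists `s` with `encode s ≤ n` is finite (`Encodable.encode` is injective), so
there is `M` larger than all entries of all these lists. Let `t = ((s, τ), j)`,
`t' = ((s', τ'), j')` with `encode s, encode s' ≤ n`, `s ≠ s'`, `j, j' ≥ M`, and suppose
`s ++ (j :: w) = s' ++ (j' :: w')`. If `s.length = s'.length` then `s = s'`
(`List.append_inj`), contradiction. If `s.length < s'.length` then the entry number `s.length` of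
the left side is `j ≥ M`, the entry number `s.length` of the right side is an entry of `s'`, so
`< M`: contradiction. The case `s'.length < s.length` is symmetric.
-/

noncomputable section

namespace Pool.Agent.Lib.BF3

private theorem exists_bd (n : ℕ) :
    ∃ M : ℕ, ∀ s : List ℕ, Encodable.encode s ≤ n → ∀ a ∈ s, a < M := by
  have hfin : {s : List ℕ | Encodable.encode s ≤ n}.Finite :=
    Set.Finite.preimage (Encodable.encode_injective.injOn) (Set.finite_Iic n)
  refine ⟨(hfin.toFinset.biUnion fun s => s.toFinset).sup id + 1, fun s hs a ha => ?_⟩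
  have h1 : a ∈ hfin.toFinset.biUnion fun s => s.toFinset := by
    rw [Finset.mem_biUnion]
    exact ⟨s, by simpa using hs, by simpa using ha⟩
  have h2 : a ≤ (hfin.toFinset.biUnion fun s => s.toFinset).sup id :=
    Finset.le_sup (f := id) h1
  omega

private theorem lt_aux {M : ℕ} (s s' w w' : List ℕ) (j j' : ℕ) (hs' : ∀ a ∈ s', a < M)
    (hj : M ≤ j) (hl : s.length < s'.length) (h : s ++ (j :: w) = s' ++ (j' :: w')) : False := by
  have h1 : (s ++ (j :: w))[s.length]? = some j := by
    rw [List.getElem?_append_right le_rfl]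
    simp
  have h2 : (s' ++ (j' :: w'))[s.length]? = some (s'[s.length]) := by
    rw [List.getElem?_append_left hl, List.getElem?_eq_getElem hl]
  rw [h, h2] at h1
  have h3 : s'[s.length] = j := Option.some_injective _ h1
  have h4 := hs' _ (List.getElem_mem hl)
  omega

theorem exists_mn (n : ℕ) : ∃ M : ℕ, ∀ t t' : Ts, kk t.1 ≤ n → kk t'.1 ≤ n → kk t.1 ≠ kk t'.1 →
    M ≤ t.2 → M ≤ t'.2 → col t ≠ col t' := by
  obtain ⟨M, hM⟩ := exists_bd n
  refine ⟨M, ?_⟩
  rintro t t' h1 h2 hne hj hj' heq
  rcases lt_trichotomy t.1.1.length t'.1.1.length with hl | hl | hl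
  · exact lt_aux _ _ _ _ _ _ (hM _ h2) hj hl heq
  · apply hne
    have := (List.append_inj heq hl).1
    unfold kk
    rw [this]
  · exact lt_aux _ _ _ _ _ _ (hM _ h1) hj' hl heq.symm

end Pool.Agent.Lib.BF3
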