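import Mathlib
import Pool.Agent.Lib.BF3.Atom2

/-!
# Coordinate functionals on atomic sequence spaces

PROOFS.
* `bdd_coord`: the sum is `g s` (or `0`), of modulus at most `1`.
* `atomSeminorm_le` (a bounded seminorm that is at most `1` on the generators is at most the norm;
  here for a finite family of operators): let `N a = ∑ k ∈ s, ‖T k a‖`, a continuous function on
  `Atom K` with `N (a + b) ≤ N a + N b`, `N (c a) = |c| N a`. For a list of generators,
  `N (∑ c_i g_i) ≤ ∑ |c_i|` by induction on the list, so `N ≤ atomNorm` on finitely supported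
  functions (`exists_lt_of_atomNorm_lt`), and on `Atom K` by density
  (`UniformSpace.Completion.induction_on`, both sides continuous). Model: the proof of
  `norm_alift_le` / `norm_lin_le` in `Atom.lean`.
* `coord_sep`, `coord_tendsto`: for a finite set `H ⊆ S` the restriction
  `P_H = alift K (fun s => if s ∈ H then δ K s else 0)` has norm at most `1` (the restriction of a
  generator is a generator, `K.down`), and `P_H a = ∑_{s ∈ H} coord K s a • δ K s` (both sides are
  bounded linear in `a`, equal on `δ`). The set of `a` with `P_H a → a` along `Finset` `atTop` is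
  closed (as `‖P_H‖ ≤ 1`) and contains the finitely supported functions. If all coordinates of `a`
  are `0` then `P_H a = 0` for all `H`, so `a = 0`. If `‖a - b‖ < ε` with `b` finitely supported
  then `‖coord K s a‖ < ε` outside the support of `b` (`norm_coord_le`).
-/

noncomputable section

namespace Pool.Agent.Lib.BF3

variable {S : Type}

open Classical in
private theorem sum_coord (g : S →₀ ℂ) (s : S) :
    (g.sum fun s' c => c • (if s' = s then (1 : ℂ) else 0)) = g s := by
  rw [Finsupp.sum, Finset.sum_eq_single s]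
  · simp
  · intro b _ hb
    simp [hb]
  · intro h
    simpa using h

open Classical in
theorem bdd_coord (K : Cx S) (s : S) : Bdd K (fun s' => if s' = s then (1 : ℂ) else 0) 1 := by
  refine ⟨zero_le_one, fun g hg => ?_⟩
  rw [sum_coord]
  exact hg.2 s

open Classical in
/-- the coordinate functional -/
def coord (K : Cx S) (s : S) : Atom K →L[ℂ] ℂ := alift K fun s' => if s' = s then (1 : ℂ) else 0

open Classical in
theorem coord_δ (K : Cx S) (s s' : S) : coord K s (δ K s') = if s' = s then 1 else 0 :=
  alift_δ (bdd_coord K s) s'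

theorem norm_coord_le (K : Cx S) (s : S) (a : Atom K) : ‖coord K s a‖ ≤ ‖a‖ := by
  have := norm_alift_le (bdd_coord K s) a
  rwa [one_mul] at this

/-- a sum of norms of operators is at most the norm if it is at most one on the generators -/
theorem atomSeminorm_le {Z ι : Type} [NormedAddCommGroup Z] [NormedSpace ℂ Z] (K : Cx S)
    (s : Finset ι) (T : ι → Atom K →L[ℂ] Z) (h : ∀ g ∈ K.gen, ∑ k ∈ s, ‖T k (aι K g)‖ ≤ 1)
    (a : Atom K) : ∑ k ∈ s, ‖T k a‖ ≤ ‖a‖ := by
  have key : ∀ l : List (ℂ × PreAtom K), (∀ p ∈ l, p.2 ∈ K.gen) →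
      ∑ k ∈ s, ‖T k (aι K (PreAtom.lsum l))‖ ≤ PreAtom.lnorm l := by
    intro l
    induction l with
    | nil =>
      intro _
      have : aι K (PreAtom.lsum ([] : List (ℂ × PreAtom K))) = 0 := map_zero (aι K)
      simp [this, PreAtom.lnorm]
    | cons p l ih =>
      intro hp
      have e1 : aι K (PreAtom.lsum (p :: l)) = p.1 • aι K p.2 + aι K (PreAtom.lsum l) := by
        rw [PreAtom.lsum_cons]
        refine (map_add (aι K) _ _).trans ?_
        exact congrArg (· + aι K (PreAtom.lsum l)) (map_smul (aι K) p.1 p.2)
      rw [e1, PreAtom.lnorm_cons]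
      calc ∑ k ∈ s, ‖T k (p.1 • aι K p.2 + aι K (PreAtom.lsum l))‖
          ≤ ∑ k ∈ s, (‖p.1‖ * ‖T k (aι K p.2)‖ + ‖T k (aι K (PreAtom.lsum l))‖) := by
            refine Finset.sum_le_sum fun k _ => ?_
            rw [map_add, map_smul, ← norm_smul]
            exact norm_add_le _ _
        _ = ‖p.1‖ * ∑ k ∈ s, ‖T k (aι K p.2)‖ + ∑ k ∈ s, ‖T k (aι K (PreAtom.lsum l))‖ := by
            rw [Finset.sum_add_distrib, Finset.mul_sum]
        _ ≤ ‖p.1‖ * 1 + PreAtom.lnorm l := by
            refine add_le_add ?_ (ih fun q hq => hp q (by simp [hq]))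
            exact mul_le_mul_of_nonneg_left (h _ (hp p (by simp))) (norm_nonneg _)
        _ = ‖p.1‖ + PreAtom.lnorm l := by rw [mul_one]
  induction a using UniformSpace.Completion.induction_on with
  | hp => exact isClosed_le (by fun_prop) (by fun_prop)
  | ih a =>
    rw [UniformSpace.Completion.norm_coe, PreAtom.norm_def]
    refine le_of_forall_pos_le_add fun ε hε => ?_
    obtain ⟨l, h1, rfl, hl⟩ := exists_lt_of_atomNorm_lt (a := a) (r := atomNorm a + ε)
      (by linarith)
    exact (key l h1).trans hl.le

open Classical in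
private def restr (K : Cx S) (H : Finset S) : Atom K →L[ℂ] Atom K :=
  alift K fun s => if s ∈ H then δ K s else 0

open Classical in
private theorem sum_restr (K : Cx S) (H : Finset S) (g : S →₀ ℂ) :
    (g.sum fun s c => c • (if s ∈ H then δ K s else 0)) = aι K (g.filter (· ∈ H)) := by
  rw [aι_eq_sum, Finsupp.sum, Finsupp.sum, Finsupp.support_filter, Finset.sum_filter]
  refine Finset.sum_congr rfl fun s _ => ?_
  split_ifs with h
  · rw [Finsupp.filter_apply_pos _ _ h]
  · simp

open Classical in
private theorem bdd_restr (K : Cx S) (H : Finset S) :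
    Bdd K (fun s => if s ∈ H then δ K s else 0) 1 := by
  refine ⟨zero_le_one, fun g hg => ?_⟩
  rw [sum_restr]
  refine norm_aι_le_one ⟨?_, fun s => ?_⟩
  · rw [Finsupp.support_filter]
    exact K.down _ hg.1 _ (Finset.filter_subset _ _)
  · rw [Finsupp.filter_apply]
    split_ifs
    · exact hg.2 s
    · simp

private theorem norm_restr_le (K : Cx S) (H : Finset S) (a : Atom K) : ‖restr K H a‖ ≤ ‖a‖ := by
  have := norm_alift_le (bdd_restr K H) a
  rwa [one_mul] at this

private theorem restr_aι (K : Cx S) (H : Finset S) (g : S →₀ ℂ) (hg : g.support ⊆ H) :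
    restr K H (aι K g) = aι K g := by
  classical
  have h1 : restr K H (aι K g) = _ := alift_aι (bdd_restr K H) g
  rw [h1, sum_restr]
  congr 1
  rw [Finsupp.filter_eq_self_iff]
  intro s hs
  exact hg (Finsupp.mem_support_iff.2 hs)

private theorem restr_eq (K : Cx S) (H : Finset S) (a : Atom K) :
    restr K H a = ∑ s ∈ H, coord K s a • δ K s := by
  classical
  have h1 : restr K H = ∑ s ∈ H, (coord K s).smulRight (δ K s) := by
    refine Atom.ext_of fun s => ?_
    have h2 : restr K H (δ K s) = _ := alift_δ (bdd_restr K H) s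
    rw [h2]
    simp only [ContinuousLinearMap.coe_sum', Finset.sum_apply,
      ContinuousLinearMap.smulRight_apply, coord_δ]
    by_cases hs : s ∈ H
    · rw [if_pos hs, Finset.sum_eq_single s]
      · simp
      · intro b _ hb
        rw [if_neg (Ne.symm hb), zero_smul]
      · intro h
        exact absurd hs h
    · rw [if_neg hs]
      refine (Finset.sum_eq_zero fun b hb => ?_).symm
      have : s ≠ b := fun h => hs (h ▸ hb)
      rw [if_neg this, zero_smul]
  rw [h1]
  simp only [ContinuousLinearMap.coe_sum', Finset.sum_apply,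
    ContinuousLinearMap.smulRight_apply]

private theorem exists_near (K : Cx S) (a : Atom K) {ε : ℝ} (hε : 0 < ε) :
    ∃ g : S →₀ ℂ, ‖a - aι K g‖ < ε := by
  obtain ⟨b, hb⟩ := (UniformSpace.Completion.denseRange_coe (α := PreAtom K)).exists_dist_lt a hε
  refine ⟨b, ?_⟩
  rw [← dist_eq_norm]
  exact hb

/-- the coordinates separate the points -/
theorem coord_sep {K : Cx S} {a : Atom K} (h : ∀ s, coord K s a = 0) : a = 0 := by
  rw [← norm_le_zero_iff]
  refine le_of_forall_pos_le_add fun ε hε => ?_
  obtain ⟨g, hg⟩ := exists_near K a (ε := ε / 2) (by positivity)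
  have h1 : restr K g.support a = 0 := by
    rw [restr_eq]
    refine Finset.sum_eq_zero fun s _ => ?_
    rw [h s, zero_smul]
  have h2 : restr K g.support (a - aι K g) = - aι K g := by
    rw [map_sub, h1, restr_aι K _ g (Finset.Subset.refl _), zero_sub]
  have h3 : ‖aι K g‖ ≤ ‖a - aι K g‖ := by
    have := norm_restr_le K g.support (a - aι K g)
    rwa [h2, norm_neg] at this
  have h4 : ‖a‖ ≤ ‖a - aι K g‖ + ‖aι K g‖ := by
    have := norm_add_le (a - aι K g) (aι K g)
    rwa [sub_add_cancel] at this
  linarith

/-- the coordinates tend to zero -/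
theorem coord_tendsto (K : Cx S) (a : Atom K) :
    Filter.Tendsto (fun s => coord K s a) Filter.cofinite (nhds 0) := by
  classical
  rw [Metric.tendsto_nhds]
  intro ε hε
  obtain ⟨g, hg⟩ := exists_near K a hε
  rw [Filter.eventually_cofinite]
  refine g.support.finite_toSet.subset fun s hs => ?_
  by_contra hs'
  apply hs
  have h1 : coord K s (aι K g) = _ := alift_aι (bdd_coord K s) g
  rw [sum_coord] at h1
  have h2 : g s = 0 := by
    simpa using hs'
  have h3 : coord K s a = coord K s (a - aι K g) := by
    rw [map_sub, h1, h2, sub_zero]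
  rw [dist_zero_right, h3]
  exact (norm_coord_le K s _).trans_lt hg

end Pool.Agent.Lib.BF3
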