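import Mathlib

/-!
# Averaging over signs

PROOF. Prove the more general statement with an extra constant `g : G`: if
`‖g + ∑ i ∈ s, ∑ j ∈ s, (ε i * ε j) • β i j‖ ≤ C` for all signs `ε` then
`‖g + ∑ i ∈ s, β i i‖ ≤ C`. Induction on `s` (`Finset.induction_on`, `g` general). For
`insert a s`, `a ∉ s`, and fixed signs `ε` on `s`, use the hypothesis for the two sign vectors
`Function.update ε a 1` and `Function.update ε a (-1)`: the sum is
`(g + β a a) + ∑_{i,j ∈ s} (ε i ε j) β i j ± (cross terms)`, and the average of the two is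
`(g + β a a) + ∑_{i,j ∈ s} (ε i ε j) • β i j`, so its norm is at most `C` (`‖(x + y) + (x - y)‖ ≤ 2C`).
By induction, with `g + β a a` in place of `g`, `‖g + β a a + ∑_{i ∈ s} β i i‖ ≤ C`.
-/

noncomputable section

namespace Pool.Agent.Lib.BF3

private theorem expand {ι G : Type} [DecidableEq ι] [NormedAddCommGroup G] [NormedSpace ℂ G]
    (a : ι) (s : Finset ι) (ha : a ∉ s) (β : ι → ι → G) (ε : ι → ℂ) (c : ℂ) (hc : c * c = 1) :
    ∑ i ∈ insert a s, ∑ j ∈ insert a s,
      (Function.update ε a c i * Function.update ε a c j) • β i j =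
      β a a + c • (∑ j ∈ s, ε j • β a j + ∑ i ∈ s, ε i • β i a) +
        ∑ i ∈ s, ∑ j ∈ s, (ε i * ε j) • β i j := by
  have hne : ∀ i ∈ s, Function.update ε a c i = ε i := by
    intro i hi
    rw [Function.update_of_ne]
    rintro rfl
    exact ha hi
  rw [Finset.sum_insert ha, Finset.sum_insert ha, Function.update_self, hc, one_smul]
  have h1 : ∑ j ∈ s, (c * Function.update ε a c j) • β a j = c • ∑ j ∈ s, ε j • β a j := by
    rw [Finset.smul_sum]
    refine Finset.sum_congr rfl fun j hj => ?_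
    rw [hne j hj, mul_smul]
  have h2 : ∑ i ∈ s, ∑ j ∈ insert a s,
      (Function.update ε a c i * Function.update ε a c j) • β i j =
      c • ∑ i ∈ s, ε i • β i a + ∑ i ∈ s, ∑ j ∈ s, (ε i * ε j) • β i j := by
    rw [Finset.smul_sum, ← Finset.sum_add_distrib]
    refine Finset.sum_congr rfl fun i hi => ?_
    rw [Finset.sum_insert ha, Function.update_self, hne i hi, mul_comm (ε i) c, mul_smul]
    congr 1
    refine Finset.sum_congr rfl fun j hj => ?_
    rw [hne j hj]
  rw [h1, h2, smul_add]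
  abel

private theorem sign_avg_aux {ι G : Type} [NormedAddCommGroup G] [NormedSpace ℂ G]
    (s : Finset ι) (β : ι → ι → G) (C : ℝ) : ∀ g : G,
    (∀ ε : ι → ℂ, (∀ i, ε i = 1 ∨ ε i = -1) →
      ‖g + ∑ i ∈ s, ∑ j ∈ s, (ε i * ε j) • β i j‖ ≤ C) → ‖g + ∑ i ∈ s, β i i‖ ≤ C := by
  classical
  induction s using Finset.induction_on with
  | empty =>
    intro g h
    simpa using h (fun _ => 1) (fun _ => Or.inl rfl)
  | insert a s ha ih =>
    intro g h
    rw [Finset.sum_insert ha, ← add_assoc]
    refine ih (g + β a a) fun ε hε => ?_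
    have h1 := h (Function.update ε a 1) (fun i => by
      by_cases hi : i = a
      · subst hi; left; simp
      · rw [Function.update_of_ne hi]; exact hε i)
    have h2 := h (Function.update ε a (-1)) (fun i => by
      by_cases hi : i = a
      · subst hi; right; simp
      · rw [Function.update_of_ne hi]; exact hε i)
    rw [expand a s ha β ε 1 (by norm_num), one_smul] at h1
    rw [expand a s ha β ε (-1) (by norm_num), neg_smul, one_smul] at h2
    set X := ∑ j ∈ s, ε j • β a j + ∑ i ∈ s, ε i • β i a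
    set Y := ∑ i ∈ s, ∑ j ∈ s, (ε i * ε j) • β i j
    have h3 : (2 : ℂ) • (g + β a a + Y) =
        (g + (β a a + X + Y)) + (g + (β a a + -X + Y)) := by
      rw [two_smul]; abel
    have h4 : ‖(2 : ℂ) • (g + β a a + Y)‖ ≤ C + C := by
      rw [h3]; exact (norm_add_le _ _).trans (add_le_add h1 h2)
    rw [norm_smul] at h4
    norm_num at h4
    linarith

theorem sign_avg {ι G : Type} [NormedAddCommGroup G] [NormedSpace ℂ G] (s : Finset ι)
    (β : ι → ι → G) (C : ℝ)
    (h : ∀ ε : ι → ℂ, (∀ i, ε i = 1 ∨ ε i = -1) →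
      ‖∑ i ∈ s, ∑ j ∈ s, (ε i * ε j) • β i j‖ ≤ C) : ‖∑ i ∈ s, β i i‖ ≤ C := by
  have := sign_avg_aux s β C 0 (fun ε hε => by simpa using h ε hε)
  simpa using this

end Pool.Agent.Lib.BF3
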