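import Mathlib
import Pool.Agent.Lib.BF3.Atom2
import Pool.Agent.Lib.BF3.PTU
import Pool.Agent.Lib.BF3.SignAvg

/-!
# The family `δ_{q y} ⊗ δ_y` is bounded

Sign averaging: for signs `ε` the double sum factors as a tensor product of two images of
generators.
-/

noncomputable section

namespace Pool.Agent.Lib.BF3

variable {S Y : Type}

namespace DiagTAux

theorem sum_mem_gen {Y : Type} (K : Cx S) (F : Finset Y) (q : Y → S) (c : Y → ℂ)
    (hinj : ∀ y ∈ F, ∀ y' ∈ F, q y = q y' → y = y') (hc : ∀ y ∈ F, ‖c y‖ ≤ 1)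
    (G : Finset S) (hG : G ∈ K.faces) (hq : ∀ y ∈ F, q y ∈ G) :
    (∑ y ∈ F, Finsupp.single (q y) (c y)) ∈ K.gen := by
  classical
  have key : ∀ s, (∑ y ∈ F, Finsupp.single (q y) (c y)) s
      = ∑ y ∈ F, if q y = s then c y else 0 := by
    intro s
    rw [Finsupp.finsetSum_apply]
    exact Finset.sum_congr rfl fun y _ => by rw [Finsupp.single_apply]
  have hval : ∀ s, (∃ y ∈ F, q y = s ∧ (∑ y ∈ F, Finsupp.single (q y) (c y)) s = c y) ∨
      (∑ y ∈ F, Finsupp.single (q y) (c y)) s = 0 := by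
    intro s
    by_cases hs : ∃ y ∈ F, q y = s
    · obtain ⟨y, hy, rfl⟩ := hs
      refine Or.inl ⟨y, hy, rfl, ?_⟩
      rw [key, Finset.sum_eq_single y]
      · simp
      · intro y' hy' hne
        rw [if_neg]
        intro h
        exact hne (hinj y' hy' y hy h)
      · intro h
        exact absurd hy h
    · refine Or.inr ?_
      rw [key]
      refine Finset.sum_eq_zero fun y hy => ?_
      rw [if_neg]
      intro h
      exact hs ⟨y, hy, h⟩
  refine ⟨K.down G hG _ ?_, ?_⟩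
  · intro s hs
    rw [Finsupp.mem_support_iff] at hs
    rcases hval s with ⟨y, hy, rfl, _⟩ | h
    · exact hq y hy
    · exact absurd h hs
  · intro s
    rcases hval s with ⟨y, hy, _, h⟩ | h
    · rw [h]
      exact hc y hy
    · rw [h, norm_zero]
      exact zero_le_one

theorem sum_δ {Y : Type} (K : Cx S) (F : Finset Y) (q : Y → S) (c : Y → ℂ) :
    aι K (∑ y ∈ F, Finsupp.single (q y) (c y)) = ∑ y ∈ F, c y • δ K (q y) := by
  rw [map_sum]
  refine Finset.sum_congr rfl fun y _ => ?_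
  rw [δ, ← map_smul]
  simp

theorem pt_sum_sum {Y E F : Type} [NormedAddCommGroup E] [NormedSpace ℂ E]
    [NormedAddCommGroup F] [NormedSpace ℂ F] (s t : Finset Y) (a : Y → E) (b : Y → F) :
    pt (∑ y ∈ s, a y) (∑ y' ∈ t, b y') = ∑ y ∈ s, ∑ y' ∈ t, pt (a y) (b y') := by
  classical
  induction s using Finset.induction_on with
  | empty => simp
  | insert y s hy ih =>
    rw [Finset.sum_insert hy, Finset.sum_insert hy, pt_add_left, ih, ← ptL_apply, map_sum]
    rfl

end DiagTAux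

theorem bdd_ptdiag' {E : Type} [NormedAddCommGroup E] [NormedSpace ℂ E] (K : Cx S) (L : Cx Y)
    (q : Y → S) (j : Atom K →L[ℂ] E) (hj : ∀ a, ‖j a‖ ≤ ‖a‖)
    (hinj : ∀ F ∈ L.faces, ∀ y ∈ F, ∀ y' ∈ F, q y = q y' → y = y')
    (hface : ∀ F ∈ L.faces, ∃ G ∈ K.faces, ∀ y ∈ F, q y ∈ G) :
    Bdd L (fun y => pt (j (δ K (q y))) (δ L y)) 1 := by
  refine ⟨zero_le_one, fun h hh => ?_⟩
  obtain ⟨hF, h1⟩ := hh
  obtain ⟨G, hG, hqG⟩ := hface _ hF
  rw [Finsupp.sum]
  refine sign_avg h.support (fun y y' => h y' • pt (j (δ K (q y))) (δ L y')) 1 fun ε hε => ?_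
  have hε1 : ∀ y, ‖ε y‖ ≤ 1 := fun y => by
    rcases hε y with e | e <;> simp [e]
  have e1 : (∑ y ∈ h.support, ∑ y' ∈ h.support,
      (ε y * ε y') • (h y' • pt (j (δ K (q y))) (δ L y')))
      = pt (j (aι K (∑ y ∈ h.support, Finsupp.single (q y) (ε y))))
        (aι L (∑ y ∈ h.support, Finsupp.single y (ε y * h y))) := by
    rw [DiagTAux.sum_δ, DiagTAux.sum_δ L h.support (fun y => y) (fun y => ε y * h y), map_sum,
      DiagTAux.pt_sum_sum]
    refine Finset.sum_congr rfl fun y _ => ?_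
    refine Finset.sum_congr rfl fun y' _ => ?_
    rw [map_smul, pt_smul_left, pt_smul_right, smul_smul, smul_smul]
    congr 1
    ring
  rw [e1]
  have g1 := DiagTAux.sum_mem_gen K h.support q ε (hinj _ hF) (fun y _ => hε1 y) G hG hqG
  have g2 := DiagTAux.sum_mem_gen L h.support (fun y => y) (fun y => ε y * h y)
    (fun y _ y' _ e => e) (fun y _ => by
      rw [norm_mul]
      exact mul_le_one₀ (hε1 y) (norm_nonneg _) (h1 y)) h.support hF (fun y hy => hy)
  have n1 := (hj _).trans (norm_aι_le_one g1)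
  have n2 := norm_aι_le_one g2
  calc _ ≤ ‖j (aι K (∑ y ∈ h.support, Finsupp.single (q y) (ε y)))‖ *
        ‖aι L (∑ y ∈ h.support, Finsupp.single y (ε y * h y))‖ := norm_pt_le _ _
    _ ≤ 1 := mul_le_one₀ n1 (norm_nonneg _) n2

theorem bdd_ptdiag (K : Cx S) (L : Cx Y) (q : Y → S)
    (hinj : ∀ F ∈ L.faces, ∀ y ∈ F, ∀ y' ∈ F, q y = q y' → y = y')
    (hface : ∀ F ∈ L.faces, ∃ G ∈ K.faces, ∀ y ∈ F, q y ∈ G) :
    Bdd L (fun y => pt (δ K (q y)) (δ L y)) 1 := by
  have := bdd_ptdiag' K L q (ContinuousLinearMap.id ℂ (Atom K)) (fun a => le_rfl) hinj hface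
  simpa using this

end Pool.Agent.Lib.BF3
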