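import Mathlib
import Pool.Agent.Lib.BF3.Alg

/-!
# Diagonal modules: the two facts needed for their definition

Let `L` be a complex on a set `Y` and `p : Y → SA` (point). The algebra `A = AA` acts on
`Atom L` by `bA s · δ_y = val s (p y) δ_y`.

PROOF of `bdd_diag`. Let `g` be a generator of `SG F1` and `h` a generator of `L`. The double sum
is `∑_y h y (∑_s g s val s (p y)) δ_y` (interchange the sums, `aι_eq_sum`). By `norm_aι_le_one` it
suffices that the finitely supported function `y ↦ h y (∑_s g s val s (p y))` is a generator of
`L`: its support is contained in the support of `h` (`L.down`), and `|∑_s g s val s (p y)| ≤ 1`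
because at most one `s` in the support of `g` has `val s (p y) ≠ 0`, and then `|g s| ≤ 1`,
`|val| ≤ 1`. (The support of `g` is a face of `F1.sum (pts Xs)`, so it consists either of elements
`inl t` only, or it is contained in `{inr x}` for one `x` (`pts`). For `p y = inl t'`: `val (inl t)
(inl t') ≠ 0` iff `t = t'`; for `p y = inr x'`: `val (inl t) (inr x') = 0`.)

PROOF of `diagAct_mul`. Fix `m`; both sides are bounded trilinear in `a, b, m`, so by
`AA.ext_of`, `Atom.ext_of` it is enough to take `a = bA s`, `b = bA s'`, `m = δ_y`. The products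
`bA s * bA s'` are given by `bA_mul_inl_inl`, `bA_mul_inl_inr`, `bA_mul_inr_inl`,
`bA_mul_inr_inr`; both sides are `val s (p y) val s' (p y) δ_y`: eight cases (`p y` is `inl` or
`inr`).
-/

noncomputable section

namespace Pool.Agent.Lib.BF3

variable {Y : Type}

private theorem norm_val_le (s q : SA) : ‖val s q‖ ≤ 1 := by
  rcases s with t | x <;> rcases q with t' | x' <;> simp only [val]
  · split_ifs <;> simp
  · simp
  · split_ifs <;> simp
  · split_ifs <;> simp

private theorem val_uniq {F : Finset SA} (hF : F ∈ (SG F1).faces) {s s' q : SA} (hs : s ∈ F)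
    (hs' : s' ∈ F) (h : val s q ≠ 0) (h' : val s' q ≠ 0) : s = s' := by
  rcases hF with ⟨G, _, hF⟩ | ⟨G, hG, hF⟩
  · have e := hF hs
    have e' := hF hs'
    rw [Finset.mem_map] at e e'
    obtain ⟨t, _, rfl⟩ := e
    obtain ⟨t', _, rfl⟩ := e'
    rcases q with q | q
    · simp only [Function.Embedding.inl_apply, val, ne_eq, ite_eq_right_iff, one_ne_zero,
        imp_false, not_not] at h h'
      rw [h, h']
    · exact absurd rfl h
  · have e := hF hs
    have e' := hF hs'
    rw [Finset.mem_map] at e e'
    obtain ⟨t, ht, rfl⟩ := e
    obtain ⟨t', ht', rfl⟩ := e'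
    rw [hG t ht t' ht']

private theorem norm_sum_val_le {g : SA →₀ ℂ} (hg : g ∈ (SG F1).gen) (q : SA) :
    ‖∑ s ∈ g.support, g s * val s q‖ ≤ 1 := by
  by_cases h : ∃ s0 ∈ g.support, val s0 q ≠ 0
  · obtain ⟨s0, hs0, hv⟩ := h
    rw [Finset.sum_eq_single_of_mem s0 hs0]
    · rw [norm_mul]
      calc ‖g s0‖ * ‖val s0 q‖ ≤ 1 * 1 := by
            gcongr
            · exact hg.2 s0
            · exact norm_val_le s0 q
        _ = 1 := by norm_num
    · intro s hs hne
      by_cases hv' : val s q = 0
      · rw [hv', mul_zero]
      · exact absurd (val_uniq hg.1 hs hs0 hv' hv) hne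
  · push Not at h
    rw [Finset.sum_eq_zero]
    · simp
    · intro s hs
      rw [h s hs, mul_zero]

theorem bdd_diag (L : Cx Y) (p : Y → SA) :
    Bdd₂ (SG F1) L (fun s y => val s (p y) • δ L y) 1 := by
  refine ⟨zero_le_one, fun g hg h hh => ?_⟩
  let k : Y →₀ ℂ := Finsupp.onFinset h.support
    (fun y => h y * ∑ s ∈ g.support, g s * val s (p y)) (fun y hy => by
      rw [Finsupp.mem_support_iff]
      intro h0
      exact hy (by rw [h0, zero_mul]))
  have hk : k ∈ L.gen := by
    refine ⟨L.down _ hh.1 _ Finsupp.support_onFinset_subset, fun y => ?_⟩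
    change ‖h y * ∑ s ∈ g.support, g s * val s (p y)‖ ≤ 1
    rw [norm_mul]
    calc ‖h y‖ * ‖∑ s ∈ g.support, g s * val s (p y)‖ ≤ 1 * 1 := by
          gcongr
          · exact hh.2 y
          · exact norm_sum_val_le hg _
      _ = 1 := by norm_num
  have e : (g.sum fun s c => h.sum fun y d => (c * d) • (val s (p y) • δ L y)) = aι L k := by
    rw [aι_eq_sum]
    have e2 : (k.sum fun s c => c • δ L s) = ∑ y ∈ h.support, k y • δ L y := by
      refine Finsupp.sum_of_support_subset _ Finsupp.support_onFinset_subset _ ?_
      intro y _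
      exact zero_smul _ _
    rw [e2]
    simp only [Finsupp.sum]
    rw [Finset.sum_comm]
    refine Finset.sum_congr rfl fun y _ => ?_
    change _ = (h y * ∑ s ∈ g.support, g s * val s (p y)) • δ L y
    rw [Finset.mul_sum, Finset.sum_smul]
    refine Finset.sum_congr rfl fun s _ => ?_
    rw [smul_smul]
    congr 1
    ring
  rw [e]
  exact norm_aι_le_one hk

/-- the action of the algebra on `Atom L` with `bA s · δ_y = val s (p y) δ_y` -/
def diagAct (L : Cx Y) (p : Y → SA) : AA →L[ℂ] Atom L →L[ℂ] Atom L :=
  aliftA₂ L fun s y => val s (p y) • δ L y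

@[simp] theorem diagAct_δ (L : Cx Y) (p : Y → SA) (s : SA) (y : Y) :
    diagAct L p (bA s) (δ L y) = val s (p y) • δ L y := aliftA₂_δ (bdd_diag L p) s y

private theorem diagAct_zero (L : Cx Y) (p : Y → SA) (m : Atom L) : diagAct L p 0 m = 0 := by
  rw [map_zero]
  rfl

private theorem mul_basis (L : Cx Y) (p : Y → SA) (s s' : SA) (y : Y) :
    diagAct L p (bA s * bA s') (δ L y) = diagAct L p (bA s) (diagAct L p (bA s') (δ L y)) := by
  rw [diagAct_δ, map_smul, diagAct_δ]
  rcases s with t | x <;> rcases s' with t' | x'
  · rw [bA_mul_inl_inl]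
    rcases hp : p y with q | q
    · by_cases h : t = t'
      · subst h
        rw [if_pos rfl, diagAct_δ, hp]
        simp only [val]
        split_ifs <;> simp
      · rw [if_neg h, diagAct_zero]
        simp only [val]
        by_cases h1 : t' = q
        · have h2 : ¬ t = q := fun h2 => h (h2.trans h1.symm)
          simp [h2]
        · simp [h1]
    · by_cases h : t = t'
      · rw [if_pos h, diagAct_δ, hp]
        simp [val]
      · rw [if_neg h, diagAct_zero]
        simp [val]
  · rw [bA_mul_inl_inr]
    rcases hp : p y with q | q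
    · by_cases h : t.1 = x'
      · rw [if_pos h, diagAct_δ, hp]
        simp only [val]
        by_cases h1 : t = q
        · subst h1
          simp [h]
        · simp [h1]
      · rw [if_neg h, diagAct_zero]
        simp only [val]
        by_cases h1 : t = q
        · subst h1
          simp [h]
        · simp [h1]
    · by_cases h : t.1 = x'
      · rw [if_pos h, diagAct_δ, hp]
        simp [val]
      · rw [if_neg h, diagAct_zero]
        simp [val]
  · rw [bA_mul_inr_inl]
    rcases hp : p y with q | q
    · by_cases h : t'.1 = x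
      · rw [if_pos h, diagAct_δ, hp]
        simp only [val]
        by_cases h1 : t' = q
        · subst h1
          simp [h]
        · simp [h1]
      · rw [if_neg h, diagAct_zero]
        simp only [val]
        by_cases h1 : t' = q
        · subst h1
          simp [h]
        · simp [h1]
    · by_cases h : t'.1 = x
      · rw [if_pos h, diagAct_δ, hp]
        simp [val]
      · rw [if_neg h, diagAct_zero]
        simp [val]
  · rw [bA_mul_inr_inr]
    rcases hp : p y with q | q
    · by_cases h : x = x'
      · subst h
        rw [if_pos rfl, diagAct_δ, hp]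
        simp only [val]
        split_ifs <;> simp
      · rw [if_neg h, diagAct_zero]
        simp only [val]
        by_cases h1 : q.1 = x'
        · have h2 : ¬ q.1 = x := fun h2 => h (h2.symm.trans h1)
          simp [h2]
        · simp [h1]
    · by_cases h : x = x'
      · subst h
        rw [if_pos rfl, diagAct_δ, hp]
        simp only [val]
        split_ifs <;> simp
      · rw [if_neg h, diagAct_zero]
        simp only [val]
        by_cases h1 : x' = q
        · have h2 : ¬ x = q := fun h2 => h (h2.trans h1.symm)
          simp [h2]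
        · simp [h1]

theorem diagAct_mul (L : Cx Y) (p : Y → SA) (a b : AA) (m : Atom L) :
    diagAct L p (a * b) m = diagAct L p a (diagAct L p b m) := by
  have s2 : ∀ (s s' : SA) (m : Atom L),
      diagAct L p (bA s * bA s') m = diagAct L p (bA s) (diagAct L p (bA s') m) := by
    intro s s' m
    exact Atom.apply_eq_of (f := diagAct L p (bA s * bA s'))
      (g := (diagAct L p (bA s)).comp (diagAct L p (bA s'))) (fun y => mul_basis L p s s' y) m
  have s3 : ∀ (s : SA) (b : AA) (m : Atom L),
      diagAct L p (bA s * b) m = diagAct L p (bA s) (diagAct L p b m) := by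
    intro s b m
    exact AA.apply_eq_of (f := ((diagAct L p).flip m).comp (ContinuousLinearMap.mul ℂ AA (bA s)))
      (g := (diagAct L p (bA s)).comp ((diagAct L p).flip m)) (fun s' => s2 s s' m) b
  exact AA.apply_eq_of
    (f := ((diagAct L p).flip m).comp ((ContinuousLinearMap.mul ℂ AA).flip b))
    (g := (diagAct L p).flip (diagAct L p b m)) (fun s => s3 s b m) a

end Pool.Agent.Lib.BF3
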