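import Mathlib
import Pool.Agent.Lib.BF3.DiagBd

/-!
# The modules over the algebra `UU = A₊`
-/

noncomputable section

namespace Pool.Agent.Lib.BF3

variable {Y : Type}

/-- the diagonal module `Atom L`, on which `u` acts on `δ_y` by its value at the point `p y` -/
def diagM (L : Cx Y) (p : Y → SA) : BMod UU := ofA (Atom L) (diagAct L p) (diagAct_mul L p)

/-- the module `I = I(F₁)` -/
def IM : BMod UU := diagM F1 Sum.inl

/-- the module `I₀ = I(F₀) = P₂` -/
def I0M : BMod UU := diagM F0 Sum.inl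

/-- the module `E = ℓ¹(X) = A / I` -/
def EM : BMod UU := diagM (pts Xs) Sum.inr

/-- the action of the algebra on `Atom (SG F0)` -/
def mulA0 : AA →L[ℂ] Atom (SG F0) →L[ℂ] Atom (SG F0) := aliftA₂ (SG F0) (tab F0)

theorem mulA0_δ (s s' : SA) : mulA0 (bA s) (δ (SG F0) s') = tab F0 s s' :=
  mulG_δ F0 (fun _ h => h) s s'

/-- the module `B₀ = I₀ ⊕ ℓ¹(X)` -/
def B0M : BMod UU := ofA (Atom (SG F0)) mulA0 (fun a b m => mulG_assoc F0 (fun _ h => h) a b m)

/-- the module `P₁ = B₀ ⊕ I` -/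
def P1M : BMod UU := prodM B0M IM

/-- the algebra `A` as a module -/
def AM : BMod UU := algM AA

/-- the inclusion `I₀ → B₀` -/
def iB : Atom F0 →L[ℂ] Atom (SG F0) := alift F0 fun t => δ (SG F0) (Sum.inl t)

/-- the inclusion `I₀ → I` -/
def iI : Atom F0 →L[ℂ] Atom F1 := alift F0 fun t => δ F1 t

/-- the map `f : P₂ → P₁`, `p ↦ (p, -p)` -/
def fP : I0M →L[ℂ] P1M := ContinuousLinearMap.prod iB (-iI)

/-- the projection `π_k` of `P₂` to the atoms `(x, j)` with `k(x) = k` -/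
def piP (k : ℕ) : I0M →L[ℂ] I0M := alift F0 fun t => if kk t.1 = k then δ F0 t else 0

end Pool.Agent.Lib.BF3
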