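import Mathlib
import Pool.Agent.Lib.BF3.Mods
import Pool.Agent.Lib.BF3.DiagT

/-!
# A diagonal module is a retract of its tensor square

PROOF. `i δ_y = δ_y ⊗ δ_y` (`bdd_ptdiag` with `K = L`, `q = id`), `q (δ_y ⊗ δ_y') = δ_y` if `y = y'`
and `0` otherwise: `lift` of `alift₂ L L (fun y y' => if y = y' then δ L y else 0)`, the pointwise
product; it is bounded by `1`: for generators `g`, `h` the double sum is `aι` of `y ↦ g y h y`, a
generator. `q (i a) = a` on `δ_y`. Morphisms: `isHom_of_ta`; for `u, v ∈ UU` write
`u = fstU u • 1 + inA (sndU u)` (`Up.decomp`); in general `(diagM L p).act u δ_y = χ_y(u) δ_y` for a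
number `χ_y(u)` (linear in `u`; for `bA s` it is `val s (p y)`): this is proved by
`AA.apply_eq_of` applied to `a ↦ diagAct L p a δ_y` and `a ↦ χ a • δ_y`, `χ = aliftA (val · (p y))`
or `χ a = coordinate of diagAct L p a δ_y`. Then `(symM _).act (ta u v) δ_y = χ_y(u) χ_y(v) δ_y`
and `(tensM _ _).act (ta u v) (δ_y ⊗ δ_y') = χ_y(u) χ_y'(v) δ_y ⊗ δ_y'`, and both `i` and `q`
commute with the action on the basis (`Atom.apply_eq_of`, and for `q`: `PT.apply_eq_of`, then
`Atom.apply_eq_of` twice).
-/

noncomputable section

namespace Pool.Agent.Lib.BF3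

variable {Y : Type}

open Classical in
private theorem bdd_coord (L : Cx Y) (y : Y) :
    Bdd L (fun y' => if y' = y then (1 : ℂ) else 0) 1 := by
  refine ⟨zero_le_one, fun g hg => ?_⟩
  have : (g.sum fun s c => c • (if s = y then (1 : ℂ) else 0)) = g y := by
    rw [Finsupp.sum, Finset.sum_eq_single y]
    · simp
    · intro s _ hs; simp [hs]
    · intro hy; simp [Finsupp.notMem_support_iff.1 hy]
  rw [this]
  exact hg.2 y

open Classical in
/-- the coordinate functional -/
private def coord (L : Cx Y) (y : Y) : Atom L →L[ℂ] ℂ :=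
  alift L (fun y' => if y' = y then (1 : ℂ) else 0)

private theorem coord_δ (L : Cx Y) (y : Y) : coord L y (δ L y) = 1 := by
  rw [coord, alift_δ (bdd_coord L y)]
  simp

private theorem diagAct_eig (L : Cx Y) (p : Y → SA) (a : AA) (y : Y) :
    diagAct L p a (δ L y) = (coord L y (diagAct L p a (δ L y))) • δ L y := by
  refine AA.apply_eq_of (f := (diagAct L p).flip (δ L y))
    (g := ((coord L y).comp ((diagAct L p).flip (δ L y))).smulRight (δ L y)) (fun s => ?_) a
  simp only [ContinuousLinearMap.flip_apply, ContinuousLinearMap.smulRight_apply,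
    ContinuousLinearMap.comp_apply, diagAct_δ, map_smul, coord_δ, smul_eq_mul, mul_one]

private theorem act_eig (L : Cx Y) (p : Y → SA) (u : UU) (y : Y) :
    ∃ c : ℂ, (diagM L p).act u (δ L y : Atom L) = (c • δ L y : Atom L) := by
  refine ⟨fstU u + coord L y (diagAct L p (sndU u) (δ L y)), ?_⟩
  change (fstU u • δ L y + diagAct L p (sndU u) (δ L y) : Atom L) = _
  rw [add_smul, ← diagAct_eig]

/-- the action, with explicit types -/
private def actA (L : Cx Y) (p : Y → SA) : UU →L[ℂ] Atom L →L[ℂ] Atom L := (diagM L p).act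

private def actS (L : Cx Y) (p : Y → SA) : PTA UU UU →L[ℂ] Atom L →L[ℂ] Atom L :=
  (symM (diagM L p)).act

private def actT (L : Cx Y) (p : Y → SA) :
    PTA UU UU →L[ℂ] PT (Atom L) (Atom L) →L[ℂ] PT (Atom L) (Atom L) :=
  (tensM (diagM L p) (diagM L p)).act

open Classical in
private theorem bdd_pw (L : Cx Y) :
    Bdd₂ L L (fun y y' => if y = y' then δ L y else 0) 1 := by
  refine ⟨zero_le_one, fun g hg h hh => ?_⟩
  set f : Y →₀ ℂ := Finsupp.onFinset g.support (fun y => g y * h y) (by
    intro y hy
    rw [Finsupp.mem_support_iff]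
    exact left_ne_zero_of_mul hy) with hf
  have hfy : ∀ y, f y = g y * h y := fun y => rfl
  have hsub : f.support ⊆ g.support := Finsupp.support_onFinset_subset
  have hfg : f ∈ L.gen := by
    refine ⟨L.down _ hg.1 _ hsub, fun y => ?_⟩
    rw [hfy, norm_mul]
    exact mul_le_one₀ (hg.2 y) (norm_nonneg _) (hh.2 y)
  have e : (g.sum fun s c => h.sum fun s' d => (c * d) • (if s = s' then δ L s else 0)) =
      aι L f := by
    rw [aι_eq_sum, Finsupp.sum_of_support_subset f hsub _ (by simp), Finsupp.sum]
    refine Finset.sum_congr rfl fun s _ => ?_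
    rw [Finsupp.sum, Finset.sum_eq_single s, hfy]
    · simp
    · intro s' _ hs'; simp [Ne.symm hs']
    · intro hs'; simp [Finsupp.notMem_support_iff.1 hs']
  rw [e]
  exact norm_aι_le_one hfg

theorem retr_diag (L : Cx Y) (p : Y → SA) :
    Nonempty (Retr (symM (diagM L p)) (tensM (diagM L p) (diagM L p))) := by
  classical
  have hbi : Bdd L (fun y => pt (δ L y) (δ L y)) 1 :=
    bdd_ptdiag L L id (fun _ _ _ _ _ _ h => h) (fun F hF => ⟨F, hF, fun _ hy => hy⟩)
  set i : Atom L →L[ℂ] PT (Atom L) (Atom L) := alift L (fun y => pt (δ L y) (δ L y)) with hi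
  set β : Atom L →L[ℂ] Atom L →L[ℂ] Atom L :=
    alift₂ L L (fun y y' => if y = y' then δ L y else 0) with hβ
  have hiδ : ∀ y, i (δ L y) = pt (δ L y) (δ L y) := fun y => alift_δ hbi y
  have hβδ : ∀ y y', β (δ L y) (δ L y') = if y = y' then δ L y else 0 :=
    fun y y' => alift₂_δ (bdd_pw L) y y'
  choose χ hχ using act_eig L p
  refine ⟨⟨i, lift β, ?_, ?_, ?_⟩⟩
  · refine isHom_of_ta (X := symM (diagM L p)) (Y := tensM (diagM L p) (diagM L p)) i ?_
    intro u v x
    refine Atom.apply_eq_of (K := L)
      (f := i.comp ((symM (diagM L p)).act (ta u v)))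
      (g := ((tensM (diagM L p) (diagM L p)).act (ta u v)).comp i) (fun y => ?_) x
    have h1 : (symM (diagM L p)).act (ta u v) (δ L y : Atom L) =
        ((χ v y * χ u y) • δ L y : Atom L) := by
      refine (symM_act_ta (diagM L p) u v (δ L y : Atom L)).trans ?_
      refine (congrArg (fun z => (diagM L p).act u z) (hχ v y)).trans ?_
      refine (((diagM L p).act u).map_smul (χ v y) (δ L y : Atom L)).trans ?_
      refine (congrArg (fun z => (χ v y) • z) (hχ u y)).trans ?_
      exact smul_smul _ _ _
    have h2 : (tensM (diagM L p) (diagM L p)).act (ta u v)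
        (pt (δ L y : Atom L) (δ L y : Atom L) : PT (Atom L) (Atom L)) =
        ((χ v y * χ u y) • pt (δ L y) (δ L y) : PT (Atom L) (Atom L)) := by
      refine (tensM_act_ta (diagM L p) (diagM L p) u v (δ L y : Atom L)
        (δ L y : Atom L)).trans ?_
      refine (congrArg₂ (fun a b => (pt (E := Atom L) (F := Atom L) a b)) (hχ u y)
        (hχ v y)).trans ?_
      rw [pt_smul_left, pt_smul_right, smul_smul, mul_comm]
    change i ((symM (diagM L p)).act (ta u v) (δ L y : Atom L)) =
      (tensM (diagM L p) (diagM L p)).act (ta u v) (i (δ L y))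
    rw [hiδ]
    refine Eq.trans ?_ h2.symm
    refine (congrArg (fun z => i z) h1).trans ?_
    rw [map_smul, hiδ]
  · refine isHom_of_ta (X := tensM (diagM L p) (diagM L p)) (Y := symM (diagM L p)) (lift β) ?_
    intro u v x
    refine PT.apply_eq_of (E := Atom L) (F := Atom L)
      (f := (lift β).comp (actT L p (ta u v)))
      (g := (actS L p (ta u v)).comp (lift β)) (fun a b => ?_) x
    have e : (β.bilinearComp (actA L p u) (actA L p v) :
        Atom L →L[ℂ] Atom L →L[ℂ] Atom L) =
        (ContinuousLinearMap.compL ℂ (Atom L) (Atom L) (Atom L)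
          ((actA L p u).comp (actA L p v))).comp β := by
      refine Atom.ext₂_of fun y y' => ?_
      have h3 : β ((diagM L p).act u (δ L y : Atom L)) ((diagM L p).act v (δ L y' : Atom L)) =
          (χ u y * χ v y') • β (δ L y) (δ L y') := by
        refine (congrArg₂ (fun a b => β a b) (hχ u y) (hχ v y')).trans ?_
        simp only [map_smul, smul_apply, smul_smul]
        rw [mul_comm]
      change β ((diagM L p).act u (δ L y : Atom L)) ((diagM L p).act v (δ L y' : Atom L)) =
        (diagM L p).act u ((diagM L p).act v (β (δ L y) (δ L y') : Atom L))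
      rw [h3, hβδ]
      by_cases hy : y = y'
      · subst hy
        rw [if_pos rfl]
        refine Eq.symm ?_
        refine (congrArg (fun z => (diagM L p).act u z) (hχ v y)).trans ?_
        refine (((diagM L p).act u).map_smul (χ v y) (δ L y : Atom L)).trans ?_
        refine (congrArg (fun z => (χ v y) • z) (hχ u y)).trans ?_
        rw [mul_comm]
        exact smul_smul _ _ _
      · rw [if_neg hy, smul_zero]
        refine Eq.symm ?_
        refine (congrArg (fun z => (diagM L p).act u z) (((diagM L p).act v).map_zero)).trans ?_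
        exact ((diagM L p).act u).map_zero
    have e' := congrArg (fun T : Atom L →L[ℂ] Atom L →L[ℂ] Atom L => T a b) e
    have h4 : (lift β) ((tensM (diagM L p) (diagM L p)).act (ta u v)
        (pt a b : PT (Atom L) (Atom L))) =
        β ((diagM L p).act u (a : Atom L)) ((diagM L p).act v (b : Atom L)) := by
      refine (congrArg (fun z => (lift β) z) (tensM_act_ta (diagM L p) (diagM L p) u v a b)).trans ?_
      exact lift_pt β _ _
    have h5 : (symM (diagM L p)).act (ta u v) ((lift β) (pt a b)) =
        (diagM L p).act u ((diagM L p).act v (β a b : Atom L)) := by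
      refine (symM_act_ta (diagM L p) u v _).trans ?_
      exact congrArg (fun z : Atom L => (diagM L p).act u ((diagM L p).act v z)) (lift_pt β a b)
    change (lift β) ((tensM (diagM L p) (diagM L p)).act (ta u v)
        (pt a b : PT (Atom L) (Atom L))) = (symM (diagM L p)).act (ta u v) ((lift β) (pt a b))
    rw [h5]
    exact h4.trans e'
  · intro x
    refine Atom.apply_eq_of (K := L) (f := (lift β).comp i)
      (g := ContinuousLinearMap.id ℂ (Atom L)) (fun y => ?_) x
    simp only [ContinuousLinearMap.comp_apply, hiδ, lift_pt, hβδ, if_true,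
      ContinuousLinearMap.id_apply]

end Pool.Agent.Lib.BF3
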