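import Mathlib
import Pool.Agent.Lib.BF3.HDefs

/-!
# The tensor product of projective modules is projective

PROOF of `exists_shuf`: put `β' = (ptMap₂ V (PTA U V) F (PT E F)).bilinearComp (taL U V) (ptL E F)`,
a bounded bilinear map `U × E → (V ⊗̂ F → (U ⊗̂ V) ⊗̂ (E ⊗̂ F))` with
`β' u e (v ⊗ f) = ta u v ⊗ (e ⊗ f)`; then `lift β' : U ⊗̂ E → (V ⊗̂ F → ...)` and
`Θ = lift (lift β')`.

PROOF of `projective_tensM`: let `ρ : Y → U ⊗̂ Y`, `ρ' : Z → V ⊗̂ Z` be the given morphisms and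
take `Θ ∘ (ρ ⊗ ρ')` (`ptMap ρ ρ'`). It is a morphism by `isHom_of_ta`: on `pt y z` (fix `u, v`, use
`PT.apply_eq_of`) it suffices that `Θ (ptMap (u·) (v·) w) = (u ⊗ v) · Θ w` for all
`w : PT (PT U Y) (PT V Z)`, which holds on `(u' ⊗ y) ⊗ (v' ⊗ z)` (three times
`PT.apply_eq_of` or `PT.ext_of`; first for `w = pt (pt u' y) w₂`, then for all `w₂`).
Similarly `actMap (tensM Y Z) (Θ w) = ptMap (actMap Y) (actMap Z) w` for all `w`, so
`actMap (Θ (ρ y ⊗ ρ' z)) = y ⊗ z`.
-/

noncomputable section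

namespace Pool.Agent.Lib.BF3

variable {U V : Type} [NormedCommRing U] [NormedAlgebra ℂ U] [NormedCommRing V]
  [NormedAlgebra ℂ V]

/-- the shuffle map `(u ⊗ e) ⊗ (v ⊗ f) ↦ (u ⊗ v) ⊗ (e ⊗ f)` -/
theorem exists_shuf (E F : Type) [NormedAddCommGroup E] [NormedSpace ℂ E] [NormedAddCommGroup F]
    [NormedSpace ℂ F] : ∃ Θ : PT (PT U E) (PT V F) →L[ℂ] PT (PTA U V) (PT E F),
      ∀ u e v f, Θ (pt (pt u e) (pt v f)) = pt (ta u v) (pt e f) := by
  refine ⟨lift (lift ((ptMap₂ V (PTA U V) F (PT E F)).bilinearComp (taL U V) (ptL E F))), ?_⟩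
  intro u e v f
  simp

private theorem TensProjAux.ext₄ {E F E' F' K : Type} [NormedAddCommGroup E] [NormedSpace ℂ E]
    [NormedAddCommGroup F] [NormedSpace ℂ F] [NormedAddCommGroup E'] [NormedSpace ℂ E']
    [NormedAddCommGroup F'] [NormedSpace ℂ F'] [NormedAddCommGroup K] [NormedSpace ℂ K]
    {f g : PT (PT E F) (PT E' F') →L[ℂ] K}
    (h : ∀ x y z w, f (pt (pt x y) (pt z w)) = g (pt (pt x y) (pt z w))) (t) : f t = g t := by
  have : f = g := by
    refine PT.ext₃_of fun x y z => ?_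
    exact PT.apply_eq_of (f := f.comp (ptL _ _ (pt x y))) (g := g.comp (ptL _ _ (pt x y)))
      (fun a b => by simpa using h x y a b) z
  rw [this]

private def TensProjAux.fa (Y : BMod U) (u : U) : PT U Y →L[ℂ] PT U Y := (freeM U Y).act u

private theorem TensProjAux.fa_pt (Y : BMod U) (u a : U) (b : Y) :
    TensProjAux.fa Y u (pt a b) = pt (u * a) b := freeM_act_pt Y u a b

open TensProjAux in
/-- the tensor product of projective modules is projective -/
theorem projective_tensM {Y : BMod U} {Z : BMod V} (hY : Projective Y) (hZ : Projective Z) :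
    Projective (tensM Y Z) := by
  obtain ⟨ρ, hρ, hρ1⟩ := hY
  obtain ⟨ρ', hρ', hρ1'⟩ := hZ
  obtain ⟨Θ, hΘ⟩ := exists_shuf (U := U) (V := V) Y Z
  refine ⟨Θ.comp (ptMap ρ ρ'), ?_, ?_⟩
  · refine isHom_of_ta (X := tensM Y Z) (Y := freeM (PTA U V) (PT Y Z)) _ fun u v x => ?_
    have key : ∀ w : PT (PT U Y) (PT V Z),
        Θ (ptMap (fa Y u) (fa Z v) w)
          = ((freeM (PTA U V) (PT Y Z)).act (ta u v) (Θ w) : PT (PTA U V) (PT Y Z)) := by
      intro w
      refine TensProjAux.ext₄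
        (f := Θ.comp (ptMap (fa Y u) (fa Z v)))
        (g := ((freeM (PTA U V) (PT Y Z)).act (ta u v)).comp Θ) (fun a b c d => ?_) w
      have e3 : ((freeM (PTA U V) (PT Y Z)).act (ta u v)) (pt (ta a c) (pt b d) :
          PT (PTA U V) (PT Y Z))
          = (pt (ta u v * ta a c) (pt b d) : PT (PTA U V) (PT Y Z)) :=
        freeM_act_pt (PT Y Z) (ta u v) (ta a c) (pt b d)
      have e4 : Θ (ptMap (fa Y u) (fa Z v) (pt (pt a b) (pt c d)))
          = pt (ta (u * a) (v * c)) (pt b d) := by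
        rw [ptMap_pt, fa_pt, fa_pt, hΘ]
      have e5 : Θ (pt (pt a b) (pt c d)) = pt (ta a c) (pt b d) := hΘ a b c d
      refine e4.trans ?_
      change _ = (freeM (PTA U V) (PT Y Z)).act (ta u v) (Θ (pt (pt a b) (pt c d)))
      rw [e5, ← ta_mul_ta]
      exact e3.symm
    refine PT.apply_eq_of (f := (Θ.comp (ptMap ρ ρ')).comp ((tensM Y Z).act (ta u v)))
      (g := ((freeM (PTA U V) (PT Y Z)).act (ta u v)).comp (Θ.comp (ptMap ρ ρ'))) (fun y z => ?_) x
    have k := key (ptMap ρ ρ' (pt y z))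
    have k1 : (tensM Y Z).act (ta u v) (pt y z : PT Y Z) = (pt (Y.act u y) (Z.act v z) : PT Y Z) :=
      tensM_act_ta Y Z u v y z
    have k2 : Θ (ptMap ρ ρ' (pt (Y.act u y) (Z.act v z)))
        = Θ (ptMap (fa Y u) (fa Z v) (ptMap ρ ρ' (pt y z))) := by
      have q1 : ρ (Y.act u y) = fa Y u (ρ y) := hρ u y
      have q2 : ρ' (Z.act v z) = fa Z v (ρ' z) := hρ' v z
      rw [ptMap_pt, ptMap_pt, ptMap_pt, q1, q2]
    have k3 : (Θ (ptMap ρ ρ' ((tensM Y Z).act (ta u v) (pt y z : PT Y Z))))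
        = Θ (ptMap ρ ρ' (pt (Y.act u y) (Z.act v z))) := congrArg (fun t => Θ (ptMap ρ ρ' t)) k1
    exact k3.trans (k2.trans k)
  · intro x
    have key : ∀ w : PT (PT U Y) (PT V Z),
        (actMap (tensM Y Z) (Θ w) : PT Y Z) = (ptMap (actMap Y) (actMap Z) w : PT Y Z) := by
      intro w
      refine TensProjAux.ext₄
        (f := (actMap (tensM Y Z)).comp Θ)
        (g := ptMap (actMap Y) (actMap Z)) (fun a b c d => ?_) w
      have e1 : (actMap (tensM Y Z) (pt (ta a c) (pt b d : PT Y Z)) : PT Y Z)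
          = pt (Y.act a b) (Z.act c d) := by
        refine (actMap_pt (tensM Y Z) (ta a c) (pt b d : PT Y Z)).trans ?_
        exact tensM_act_ta Y Z a c b d
      have e2 : ptMap (actMap Y) (actMap Z) (pt (pt a b) (pt c d))
          = pt (Y.act a b) (Z.act c d) := by
        rw [ptMap_pt, actMap_pt, actMap_pt]
      have e3 : (actMap (tensM Y Z) (Θ (pt (pt a b) (pt c d))))
          = (actMap (tensM Y Z) (pt (ta a c) (pt b d : PT Y Z))) :=
        congrArg (fun t => actMap (tensM Y Z) t) (hΘ a b c d)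
      exact e3.trans (e1.trans e2.symm)
    have h1 := key (ptMap ρ ρ' x)
    refine h1.trans ?_
    refine PT.apply_eq_of (f := (ptMap (actMap Y) (actMap Z)).comp (ptMap ρ ρ'))
      (g := ContinuousLinearMap.id ℂ _) (fun y z => ?_) x
    simp [hρ1, hρ1']

end Pool.Agent.Lib.BF3
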