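import Mathlib
import Pool.Agent.Lib.BF3.HDefs

/-!
# Tensoring morphisms and admissible sequences

PROOFS. `isHom_ptMap`: `isHom_of_ta` and elementary tensors. `isHom_ptMap_tenE`: for fixed `b`,
elementary tensors. The sequences: all four maps are tensored with the identity; the identities
are checked on elementary tensors, or follow from `ptMap_comp`, `ptMap_id`, `ptMap_add_left`.
(The definitions are complete except for the proofs of the properties.)
-/

noncomputable section

namespace Pool.Agent.Lib.BF3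

variable {U V : Type} [NormedCommRing U] [NormedAlgebra ℂ U] [NormedCommRing V]
  [NormedAlgebra ℂ V]

/-- the tensor product of two morphisms is a morphism -/
theorem isHom_ptMap {Y Y' : BMod U} {Z Z' : BMod V} {f : Y →L[ℂ] Y'} {g : Z →L[ℂ] Z'}
    (hf : IsHom Y Y' f) (hg : IsHom Z Z' g) :
    IsHom (tensM Y Z) (tensM Y' Z') (ptMap f g) := by
  apply isHom_of_ta
  intro u v x
  refine PT.apply_eq_of (f := (ptMap f g).comp ((tensM Y Z).act (ta u v)))
    (g := ((tensM Y' Z').act (ta u v)).comp (ptMap f g)) (fun y z => ?_) x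
  have h1 : ptMap f g (pt (Y.act u y) (Z.act v z)) = pt (Y'.act u (f y)) (Z'.act v (g z)) := by
    rw [ptMap_pt, hf, hg]
  have h2 : ptMap f g (pt y z) = pt (f y) (g z) := ptMap_pt f g y z
  have h3 := tensM_act_ta Y Z u v y z
  have h4 := tensM_act_ta Y' Z' u v (f y) (g z)
  exact ((congrArg (ptMap f g) h3).trans h1).trans
    (h4.symm.trans (congrArg ((tensM Y' Z').act (ta u v)) h2.symm))

/-- tensoring an admissible sequence with a module on the right -/
def SES.tensL {K P X : BMod U} (σ : SES K P X) (Z : BMod V) :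
    SES (tensM K Z) (tensM P Z) (tensM X Z) where
  j := ptMap σ.j (ContinuousLinearMap.id ℂ Z)
  p := ptMap σ.p (ContinuousLinearMap.id ℂ Z)
  r := ptMap σ.r (ContinuousLinearMap.id ℂ Z)
  s := ptMap σ.s (ContinuousLinearMap.id ℂ Z)
  hj := isHom_ptMap σ.hj (fun _ _ => rfl)
  hp := isHom_ptMap σ.hp (fun _ _ => rfl)
  rj := fun x => by
    refine PT.apply_eq_of (f := (ptMap σ.r (ContinuousLinearMap.id ℂ Z)).comp
      (ptMap σ.j (ContinuousLinearMap.id ℂ Z)))
      (g := ContinuousLinearMap.id ℂ (PT K Z)) (fun y z => ?_) x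
    simp [σ.rj]
  ps := fun x => by
    refine PT.apply_eq_of (f := (ptMap σ.p (ContinuousLinearMap.id ℂ Z)).comp
      (ptMap σ.s (ContinuousLinearMap.id ℂ Z)))
      (g := ContinuousLinearMap.id ℂ (PT X Z)) (fun y z => ?_) x
    simp [σ.ps]
  jrsp := fun x => by
    refine PT.apply_eq_of (f := (ptMap σ.j (ContinuousLinearMap.id ℂ Z)).comp
      (ptMap σ.r (ContinuousLinearMap.id ℂ Z)) + (ptMap σ.s (ContinuousLinearMap.id ℂ Z)).comp
      (ptMap σ.p (ContinuousLinearMap.id ℂ Z)))
      (g := ContinuousLinearMap.id ℂ (PT P Z)) (fun y z => ?_) x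
    simp only [_root_.add_apply, ContinuousLinearMap.comp_apply, ptMap_pt,
      ContinuousLinearMap.id_apply, ← pt_add_left, σ.jrsp]

/-- tensoring an admissible sequence with a module on the left -/
def SES.tensR {K P X : BMod V} (Y : BMod U) (σ : SES K P X) :
    SES (tensM Y K) (tensM Y P) (tensM Y X) where
  j := ptMap (ContinuousLinearMap.id ℂ Y) σ.j
  p := ptMap (ContinuousLinearMap.id ℂ Y) σ.p
  r := ptMap (ContinuousLinearMap.id ℂ Y) σ.r
  s := ptMap (ContinuousLinearMap.id ℂ Y) σ.s
  hj := isHom_ptMap (fun _ _ => rfl) σ.hj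
  hp := isHom_ptMap (fun _ _ => rfl) σ.hp
  rj := fun x => by
    refine PT.apply_eq_of (f := (ptMap (ContinuousLinearMap.id ℂ Y) σ.r).comp
      (ptMap (ContinuousLinearMap.id ℂ Y) σ.j))
      (g := ContinuousLinearMap.id ℂ (PT Y K)) (fun y z => ?_) x
    simp [σ.rj]
  ps := fun x => by
    refine PT.apply_eq_of (f := (ptMap (ContinuousLinearMap.id ℂ Y) σ.p).comp
      (ptMap (ContinuousLinearMap.id ℂ Y) σ.s))
      (g := ContinuousLinearMap.id ℂ (PT Y X)) (fun y z => ?_) x
    simp [σ.ps]
  jrsp := fun x => by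
    refine PT.apply_eq_of (f := (ptMap (ContinuousLinearMap.id ℂ Y) σ.j).comp
      (ptMap (ContinuousLinearMap.id ℂ Y) σ.r) + (ptMap (ContinuousLinearMap.id ℂ Y) σ.s).comp
      (ptMap (ContinuousLinearMap.id ℂ Y) σ.p))
      (g := ContinuousLinearMap.id ℂ (PT Y P)) (fun y z => ?_) x
    simp only [_root_.add_apply, ContinuousLinearMap.comp_apply, ptMap_pt,
      ContinuousLinearMap.id_apply, ← pt_add_right, σ.jrsp]

theorem isHom_ptMap_tenE {P P' : BMod U} {E E' : Type} [NormedAddCommGroup E] [NormedSpace ℂ E]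
    [NormedAddCommGroup E'] [NormedSpace ℂ E'] {f : P →L[ℂ] P'} (hf : IsHom P P' f)
    (g : E →L[ℂ] E') : IsHom (tenE P E) (tenE P' E') (ptMap f g) := by
  intro b x
  refine PT.apply_eq_of (f := (ptMap f g).comp ((tenE P E).act b))
    (g := ((tenE P' E').act b).comp (ptMap f g)) (fun y z => ?_) x
  have h1 : ptMap f g (pt (P.act b y) z) = pt (P'.act b (f y)) (g z) := by
    rw [ptMap_pt, hf]
  have h2 : ptMap f g (pt y z) = pt (f y) (g z) := ptMap_pt f g y z
  have h3 := tenE_act_pt P E b y z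
  have h4 := tenE_act_pt P' E' b (f y) (g z)
  exact ((congrArg (ptMap f g) h3).trans h1).trans
    (h4.symm.trans (congrArg ((tenE P' E').act b) h2.symm))

end Pool.Agent.Lib.BF3
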