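import Mathlib
import Pool.Agent.Lib.BF3.KerSES
import Pool.Agent.Lib.BF3.TensProj
import Pool.Agent.Lib.BF3.TensSES
import Pool.Agent.Lib.BF3.ProjBasic

/-!
# `dh (A ⊗̂ A) ≤ 1` from the phantom splitting

`σ : SES P2 P1 A`; write `f = σ.j`, `p`, `r`, `s` for its maps (`r f = 1`, `p s = 1`,
`f r + s p = 1`, `p f = 0`, `r s = 0`).

PROOF. The map `p ⊗ p : P₁ ⊗ P₁ → A ⊗ A` is a morphism with the section `s ⊗ s`; let `K` be its
kernel, `σ₀ : SES K (P₁ ⊗ P₁) (A ⊗ A)` (`exists_ses_ker`, `isHom_ptMap`, `ptMap_comp`). As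
`P₁ ⊗ P₁` is projective (`projective_tensM`) it suffices that `K` is projective.

Let `N = prodM (tensM P1 P2) (tensM P2 P1)` and `h : N → K`, `h (x, y) = (1 ⊗ f) x + (f ⊗ 1) y`
(values in `ker (p ⊗ p)` since `p f = 0`; `kerLift`), a morphism. Let `g : tensM P2 P2 → N`,
`g z = ((f ⊗ 1) z, -(1 ⊗ f) z)`, a morphism, and `G : N → tensM P2 P2`, `G (x, y) = a x - b y`,
a morphism with `G (g z) = a ((f ⊗ 1) z) + b ((1 ⊗ f) z) = z`. Apply `retr_of_coretraction`: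
* `ℓ w = ((1 ⊗ r) w, (r ⊗ s p) w)` is a section of `h`: `(1 ⊗ f r) w + (f r ⊗ s p) w
  = (1 ⊗ (1 - s p)) w + ((1 - s p) ⊗ s p) w = w - (s p ⊗ s p) w = w` for `w ∈ K`, because
  `(s p ⊗ s p) w = (s ⊗ s)((p ⊗ p) w) = 0`;
* `h (g z) = (f ⊗ f) z - (f ⊗ f) z = 0`;
* `h (x, y) = 0` implies `(x, y) = g z` with `z = (r ⊗ 1) x`: from `(1 ⊗ f) x = -(f ⊗ 1) y` one
  gets `(1 ⊗ f) z = (r ⊗ 1)((1 ⊗ f) x) = -(r f ⊗ 1) y = -y`, and
  `(1 ⊗ f)((s p ⊗ 1) x) = (s p ⊗ 1)((1 ⊗ f) x) = -(s p f ⊗ 1) y = 0`, so `(s p ⊗ 1) x = 0` (apply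
  `1 ⊗ r`) and `(f ⊗ 1) z = (f r ⊗ 1) x = x - (s p ⊗ 1) x = x`.
So `K` is a retract of `N`, and `N` is projective (`Projective.prod`, `projective_tensM`).
(Use `ptMap_comp` to compute with the operators `ptMap _ _`.)
-/

noncomputable section

namespace Pool.Agent.Lib.BF3

variable {U : Type} [NormedCommRing U] [NormedAlgebra ℂ U]

theorem dhLe_one_of_split {P2 P1 A : BMod U} (σ : SES P2 P1 A) (h2 : Projective P2)
    (h1 : Projective P1) (a : PT P1 P2 →L[ℂ] PT P2 P2) (b : PT P2 P1 →L[ℂ] PT P2 P2)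
    (ha : IsHom (tensM P1 P2) (tensM P2 P2) a) (hb : IsHom (tensM P2 P1) (tensM P2 P2) b)
    (hab : ∀ z : PT P2 P2, a (ptMap σ.j (ContinuousLinearMap.id ℂ P2) z) +
        b (ptMap (ContinuousLinearMap.id ℂ P2) σ.j z) = z) :
    DhLe 1 (tensM A A) := by
  -- the kernel of `p ⊗ p`
  have hpp : IsHom (tensM P1 P1) (tensM A A) (ptMap σ.p σ.p) := isHom_ptMap σ.hp σ.hp
  have hss : ∀ y : (tensM A A : BMod (PTA U U)),
      ptMap σ.p σ.p (ptMap σ.s σ.s y) = y := by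
    intro y
    refine PT.apply_eq_of (f := (ptMap σ.p σ.p).comp (ptMap σ.s σ.s))
      (g := ContinuousLinearMap.id ℂ (PT A A)) (fun x y => ?_) y
    simp [σ.ps]
  obtain ⟨σ₀, -, -, -⟩ := exists_ses_ker (X := tensM P1 P1) (Y := tensM A A)
    (ptMap σ.p σ.p) hpp (ptMap σ.s σ.s) hss
  refine ⟨kerM (X := tensM P1 P1) (Y := tensM A A) (ptMap σ.p σ.p) hpp, tensM P1 P1,
    projective_tensM h1 h1, ⟨σ₀⟩, ?_⟩
  change Projective _
  let i1 := ContinuousLinearMap.id ℂ P1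
  let i2 := ContinuousLinearMap.id ℂ P2
  let N : BMod (PTA U U) := prodM (tensM P1 P2) (tensM P2 P1)
  have hN : Projective N :=
    Projective.prod (projective_tensM h1 h2) (projective_tensM h2 h1)
  -- the map `h`
  let h0 : N →L[ℂ] PT P1 P1 :=
    (ptMap i1 σ.j).comp (ContinuousLinearMap.fst ℂ (PT P1 P2) (PT P2 P1)) +
      (ptMap σ.j i1).comp (ContinuousLinearMap.snd ℂ (PT P1 P2) (PT P2 P1))
  have hh0 : ∀ n : N, h0 n = ptMap i1 σ.j n.1 + ptMap σ.j i1 n.2 := fun n => rfl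
  have hh0p : ∀ n : N, ptMap σ.p σ.p (h0 n) = 0 := by
    intro n
    rw [hh0, map_add, ptMap_comp, ptMap_comp]
    have e1 : σ.p.comp σ.j = 0 := by
      ext x; exact σ.pj x
    have z1 : ptMap (σ.p.comp i1) (σ.p.comp σ.j) n.1 = 0 := by
      refine PT.apply_eq_of (g := (0 : PT P1 P2 →L[ℂ] PT A A)) (fun x y => ?_) n.1
      rw [e1]; simp
    have z2 : ptMap (σ.p.comp σ.j) (σ.p.comp i1) n.2 = 0 := by
      refine PT.apply_eq_of (g := (0 : PT P2 P1 →L[ℂ] PT A A)) (fun x y => ?_) n.2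
      rw [e1]; simp
    rw [z1, z2, add_zero]
  let h : N →L[ℂ] kerM (X := tensM P1 P1) (Y := tensM A A) (ptMap σ.p σ.p) hpp :=
    kerLift (X := tensM P1 P1) (Y := tensM A A) (ptMap σ.p σ.p) hpp h0 hh0p
  have hhι : ∀ n : N, kerι (X := tensM P1 P1) (Y := tensM A A) (ptMap σ.p σ.p) hpp (h n)
      = h0 n := fun n => rfl
  have hhhom : IsHom N (kerM (X := tensM P1 P1) (Y := tensM A A) (ptMap σ.p σ.p) hpp) h := by
    intro b n
    apply kerι_inj
    rw [hhι, isHom_kerι, hhι]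
    have e1 : ptMap i1 σ.j ((tensM P1 P2).act b n.1) = (tensM P1 P1).act b (ptMap i1 σ.j n.1) :=
      isHom_ptMap (isHom_id P1) σ.hj b n.1
    have e2 : ptMap σ.j i1 ((tensM P2 P1).act b n.2) = (tensM P1 P1).act b (ptMap σ.j i1 n.2) :=
      isHom_ptMap σ.hj (isHom_id P1) b n.2
    have e3 : (tensM P1 P1).act b (h0 n) = (tensM P1 P1).act b (ptMap i1 σ.j n.1)
        + (tensM P1 P1).act b (ptMap σ.j i1 n.2) := map_add ((tensM P1 P1).act b) _ _
    exact (congrArg₂ (· + ·) e1 e2).trans e3.symm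
  -- the section `ℓ`
  let ℓ0 : PT P1 P1 →L[ℂ] N :=
    ContinuousLinearMap.prod (ptMap i1 σ.r) (ptMap σ.r (σ.s.comp σ.p))
  have hℓ0 : ∀ w : PT P1 P1, h0 (ℓ0 w) + ptMap σ.s σ.s (ptMap σ.p σ.p w) = w := by
    intro w
    refine PT.apply_eq_of (f := (h0.comp ℓ0) + (ptMap σ.s σ.s).comp (ptMap σ.p σ.p))
      (g := ContinuousLinearMap.id ℂ (PT P1 P1)) (fun x y => ?_) w
    change ptMap i1 σ.j (ptMap i1 σ.r (pt x y)) + ptMap σ.j i1 (ptMap σ.r (σ.s.comp σ.p) (pt x y))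
      + ptMap σ.s σ.s (ptMap σ.p σ.p (pt x y)) = pt x y
    simp only [ptMap_pt]
    change pt x (σ.j (σ.r y)) + pt (σ.j (σ.r x)) (σ.s (σ.p y)) + pt (σ.s (σ.p x)) (σ.s (σ.p y))
      = pt x y
    rw [add_assoc, ← pt_add_left, σ.jrsp, ← pt_add_right, σ.jrsp]
  let ℓ : kerM (X := tensM P1 P1) (Y := tensM A A) (ptMap σ.p σ.p) hpp →L[ℂ] N :=
    ℓ0.comp (kerι (X := tensM P1 P1) (Y := tensM A A) (ptMap σ.p σ.p) hpp)
  have hℓ : ∀ x, h (ℓ x) = x := by
    intro x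
    apply kerι_inj
    rw [hhι]
    have e := hℓ0 (kerι (X := tensM P1 P1) (Y := tensM A A) (ptMap σ.p σ.p) hpp x)
    have e0 : ptMap σ.p σ.p (kerι (X := tensM P1 P1) (Y := tensM A A) (ptMap σ.p σ.p) hpp x : PT P1 P1)
        = 0 := f_kerι (X := tensM P1 P1) (Y := tensM A A) (ptMap σ.p σ.p) hpp x
    have e1 : ptMap σ.s σ.s (ptMap σ.p σ.p
        (kerι (X := tensM P1 P1) (Y := tensM A A) (ptMap σ.p σ.p) hpp x : PT P1 P1)) = 0 :=
      (congrArg (ptMap σ.s σ.s) e0).trans (map_zero _)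
    have e2 := (congrArg (fun t => h0 (ℓ0 (kerι (X := tensM P1 P1) (Y := tensM A A)
      (ptMap σ.p σ.p) hpp x)) + t) e1).symm.trans e
    exact (add_zero _).symm.trans e2
  -- the maps `g` and `G`
  let g : (tensM P2 P2 : BMod (PTA U U)) →L[ℂ] N :=
    ContinuousLinearMap.prod (ptMap σ.j i2) (-(ptMap i2 σ.j))
  have hg1 : ∀ z : PT P2 P2, g z = (ptMap σ.j i2 z, -(ptMap i2 σ.j z)) := fun z => rfl
  have hghom : IsHom (tensM P2 P2) N g := by
    intro b z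
    have e1 : ptMap σ.j i2 ((tensM P2 P2).act b z) = (tensM P1 P2).act b (ptMap σ.j i2 z) :=
      isHom_ptMap σ.hj (isHom_id P2) b z
    have e2 : ptMap i2 σ.j ((tensM P2 P2).act b z) = (tensM P2 P1).act b (ptMap i2 σ.j z) :=
      isHom_ptMap (isHom_id P2) σ.hj b z
    have e3 : (tensM P2 P1).act b (-(ptMap i2 σ.j z)) = -((tensM P2 P1).act b (ptMap i2 σ.j z)) :=
      map_neg ((tensM P2 P1).act b) _
    exact Prod.ext e1 ((congrArg Neg.neg e2).trans e3.symm)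
  let G : N →L[ℂ] (tensM P2 P2 : BMod (PTA U U)) :=
    a.comp (ContinuousLinearMap.fst ℂ (PT P1 P2) (PT P2 P1)) -
      b.comp (ContinuousLinearMap.snd ℂ (PT P1 P2) (PT P2 P1))
  have hG1 : ∀ n : N, G n = a n.1 - b n.2 := fun n => rfl
  have hGhom : IsHom N (tensM P2 P2) G := by
    intro c n
    have e3 : (tensM P2 P2).act c (G n) = (tensM P2 P2).act c (a n.1)
        - (tensM P2 P2).act c (b n.2) := map_sub ((tensM P2 P2).act c) _ _
    exact (congrArg₂ (· - ·) (ha c n.1) (hb c n.2)).trans e3.symm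
  have hGg : ∀ z, G (g z) = z := by
    intro z
    rw [hG1]
    change a (ptMap σ.j i2 z) - b (-(ptMap i2 σ.j z)) = z
    rw [map_neg, sub_neg_eq_add]
    exact hab z
  have hgz : ∀ z, h (g z) = 0 := by
    intro z
    apply kerι_inj
    rw [hhι, hh0, map_zero]
    change ptMap i1 σ.j (ptMap σ.j i2 z) + ptMap σ.j i1 (-(ptMap i2 σ.j z)) = 0
    rw [map_neg, ptMap_comp, ptMap_comp]
    exact add_neg_cancel _
  have hker : ∀ n, h n = 0 → ∃ z, g z = n := by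
    intro n hn
    have e0 : ptMap i1 σ.j n.1 + ptMap σ.j i1 n.2 = 0 := by
      rw [← hh0, ← hhι, hn, map_zero]
      rfl
    have e1 : ptMap i1 σ.j n.1 = -(ptMap σ.j i1 n.2) := eq_neg_of_add_eq_zero_left e0
    refine ⟨ptMap σ.r i2 n.1, ?_⟩
    rw [hg1]
    have rj' : σ.r.comp σ.j = i2 := by
      ext x; exact σ.rj x
    have pj' : σ.p.comp σ.j = 0 := by
      ext x; exact σ.pj x
    refine Prod.ext ?_ ?_
    · change ptMap σ.j i2 (ptMap σ.r i2 n.1) = n.1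
      -- `(s p ⊗ 1) x = 0`
      have e2 : ptMap i1 σ.j (ptMap (σ.s.comp σ.p) i2 n.1) = 0 := by
        have e3 : ptMap i1 σ.j (ptMap (σ.s.comp σ.p) i2 n.1)
            = ptMap (σ.s.comp σ.p) i1 (ptMap i1 σ.j n.1) := by
          rw [ptMap_comp, ptMap_comp]
          rfl
        rw [e3, e1, map_neg, ptMap_comp]
        have e4 : (σ.s.comp σ.p).comp σ.j = 0 := by
          rw [ContinuousLinearMap.comp_assoc, pj', ContinuousLinearMap.comp_zero]
        rw [e4]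
        have : ptMap (0 : P2 →L[ℂ] P1) (i1.comp i1) n.2 = 0 := by
          refine PT.apply_eq_of (g := (0 : PT P2 P1 →L[ℂ] PT P1 P1)) (fun x y => ?_) n.2
          simp
        rw [this, neg_zero]
      have e5 : ptMap (σ.s.comp σ.p) i2 n.1 = 0 := by
        have := congrArg (ptMap i1 σ.r) e2
        rw [map_zero, ptMap_comp, rj'] at this
        have id2 : ptMap (i1.comp i1) i2 (ptMap (σ.s.comp σ.p) i2 n.1)
            = ptMap (σ.s.comp σ.p) i2 n.1 := ptMap_id _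
        exact id2.symm.trans this
      have e6 : ptMap σ.j i2 (ptMap σ.r i2 n.1) + ptMap (σ.s.comp σ.p) i2 n.1 = n.1 := by
        refine PT.apply_eq_of (f := (ptMap σ.j i2).comp (ptMap σ.r i2) + ptMap (σ.s.comp σ.p) i2)
          (g := ContinuousLinearMap.id ℂ (PT P1 P2)) (fun x y => ?_) n.1
        change ptMap σ.j i2 (ptMap σ.r i2 (pt x y)) + ptMap (σ.s.comp σ.p) i2 (pt x y) = pt x y
        simp only [ptMap_pt]
        change pt (σ.j (σ.r x)) y + pt (σ.s (σ.p x)) y = pt x y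
        rw [← pt_add_left, σ.jrsp]
      rw [e5, add_zero] at e6
      exact e6
    · change -(ptMap i2 σ.j (ptMap σ.r i2 n.1)) = n.2
      have e3 : ptMap i2 σ.j (ptMap σ.r i2 n.1) = ptMap σ.r i1 (ptMap i1 σ.j n.1) := by
        rw [ptMap_comp, ptMap_comp]
        rfl
      rw [e3, e1, map_neg, neg_neg, ptMap_comp, rj']
      exact ptMap_id n.2
  obtain ⟨R⟩ := retr_of_coretraction g hghom h hhhom ℓ hℓ hgz hker G hGhom hGg
  exact R.projective hN

end Pool.Agent.Lib.BF3
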