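import Mathlib
import Pool.Agent.Lib.BF3.HDefs

/-!
# The bounded operator `∑_l T_l ⊗ S_l`

Hypotheses: `‖T_l x‖ ≤ C ‖x‖` for all `l`, and `∑_{l < N} ‖S_l z‖ ≤ ‖z‖` for all `N`.

PROOF of `exists_sumTens`. For `x`, `z` put `β x z = ∑' l, T_l x ⊗ S_l z` in `PT G H`. The series
is absolutely convergent: `‖T_l x ⊗ S_l z‖ ≤ C ‖x‖ ‖S_l z‖` (`norm_pt_le`) and
`∑_{l < N} ‖S_l z‖ ≤ ‖z‖`, so it is summable (`summable_of_sum_range_le`), `PT G H` is complete,
and `‖β x z‖ ≤ C ‖x‖ ‖z‖`. `β` is bilinear (`HasSum.add`, `HasSum.const_smul`), so by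
`LinearMap.mkContinuous₂` it is a bounded bilinear map and `Θ = lift β`.
`exists_sumTens'` is the same with the roles of the two factors exchanged.
`isHom_sumTens`: for `isHom_of_ta` fix `u, v`; by `PT.apply_eq_of` it is enough to take `pt x z`,
where `(u ⊗ v)(Θ (x ⊗ z)) = ∑ u T_l x ⊗ v S_l z` (a continuous linear map applied to a
convergent series) `= ∑ T_l (u x) ⊗ S_l (v z)`; conclude by the uniqueness of sums (`HasSum.unique`).
-/

noncomputable section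

namespace Pool.Agent.Lib.BF3

variable {E F G H : Type} [NormedAddCommGroup E] [NormedSpace ℂ E] [NormedAddCommGroup F]
  [NormedSpace ℂ F] [NormedAddCommGroup G] [NormedSpace ℂ G] [NormedAddCommGroup H]
  [NormedSpace ℂ H]

private theorem SumTensAux.summ (T : ℕ → E →L[ℂ] G) (S : ℕ → F →L[ℂ] H) (C : ℝ)
    (hT : ∀ l x, ‖T l x‖ ≤ C * ‖x‖) (hS : ∀ N z, ∑ l ∈ Finset.range N, ‖S l z‖ ≤ ‖z‖) (x : E)
    (z : F) : Summable (fun l => ‖pt (T l x) (S l z)‖) ∧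
      ∑' l, ‖pt (T l x) (S l z)‖ ≤ |C| * ‖x‖ * ‖z‖ := by
  have hb : ∀ N, ∑ l ∈ Finset.range N, ‖pt (T l x) (S l z)‖ ≤ |C| * ‖x‖ * ‖z‖ := by
    intro N
    calc ∑ l ∈ Finset.range N, ‖pt (T l x) (S l z)‖
        ≤ ∑ l ∈ Finset.range N, |C| * ‖x‖ * ‖S l z‖ := by
          refine Finset.sum_le_sum fun l _ => ?_
          refine (norm_pt_le _ _).trans ?_
          gcongr
          refine (hT l x).trans ?_
          gcongr
          exact le_abs_self C
      _ = |C| * ‖x‖ * ∑ l ∈ Finset.range N, ‖S l z‖ := by rw [Finset.mul_sum]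
      _ ≤ |C| * ‖x‖ * ‖z‖ := by
          gcongr
          exact hS N z
  have hs : Summable (fun l => ‖pt (T l x) (S l z)‖) :=
    summable_of_sum_range_le (fun _ => norm_nonneg _) hb
  exact ⟨hs, hs.tsum_le_of_sum_range_le hb⟩

theorem exists_sumTens (T : ℕ → E →L[ℂ] G) (S : ℕ → F →L[ℂ] H) (C : ℝ)
    (hT : ∀ l x, ‖T l x‖ ≤ C * ‖x‖) (hS : ∀ N z, ∑ l ∈ Finset.range N, ‖S l z‖ ≤ ‖z‖) :
    ∃ Θ : PT E F →L[ℂ] PT G H, ∀ x z, HasSum (fun l => pt (T l x) (S l z)) (Θ (pt x z)) := by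
  have hsum : ∀ x z, HasSum (fun l => pt (T l x) (S l z)) (∑' l, pt (T l x) (S l z)) :=
    fun x z => (Summable.of_norm (SumTensAux.summ T S C hT hS x z).1).hasSum
  have hadd1 : ∀ x x' z, (∑' l, pt (T l (x + x')) (S l z))
      = (∑' l, pt (T l x) (S l z)) + ∑' l, pt (T l x') (S l z) := by
    intro x x' z
    refine (hsum (x + x') z).unique ?_
    simpa using (hsum x z).add (hsum x' z)
  have hadd2 : ∀ x z z', (∑' l, pt (T l x) (S l (z + z')))
      = (∑' l, pt (T l x) (S l z)) + ∑' l, pt (T l x) (S l z') := by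
    intro x z z'
    refine (hsum x (z + z')).unique ?_
    simpa using (hsum x z).add (hsum x z')
  have hsm1 : ∀ (c : ℂ) x z, (∑' l, pt (T l (c • x)) (S l z))
      = c • (∑' l, pt (T l x) (S l z)) := by
    intro c x z
    refine (hsum (c • x) z).unique ?_
    simpa using (hsum x z).const_smul c
  have hsm2 : ∀ (c : ℂ) x z, (∑' l, pt (T l x) (S l (c • z)))
      = c • (∑' l, pt (T l x) (S l z)) := by
    intro c x z
    refine (hsum x (c • z)).unique ?_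
    simpa using (hsum x z).const_smul c
  refine ⟨lift (LinearMap.mkContinuous₂ (LinearMap.mk₂ ℂ
    (fun x z => ∑' l, pt (T l x) (S l z)) hadd1 hsm1 hadd2 hsm2) |C| ?_), ?_⟩
  · intro x z
    refine (norm_tsum_le_tsum_norm (SumTensAux.summ T S C hT hS x z).1).trans ?_
    exact (SumTensAux.summ T S C hT hS x z).2
  · intro x z
    rw [lift_pt]
    exact hsum x z

theorem exists_sumTens' (T : ℕ → F →L[ℂ] H) (S : ℕ → E →L[ℂ] G) (C : ℝ)
    (hT : ∀ l x, ‖T l x‖ ≤ C * ‖x‖) (hS : ∀ N z, ∑ l ∈ Finset.range N, ‖S l z‖ ≤ ‖z‖) :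
    ∃ Θ : PT E F →L[ℂ] PT G H, ∀ z x, HasSum (fun l => pt (S l z) (T l x)) (Θ (pt z x)) := by
  obtain ⟨Θ, hΘ⟩ := exists_sumTens T S C hT hS
  refine ⟨((lift (ptL G H).flip).comp Θ).comp (lift (ptL F E).flip), fun z x => ?_⟩
  have h := (hΘ x z).mapL (lift (ptL G H).flip)
  simpa using h

theorem isHom_sumTens {U V : Type} [NormedCommRing U] [NormedAlgebra ℂ U] [NormedCommRing V]
    [NormedAlgebra ℂ V] {Y Y' : BMod U} {Z Z' : BMod V} (T : ℕ → Y →L[ℂ] Y') (S : ℕ → Z →L[ℂ] Z')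
    (hT : ∀ l, IsHom Y Y' (T l)) (hS : ∀ l, IsHom Z Z' (S l)) (Θ : PT Y Z →L[ℂ] PT Y' Z')
    (hΘ : ∀ x z, HasSum (fun l => pt (T l x) (S l z)) (Θ (pt x z))) :
    IsHom (tensM Y Z) (tensM Y' Z') Θ := by
  refine isHom_of_ta (X := tensM Y Z) (Y := tensM Y' Z') _ fun u v x => ?_
  refine PT.apply_eq_of (f := Θ.comp ((tensM Y Z).act (ta u v)))
    (g := ((tensM Y' Z').act (ta u v)).comp Θ) (fun y z => ?_) x
  have k1 : (tensM Y Z).act (ta u v) (pt y z : PT Y Z) = (pt (Y.act u y) (Z.act v z) : PT Y Z) :=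
    tensM_act_ta Y Z u v y z
  have k2 : HasSum (fun l => ((tensM Y' Z').act (ta u v) (pt (T l y) (S l z) : PT Y' Z') :
      PT Y' Z')) ((tensM Y' Z').act (ta u v) (Θ (pt y z))) :=
    (hΘ y z).mapL ((tensM Y' Z').act (ta u v))
  have k3 : ∀ l, ((tensM Y' Z').act (ta u v) (pt (T l y) (S l z) : PT Y' Z') : PT Y' Z')
      = pt (T l (Y.act u y)) (S l (Z.act v z)) := by
    intro l
    rw [hT, hS]
    exact tensM_act_ta Y' Z' u v (T l y) (S l z)
  have k4 : (fun l => ((tensM Y' Z').act (ta u v) (pt (T l y) (S l z) : PT Y' Z') :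
      PT Y' Z')) = fun l => pt (T l (Y.act u y)) (S l (Z.act v z)) := funext k3
  rw [k4] at k2
  have k5 : Θ (pt (Y.act u y) (Z.act v z)) = ((tensM Y' Z').act (ta u v) (Θ (pt y z))) :=
    (hΘ _ _).unique k2
  exact (congrArg (fun t => Θ t) k1).trans k5

end Pool.Agent.Lib.BF3
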