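import Mathlib
import Pool.Agent.Lib.BF3.SumTens

/-!
# The phantom splitting of `P₂ ⊗̂ P₂ → (P₁ ⊗̂ P₂) ⊕ (P₂ ⊗̂ P₁)`

Data: `π_k : P₂ → P₂` morphisms with `∑_{k < N} ‖π_k p‖ ≤ ‖p‖` and `∑_k π_k p = p`; morphisms
`v_n : P₁ → P₂` with `‖v_n x‖ ≤ C ‖x‖` and `v_n (f p) = ∑_{k ≤ n} π_k p`.

PROOF. Let `a` be the operator of `exists_sumTens` with `T l = v l`, `S l = π l`
(`a (x ⊗ z) = ∑_l v_l x ⊗ π_l z`), and let `b` be the operator of `exists_sumTens'` with
`T l = v_{l-1}` (that is `T 0 = 0`, `T (l+1) = v l`), `S l = π l`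
(`b (z ⊗ x) = ∑_k π_k z ⊗ v_{k-1} x`). They are morphisms (`isHom_sumTens`; for `b` the same lemma
with `T`, `S` exchanged). The identity `a ((f ⊗ 1) z) + b ((1 ⊗ f) z) = z`: by `PT.apply_eq_of` it
is enough to take `z = p ⊗ q`:
`a (f p ⊗ q) = ∑_l (∑_{k ≤ l} π_k p) ⊗ π_l q` and `b (p ⊗ f q) = ∑_k π_k p ⊗ (∑_{l < k} π_l q)`.
The double series `∑_{(k,l)} π_k p ⊗ π_l q` is absolutely convergent with sum `p ⊗ q`
(`‖π_k p ⊗ π_l q‖ ≤ ‖π_k p‖ ‖π_l q‖`, `Summable.mul_norm`-type argument). One can avoid the double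
series: with `s_n p = ∑_{k < n} π_k p` one has
`∑_{l < n} s_{l+1} p ⊗ π_l q + ∑_{k < n} π_k p ⊗ s_k q = s_n p ⊗ s_n q` (induction on `n`, since
`s_{n+1} p ⊗ s_{n+1} q - s_n p ⊗ s_n q = s_{n+1} p ⊗ π_n q + π_n p ⊗ s_n q`), and the right side
tends to `p ⊗ q` (`HasSum.tendsto_sum_nat`, continuity of `pt`), the left side to
`a (f p ⊗ q) + b (p ⊗ f q)`.
-/

noncomputable section

namespace Pool.Agent.Lib.BF3

variable {U : Type} [NormedCommRing U] [NormedAlgebra ℂ U]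

theorem exists_phantom {P2 P1 : BMod U} (f : P2 →L[ℂ] P1)
    (π : ℕ → P2 →L[ℂ] P2) (hπ : ∀ k, IsHom P2 P2 (π k))
    (hsum : ∀ N p, ∑ k ∈ Finset.range N, ‖π k p‖ ≤ ‖p‖) (hid : ∀ p, HasSum (fun k => π k p) p)
    (v : ℕ → P1 →L[ℂ] P2) (hv : ∀ n, IsHom P1 P2 (v n)) (C : ℝ) (hC : ∀ n x, ‖v n x‖ ≤ C * ‖x‖)
    (hvf : ∀ n p, v n (f p) = ∑ k ∈ Finset.range (n + 1), π k p) :
    ∃ (a : PT P1 P2 →L[ℂ] PT P2 P2) (b : PT P2 P1 →L[ℂ] PT P2 P2),
      IsHom (tensM P1 P2) (tensM P2 P2) a ∧ IsHom (tensM P2 P1) (tensM P2 P2) b ∧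
      ∀ z : PT P2 P2, a (ptMap f (ContinuousLinearMap.id ℂ P2) z) +
        b (ptMap (ContinuousLinearMap.id ℂ P2) f z) = z := by
  classical
  -- the shifted family
  let w : ℕ → P1 →L[ℂ] P2 := fun n => match n with
    | 0 => 0
    | n + 1 => v n
  have hw : ∀ l x, ‖w l x‖ ≤ |C| * ‖x‖ := by
    intro l x
    cases l with
    | zero =>
      change ‖(0 : P1 →L[ℂ] P2) x‖ ≤ _
      rw [ContinuousLinearMap.zero_apply, norm_zero]
      positivity
    | succ n =>
      exact (hC n x).trans (mul_le_mul_of_nonneg_right (le_abs_self C) (norm_nonneg x))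
  have hwh : ∀ l, IsHom P1 P2 (w l) := by
    intro l
    cases l with
    | zero =>
      intro b x
      change (0 : P1 →L[ℂ] P2) (P1.act b x) = P2.act b ((0 : P1 →L[ℂ] P2) x)
      rw [ContinuousLinearMap.zero_apply, ContinuousLinearMap.zero_apply, map_zero]
    | succ n => exact hv n
  have hwf : ∀ n p, w n (f p) = ∑ k ∈ Finset.range n, π k p := by
    intro n p
    cases n with
    | zero => simp [w]
    | succ n => exact hvf n p
  obtain ⟨a, ha⟩ := exists_sumTens v π C hC hsum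
  obtain ⟨b, hb⟩ := exists_sumTens' w π |C| hw hsum
  refine ⟨a, b, isHom_sumTens v π hv hπ a ha, isHom_sumTens π w hπ hwh b hb, ?_⟩
  have key : ∀ (p q : P2) (n : ℕ),
      ∑ l ∈ Finset.range n, pt (v l (f p)) (π l q) + ∑ k ∈ Finset.range n, pt (π k p) (w k (f q))
        = pt (∑ k ∈ Finset.range n, π k p) (∑ k ∈ Finset.range n, π k q) := by
    intro p q n
    induction n with
    | zero => simp
    | succ n ih =>
      rw [Finset.sum_range_succ (fun l => pt (v l (f p)) (π l q)),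
        Finset.sum_range_succ (fun k => pt (π k p) (w k (f q))),
        Finset.sum_range_succ (fun k => π k q) n, pt_add_right]
      have e1 : pt (∑ k ∈ Finset.range (n + 1), π k p) (∑ k ∈ Finset.range n, π k q)
          = pt (∑ k ∈ Finset.range n, π k p) (∑ k ∈ Finset.range n, π k q)
            + pt (π n p) (∑ k ∈ Finset.range n, π k q) := by
        rw [Finset.sum_range_succ, pt_add_left]
      rw [e1, ← ih, hvf, hwf]
      abel
  intro z
  refine PT.apply_eq_of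
    (f := a.comp (ptMap f (ContinuousLinearMap.id ℂ P2))
      + b.comp (ptMap (ContinuousLinearMap.id ℂ P2) f))
    (g := ContinuousLinearMap.id ℂ (PT P2 P2)) (fun p q => ?_) z
  have h1 : (a.comp (ptMap f (ContinuousLinearMap.id ℂ P2))
      + b.comp (ptMap (ContinuousLinearMap.id ℂ P2) f)) (pt p q)
      = a (pt (f p) q) + b (pt p (f q)) := by
    simp
  rw [h1, ContinuousLinearMap.id_apply]
  have hA := (ha (f p) q).tendsto_sum_nat
  have hB := (hb p (f q)).tendsto_sum_nat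
  have hAB := hA.add hB
  have hP := (hid p).tendsto_sum_nat
  have hQ := (hid q).tendsto_sum_nat
  have hcont : Filter.Tendsto
      (fun n => ptL P2 P2 (∑ k ∈ Finset.range n, π k p) (∑ k ∈ Finset.range n, π k q))
      Filter.atTop (nhds (ptL P2 P2 p q)) :=
    (isBoundedBilinearMap_apply.continuous.tendsto (ptL P2 P2 p, q)).comp
      ((((ptL P2 P2).continuous.tendsto p).comp hP).prodMk_nhds hQ)
  refine tendsto_nhds_unique (hAB.congr fun n => ?_) hcont
  exact key p q n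

end Pool.Agent.Lib.BF3
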