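import Mathlib
import Pool.Agent.Lib.BF3.Mods

/-!
# The module `B₀` is projective

PROOF. `ρ : Atom (SG F0) → UU ⊗̂ Atom (SG F0)`, `δ (inl t) ↦ inA (bA (inl t)) ⊗ δ (inr t.1)`,
`δ (inr x) ↦ inA (bA (inr x)) ⊗ δ (inr x)`. The family is bounded by `1`: a generator `g` of `SG F0`
is either supported on `inl t`, `t ∈ F`, where all `t ∈ F` have the same `t.1 = x`; then the sum is
`inA (∑ g_t bA (inl t)) ⊗ δ (inr x)`, of norm at most `1` (`norm_inA`, `norm_sum_bA_le`,
`F0.faces ⊆ F1.faces`, `norm_δ_le`, `norm_pt_le`); or it is `c • single (inr x)`, `|c| ≤ 1`.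
`ρ` is a morphism: `isHom_of_in`, `AA.apply_eq_of`, `Atom.apply_eq_of` reduce to
`ρ (bA s · δ s') = bA s · ρ (δ s')` (`mulA0_δ`, `tab`, `inA_mul`, `bA_mul_inl_inl` etc.), four cases;
for `s = inl t`, `s' = inr x`, `t.1 = x`: `ρ (δ (inl t)) = bA (inl t) ⊗ δ (inr t.1)
= bA (inl t) bA (inr x) ⊗ δ (inr x)`. `actMap (ρ (δ s')) = δ s'`: `bA (inl t) · δ (inr t.1)
= δ (inl t)`, `bA (inr x) · δ (inr x) = δ (inr x)`.
-/

noncomputable section

namespace Pool.Agent.Lib.BF3

private def px : SA → Xs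
  | Sum.inl t => t.1
  | Sum.inr x => x

private def zf (s : SA) : PT UU (Atom (SG F0)) :=
  pt (inA (bA s)) (δ (SG F0) (Sum.inr (px s)))

private theorem px_eq {g : SA →₀ ℂ} (hg : g ∈ (SG F0).gen) {s s' : SA} (hs : s ∈ g.support)
    (hs' : s' ∈ g.support) : px s = px s' := by
  rcases hg.1 with ⟨G, hG, hF⟩ | ⟨G, hG, hF⟩
  · obtain ⟨t, ht, rfl⟩ := Finset.mem_map.1 (hF hs)
    obtain ⟨t', ht', rfl⟩ := Finset.mem_map.1 (hF hs')
    exact hG t ht t' ht'
  · obtain ⟨t, ht, rfl⟩ := Finset.mem_map.1 (hF hs)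
    obtain ⟨t', ht', rfl⟩ := Finset.mem_map.1 (hF hs')
    exact hG t ht t' ht'

private theorem gen_le {g : SA →₀ ℂ} (hg : g ∈ (SG F0).gen) : g ∈ (SG F1).gen := by
  refine ⟨?_, hg.2⟩
  rcases hg.1 with ⟨G, hG, hF⟩ | ⟨G, hG, hF⟩
  · exact Or.inl ⟨G, F0_le_F1 hG, hF⟩
  · exact Or.inr ⟨G, hG, hF⟩

private theorem bdd_zf : Bdd (SG F0) zf 1 := by
  refine ⟨zero_le_one, fun g hg => ?_⟩
  rcases Finset.eq_empty_or_nonempty g.support with h0 | ⟨s0, hs0⟩
  · rw [Finsupp.sum, h0, Finset.sum_empty, norm_zero]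
    exact zero_le_one
  · have e : (g.sum fun s c => c • zf s)
        = pt (inA (g.sum fun s c => c • bA s)) (δ (SG F0) (Sum.inr (px s0))) := by
      have h1 := map_sum (((ptL UU (Atom (SG F0))).flip (δ (SG F0) (Sum.inr (px s0)))).comp
        (inA (A := AA))) (fun s => g s • bA s) g.support
      simp only [ContinuousLinearMap.comp_apply, ContinuousLinearMap.flip_apply, ptL_apply] at h1
      rw [Finsupp.sum, Finsupp.sum, h1]
      refine Finset.sum_congr rfl fun s hs => ?_
      rw [map_smul, pt_smul_left, zf, px_eq hg hs hs0]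
    rw [e]
    refine (norm_pt_le _ _).trans ?_
    rw [norm_inA]
    exact mul_le_one₀ (norm_sum_bA_le (gen_le hg)) (norm_nonneg _) (norm_δ_le _ _)

private def rhoB : Atom (SG F0) →L[ℂ] PT UU (Atom (SG F0)) := alift (SG F0) zf

private theorem rhoB_δ (s : SA) : rhoB (δ (SG F0) s) = zf s := alift_δ bdd_zf s

private theorem rhoB_tab (s s' : SA) : rhoB (tab F0 s s')
    = pt (inA (bA s * bA s')) (δ (SG F0) (Sum.inr (px s'))) := by
  rcases s with t | x
  · rcases s' with t' | x'
    · rw [bA_mul_inl_inl]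
      simp only [tab]
      split_ifs with h
      · subst h
        exact rhoB_δ _
      · rw [map_zero, map_zero, pt_zero_left]
    · rw [bA_mul_inl_inr]
      simp only [tab]
      split_ifs with h
      · subst h
        exact rhoB_δ _
      · rw [map_zero, map_zero, pt_zero_left]
  · rcases s' with t' | x'
    · rw [bA_mul_inr_inl]
      simp only [tab]
      split_ifs with h
      · subst h
        exact rhoB_δ _
      · rw [map_zero, map_zero, pt_zero_left]
    · rw [bA_mul_inr_inr]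
      simp only [tab]
      split_ifs with h
      · subst h
        exact rhoB_δ _
      · rw [map_zero, map_zero, pt_zero_left]

private theorem rhoB_mul (a : AA) (m : Atom (SG F0)) :
    rhoB (mulA0 a m) = (freeM UU (Atom (SG F0))).act (inA a) (rhoB m) := by
  refine AA.apply_eq_of (f := rhoB.comp (mulA0.flip m))
    (g := ((freeM UU (Atom (SG F0))).act.flip (rhoB m)).comp (inA (A := AA))) (fun s => ?_) a
  refine Atom.apply_eq_of (f := rhoB.comp (mulA0 (bA s)))
    (g := ((freeM UU (Atom (SG F0))).act (inA (bA s))).comp rhoB) (fun s' => ?_) m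
  have h1 : rhoB (mulA0 (bA s) (δ (SG F0) s'))
      = pt (inA (bA s) * inA (bA s')) (δ (SG F0) (Sum.inr (px s'))) := by
    rw [mulA0_δ, rhoB_tab, inA_mul]
  have h2 : (freeM UU (Atom (SG F0))).act (inA (bA s)) (zf s')
      = pt (inA (bA s) * inA (bA s')) (δ (SG F0) (Sum.inr (px s'))) := freeM_act_pt _ _ _ _
  have h3 : (freeM UU (Atom (SG F0))).act (inA (bA s)) (rhoB (δ (SG F0) s'))
      = (freeM UU (Atom (SG F0))).act (inA (bA s)) (zf s') :=
    congrArg ((freeM UU (Atom (SG F0))).act (inA (bA s))) (rhoB_δ s')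
  exact h1.trans (h3.trans h2).symm

theorem projective_B0M : Projective B0M := by
  refine ⟨rhoB, isHom_of_in (X := B0M) (Y := freeM UU B0M) rhoB fun a x => ?_, fun x => ?_⟩
  · have h1 : B0M.act (inA a) x = mulA0 a x := ofA_act_in _ _ _ _
    rw [h1]
    exact rhoB_mul a x
  · refine Atom.apply_eq_of (f := (actMap B0M).comp rhoB)
      (g := ContinuousLinearMap.id ℂ (Atom (SG F0))) (fun s => ?_) x
    have h1 : actMap B0M (rhoB (δ (SG F0) s)) = B0M.act (inA (bA s))
        (δ (SG F0) (Sum.inr (px s))) := by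
      rw [rhoB_δ]
      exact actMap_pt _ _ _
    have h2 : B0M.act (inA (bA s)) (δ (SG F0) (Sum.inr (px s)))
        = mulA0 (bA s) (δ (SG F0) (Sum.inr (px s))) := ofA_act_in _ _ _ _
    refine (h1.trans h2).trans ?_
    rw [mulA0_δ]
    rcases s with t | x
    · simp only [tab, px, if_true]
      rfl
    · simp only [tab, px, if_true]
      rfl

end Pool.Agent.Lib.BF3
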