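import Mathlib
import Pool.Agent.Lib.BF3.Mods
import Pool.Agent.Lib.BF3.DiagT

/-!
# Diagonal modules over the atoms are projective

PROOF of `projective_diagM`. Let `ρ = alift L (fun y => pt (inA (bA (Sum.inl (q y)))) (δ L y))`; the
family is bounded by `bdd_ptdiag'` with `K = SG F1` (the faces of `SG F1 = F1.sum (pts Xs)` contain
the images of the faces of `F1` under `Sum.inl`), `S = SA`, `q' y = Sum.inl (q y)`, `j = inA`
(`norm_inA`; `bA s = δ (SG F1) s`). `ρ` is a morphism: by `isHom_of_in` and `AA.apply_eq_of`,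
`Atom.apply_eq_of` it is enough to consider `bA s` and `δ_y`: both sides are
`val s (inl (q y)) • (bA (inl (q y)) ⊗ δ_y)`, since
`inA (bA s) * inA (bA (inl t)) = inA (bA s * bA (inl t)) = val s (inl t) • inA (bA (inl t))`
(`inA_mul`, `bA_mul_inl_inl`, `bA_mul_inr_inl`). `actMap (ρ δ_y) = bA (inl (q y)) · δ_y
= val (inl (q y)) (inl (q y)) δ_y = δ_y`.
`projective_IM`, `projective_I0M`: `q = id`.
-/

noncomputable section

namespace Pool.Agent.Lib.BF3

variable {Y : Type}

namespace ProjDiagAux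

theorem bdd (L : Cx Y) (q : Y → Ts)
    (hinj : ∀ F ∈ L.faces, ∀ y ∈ F, ∀ y' ∈ F, q y = q y' → y = y')
    (hface : ∀ F ∈ L.faces, ∃ G ∈ F1.faces, ∀ y ∈ F, q y ∈ G) :
    Bdd L (fun y => (pt (inA (bA (Sum.inl (q y)))) (δ L y) : PT UU (Atom L))) 1 := by
  refine bdd_ptdiag' (SG F1) L (fun y => Sum.inl (q y)) (inA (A := AA))
    (fun a => (norm_inA (A := AA) a).le) ?_ ?_
  · intro F hF y hy y' hy' h
    exact hinj F hF y hy y' hy' (Sum.inl_injective h)
  · intro F hF
    obtain ⟨G, hG, h⟩ := hface F hF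
    refine ⟨G.map Function.Embedding.inl, Or.inl ⟨G, hG, subset_rfl⟩, fun y hy => ?_⟩
    exact Finset.mem_map_of_mem Function.Embedding.inl (h y hy)

theorem mul_inl (s : SA) (t : Ts) :
    bA s * bA (Sum.inl t) = val s (Sum.inl t) • bA (Sum.inl t) := by
  rcases s with t' | x
  · rw [bA_mul_inl_inl]
    by_cases h : t' = t
    · subst h; simp [val]
    · simp [val, h]
  · rw [bA_mul_inr_inl]
    by_cases h : t.1 = x <;> simp [val, h]

end ProjDiagAux

theorem projective_diagM (L : Cx Y) (q : Y → Ts)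
    (hinj : ∀ F ∈ L.faces, ∀ y ∈ F, ∀ y' ∈ F, q y = q y' → y = y')
    (hface : ∀ F ∈ L.faces, ∃ G ∈ F1.faces, ∀ y ∈ F, q y ∈ G) :
    Projective (diagM L (fun y => Sum.inl (q y))) := by
  have hb := ProjDiagAux.bdd L q hinj hface
  let ρ : Atom L →L[ℂ] PT UU (Atom L) :=
    alift L (fun y => (pt (inA (bA (Sum.inl (q y)))) (δ L y) : PT UU (Atom L)))
  have hρ : ∀ y, ρ (δ L y) = pt (inA (bA (Sum.inl (q y)))) (δ L y) := fun y => alift_δ hb y
  let φ : AA →L[ℂ] Atom L →L[ℂ] PT UU (Atom L) :=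
    (ContinuousLinearMap.compL ℂ (Atom L) (Atom L) (PT UU (Atom L)) ρ).comp
      (diagAct L (fun y => Sum.inl (q y)))
  let ψ : AA →L[ℂ] Atom L →L[ℂ] PT UU (Atom L) :=
    ((ContinuousLinearMap.compL ℂ (Atom L) (PT UU (Atom L)) (PT UU (Atom L))).flip ρ).comp
      ((freeM UU (Atom L)).act.comp (inA (A := AA)))
  have hφ : ∀ a x, φ a x = ρ (diagAct L (fun y => Sum.inl (q y)) a x) := fun a x => rfl
  have hψ : ∀ a x, ψ a x = (freeM UU (Atom L)).act (inA a) (ρ x) := fun a x => rfl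
  have hφψ : φ = ψ := by
    refine AA.ext₂_of fun s y => ?_
    rw [hφ, hψ, diagAct_δ, map_smul, hρ]
    refine Eq.trans ?_ (freeM_act_pt (B := UU) (Atom L) (inA (bA s)) (inA (bA (Sum.inl (q y))))
      (δ L y)).symm
    rw [← inA_mul, ProjDiagAux.mul_inl, map_smul, pt_smul_left]
  refine ⟨ρ, ?_, ?_⟩
  · refine isHom_of_in (X := diagM L fun y => Sum.inl (q y))
      (Y := freeM UU (diagM L fun y => Sum.inl (q y))) ρ ?_
    intro a x
    have h1 : (diagM L fun y => Sum.inl (q y)).act (inA a) x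
        = diagAct L (fun y => Sum.inl (q y)) a x := ofA_act_in _ _ _ _
    rw [h1]
    exact congrArg (fun T : AA →L[ℂ] Atom L →L[ℂ] PT UU (Atom L) => T a x) hφψ
  · intro x
    refine Atom.apply_eq_of (K := L)
      (f := (actMap (diagM L fun y => Sum.inl (q y))).comp ρ)
      (g := ContinuousLinearMap.id ℂ (Atom L)) (fun y => ?_) x
    refine (congrArg (actMap (diagM L fun y => Sum.inl (q y))) (hρ y)).trans ?_
    refine (actMap_pt (diagM L fun y => Sum.inl (q y)) (inA (bA (Sum.inl (q y)))) (δ L y)).trans ?_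
    refine (ofA_act_in (M := Atom L) (diagAct L (fun y => Sum.inl (q y)))
      (diagAct_mul L (fun y => Sum.inl (q y))) _ _).trans ?_
    rw [diagAct_δ]
    have hv : val (Sum.inl (q y)) (Sum.inl (q y)) = 1 := by simp [val]
    rw [hv, one_smul]
    rfl

theorem projective_IM : Projective IM := by
  refine projective_diagM F1 id (fun F _ y _ y' _ h => h) (fun F hF => ⟨F, hF, fun y hy => hy⟩)

theorem projective_I0M : Projective I0M := by
  refine projective_diagM F0 id (fun F _ y _ y' _ h => h)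
    (fun F hF => ⟨F, F0_le_F1 hF, fun y hy => hy⟩)

end Pool.Agent.Lib.BF3
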