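import Mathlib
import Pool.Agent.Lib.BF3.Mods

/-!
# The admissible sequences `0 → I → A → E → 0`, `0 → I₀ → B₀ → E → 0`

PROOF. `I = Atom F1`, `A = Atom (F1.sum (pts Xs))`, `E = Atom (pts Xs)`: `j δ_t = bA (inl t)`,
`p (bA (inl t)) = 0`, `p (bA (inr x)) = δ_x`, `r (bA (inl t)) = δ_t`, `r (bA (inr x)) = 0`,
`s δ_x = bA (inr x)`. The families are bounded by `1` since a generator of `F1.sum (pts Xs)` is
supported on one side (`norm_aι_le_one`, `aι_eq_sum`). The identities hold on the basis elements
(`Atom.apply_eq_of`). Morphisms: `isHom_of_in` and the basis; e.g.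
`p (bA s * bA (inl t)) = 0`, `p (bA (inl t) * bA (inr x)) = 0 = val (inl t) (inr x) • δ_x`.
The second sequence: the same with `F0` and the table `tab F0` (`mulA0_δ`). (`AM` acts by the
multiplication of `AA`, and `mulG`; one may prove both sequences at once for
`Atom (SG G)`.)
-/

noncomputable section

namespace Pool.Agent.Lib.BF3

namespace SesEAux

variable {S S' : Type}

theorem bdd_inl (K : Cx S) (L : Cx S') : Bdd K (fun s => δ (K.sum L) (Sum.inl s)) 1 := by
  refine ⟨zero_le_one, fun g hg => ?_⟩
  have e : (g.sum fun s c => c • δ (K.sum L) (Sum.inl s))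
      = aι (K.sum L) (g.embDomain Function.Embedding.inl) := by
    rw [aι_eq_sum, Finsupp.sum_embDomain]
    rfl
  rw [e]
  refine norm_aι_le_one ⟨?_, ?_⟩
  · rw [Finsupp.support_embDomain]
    exact Or.inl ⟨g.support, hg.1, subset_rfl⟩
  · rintro (s | s)
    · have := Finsupp.embDomain_apply_self (Function.Embedding.inl : S ↪ S ⊕ S') g s
      have e2 : (Function.Embedding.inl : S ↪ S ⊕ S') s = Sum.inl s := rfl
      rw [e2] at this
      rw [this]
      exact hg.2 s
    · rw [Finsupp.embDomain_of_notMem_range]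
      · simp
      · rintro ⟨y, hy⟩
        exact Sum.inl_ne_inr hy

theorem bdd_inr (K : Cx S) (L : Cx S') : Bdd L (fun s => δ (K.sum L) (Sum.inr s)) 1 := by
  refine ⟨zero_le_one, fun g hg => ?_⟩
  have e : (g.sum fun s c => c • δ (K.sum L) (Sum.inr s))
      = aι (K.sum L) (g.embDomain Function.Embedding.inr) := by
    rw [aι_eq_sum, Finsupp.sum_embDomain]
    rfl
  rw [e]
  refine norm_aι_le_one ⟨?_, ?_⟩
  · rw [Finsupp.support_embDomain]
    exact Or.inr ⟨g.support, hg.1, subset_rfl⟩
  · rintro (s | s)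
    · rw [Finsupp.embDomain_of_notMem_range]
      · simp
      · rintro ⟨y, hy⟩
        exact Sum.inr_ne_inl hy
    · have := Finsupp.embDomain_apply_self (Function.Embedding.inr : S' ↪ S ⊕ S') g s
      have e2 : (Function.Embedding.inr : S' ↪ S ⊕ S') s = Sum.inr s := rfl
      rw [e2] at this
      rw [this]
      exact hg.2 s

theorem sum_left {Z : Type} [AddCommGroup Z] [Module ℂ Z] (u : S → Z) (g : S ⊕ S' →₀ ℂ) :
    (g.sum fun s c => c • (Sum.elim u (fun _ => (0:Z)) s))
      = (g.comapDomain Sum.inl Sum.inl_injective.injOn).sum fun t c => c • u t := by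
  have h : (Finsupp.linearCombination ℂ (Sum.elim u (fun _ : S' => (0:Z))))
      = (Finsupp.linearCombination ℂ u) ∘ₗ
        (Finsupp.lcomapDomain (Sum.inl : S → S ⊕ S') Sum.inl_injective) := by
    apply Finsupp.lhom_ext'
    intro s
    apply LinearMap.ext_ring
    rcases s with s | s
    · simp only [LinearMap.comp_apply, Finsupp.lsingle_apply, Finsupp.linearCombination_single]
      have e : Finsupp.lcomapDomain (R := ℂ) (M := ℂ) (Sum.inl : S → S ⊕ S') Sum.inl_injective
          (Finsupp.single (Sum.inl s) 1) = Finsupp.single s 1 := by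
        ext t
        change (Finsupp.single (Sum.inl s : S ⊕ S') (1:ℂ)) (Sum.inl t) = _
        classical
        rw [Finsupp.single_apply, Finsupp.single_apply]
        simp
      rw [e, Finsupp.linearCombination_single]
      simp
    · simp only [LinearMap.comp_apply, Finsupp.lsingle_apply, Finsupp.linearCombination_single]
      have e : Finsupp.lcomapDomain (R := ℂ) (M := ℂ) (Sum.inl : S → S ⊕ S') Sum.inl_injective
          (Finsupp.single (Sum.inr s) 1) = 0 := by
        ext t
        change (Finsupp.single (Sum.inr s : S ⊕ S') (1:ℂ)) (Sum.inl t) = _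
        classical
        rw [Finsupp.single_apply]
        simp
      rw [e]
      simp
  exact congrArg (fun T : (S ⊕ S' →₀ ℂ) →ₗ[ℂ] Z => T g) h

theorem sum_right {Z : Type} [AddCommGroup Z] [Module ℂ Z] (u : S' → Z) (g : S ⊕ S' →₀ ℂ) :
    (g.sum fun s c => c • (Sum.elim (fun _ => (0:Z)) u s))
      = (g.comapDomain Sum.inr Sum.inr_injective.injOn).sum fun t c => c • u t := by
  have h : (Finsupp.linearCombination ℂ (Sum.elim (fun _ : S => (0:Z)) u))
      = (Finsupp.linearCombination ℂ u) ∘ₗ
        (Finsupp.lcomapDomain (Sum.inr : S' → S ⊕ S') Sum.inr_injective) := by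
    apply Finsupp.lhom_ext'
    intro s
    apply LinearMap.ext_ring
    rcases s with s | s
    · simp only [LinearMap.comp_apply, Finsupp.lsingle_apply, Finsupp.linearCombination_single]
      have e : Finsupp.lcomapDomain (R := ℂ) (M := ℂ) (Sum.inr : S' → S ⊕ S') Sum.inr_injective
          (Finsupp.single (Sum.inl s) 1) = 0 := by
        ext t
        change (Finsupp.single (Sum.inl s : S ⊕ S') (1:ℂ)) (Sum.inr t) = _
        classical
        rw [Finsupp.single_apply]
        simp
      rw [e]
      simp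
    · simp only [LinearMap.comp_apply, Finsupp.lsingle_apply, Finsupp.linearCombination_single]
      have e : Finsupp.lcomapDomain (R := ℂ) (M := ℂ) (Sum.inr : S' → S ⊕ S') Sum.inr_injective
          (Finsupp.single (Sum.inr s) 1) = Finsupp.single s 1 := by
        ext t
        change (Finsupp.single (Sum.inr s : S ⊕ S') (1:ℂ)) (Sum.inr t) = _
        classical
        rw [Finsupp.single_apply, Finsupp.single_apply]
        simp
      rw [e, Finsupp.linearCombination_single]
      simp
  exact congrArg (fun T : (S ⊕ S' →₀ ℂ) →ₗ[ℂ] Z => T g) h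

theorem empty_mem [Nonempty S] (K : Cx S) : (∅ : Finset S) ∈ K.faces := by
  obtain ⟨s⟩ := ‹Nonempty S›
  exact K.down _ (K.sing s) _ (Finset.empty_subset _)

theorem bdd_fst [Nonempty S] (K : Cx S) (L : Cx S') :
    Bdd (K.sum L) (Sum.elim (δ K) (fun _ => 0)) 1 := by
  refine ⟨zero_le_one, fun g hg => ?_⟩
  rw [sum_left, ← aι_eq_sum]
  refine norm_aι_le_one ⟨?_, fun s => ?_⟩
  · rcases hg.1 with ⟨H, hH, hs⟩ | ⟨H, hH, hs⟩
    · refine K.down H hH _ fun s hs' => ?_
      rw [Finsupp.mem_support_iff, Finsupp.comapDomain_apply, ← Finsupp.mem_support_iff] at hs'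
      have := hs hs'
      simpa using this
    · have : (g.comapDomain Sum.inl Sum.inl_injective.injOn).support = ∅ := by
        rw [Finset.eq_empty_iff_forall_notMem]
        intro s hs'
        rw [Finsupp.mem_support_iff, Finsupp.comapDomain_apply, ← Finsupp.mem_support_iff] at hs'
        have := hs hs'
        simp at this
      rw [this]
      exact empty_mem K
  · rw [Finsupp.comapDomain_apply]
    exact hg.2 _

theorem bdd_snd [Nonempty S'] (K : Cx S) (L : Cx S') :
    Bdd (K.sum L) (Sum.elim (fun _ => 0) (δ L)) 1 := by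
  refine ⟨zero_le_one, fun g hg => ?_⟩
  rw [sum_right, ← aι_eq_sum]
  refine norm_aι_le_one ⟨?_, fun s => ?_⟩
  · rcases hg.1 with ⟨H, hH, hs⟩ | ⟨H, hH, hs⟩
    · have : (g.comapDomain Sum.inr Sum.inr_injective.injOn).support = ∅ := by
        rw [Finset.eq_empty_iff_forall_notMem]
        intro s hs'
        rw [Finsupp.mem_support_iff, Finsupp.comapDomain_apply, ← Finsupp.mem_support_iff] at hs'
        have := hs hs'
        simp at this
      rw [this]
      exact empty_mem L
    · refine L.down H hH _ fun s hs' => ?_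
      rw [Finsupp.mem_support_iff, Finsupp.comapDomain_apply, ← Finsupp.mem_support_iff] at hs'
      have := hs hs'
      simpa using this
  · rw [Finsupp.comapDomain_apply]
    exact hg.2 _

variable (G : Cx Ts)

/-- the inclusion -/
def jG : Atom G →L[ℂ] Atom (SG G) := alift G fun t => δ (SG G) (Sum.inl t)

/-- the projection to `G` -/
def rG : Atom (SG G) →L[ℂ] Atom G := alift (SG G) (Sum.elim (δ G) (fun _ => 0))

/-- the projection to `X` -/
def pG : Atom (SG G) →L[ℂ] Atom (pts Xs) := alift (SG G) (Sum.elim (fun _ => 0) (δ (pts Xs)))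

/-- the section -/
def sG : Atom (pts Xs) →L[ℂ] Atom (SG G) := alift (pts Xs) fun t => δ (SG G) (Sum.inr t)

theorem jG_δ (t : Ts) : jG G (δ G t) = δ (SG G) (Sum.inl t) := alift_δ (bdd_inl G (pts Xs)) t

theorem sG_δ (t : Xs) : sG G (δ (pts Xs) t) = δ (SG G) (Sum.inr t) :=
  alift_δ (bdd_inr G (pts Xs)) t

theorem rG_δ (s : SA) : rG G (δ (SG G) s) = Sum.elim (δ G) (fun _ => 0) s :=
  alift_δ (bdd_fst G (pts Xs)) s

theorem pG_δ (s : SA) : pG G (δ (SG G) s) = Sum.elim (fun _ => 0) (δ (pts Xs)) s :=
  alift_δ (bdd_snd G (pts Xs)) s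

theorem rj (x : Atom G) : rG G (jG G x) = x := by
  refine Atom.apply_eq_of (f := (rG G).comp (jG G)) (g := ContinuousLinearMap.id ℂ _)
    (fun t => ?_) x
  rw [ContinuousLinearMap.comp_apply, jG_δ, rG_δ]
  rfl

theorem ps (x : Atom (pts Xs)) : pG G (sG G x) = x := by
  refine Atom.apply_eq_of (f := (pG G).comp (sG G)) (g := ContinuousLinearMap.id ℂ _)
    (fun t => ?_) x
  rw [ContinuousLinearMap.comp_apply, sG_δ, pG_δ]
  rfl

theorem jrsp (x : Atom (SG G)) : jG G (rG G x) + sG G (pG G x) = x := by
  refine Atom.apply_eq_of (f := (jG G).comp (rG G) + (sG G).comp (pG G))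
    (g := ContinuousLinearMap.id ℂ _) (fun s => ?_) x
  change jG G (rG G (δ (SG G) s)) + sG G (pG G (δ (SG G) s)) = δ (SG G) s
  rw [rG_δ, pG_δ]
  rcases s with t | x
  · simp only [Sum.elim_inl, map_zero, add_zero]
    exact jG_δ G t
  · simp only [Sum.elim_inr, map_zero, zero_add]
    exact sG_δ G x

theorem hj (hG : F0.faces ⊆ G.faces) (a : AA) (x : Atom G) :
    jG G (diagAct G Sum.inl a x) = mulG G a (jG G x) := by
  have h : (ContinuousLinearMap.compL ℂ _ _ _ (jG G)).comp (diagAct G Sum.inl)
      = ((ContinuousLinearMap.compL ℂ _ _ _).flip (jG G)).comp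
        (show AA →L[ℂ] Atom (SG G) →L[ℂ] Atom (SG G) from mulG G) := by
    refine AA.ext₂_of fun s t => ?_
    change jG G (diagAct G Sum.inl (bA s) (δ G t)) = mulG G (δ (SG F1) s) (jG G (δ G t))
    rw [diagAct_δ, jG_δ, mulG_δ G hG, map_smul, jG_δ]
    rcases s with t' | x'
    · simp only [val, tab]
      by_cases htt : t' = t
      · simp [htt]
      · simp [htt]
    · simp only [val, tab]
      by_cases htt : t.1 = x'
      · simp [htt]
      · simp [htt]
  have h2 := congrArg (fun T : AA →L[ℂ] Atom G →L[ℂ] Atom (SG G) => T a x) h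
  exact h2

theorem hp (hG : F0.faces ⊆ G.faces) (a : AA) (m : Atom (SG G)) :
    pG G (mulG G a m) = diagAct (pts Xs) Sum.inr a (pG G m) := by
  have h : (ContinuousLinearMap.compL ℂ _ _ _ (pG G)).comp
        (show AA →L[ℂ] Atom (SG G) →L[ℂ] Atom (SG G) from mulG G)
      = ((ContinuousLinearMap.compL ℂ _ _ _).flip (pG G)).comp (diagAct (pts Xs) Sum.inr) := by
    refine AA.ext₂_of fun s s' => ?_
    change pG G (mulG G (δ (SG F1) s) (δ (SG G) s'))
      = diagAct (pts Xs) Sum.inr (bA s) (pG G (δ (SG G) s'))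
    rw [mulG_δ G hG, pG_δ]
    rcases s with t' | x' <;> rcases s' with t | x
    · simp only [tab, Sum.elim_inl, map_zero]
      split_ifs
      · rw [pG_δ]; rfl
      · exact map_zero _
    · simp only [tab, Sum.elim_inr]
      rw [diagAct_δ]
      simp only [val, zero_smul]
      split_ifs
      · rw [pG_δ]; rfl
      · exact map_zero _
    · simp only [tab, Sum.elim_inl, map_zero]
      split_ifs
      · rw [pG_δ]; rfl
      · exact map_zero _
    · simp only [tab, Sum.elim_inr]
      rw [diagAct_δ]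
      simp only [val]
      by_cases hx : x' = x
      · simp only [hx, if_true, one_smul]
        rw [pG_δ]; rfl
      · simp only [hx, if_false, zero_smul]
        exact map_zero _
  have h2 := congrArg (fun T : AA →L[ℂ] Atom (SG G) →L[ℂ] Atom (pts Xs) => T a m) h
  exact h2

/-- the maps for `G = F₁` -/
def jA : IM →L[ℂ] AM := jG F1

/-- the maps for `G = F₁` -/
def pA : AM →L[ℂ] EM := pG F1

/-- the maps for `G = F₁` -/
def rA : AM →L[ℂ] IM := rG F1

/-- the maps for `G = F₁` -/
def sA : EM →L[ℂ] AM := sG F1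

theorem act_AM (a : AA) (x : AM) : AM.act (inA a) x = (mulG F1 a x : Atom (SG F1)) :=
  ofA_act_in (ContinuousLinearMap.mul ℂ AA) (fun a b m => mul_assoc a b m) a x

theorem act_IM (a : AA) (x : IM) : IM.act (inA a) x = (diagAct F1 Sum.inl a x : Atom F1) :=
  ofA_act_in (diagAct F1 Sum.inl) (diagAct_mul F1 Sum.inl) a x

theorem act_EM (a : AA) (x : EM) :
    EM.act (inA a) x = (diagAct (pts Xs) Sum.inr a x : Atom (pts Xs)) :=
  ofA_act_in (diagAct (pts Xs) Sum.inr) (diagAct_mul (pts Xs) Sum.inr) a x

end SesEAux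

open SesEAux in
theorem sesIAE : Nonempty (SES IM AM EM) :=
  ⟨{ j := jA
     p := pA
     r := rA
     s := sA
     hj := isHom_of_in _ fun a x => by
      rw [act_AM]
      exact (congrArg (jG F1) (act_IM a x)).trans (hj F1 F0_le_F1 a x)
     hp := isHom_of_in _ fun a x => by
      rw [act_EM]
      exact (congrArg (pG F1) (act_AM a x)).trans (hp F1 F0_le_F1 a x)
     rj := rj F1
     ps := ps F1
     jrsp := jrsp F1 }⟩

open SesEAux in
theorem sesI0B0E : Nonempty (SES I0M B0M EM) :=
  ⟨{ j := jG F0
     p := pG F0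
     r := rG F0
     s := sG F0
     hj := isHom_of_in _ fun a x => by
      have e1 : (diagM F0 Sum.inl).act (inA a) x = diagAct F0 Sum.inl a x := ofA_act_in _ _ a x
      have e2 : B0M.act (inA a) (jG F0 x) = mulG F0 a (jG F0 x) := ofA_act_in _ _ a _
      exact (congrArg (jG F0) e1).trans ((hj F0 (fun _ h => h) a x).trans e2.symm)
     hp := isHom_of_in _ fun a x => by
      have e1 : B0M.act (inA a) x = mulG F0 a x := ofA_act_in _ _ a _
      have e2 : (diagM (pts Xs) Sum.inr).act (inA a) (pG F0 x)
        = diagAct (pts Xs) Sum.inr a (pG F0 x) := ofA_act_in _ _ a _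
      exact (congrArg (pG F0) e1).trans ((hp F0 (fun _ h => h) a x).trans e2.symm)
     rj := rj F0
     ps := ps F0
     jrsp := jrsp F0 }⟩

end Pool.Agent.Lib.BF3
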