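import Mathlib
import Pool.Agent.Lib.BF3.HDefs

/-!
# Symmetric bimodules

PROOFS. `isHom_symM`: `isHom_of_ta` and `symM_act_ta`. The rest is immediate from it. For
`retr_selfBimod` both maps are the identity of `B`: `(selfBimod B).act (ta a b) x = a * (x * b)`
(unfold; `liftA_ta`, `mulMul_apply`) and `(symM (regM B)).act (ta a b) x = a * (b * x)`.
-/

noncomputable section

namespace Pool.Agent.Lib.BF3

variable {U : Type} [NormedCommRing U] [NormedAlgebra ℂ U]

private theorem hom2 {X Y : BMod U} {f : X →L[ℂ] Y} (hf : IsHom X Y f) (u v : U) (x : X) :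
    f (X.act u (X.act v x)) = Y.act u (Y.act v (f x)) := by
  rw [hf, hf]

theorem isHom_symM {X Y : BMod U} {f : X →L[ℂ] Y} (hf : IsHom X Y f) :
    IsHom (symM X) (symM Y) f := by
  refine isHom_of_ta (X := symM X) (Y := symM Y) f fun u v x => ?_
  have e1 : (symM X).act (ta u v) x = (X.act u (X.act v x) : X) := symM_act_ta X u v x
  have e2 : (symM Y).act (ta u v) (f x) = (Y.act u (Y.act v (f x)) : Y) :=
    symM_act_ta Y u v (f x)
  exact (congrArg f e1).trans ((hom2 hf u v x).trans e2.symm)

/-- the symmetric bimodules of an admissible sequence form an admissible sequence -/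
theorem SES.sym {K P X : BMod U} (σ : SES K P X) : Nonempty (SES (symM K) (symM P) (symM X)) :=
  ⟨{ j := σ.j
     p := σ.p
     r := σ.r
     s := σ.s
     hj := isHom_symM σ.hj
     hp := isHom_symM σ.hp
     rj := σ.rj
     ps := σ.ps
     jrsp := σ.jrsp }⟩

/-- the bimodule `U` is the symmetric bimodule of the module `U` -/
theorem retr_selfBimod [CompleteSpace U] : Nonempty (Retr (selfBimod U) (symM (regM U))) := by
  have e1 : ∀ (a b x : U), (selfBimod U).act (ta a b) x = (a * (x * b) : U) := by
    intro a b x
    change liftA (mulMul U) (ta a b) x = _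
    rw [liftA_ta, mulMul_apply]
  have e2 : ∀ (a b x : U), (symM (regM U)).act (ta a b) x = (a * (b * x) : U) := by
    intro a b x
    exact symM_act_ta (regM U) a b x
  have e3 : ∀ (a b x : U), a * (x * b) = a * (b * x) := fun a b x => by rw [mul_comm x b]
  refine ⟨{ i := ContinuousLinearMap.id ℂ U, q := ContinuousLinearMap.id ℂ U,
            hi := ?_, hq := ?_, qi := fun y => rfl }⟩
  · refine isHom_of_ta (X := selfBimod U) (Y := symM (regM U)) _ fun a b x => ?_
    exact (e1 a b x).trans ((e3 a b x).trans (e2 a b x).symm)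
  · refine isHom_of_ta (X := symM (regM U)) (Y := selfBimod U) _ fun a b x => ?_
    exact (e2 a b x).trans ((e3 a b x).symm.trans (e1 a b x).symm)

end Pool.Agent.Lib.BF3
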