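import Mathlib
import Pool.Agent.Lib.BF3.ProjLift
import Pool.Agent.Lib.BF3.KerSES

/-!
# The first syzygy, a functor

`Om X` is the kernel of the action map `B ⊗̂ X → X`.

PROOFS. `exists_omSES`: `exists_ses_ker` with the section `x ↦ 1 ⊗ x` (`ptL B X 1`).
`Retr.om`: for `R : Retr Y X` take `i' = kerLift` of `(1 ⊗ R.i) ∘ kerι`, `q' = kerLift` of
`(1 ⊗ R.q) ∘ kerι`; here `actMap X ∘ (1 ⊗ i) = i ∘ actMap Y` (elementary tensors), and
`(1 ⊗ q)(1 ⊗ i) = 1 ⊗ (q i) = 1` (`ptMap_comp`, `ptMap_id`). `kerM` acts by the action of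
`freeM B X` on the underlying elements, and equality in `kerM` is equality of the underlying
elements (`Subtype.ext`), so `i'`, `q'` are morphisms because `1 ⊗ i`, `1 ⊗ q` are
(`isHom_freeMap`).
-/

noncomputable section

namespace Pool.Agent.Lib.BF3

variable {B : Type} [NormedCommRing B] [NormedAlgebra ℂ B]

/-- the kernel of the action map `B ⊗̂ X → X` -/
def Om (X : BMod B) : BMod B := kerM (X := freeM B X) (Y := X) (actMap X) (isHom_actMap X)

theorem exists_omSES (X : BMod B) : Nonempty (SES (Om X) (freeM B X) X) := by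
  obtain ⟨σ, -⟩ := exists_ses_ker (X := freeM B X) (Y := X) (actMap X) (isHom_actMap X)
    (ptL B X 1) (fun y => by
      change actMap X (pt 1 y) = y
      rw [actMap_pt, X.act_one])
  exact ⟨σ⟩

private theorem actMap_freeMap {X Y : BMod B} (f : X →L[ℂ] Y) (hf : IsHom X Y f) (z : PT B X) :
    actMap Y (ptMap (ContinuousLinearMap.id ℂ B) f z) = f (actMap X z) := by
  refine PT.apply_eq_of (f := (actMap Y).comp (ptMap (ContinuousLinearMap.id ℂ B) f))
    (g := f.comp (actMap X)) (fun b x => ?_) z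
  simp only [ContinuousLinearMap.comp_apply, ptMap_pt, actMap_pt, ContinuousLinearMap.id_apply]
  rw [hf]

/-- the map induced on the kernels -/
private def omMap {X Y : BMod B} (f : X →L[ℂ] Y) (hf : IsHom X Y f) : Om X →L[ℂ] Om Y :=
  kerLift (X := freeM B Y) (Y := Y) (actMap Y) (isHom_actMap Y)
    ((ptMap (ContinuousLinearMap.id ℂ B) f).comp
      (kerι (X := freeM B X) (Y := X) (actMap X) (isHom_actMap X))) (fun e => by
        change actMap Y (ptMap (ContinuousLinearMap.id ℂ B) f
          (kerι (X := freeM B X) (Y := X) (actMap X) (isHom_actMap X) e)) = 0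
        rw [actMap_freeMap f hf]
        have h := f_kerι (X := freeM B X) (Y := X) (actMap X) (isHom_actMap X) e
        erw [h]
        exact map_zero f)

private theorem isHom_omMap {X Y : BMod B} (f : X →L[ℂ] Y) (hf : IsHom X Y f) :
    IsHom (Om X) (Om Y) (omMap f hf) := by
  intro b x
  apply Subtype.ext
  exact isHom_freeMap f b x.1

theorem Retr.om {Y X : BMod B} (R : Retr Y X) : Nonempty (Retr (Om Y) (Om X)) := by
  refine ⟨⟨omMap R.i R.hi, omMap R.q R.hq, isHom_omMap _ _, isHom_omMap _ _, ?_⟩⟩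
  intro y
  apply Subtype.ext
  change ptMap (ContinuousLinearMap.id ℂ B) R.q (ptMap (ContinuousLinearMap.id ℂ B) R.i y.1) = y.1
  refine PT.apply_eq_of (f := (ptMap (ContinuousLinearMap.id ℂ B) R.q).comp
    (ptMap (ContinuousLinearMap.id ℂ B) R.i))
    (g := ContinuousLinearMap.id ℂ _) (fun b x => ?_) y.1
  simp [R.qi]

end Pool.Agent.Lib.BF3
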