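import Mathlib
import Pool.Agent.Lib.BF3.ProjBasic
import Pool.Agent.Lib.BF3.Schan
import Pool.Agent.Lib.BF3.Omega

/-!
# Basic properties of `DhLe`

PROOF. Simultaneous induction on `n` of

(a) `n`: retracts: `Retr Y X → DhLe n X → DhLe n Y`; and products with projective modules:
`DhLe n X → Projective Q → DhLe n (prodM X Q)`.

(b) `n`: `σ : SES K P X`, `P` projective, `DhLe (n+1) X` imply `DhLe n K`.

(a) `0` is `Retr.projective`, `Projective.prod`. (b) `n` follows from (a) `n`: let
`σ' : SES K' P' X` be the sequence in `DhLe (n+1) X`, `DhLe n K'`; by `schanuel σ σ'` the module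
`K` is a retract of `prodM K' P`. (a) `n+1`: let `R : Retr Y X`, `DhLe (n+1) X`. By (b) `n` and
`exists_omSES`, `projective_free`: `DhLe n (Om X)`. By `Retr.om` and (a) `n`: `DhLe n (Om Y)`. By
`exists_omSES Y`: `DhLe (n+1) Y`. Product: if `σ : SES K P X` then `SES K (prodM P Q) (prodM X Q)`
is an admissible sequence (`j k = (σ.j k, 0)`, `p (x, y) = (σ.p x, y)`, `s = (σ.s, id)`,
`r (x, y) = σ.r x`).

`DhLe.succ`: induction on `n`; `n = 0`: for a projective `X` the sequence `SES K X X` with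
`p = id` and `K` the kernel (`exists_ses_ker`); `K` has only the element `0`
(`projective_of_zero`). `n + 1`: same `K`, `P`. `DhLe.prod`: induction on `n`, product of the two
sequences.
-/

noncomputable section

namespace Pool.Agent.Lib.BF3

variable {B : Type} [NormedCommRing B] [NormedAlgebra ℂ B]

private def sesProd {K P X : BMod B} (σ : SES K P X) (Q : BMod B) :
    SES K (prodM P Q) (prodM X Q) where
  j := (ContinuousLinearMap.inl ℂ P Q).comp σ.j
  p := σ.p.prodMap (ContinuousLinearMap.id ℂ Q)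
  r := σ.r.comp (ContinuousLinearMap.fst ℂ P Q)
  s := σ.s.prodMap (ContinuousLinearMap.id ℂ Q)
  hj := by
    intro b x
    exact Prod.ext (σ.hj b x) (map_zero (Q.act b)).symm
  hp := by
    intro b x
    exact Prod.ext (σ.hp b x.1) rfl
  rj x := σ.rj x
  ps x := Prod.ext (σ.ps x.1) rfl
  jrsp x := Prod.ext (σ.jrsp x.1) (zero_add x.2)

private theorem ker_of_a (n : ℕ)
    (ha : ∀ Y X : BMod B, Retr Y X → DhLe n X → DhLe n Y)
    (hb : ∀ X Q : BMod B, Projective Q → DhLe n X → DhLe n (prodM X Q))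
    {K P X : BMod B} (σ : SES K P X) (hP : Projective P)
    (h : DhLe (n + 1) X) : DhLe n K := by
  obtain ⟨K', P', hP', ⟨σ'⟩, hK'⟩ := h
  obtain ⟨R⟩ := schanuel σ σ' hP hP'
  exact ha _ _ R (hb _ _ hP hK')

private theorem main (n : ℕ) : (∀ Y X : BMod B, Retr Y X → DhLe n X → DhLe n Y) ∧
    (∀ X Q : BMod B, Projective Q → DhLe n X → DhLe n (prodM X Q)) := by
  induction n with
  | zero =>
    refine ⟨fun Y X R h => R.projective h, fun X Q hQ h => ?_⟩
    have hX : Projective X := h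
    exact hX.prod hQ
  | succ n ih =>
    refine ⟨fun Y X R h => ?_, fun X Q hQ h => ?_⟩
    · obtain ⟨σX⟩ := exists_omSES X
      obtain ⟨σY⟩ := exists_omSES Y
      have h1 : DhLe n (Om X) := ker_of_a n ih.1 ih.2 σX (projective_free X) h
      obtain ⟨R'⟩ := R.om
      exact ⟨Om Y, freeM B Y, projective_free Y, ⟨σY⟩, ih.1 _ _ R' h1⟩
    · obtain ⟨K, P, hP, ⟨σ⟩, hK⟩ := h
      exact ⟨K, prodM P Q, hP.prod hQ, ⟨sesProd σ Q⟩, hK⟩

theorem DhLe.of_retr {n : ℕ} {Y X : BMod B} (R : Retr Y X) (h : DhLe n X) : DhLe n Y :=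
  (main n).1 Y X R h

theorem DhLe.ker {n : ℕ} {K P X : BMod B} (σ : SES K P X) (hP : Projective P)
    (h : DhLe (n + 1) X) : DhLe n K :=
  ker_of_a n (main n).1 (main n).2 σ hP h

theorem DhLe.succ {n : ℕ} {X : BMod B} (h : DhLe n X) : DhLe (n + 1) X := by
  induction n generalizing X with
  | zero =>
    have hX : Projective X := h
    obtain ⟨σ, -⟩ := exists_ses_ker (ContinuousLinearMap.id ℂ X) (isHom_id X)
      (ContinuousLinearMap.id ℂ X) (fun y => rfl)
    refine ⟨_, X, hX, ⟨σ⟩, projective_of_zero fun x => ?_⟩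
    apply Subtype.ext
    exact x.2
  | succ n ih =>
    obtain ⟨K, P, hP, hσ, hK⟩ := h
    exact ⟨K, P, hP, hσ, ih hK⟩

theorem DhLe.mono {n m : ℕ} (hnm : n ≤ m) {X : BMod B} (h : DhLe n X) : DhLe m X := by
  induction m, hnm using Nat.le_induction with
  | base => exact h
  | succ m _ ih => exact ih.succ

end Pool.Agent.Lib.BF3
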