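import Mathlib
import Pool.Agent.Lib.BF3.ProjBasic
import Pool.Agent.Lib.BF3.Schan

/-!
# Homological dimension and short exact sequences

PROOF of `DhLe.ext` (`dh P ≤ max (dh K) (dh X)` for `0 → K → P → X → 0`), by induction on `n`.

`n = 0`: let `t : X → P` be a morphism with `p t = id` (`SES.section_of_projective`). `P` is a
retract of `prodM K X`: `i x = (r (x - t (p x)), p x)` (a morphism by `IsHom.of_ker`),
`q (k, x) = j k + t x`.

`n + 1`: let `σ₁ : SES K₁ Q₁ K`, `σ₂ : SES K₂ Q₂ X` with `Q₁`, `Q₂` projective, `DhLe n K₁`,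
`DhLe n K₂`; `ε₁ = σ₁.p`, `s₁ = σ₁.s`, ... Let `G : Q₂ → P` be a morphism with `p G = ε₂`
(`Projective.lift`). Put `h : prodM Q₁ Q₂ → P`, `h (a, b) = j (ε₁ a) + G b`, a morphism with the
section `x ↦ (s₁ (r (x - G (s₂ (p x)))), s₂ (p x))` (note `p (x - G (s₂ (p x))) = 0`, so
`j (r (..)) = ..`). Let `M` be its kernel (`exists_ses_ker`). There is `SES K₁ M K₂` (use
`exists_ses`): `j' k = (j₁ k, 0)`, `p' (a, b) = r₂ b` (`ε₂ b = p (G b) = p (h (a, b)) = 0`, so it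
is a morphism by `IsHom.of_ker`), section `k ↦ (-s₁ (r (G (j₂ k))), j₂ k)`, retraction
`(a, b) ↦ r₁ a`; if `r₂ b = 0` then `b = j₂ (r₂ b) = 0`, hence `j (ε₁ a) = 0`, `ε₁ a = 0` and
`(a, b) = (j₁ (r₁ a), 0)`. By induction `DhLe n M`, so `DhLe (n+1) P`.

PROOF of `DhLe.of_ses` (`dh X ≤ max (dh P) (dh K + 1)`). Let `τ : SES M Q P` with `Q` projective
and `DhLe n M`. The composite `p ∘ τ.p : Q → X` is a morphism with the section `τ.s ∘ s`; let `N`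
be its kernel. There is `SES M N K`: `j' m = τ.j m`, `p' x = r (τ.p x)` (a morphism by
`IsHom.of_ker`, since `p (τ.p x) = 0`), section `k ↦ τ.s (j k)`, retraction `x ↦ τ.r x`; if
`r (τ.p x) = 0` then `τ.p x = j (r (τ.p x)) = 0`, so `x = τ.j (τ.r x)`. By `DhLe.ext`, `DhLe n N`,
so `DhLe (n+1) X`.
-/

noncomputable section

namespace Pool.Agent.Lib.BF3

variable {B : Type} [NormedCommRing B] [NormedAlgebra ℂ B]

private theorem SES.jr_of_p {K P X : BMod B} (σ : SES K P X) {y : P} (h : σ.p y = 0) :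
    σ.j (σ.r y) = y := by
  have h1 := σ.jrsp y
  rw [h, map_zero, add_zero] at h1
  exact h1

private theorem ext_zero {K P X : BMod B} (σ : SES K P X) (hK : Projective K)
    (hX : Projective X) : Projective P := by
  obtain ⟨t, ht, hpt⟩ := σ.section_of_projective hX
  have h0 : ∀ x : P, σ.p ((ContinuousLinearMap.id ℂ P - t.comp σ.p) x) = 0 := by
    intro x
    change σ.p (x - t (σ.p x)) = 0
    rw [map_sub, hpt, sub_self]
  have hf : IsHom P P (ContinuousLinearMap.id ℂ P - t.comp σ.p) :=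
    (isHom_id P).sub (ht.comp σ.hp)
  have h1 := IsHom.of_ker σ _ hf h0
  let i : P →L[ℂ] (prodM K X) :=
    ((σ.r.comp (ContinuousLinearMap.id ℂ P - t.comp σ.p)).prod σ.p : P →L[ℂ] (K × X))
  let q : (prodM K X) →L[ℂ] P := (σ.j.coprod t : (K × X) →L[ℂ] P)
  have hi : IsHom P (prodM K X) i := by
    intro b x
    exact Prod.ext (h1 b x) (σ.hp b x)
  have hq : IsHom (prodM K X) P q := by
    intro b z
    change σ.j (K.act b z.1) + t (X.act b z.2) = P.act b (σ.j z.1 + t z.2)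
    rw [σ.hj, ht, map_add]
  refine Retr.projective (X := prodM K X) ⟨i, q, hi, hq, ?_⟩ (hK.prod hX)
  intro x
  change σ.j (σ.r ((ContinuousLinearMap.id ℂ P - t.comp σ.p) x)) + t (σ.p x) = x
  rw [SES.jr_of_p σ (h0 x)]
  change x - t (σ.p x) + t (σ.p x) = x
  abel

theorem DhLe.ext {n : ℕ} {K P X : BMod B} (σ : SES K P X) (hK : DhLe n K) (hX : DhLe n X) :
    DhLe n P := by
  induction n generalizing K P X with
  | zero => exact ext_zero σ hK hX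
  | succ n ih =>
    obtain ⟨K₁, Q₁, hQ₁, ⟨σ₁⟩, hK₁⟩ := hK
    obtain ⟨K₂, Q₂, hQ₂, ⟨σ₂⟩, hK₂⟩ := hX
    obtain ⟨G, hG, hGp⟩ := hQ₂.lift σ.p σ.hp σ.s σ.ps σ₂.p σ₂.hp
    let h : (prodM Q₁ Q₂) →L[ℂ] P := ((σ.j.comp σ₁.p).coprod G : (Q₁ × Q₂) →L[ℂ] P)
    have hh : IsHom (prodM Q₁ Q₂) P h := by
      intro b z
      change σ.j (σ₁.p (Q₁.act b z.1)) + G (Q₂.act b z.2) = P.act b (σ.j (σ₁.p z.1) + G z.2)
      rw [σ₁.hp, σ.hj, hG, map_add]
    let sec : P →L[ℂ] (prodM Q₁ Q₂) :=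
      ((σ₁.s.comp (σ.r.comp (ContinuousLinearMap.id ℂ P - G.comp (σ₂.s.comp σ.p)))).prod
        (σ₂.s.comp σ.p) : P →L[ℂ] (Q₁ × Q₂))
    have hsec : ∀ x, h (sec x) = x := by
      intro x
      change σ.j (σ₁.p (σ₁.s (σ.r (x - G (σ₂.s (σ.p x)))))) + G (σ₂.s (σ.p x)) = x
      rw [σ₁.ps, SES.jr_of_p σ]
      · abel
      · rw [map_sub, hGp, σ₂.ps, sub_self]
    obtain ⟨τ, -, -, -⟩ := exists_ses_ker h hh sec hsec
    have hker : ∀ z : kerM h hh, σ₂.p ((kerι h hh z : Q₁ × Q₂).2) = 0 := by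
      intro z
      have h1 : σ.j (σ₁.p (kerι h hh z : Q₁ × Q₂).1) + G (kerι h hh z : Q₁ × Q₂).2 = 0 :=
        f_kerι h hh z
      have h2 : σ.p (σ.j (σ₁.p (kerι h hh z : Q₁ × Q₂).1) + G (kerι h hh z : Q₁ × Q₂).2) = 0 := by
        rw [h1, map_zero]
      rw [map_add, σ.pj, zero_add, hGp] at h2
      exact h2
    have hfstG : ∀ k : K₁, h ((ContinuousLinearMap.inl ℂ Q₁ Q₂).comp σ₁.j k) = 0 := by
      intro k
      change σ.j (σ₁.p (σ₁.j k)) + G 0 = 0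
      rw [σ₁.pj, map_zero, map_zero, add_zero]
    let j' : K₁ →L[ℂ] kerM h hh := kerLift h hh ((ContinuousLinearMap.inl ℂ Q₁ Q₂).comp σ₁.j) hfstG
    have hj' : IsHom K₁ (kerM h hh) j' := by
      intro b k
      apply kerι_inj h hh
      rw [isHom_kerι h hh]
      change ((σ₁.j (K₁.act b k), 0) : Q₁ × Q₂) = (Q₁.act b (σ₁.j k), Q₂.act b 0)
      rw [σ₁.hj, map_zero]
    let sndK : kerM h hh →L[ℂ] Q₂ := (ContinuousLinearMap.snd ℂ Q₁ Q₂).comp (kerι h hh)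
    have hsndK : IsHom (kerM h hh) Q₂ sndK := fun b z => rfl
    let p' : kerM h hh →L[ℂ] K₂ := σ₂.r.comp sndK
    have hp' : IsHom (kerM h hh) K₂ p' := IsHom.of_ker σ₂ sndK hsndK hker
    let s0 : K₂ →L[ℂ] (Q₁ × Q₂) :=
      (-(σ₁.s.comp (σ.r.comp (G.comp σ₂.j)))).prod σ₂.j
    have hs0 : ∀ k : K₂, h (s0 k) = 0 := by
      intro k
      change σ.j (σ₁.p (-(σ₁.s (σ.r (G (σ₂.j k)))))) + G (σ₂.j k) = 0
      rw [map_neg, σ₁.ps, map_neg, SES.jr_of_p σ]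
      · abel
      · rw [hGp, σ₂.pj]
    let s' : K₂ →L[ℂ] kerM h hh := kerLift h hh s0 hs0
    have ps' : ∀ k, p' (s' k) = k := fun k => σ₂.rj k
    have pj' : ∀ k, p' (j' k) = 0 := by
      intro k
      change σ₂.r 0 = 0
      exact map_zero _
    let r' : kerM h hh →L[ℂ] K₁ := σ₁.r.comp ((ContinuousLinearMap.fst ℂ Q₁ Q₂).comp (kerι h hh))
    have rj' : ∀ k, r' (j' k) = k := fun k => σ₁.rj k
    have jr' : ∀ z, p' z = 0 → j' (r' z) = z := by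
      intro z hz
      have hz' : σ₂.r (kerι h hh z : Q₁ × Q₂).2 = 0 := hz
      have hb : (kerι h hh z : Q₁ × Q₂).2 = 0 := by
        have h1 := SES.jr_of_p σ₂ (hker z)
        rw [hz', map_zero] at h1
        exact h1.symm
      have h1 : σ.j (σ₁.p (kerι h hh z : Q₁ × Q₂).1) + G (kerι h hh z : Q₁ × Q₂).2 = 0 :=
        f_kerι h hh z
      rw [hb, map_zero, add_zero] at h1
      have h2 : σ₁.p (kerι h hh z : Q₁ × Q₂).1 = 0 := by
        apply σ.j_inj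
        rw [h1, map_zero]
      have h3 := SES.jr_of_p σ₁ h2
      apply kerι_inj h hh
      change ((σ₁.j (σ₁.r (kerι h hh z : Q₁ × Q₂).1), 0) : Q₁ × Q₂) = kerι h hh z
      exact Prod.ext h3 hb.symm
    obtain ⟨σ', -, -, -⟩ := exists_ses j' p' hj' hp' s' ps' pj' r' rj' jr'
    exact ⟨kerM h hh, prodM Q₁ Q₂, hQ₁.prod hQ₂, ⟨τ⟩, ih σ' hK₁ hK₂⟩

theorem DhLe.of_ses {n : ℕ} {K P X : BMod B} (σ : SES K P X) (hP : DhLe (n + 1) P)
    (hK : DhLe n K) : DhLe (n + 1) X := by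
  obtain ⟨M, Q, hQ, ⟨τ⟩, hM⟩ := hP
  let f : Q →L[ℂ] X := σ.p.comp τ.p
  have hf : IsHom Q X f := σ.hp.comp τ.hp
  obtain ⟨ρ, -, -, -⟩ := exists_ses_ker f hf (τ.s.comp σ.s) (by
    intro x
    change σ.p (τ.p (τ.s (σ.s x))) = x
    rw [τ.ps, σ.ps])
  have hj0 : ∀ m : M, f (τ.j m) = 0 := by
    intro m
    change σ.p (τ.p (τ.j m)) = 0
    rw [τ.pj, map_zero]
  let j' : M →L[ℂ] kerM f hf := kerLift f hf τ.j hj0
  have hj' : IsHom M (kerM f hf) j' := by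
    intro b k
    apply kerι_inj f hf
    rw [isHom_kerι f hf]
    exact τ.hj b k
  let pK : kerM f hf →L[ℂ] P := τ.p.comp (kerι f hf)
  have hpK : IsHom (kerM f hf) P pK := τ.hp.comp (isHom_kerι f hf)
  have h0 : ∀ z : kerM f hf, σ.p (pK z) = 0 := fun z => f_kerι f hf z
  let p' : kerM f hf →L[ℂ] K := σ.r.comp pK
  have hp' : IsHom (kerM f hf) K p' := IsHom.of_ker σ pK hpK h0
  have hs0 : ∀ k : K, f ((τ.s.comp σ.j) k) = 0 := by
    intro k
    change σ.p (τ.p (τ.s (σ.j k))) = 0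
    rw [τ.ps, σ.pj]
  let s' : K →L[ℂ] kerM f hf := kerLift f hf (τ.s.comp σ.j) hs0
  have ps' : ∀ k, p' (s' k) = k := by
    intro k
    change σ.r (τ.p (τ.s (σ.j k))) = k
    rw [τ.ps, σ.rj]
  have pj' : ∀ k, p' (j' k) = 0 := by
    intro k
    change σ.r (τ.p (τ.j k)) = 0
    rw [τ.pj, map_zero]
  let r' : kerM f hf →L[ℂ] M := τ.r.comp (kerι f hf)
  have rj' : ∀ k, r' (j' k) = k := fun k => τ.rj k
  have jr' : ∀ z, p' z = 0 → j' (r' z) = z := by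
    intro z hz
    have hz' : σ.r (pK z) = 0 := hz
    have h1 := SES.jr_of_p σ (h0 z)
    rw [hz', map_zero] at h1
    have h2 : τ.p (kerι f hf z) = 0 := h1.symm
    have h3 := SES.jr_of_p τ h2
    apply kerι_inj f hf
    exact h3
  obtain ⟨σ', -, -, -⟩ := exists_ses j' p' hj' hp' s' ps' pj' r' rj' jr'
  exact ⟨kerM f hf, Q, hQ, ⟨ρ⟩, DhLe.ext σ' hM hK⟩

end Pool.Agent.Lib.BF3
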