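import Mathlib
import Pool.Agent.Lib.BF3.TensProj
import Pool.Agent.Lib.BF3.TensSES
import Pool.Agent.Lib.BF3.DhBasic
import Pool.Agent.Lib.BF3.DhExt

/-!
# `dh (Y ⊗̂ Z) ≤ dh Y + dh Z`

PROOF. First, for `Y` projective: `DhLe n Z → DhLe n (tensM Y Z)` by induction on `n`
(`projective_tensM`, `SES.tensR`). Then induction on `m`: `m = 0` is the first step; if
`σ : SES K P Y`, `P` projective, `DhLe m K`, then `σ.tensL Z : SES (K ⊗ Z) (P ⊗ Z) (Y ⊗ Z)`,
`DhLe (m + n) (K ⊗ Z)` by induction, `DhLe n (P ⊗ Z)`, so `DhLe (m + n + 1) (P ⊗ Z)` by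
`DhLe.mono`, and `DhLe.of_ses` gives `DhLe (m + n + 1) (Y ⊗ Z)`.
-/

noncomputable section

namespace Pool.Agent.Lib.BF3

variable {U V : Type} [NormedCommRing U] [NormedAlgebra ℂ U] [NormedCommRing V]
  [NormedAlgebra ℂ V]

theorem TensDhAux.right {n : ℕ} : ∀ {Y : BMod U} {Z : BMod V}, Projective Y → DhLe n Z →
    DhLe n (tensM Y Z) := by
  induction n with
  | zero =>
    intro Y Z hY hZ
    exact projective_tensM hY hZ
  | succ n ih =>
    intro Y Z hY hZ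
    obtain ⟨K, P, hP, ⟨σ⟩, hK⟩ := hZ
    exact ⟨tensM Y K, tensM Y P, projective_tensM hY hP, ⟨σ.tensR Y⟩, ih hY hK⟩

theorem DhLe.tens {m n : ℕ} {Y : BMod U} {Z : BMod V} (hY : DhLe m Y) (hZ : DhLe n Z) :
    DhLe (m + n) (tensM Y Z) := by
  induction m generalizing Y with
  | zero =>
    rw [Nat.zero_add]
    exact TensDhAux.right hY hZ
  | succ m ih =>
    obtain ⟨K, P, hP, ⟨σ⟩, hK⟩ := hY
    have h1 := ih hK
    have h2 : DhLe n (tensM P Z) := TensDhAux.right hP hZ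
    rw [show m + 1 + n = (m + n) + 1 by omega]
    exact DhLe.of_ses (σ.tensL Z) (h2.mono (by omega)) h1
end Pool.Agent.Lib.BF3
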