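import Mathlib
import Pool.Agent.Lib.BF3.Unit

/-!
# The sequence `0 → A → A₊ → ℂ → 0`

PROOFS. `unitSES`: fill in the proofs (`isHom_of_in` for the two morphisms: `(algM A).act (inA a) x
= a * x`, `(regM (Up A)).act u x = u * x`, `(trivM A).act (inA a) x = 0`; `inA_mul`,
`Up.decomp`).
`retr_triv`: `i c = c • (1 ⊗ 1)`, that is `i = (ptL ℂ ℂ).flip 1`, `q = lift` of the
multiplication of `ℂ`. Both sides are morphisms because all `ta (inA a) v`, `ta u (inA b)` act as
`0`: `isHom_of_ta`; `(trivM A).act u c = fstU u * c` and on both modules `ta u v` acts as the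
number `fstU u * fstU v`.
-/

noncomputable section

namespace Pool.Agent.Lib.BF3

variable (A : Type) [NonUnitalNormedCommRing A] [NormedSpace ℂ A] [IsScalarTower ℂ A A]
  [SMulCommClass ℂ A A]

private theorem algM_act_in [CompleteSpace A] (a x : A) :
    (algM A).act (inA a) x = (a * x : A) := ofA_act_in _ _ a x

private theorem triv_act (u : Up A) (c : ℂ) : (trivM A).act u c = (fstU u * c : ℂ) := by
  refine (ofA_act _ _ u c).trans ?_
  change fstU u • c + 0 = fstU u * c
  rw [add_zero, smul_eq_mul]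

private theorem triv_act_in (a : A) (c : ℂ) : (trivM A).act (inA a) c = (0 : ℂ) := by
  refine (triv_act A (inA a) c).trans ?_
  rw [fstU_inA, zero_mul]

private theorem fst_in_mul (a : A) (x : Up A) : fstU (inA a * x) = 0 := by
  rw [fstU_mul, fstU_inA, zero_mul]

private theorem fst_smul_one (c : ℂ) : fstU (c • (1 : Up A)) = c := by
  rw [map_smul, fstU_one, smul_eq_mul, mul_one]

private theorem decomp' (x : Up A) : inA (sndU x) + fstU x • (1 : Up A) = x := by
  rw [add_comm]
  exact (Up.decomp x).symm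

/-- the admissible sequence `0 → A → A₊ → ℂ → 0` -/
def unitSES [CompleteSpace A] : SES (algM A) (regM (Up A)) (trivM A) where
  j := (inA : A →L[ℂ] Up A)
  p := (fstU : Up A →L[ℂ] ℂ)
  r := (sndU : Up A →L[ℂ] A)
  s := ContinuousLinearMap.toSpanSingleton ℂ (1 : Up A)
  hj := by
    refine isHom_of_in (X := algM A) (Y := regM (Up A)) _ fun a x => ?_
    exact (congrArg (inA : A →L[ℂ] Up A) (algM_act_in A a x)).trans (inA_mul (A := A) a x)
  hp := by
    refine isHom_of_in (X := regM (Up A)) (Y := trivM A) _ fun a x => ?_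
    exact (fst_in_mul A a x).trans (triv_act_in A a (fstU (A := A) x)).symm
  rj := fun x => sndU_inA (A := A) x
  ps := fun c => fst_smul_one A c
  jrsp := fun x => decomp' A x

private theorem ident1 (a b c : ℂ) :
    pt (a * (b * c)) (1 : ℂ) = (pt (a * c) (b * 1) : PT ℂ ℂ) := by
  have e : (b * 1 : ℂ) = b • (1 : ℂ) := rfl
  rw [e, pt_smul_right, ← pt_smul_left]
  congr 1
  simp only [smul_eq_mul]
  ring

private theorem ident2 (a b c d : ℂ) : a * c * (b * d) = a * (b * (c * d)) := by ring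

/-- the trivial bimodule is a retract of `ℂ ⊗̂ ℂ` -/
theorem retr_triv : Nonempty (Retr (symM (trivM A)) (tensM (trivM A) (trivM A))) := by
  have s1 : ∀ (u v : Up A) (c : ℂ), (symM (trivM A)).act (ta u v) c
      = (fstU u * (fstU v * c) : ℂ) := by
    intro u v c
    refine (symM_act_ta (trivM A) u v c).trans ?_
    exact (congrArg ((trivM A).act u) (triv_act A v c)).trans (triv_act A u _)
  have t1 : ∀ (u v : Up A) (c d : ℂ), (tensM (trivM A) (trivM A)).act (ta u v) (pt c d : PT ℂ ℂ)
      = (pt (fstU u * c : ℂ) (fstU v * d : ℂ) : PT ℂ ℂ) := by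
    intro u v c d
    refine (tensM_act_ta (trivM A) (trivM A) u v c d).trans ?_
    exact congrArg₂ (fun (a b : ℂ) => (pt a b : PT ℂ ℂ)) (triv_act A u c) (triv_act A v d)
  refine ⟨{ i := (ptL ℂ ℂ).flip 1, q := lift (ContinuousLinearMap.mul ℂ ℂ),
            hi := ?_, hq := ?_, qi := ?_ }⟩
  · refine isHom_of_ta (X := symM (trivM A)) (Y := tensM (trivM A) (trivM A)) _ fun u v c => ?_
    refine (congrArg ((ptL ℂ ℂ).flip 1) (s1 u v c)).trans ?_
    refine Eq.trans ?_ (t1 u v c 1).symm
    exact ident1 (fstU u) (fstU v) c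
  · refine isHom_of_ta (X := tensM (trivM A) (trivM A)) (Y := symM (trivM A)) _ fun u v x => ?_
    refine PT.apply_eq_of
      (f := (lift (ContinuousLinearMap.mul ℂ ℂ)).comp
        ((tensM (trivM A) (trivM A)).act (ta u v) : PT ℂ ℂ →L[ℂ] PT ℂ ℂ))
      (g := ((symM (trivM A)).act (ta u v) : ℂ →L[ℂ] ℂ).comp
        (lift (ContinuousLinearMap.mul ℂ ℂ))) (fun c d => ?_) x
    refine (congrArg (lift (ContinuousLinearMap.mul ℂ ℂ)) (t1 u v c d)).trans ?_
    refine (lift_pt _ _ _).trans ?_
    refine Eq.trans ?_ (congrArg ((symM (trivM A)).act (ta u v) : ℂ →L[ℂ] ℂ)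
      (lift_pt (ContinuousLinearMap.mul ℂ ℂ) c d)).symm
    refine Eq.trans ?_ (s1 u v _).symm
    exact ident2 (fstU u) (fstU v) c d
  · intro c
    refine (lift_pt (ContinuousLinearMap.mul ℂ ℂ) c 1).trans ?_
    exact mul_one (M := ℂ) c

end Pool.Agent.Lib.BF3
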