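import Mathlib
import Pool.Agent.Lib.BF3.Mods
import Pool.Agent.Lib.BF3.Coord

/-!
# The projections `π_k` of `P₂`

`piP k` maps `δ_t` to `δ_t` if `kk t.1 = k` and to `0` otherwise.

PROOFS. `piP_δ`: the family is bounded by `1` (the restriction of a generator is a generator).
`isHom_piP`: `isHom_of_in` and the basis. `sum_norm_piP`: `atomSeminorm_le` with
`s = range N`, `T = piP`: a generator `g` of `F0` is supported on atoms `(x, j)` with one `x`, so
`piP k (aι g)` is `aι g` for `k = kk x` and `0` for the other `k`; `norm_aι_le_one`.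
`hasSum_piP`: `∑_{k < N} ‖piP k p‖ ≤ ‖p‖` gives summability (`summable_of_sum_range_le`,
`Summable.of_norm`); let `Φ p = ∑' k, piP k p`. The partial sums satisfy
`‖∑_{k<N} piP k p‖ ≤ ‖p‖`, and for `p = δ_t` they are equal to `δ_t` for `N > kk t.1`; the set of `p`
with `∑_{k<N} piP k p → p` is a closed subspace (uniform bound) containing the `δ_t`, so it is
everything (`UniformSpace.Completion.induction_on`, or `Atom.ext_of` for the bounded linear map
`Φ = (ℓ¹-sum)`, e.g. obtained from `‖Φ p‖ ≤ ‖p‖`).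
-/

noncomputable section

namespace Pool.Agent.Lib.BF3

namespace PiPAux

/-- the restriction of a function to the atoms of the code `k` -/
def fil (k : ℕ) (g : Ts →₀ ℂ) : Ts →₀ ℂ := g.filter fun t => kk t.1 = k

theorem fil_gen (k : ℕ) {g : Ts →₀ ℂ} (hg : g ∈ F0.gen) : fil k g ∈ F0.gen := by
  refine ⟨F0.down _ hg.1 _ ?_, fun s => ?_⟩
  · unfold fil
    rw [Finsupp.support_filter]
    exact Finset.filter_subset _ _
  · unfold fil
    rw [Finsupp.filter_apply]
    split_ifs
    · exact hg.2 s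
    · simp

theorem sum_fil (k : ℕ) (g : Ts →₀ ℂ) :
    (g.sum fun t c => c • (if kk t.1 = k then δ F0 t else 0)) = aι F0 (fil k g) := by
  rw [aι_eq_sum, fil, Finsupp.sum_filter_index, Finsupp.support_filter, Finset.sum_filter,
    Finsupp.sum]
  refine Finset.sum_congr rfl fun t _ => ?_
  split_ifs with h
  · rfl
  · rw [smul_zero]

theorem bdd (k : ℕ) : Bdd F0 (fun t => if kk t.1 = k then δ F0 t else 0) 1 := by
  refine ⟨zero_le_one, fun g hg => ?_⟩
  rw [sum_fil]
  exact norm_aι_le_one (fil_gen k hg)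

/-- `piP` as a map of the atomic space -/
def pA (k : ℕ) : Atom F0 →L[ℂ] Atom F0 := alift F0 fun t => if kk t.1 = k then δ F0 t else 0

theorem pA_δ (k : ℕ) (t : Ts) : pA k (δ F0 t) = if kk t.1 = k then δ F0 t else 0 :=
  alift_δ (bdd k) t

theorem pA_aι (k : ℕ) (g : Ts →₀ ℂ) : pA k (aι F0 g) = aι F0 (fil k g) := by
  rw [← sum_fil]
  exact alift_aι (bdd k) g

theorem pA_hom (k : ℕ) (a : AA) (x : Atom F0) :
    pA k (diagAct F0 Sum.inl a x) = diagAct F0 Sum.inl a (pA k x) := by
  refine Atom.apply_eq_of (f := (pA k).comp (diagAct F0 Sum.inl a))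
    (g := (diagAct F0 Sum.inl a).comp (pA k)) (fun t => ?_) x
  refine AA.apply_eq_of (f := (pA k).comp ((diagAct F0 Sum.inl).flip (δ F0 t)))
    (g := (diagAct F0 Sum.inl).flip (pA k (δ F0 t))) (fun s => ?_) a
  simp only [ContinuousLinearMap.comp_apply, ContinuousLinearMap.flip_apply, diagAct_δ, map_smul,
    pA_δ]
  split_ifs
  · rw [diagAct_δ]
  · rw [smul_zero, map_zero]

theorem fil_eq (k : ℕ) {g : Ts →₀ ℂ} {x : Xs} (h : ∀ t ∈ g.support, t.1 = x) :
    fil k g = if kk x = k then g else 0 := by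
  ext t
  unfold fil
  rw [Finsupp.filter_apply]
  by_cases ht : t ∈ g.support
  · rw [h t ht]
    split_ifs <;> rfl
  · rw [Finsupp.notMem_support_iff] at ht
    rw [ht]
    split_ifs
    · exact ht.symm
    · rfl
    · exact ht.symm
    · rfl

theorem sum_norm (N : ℕ) (p : Atom F0) : ∑ k ∈ Finset.range N, ‖pA k p‖ ≤ ‖p‖ := by
  refine atomSeminorm_le F0 (Finset.range N) pA (fun g hg => ?_) p
  have h0 := norm_aι_le_one hg
  simp only [pA_aι]
  by_cases hs : g.support = ∅
  · have hg0 : g = 0 := Finsupp.support_eq_empty.1 hs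
    have h1 : ∀ k, fil k g = 0 := by
      intro k
      rw [hg0]
      exact Finsupp.filter_zero _
    simp only [h1, map_zero, norm_zero, Finset.sum_const_zero]
    exact zero_le_one
  · obtain ⟨t0, ht0⟩ := Finset.nonempty_iff_ne_empty.2 hs
    have hx : ∀ t ∈ g.support, t.1 = t0.1 := fun t ht => hg.1 t ht t0 ht0
    have h1 : ∀ k, ‖aι F0 (fil k g)‖ = if kk t0.1 = k then ‖aι F0 g‖ else 0 := by
      intro k
      rw [fil_eq k hx]
      split_ifs
      · rfl
      · rw [map_zero, norm_zero]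
    simp only [h1]
    rw [Finset.sum_ite_eq]
    split_ifs
    · exact h0
    · exact zero_le_one

theorem partial_δ {N : ℕ} {t : Ts} (h : kk t.1 < N) :
    ∑ k ∈ Finset.range N, pA k (δ F0 t) = δ F0 t := by
  simp only [pA_δ]
  rw [Finset.sum_ite_eq, if_pos (Finset.mem_range.2 h)]

theorem partial_aι {N : ℕ} {g : Ts →₀ ℂ} (h : ∀ t ∈ g.support, kk t.1 < N) :
    ∑ k ∈ Finset.range N, pA k (aι F0 g) = aι F0 g := by
  rw [aι_eq_sum, Finsupp.sum]
  simp only [map_sum, map_smul]
  rw [Finset.sum_comm]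
  refine Finset.sum_congr rfl fun t ht => ?_
  rw [← Finset.smul_sum, partial_δ (h t ht)]

theorem partial_le (N : ℕ) (p : Atom F0) : ‖∑ k ∈ Finset.range N, pA k p‖ ≤ ‖p‖ :=
  (norm_sum_le _ _).trans (sum_norm N p)

theorem hasSum (p : Atom F0) : HasSum (fun k => pA k p) p := by
  have hsum : Summable fun k => pA k p := by
    refine Summable.of_norm ?_
    exact summable_of_sum_range_le (fun _ => norm_nonneg _) (fun N => sum_norm N p)
  rw [hsum.hasSum_iff_tendsto_nat, Metric.tendsto_atTop]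
  intro ε hε
  obtain ⟨g, hg⟩ := (UniformSpace.Completion.denseRange_coe (α := PreAtom F0)).exists_dist_lt p
    (half_pos hε)
  have hg' : ‖p - aι F0 g‖ < ε / 2 := by
    rw [← dist_eq_norm]
    exact hg
  refine ⟨(Finsupp.support (α := Ts) (M := ℂ) g).sup (fun t => kk t.1) + 1, fun N hN => ?_⟩
  have h1 : ∑ k ∈ Finset.range N, pA k (aι F0 g) = aι F0 g := by
    refine partial_aι fun t ht => ?_
    have h2 := Finset.le_sup (f := fun t : Ts => kk t.1) ht
    omega
  have h2 : (∑ k ∈ Finset.range N, pA k p) - p =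
      (∑ k ∈ Finset.range N, pA k (p - aι F0 g)) - (p - aι F0 g) := by
    simp only [map_sub, Finset.sum_sub_distrib]
    rw [h1]
    abel
  rw [dist_eq_norm, h2]
  calc ‖(∑ k ∈ Finset.range N, pA k (p - aι F0 g)) - (p - aι F0 g)‖
      ≤ ‖∑ k ∈ Finset.range N, pA k (p - aι F0 g)‖ + ‖p - aι F0 g‖ := norm_sub_le _ _
    _ ≤ ‖p - aι F0 g‖ + ‖p - aι F0 g‖ := by
        have := partial_le N (p - aι F0 g)
        linarith
    _ < ε := by linarith

end PiPAux

open Classical in
theorem piP_δ (k : ℕ) (t : Ts) : piP k (δ F0 t) = if kk t.1 = k then δ F0 t else 0 :=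
  PiPAux.pA_δ k t

theorem isHom_piP (k : ℕ) : IsHom I0M I0M (piP k) := by
  refine isHom_of_in (piP k) fun a x => ?_
  have h1 : ∀ y : I0M, I0M.act (inA a) y = (diagAct F0 Sum.inl a y : Atom F0) := fun y =>
    ofA_act_in (diagAct F0 Sum.inl) (diagAct_mul F0 Sum.inl) a y
  rw [h1, h1]
  exact PiPAux.pA_hom k a x

theorem sum_norm_piP (N : ℕ) (p : I0M) : ∑ k ∈ Finset.range N, ‖piP k p‖ ≤ ‖p‖ :=
  PiPAux.sum_norm N p

theorem hasSum_piP (p : I0M) : HasSum (fun k => piP k p) p :=
  PiPAux.hasSum p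

end Pool.Agent.Lib.BF3
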