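import Mathlib
import Pool.Agent.Lib.BF3.Mods

/-!
# The admissible sequence `0 → P₂ → P₁ → A → 0`

The maps on the basis elements (`P₁ = Atom (SG F0) × Atom F1`):
* `fP δ_t = (δ (inl t), -δ_t)`;
* `pP (δ s, 0) = bA s`, `pP (0, δ_t) = bA (inl t)`;
* `rP (δ (inl t), 0) = δ_t`, `rP (δ (inr x), 0) = 0`, `rP (0, δ_t) = 0`;
* `sP (bA (inl t)) = (0, δ_t)`, `sP (bA (inr x)) = (δ (inr x), 0)`.

PROOF. All families are bounded by `1`: the image of a generator is (a generator, or a pair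
(generator, 0) etc.), because `F0.faces ⊆ F1.faces` and a generator of a sum of complexes is
supported on one side; use `norm_aι_le_one`, `aι_eq_sum` (the image of `g` is `aι` of a
transported function, e.g. `Finsupp.mapDomain Sum.inl g` or `g.comapDomain`). The identities are
checked on the basis elements (`Atom.apply_eq_of`, `AA.apply_eq_of`); `fP`, `pP` are morphisms:
`isHom_of_in` and the basis (`diagAct_δ`, `mulA0_δ`, `bA_mul_..`, `iB`, `iI`). For `SES`:
`fP (rP x) + sP (pP x) = x` on `(δ (inl t), 0)`: `(δ (inl t), -δ_t) + (0, δ_t)`; on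
`(δ (inr x), 0)`: `0 + (δ (inr x), 0)`; on `(0, δ_t)`: `0 + (0, δ_t)`.
-/

noncomputable section

namespace Pool.Agent.Lib.BF3

namespace SesPAux

section

variable {S S' : Type}

theorem bdd_fin (K : Cx S) (L : Cx S') (z : S → (S' →₀ ℂ))
    (h : ∀ g ∈ K.gen, (g.sum fun s c => c • z s) ∈ L.gen) : Bdd K (fun s => aι L (z s)) 1 := by
  refine ⟨zero_le_one, fun g hg => ?_⟩
  have e : (g.sum fun s c => c • aι L (z s)) = aι L (g.sum fun s c => c • z s) := by
    rw [Finsupp.sum, Finsupp.sum, map_sum]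
    exact Finset.sum_congr rfl fun s _ => (map_smul _ _ _).symm
  rw [e]
  exact norm_aι_le_one (h g hg)

theorem mem_gen_of (L : Cx S') {k : S' →₀ ℂ} {F : Finset S'} (hF : F ∈ L.faces)
    (h1 : ∀ s, k s ≠ 0 → s ∈ F) (h2 : ∀ s, ‖k s‖ ≤ 1) : k ∈ L.gen :=
  ⟨L.down F hF _ fun s hs => h1 s (Finsupp.mem_support_iff.1 hs), h2⟩

theorem eval (z : S → (S' →₀ ℂ)) (g : S →₀ ℂ) (a : S') (s0 : S) (h1 : z s0 a = 1)
    (h2 : ∀ s, s ≠ s0 → z s a = 0) : (g.sum fun s c => c • z s) a = g s0 := by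
  rw [Finsupp.sum, Finsupp.finsetSum_apply, Finset.sum_eq_single s0]
  · rw [Finsupp.smul_apply, h1, smul_eq_mul, mul_one]
  · intro s _ hs
    rw [Finsupp.smul_apply, h2 s hs, smul_zero]
  · intro hs
    rw [Finsupp.smul_apply, Finsupp.notMem_support_iff.1 hs, zero_smul]

theorem eval0 (z : S → (S' →₀ ℂ)) (g : S →₀ ℂ) (a : S')
    (h2 : ∀ s, z s a = 0) : (g.sum fun s c => c • z s) a = 0 := by
  rw [Finsupp.sum, Finsupp.finsetSum_apply]
  refine Finset.sum_eq_zero fun s _ => ?_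
  rw [Finsupp.smul_apply, h2 s, smul_zero]

theorem empty_face (K : Cx S) (s : S) : (∅ : Finset S) ∈ K.faces :=
  K.down _ (K.sing s) _ (Finset.empty_subset _)

end

/-- `δ_t ↦ δ_{inl t}` -/
theorem bdd_inl (K G : Cx Ts) (h : K.faces ⊆ G.faces) :
    Bdd K (fun t => δ (SG G) (Sum.inl t)) 1 := by
  classical
  refine bdd_fin K (SG G) (fun t => Finsupp.single (Sum.inl t) 1) fun g hg => ?_
  refine mem_gen_of _ (F := g.support.map Function.Embedding.inl)
    (Or.inl ⟨g.support, h hg.1, Finset.Subset.refl _⟩) ?_ ?_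
  · rintro (t | x) hs
    · rw [eval _ _ _ t (by simp) (fun s hs => by
        rw [Finsupp.single_apply, if_neg (fun h => hs (Sum.inl_injective h))])] at hs
      exact Finset.mem_map.2 ⟨t, Finsupp.mem_support_iff.2 hs, rfl⟩
    · exact (hs (eval0 _ _ _ fun s => by simp)).elim
  · rintro (t | x)
    · rw [eval _ _ _ t (by simp) (fun s hs => by
        rw [Finsupp.single_apply, if_neg (fun h => hs (Sum.inl_injective h))])]
      exact hg.2 t
    · rw [eval0 _ _ _ fun s => by simp]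
      simp

/-- inclusion of complexes -/
theorem bdd_incl {S : Type} (K G : Cx S) (h : K.faces ⊆ G.faces) :
    Bdd K (fun t => δ G t) 1 := by
  classical
  refine bdd_fin K G (fun t => Finsupp.single t 1) fun g hg => ?_
  have e : ∀ t, (g.sum fun s c => c • (Finsupp.single s 1 : S →₀ ℂ)) t = g t := fun t =>
    eval _ _ _ t (by simp) (fun s hs => by rw [Finsupp.single_apply, if_neg hs])
  refine mem_gen_of _ (F := g.support) (h hg.1) ?_ ?_
  · intro t ht
    rw [e] at ht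
    exact Finsupp.mem_support_iff.2 ht
  · intro t
    rw [e]
    exact hg.2 t

/-- restriction to the atoms -/
theorem bdd_res (G : Cx Ts) :
    Bdd (SG G) (Sum.elim (fun t => δ G t) (fun _ => (0 : Atom G))) 1 := by
  classical
  have hz : (Sum.elim (fun t => δ G t) (fun _ : Xs => (0 : Atom G))) =
      fun s => aι G (Sum.elim (fun t => (Finsupp.single t 1 : Ts →₀ ℂ)) (fun _ : Xs => 0) s) := by
    funext s
    rcases s with t | x
    · rfl
    · exact (map_zero (aι G)).symm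
  rw [hz]
  refine bdd_fin (SG G) G _ fun g hg => ?_
  have e : ∀ t, (g.sum fun s c => c •
      (Sum.elim (fun t => (Finsupp.single t 1 : Ts →₀ ℂ)) (fun _ : Xs => 0) s)) t = g (Sum.inl t) := by
    intro t
    refine eval _ _ _ (Sum.inl t) (by simp) ?_
    rintro (t' | x) hs
    · rw [Sum.elim_inl, Finsupp.single_apply, if_neg (fun h => hs (by rw [h]))]
    · simp
  rcases hg.1 with ⟨F, hF, hsub⟩ | ⟨F, hF, hsub⟩
  · refine mem_gen_of _ (F := F) hF ?_ ?_
    · intro t ht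
      rw [e] at ht
      have h1 := hsub (Finsupp.mem_support_iff.2 ht)
      obtain ⟨t', ht', h2⟩ := Finset.mem_map.1 h1
      have h3 : t' = t := Sum.inl_injective h2
      rwa [← h3]
    · intro t
      rw [e]
      exact hg.2 _
  · refine ⟨?_, ?_⟩
    · have h0 : (g.sum fun s c => c •
          (Sum.elim (fun t => (Finsupp.single t 1 : Ts →₀ ℂ)) (fun _ : Xs => 0) s)) = 0 := by
        ext t
        rw [e]
        by_contra ht
        have h1 := hsub (Finsupp.mem_support_iff.2 ht)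
        obtain ⟨t', ht', h2⟩ := Finset.mem_map.1 h1
        exact Sum.inr_ne_inl h2
      rw [h0, Finsupp.support_zero]
      exact empty_face G (([], fun _ => []), 0)
    · intro t
      rw [e]
      exact hg.2 _

/-- restriction to `X` -/
theorem bdd_resX (G G' : Cx Ts) :
    Bdd (SG G) (Sum.elim (fun _ => (0 : Atom (SG G'))) (fun x => δ (SG G') (Sum.inr x))) 1 := by
  classical
  have hz : (Sum.elim (fun _ : Ts => (0 : Atom (SG G'))) (fun x => δ (SG G') (Sum.inr x))) =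
      fun s => aι (SG G') (Sum.elim (fun _ : Ts => (0 : SA →₀ ℂ))
        (fun x => (Finsupp.single (Sum.inr x) 1 : SA →₀ ℂ)) s) := by
    funext s
    rcases s with t | x
    · exact (map_zero (aι (SG G'))).symm
    · rfl
  rw [hz]
  refine bdd_fin (SG G) (SG G') _ fun g hg => ?_
  have e : ∀ x, (g.sum fun s c => c • (Sum.elim (fun _ : Ts => (0 : SA →₀ ℂ))
        (fun x => (Finsupp.single (Sum.inr x) 1 : SA →₀ ℂ)) s)) (Sum.inr x) = g (Sum.inr x) := by
    intro x
    refine eval _ _ _ (Sum.inr x) (by simp) ?_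
    rintro (t' | x') hs
    · simp
    · rw [Sum.elim_inr, Finsupp.single_apply, if_neg (fun h => hs h)]
  have e0 : ∀ t, (g.sum fun s c => c • (Sum.elim (fun _ : Ts => (0 : SA →₀ ℂ))
        (fun x => (Finsupp.single (Sum.inr x) 1 : SA →₀ ℂ)) s)) (Sum.inl t) = 0 := by
    intro t
    refine eval0 _ _ _ ?_
    rintro (t' | x') <;> simp
  have hb : ∀ s, ‖(g.sum fun s c => c • (Sum.elim (fun _ : Ts => (0 : SA →₀ ℂ))
        (fun x => (Finsupp.single (Sum.inr x) 1 : SA →₀ ℂ)) s)) s‖ ≤ 1 := by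
    rintro (t | x)
    · rw [e0]
      simp
    · rw [e]
      exact hg.2 _
  rcases hg.1 with ⟨F, hF, hsub⟩ | ⟨F, hF, hsub⟩
  · refine ⟨?_, hb⟩
    have h0 : (g.sum fun s c => c • (Sum.elim (fun _ : Ts => (0 : SA →₀ ℂ))
        (fun x => (Finsupp.single (Sum.inr x) 1 : SA →₀ ℂ)) s)) = 0 := by
      ext s
      rcases s with t | x
      · rw [e0]
        rfl
      · rw [e]
        by_contra ht
        have h1 := hsub (Finsupp.mem_support_iff.2 ht)
        obtain ⟨t', ht', h2⟩ := Finset.mem_map.1 h1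
        exact Sum.inl_ne_inr h2
    rw [h0, Finsupp.support_zero]
    exact empty_face (SG G') (Sum.inl (([], fun _ => []), 0))
  · refine mem_gen_of _ (F := F.map Function.Embedding.inr)
      (Or.inr ⟨F, hF, Finset.Subset.refl _⟩) ?_ hb
    rintro (t | x) hs
    · exact (hs (e0 t)).elim
    · rw [e] at hs
      exact hsub (Finsupp.mem_support_iff.2 hs)

theorem SG_le : (SG F0).faces ⊆ (SG F1).faces := by
  rintro F (⟨G, hG, hF⟩ | ⟨G, hG, hF⟩)
  · exact Or.inl ⟨G, F0_le_F1 hG, hF⟩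
  · exact Or.inr ⟨G, hG, hF⟩

def ρ : Atom (SG F0) →L[ℂ] Atom F0 :=
  alift (SG F0) (Sum.elim (fun t => δ F0 t) (fun _ => (0 : Atom F0)))

theorem ρ_inl (t : Ts) : ρ (δ (SG F0) (Sum.inl t)) = δ F0 t := alift_δ (bdd_res F0) _

theorem ρ_inr (x : Xs) : ρ (δ (SG F0) (Sum.inr x)) = 0 := alift_δ (bdd_res F0) _

def κ : Atom (SG F0) →L[ℂ] AA := alift (SG F0) (fun s => bA s)

theorem κ_δ (s : SA) : κ (δ (SG F0) s) = bA s := alift_δ (bdd_incl (SG F0) (SG F1) SG_le) s

def lam : Atom F1 →L[ℂ] AA := alift F1 (fun t => bA (Sum.inl t))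

theorem lam_δ (t : Ts) : lam (δ F1 t) = bA (Sum.inl t) :=
  alift_δ (bdd_inl F1 F1 (Set.Subset.refl _)) t

def s1 : AA →L[ℂ] Atom (SG F0) :=
  aliftA (Sum.elim (fun _ => (0 : Atom (SG F0))) (fun x => δ (SG F0) (Sum.inr x)))

theorem s1_inl (t : Ts) : s1 (bA (Sum.inl t)) = 0 := aliftA_bA (bdd_resX F1 F0) _

theorem s1_inr (x : Xs) : s1 (bA (Sum.inr x)) = δ (SG F0) (Sum.inr x) :=
  aliftA_bA (bdd_resX F1 F0) _

def s2 : AA →L[ℂ] Atom F1 :=
  aliftA (Sum.elim (fun t => δ F1 t) (fun _ => (0 : Atom F1)))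

theorem s2_inl (t : Ts) : s2 (bA (Sum.inl t)) = δ F1 t := aliftA_bA (bdd_res F1) _

theorem s2_inr (x : Xs) : s2 (bA (Sum.inr x)) = 0 := aliftA_bA (bdd_res F1) _

theorem κ_tab (s s' : SA) : κ (tab F0 s s') = bA s * bA s' := by
  classical
  rcases s with t | x <;> rcases s' with t' | x'
  · rw [bA_mul_inl_inl]
    simp only [tab]
    split_ifs
    · exact κ_δ _
    · exact map_zero κ
  · rw [bA_mul_inl_inr]
    simp only [tab]
    split_ifs
    · exact κ_δ _
    · exact map_zero κ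
  · rw [bA_mul_inr_inl]
    simp only [tab]
    split_ifs
    · exact κ_δ _
    · exact map_zero κ
  · rw [bA_mul_inr_inr]
    simp only [tab]
    split_ifs
    · exact κ_δ _
    · exact map_zero κ

theorem val_tab (G : Cx Ts) (s : SA) (t : Ts) :
    val s (Sum.inl t) • δ (SG G) (Sum.inl t) = tab G s (Sum.inl t) := by
  classical
  rcases s with t' | x
  · simp only [tab, val]
    by_cases h : t' = t
    · rw [if_pos h, if_pos h, one_smul, h]
    · rw [if_neg h, if_neg h, zero_smul]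
  · simp only [tab, val]
    by_cases h : t.1 = x
    · rw [if_pos h, if_pos h, one_smul]
    · rw [if_neg h, if_neg h, zero_smul]

theorem val_bA (s : SA) (t : Ts) :
    val s (Sum.inl t) • bA (Sum.inl t) = bA s * bA (Sum.inl t) := by
  have h := congrArg κ (val_tab F0 s t)
  rw [κ_tab, map_smul, κ_δ] at h
  exact h

theorem κ_mul (a : AA) (x : Atom (SG F0)) : κ (mulA0 a x) = a * κ x := by
  have h := AA.apply_eq_of (f := (κ.comp (mulA0.flip x)))
    (g := ((ContinuousLinearMap.mul ℂ AA).flip (κ x))) (fun s => ?_) a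
  · exact h
  have h2 := Atom.apply_eq_of (K := SG F0) (f := κ.comp (mulA0 (bA s)))
    (g := (ContinuousLinearMap.mul ℂ AA (bA s)).comp κ) (fun s' => ?_) x
  · exact h2
  · show κ (mulA0 (bA s) (δ (SG F0) s')) = bA s * κ (δ (SG F0) s')
    rw [mulA0_δ, κ_tab, κ_δ]

theorem lam_mul (a : AA) (x : Atom F1) : lam (diagAct F1 Sum.inl a x) = a * lam x := by
  have h := AA.apply_eq_of (f := (lam.comp ((diagAct F1 Sum.inl).flip x)))
    (g := ((ContinuousLinearMap.mul ℂ AA).flip (lam x))) (fun s => ?_) a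
  · exact h
  have h2 := Atom.apply_eq_of (K := F1) (f := lam.comp (diagAct F1 Sum.inl (bA s)))
    (g := (ContinuousLinearMap.mul ℂ AA (bA s)).comp lam) (fun t => ?_) x
  · exact h2
  · show lam (diagAct F1 Sum.inl (bA s) (δ F1 t)) = bA s * lam (δ F1 t)
    rw [diagAct_δ, map_smul, lam_δ, val_bA]

theorem iB_d (t : Ts) : iB (δ F0 t) = δ (SG F0) (Sum.inl t) :=
  alift_δ (bdd_inl F0 F0 (Set.Subset.refl _)) t

theorem iI_d (t : Ts) : iI (δ F0 t) = δ F1 t := alift_δ (bdd_incl F0 F1 F0_le_F1) t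

theorem iB_act (a : AA) (x : Atom F0) : iB (diagAct F0 Sum.inl a x) = mulA0 a (iB x) := by
  have h := AA.apply_eq_of (f := (iB.comp ((diagAct F0 Sum.inl).flip x)))
    (g := (mulA0.flip (iB x))) (fun s => ?_) a
  · exact h
  have h2 := Atom.apply_eq_of (K := F0) (f := iB.comp (diagAct F0 Sum.inl (bA s)))
    (g := (mulA0 (bA s)).comp iB) (fun t => ?_) x
  · exact h2
  · show iB (diagAct F0 Sum.inl (bA s) (δ F0 t)) = mulA0 (bA s) (iB (δ F0 t))
    rw [diagAct_δ, map_smul, iB_d, mulA0_δ, val_tab]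

theorem iI_act (a : AA) (x : Atom F0) :
    iI (diagAct F0 Sum.inl a x) = diagAct F1 Sum.inl a (iI x) := by
  have h := AA.apply_eq_of (f := (iI.comp ((diagAct F0 Sum.inl).flip x)))
    (g := ((diagAct F1 Sum.inl).flip (iI x))) (fun s => ?_) a
  · exact h
  have h2 := Atom.apply_eq_of (K := F0) (f := iI.comp (diagAct F0 Sum.inl (bA s)))
    (g := (diagAct F1 Sum.inl (bA s)).comp iI) (fun t => ?_) x
  · exact h2
  · show iI (diagAct F0 Sum.inl (bA s) (δ F0 t)) = diagAct F1 Sum.inl (bA s) (iI (δ F0 t))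
    rw [diagAct_δ, map_smul, iI_d, diagAct_δ]

theorem r_iB (x : Atom F0) : ρ (iB x) = x :=
  Atom.apply_eq_of (K := F0) (f := ρ.comp iB) (g := ContinuousLinearMap.id ℂ _) (fun t => by
    show ρ (iB (δ F0 t)) = δ F0 t
    rw [iB_d, ρ_inl]) x

theorem p_s (x : AA) : κ (s1 x) + lam (s2 x) = x :=
  AA.apply_eq_of (f := κ.comp s1 + lam.comp s2) (g := ContinuousLinearMap.id ℂ _) (fun s => by
    show κ (s1 (bA s)) + lam (s2 (bA s)) = bA s
    rcases s with t | x
    · rw [s1_inl, s2_inl, map_zero, lam_δ, zero_add]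
    · rw [s1_inr, s2_inr, map_zero, κ_δ, add_zero]) x

theorem a1 (x : Atom (SG F0)) : iB (ρ x) + s1 (κ x) = x :=
  Atom.apply_eq_of (K := SG F0) (f := iB.comp ρ + s1.comp κ) (g := ContinuousLinearMap.id ℂ _)
    (fun s => by
      show iB (ρ (δ (SG F0) s)) + s1 (κ (δ (SG F0) s)) = δ (SG F0) s
      rw [κ_δ]
      rcases s with t | x
      · rw [ρ_inl, iB_d, s1_inl, add_zero]
      · rw [ρ_inr, s1_inr, map_zero, zero_add]) x

theorem a2 (x : Atom (SG F0)) : s2 (κ x) = iI (ρ x) :=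
  Atom.apply_eq_of (K := SG F0) (f := s2.comp κ) (g := iI.comp ρ)
    (fun s => by
      show s2 (κ (δ (SG F0) s)) = iI (ρ (δ (SG F0) s))
      rw [κ_δ]
      rcases s with t | x
      · rw [ρ_inl, iI_d, s2_inl]
      · rw [ρ_inr, s2_inr, map_zero]) x

theorem a3 (x : Atom F1) : s1 (lam x) = 0 :=
  Atom.apply_eq_of (K := F1) (f := s1.comp lam) (g := 0)
    (fun t => by
      show s1 (lam (δ F1 t)) = 0
      rw [lam_δ, s1_inl]) x

theorem a4 (x : Atom F1) : s2 (lam x) = x :=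
  Atom.apply_eq_of (K := F1) (f := s2.comp lam) (g := ContinuousLinearMap.id ℂ _)
    (fun t => by
      show s2 (lam (δ F1 t)) = δ F1 t
      rw [lam_δ, s2_inl]) x

end SesPAux

/-- `iB` maps `δ_t` to `δ (inl t)` -/
theorem iB_δ (t : Ts) : iB (δ F0 t) = δ (SG F0) (Sum.inl t) := by
  exact SesPAux.iB_d t

theorem iI_δ (t : Ts) : iI (δ F0 t) = δ F1 t := by
  exact SesPAux.iI_d t

theorem isHom_fP : IsHom I0M P1M fP := by
  refine isHom_of_in _ fun a x => ?_
  have h1 : iB (diagAct F0 Sum.inl a x) = mulA0 a (iB x) := SesPAux.iB_act a x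
  have h2 : -iI (diagAct F0 Sum.inl a x) = diagAct F1 Sum.inl a (-iI x) := by
    rw [map_neg]
    exact congrArg Neg.neg (SesPAux.iI_act a x)
  have e1 : I0M.act (inA a) x = (diagAct F0 Sum.inl a x : Atom F0) :=
    ofA_act_in _ (diagAct_mul F0 Sum.inl) _ _
  have e2 : P1M.act (inA a) (fP x) = ((mulA0 a (iB x), diagAct F1 Sum.inl a (-iI x)) :
      Atom (SG F0) × Atom F1) :=
    Prod.ext (ofA_act_in (A := AA) mulA0 (fun a b m => mulG_assoc F0 (fun _ h => h) a b m) _ _)
      (ofA_act_in _ (diagAct_mul F1 Sum.inl) _ _)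
  rw [e1, e2]
  exact Prod.ext h1 h2

/-- the admissible sequence `0 → P₂ → P₁ → A → 0` -/
theorem exists_sesP : ∃ σ : SES I0M P1M AM, σ.j = fP := by
  refine ⟨{
    j := fP
    p := (SesPAux.κ.comp (ContinuousLinearMap.fst ℂ (Atom (SG F0)) (Atom F1)) +
      SesPAux.lam.comp (ContinuousLinearMap.snd ℂ (Atom (SG F0)) (Atom F1)) :
      (Atom (SG F0) × Atom F1) →L[ℂ] AA)
    r := (SesPAux.ρ.comp (ContinuousLinearMap.fst ℂ (Atom (SG F0)) (Atom F1)) :
      (Atom (SG F0) × Atom F1) →L[ℂ] Atom F0)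
    s := (ContinuousLinearMap.prod SesPAux.s1 SesPAux.s2 : AA →L[ℂ] (Atom (SG F0) × Atom F1))
    hj := isHom_fP
    hp := ?_
    rj := ?_
    ps := ?_
    jrsp := ?_ }, rfl⟩
  · refine isHom_of_in _ fun a x => ?_
    obtain ⟨x, y⟩ := x
    have e2 : P1M.act (inA a) (x, y) = ((mulA0 a x, diagAct F1 Sum.inl a y) :
        Atom (SG F0) × Atom F1) :=
      Prod.ext (ofA_act_in (A := AA) mulA0 (fun a b m => mulG_assoc F0 (fun _ h => h) a b m) _ _)
        (ofA_act_in _ (diagAct_mul F1 Sum.inl) _ _)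
    have e3 : ∀ z : AA, AM.act (inA a) z = (a * z : AA) := fun z =>
      ofA_act_in (ContinuousLinearMap.mul ℂ AA) (fun a b m => mul_assoc a b m) _ _
    rw [e2]
    refine Eq.trans ?_ (e3 _).symm
    show SesPAux.κ (mulA0 a x) + SesPAux.lam (diagAct F1 Sum.inl a y) =
      a * (SesPAux.κ x + SesPAux.lam y)
    rw [SesPAux.κ_mul, SesPAux.lam_mul, mul_add]
  · intro x
    exact SesPAux.r_iB x
  · intro x
    exact SesPAux.p_s x
  · intro x
    obtain ⟨x, y⟩ := x
    refine Prod.ext ?_ ?_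
    · show iB (SesPAux.ρ x) + SesPAux.s1 (SesPAux.κ x + SesPAux.lam y) = x
      rw [map_add, SesPAux.a3, add_zero, SesPAux.a1]
    · show -iI (SesPAux.ρ x) + SesPAux.s2 (SesPAux.κ x + SesPAux.lam y) = y
      rw [map_add, SesPAux.a2, SesPAux.a4]
      abel

end Pool.Agent.Lib.BF3
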