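import Mathlib
import Pool.Agent.Lib.BF3.Mods
import Pool.Agent.Lib.BF3.Comb2
import Pool.Agent.Lib.BF3.PiP
import Pool.Agent.Lib.BF3.SesP

/-!
# The phantom maps `v_n : P₁ → P₂`

Let `M` be the number of `exists_mn n`. Put `φ t = 1` if `kk t.1 ≤ n` and `t.2 < M`, `φ t = 0`
otherwise, and `κ t = 1` if `kk t.1 ≤ n` and `M ≤ t.2`, `κ t = 0` otherwise.

The maps:
* `α : Atom (SG F0) → Atom F0`, `δ (inl t) ↦ φ t • δ_t`, and `δ (inr x) ↦ ∑_{j < M} δ_{(x,j)}` if
  `kk x ≤ n`, `0` otherwise. Bounded by `1`: a generator `g` of `SG F0` is supported on `inl F`,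
  `F ∈ F0.faces` (the image is `∑ g_t φ_t δ_t`, a generator), or `g = c • single (inr x)` (the image is
  `c ∑_{j<M} δ_{(x,j)}`, a generator: the set `{(x,j) : j < M}` is a face of `F0`);
* `β : Atom F1 → Atom F0`, `δ_t ↦ κ t • δ_t`. Bounded by `1`: let `g` be a generator of `F1`
  with support `F`. The function `t ↦ κ t g t` has its support in a face of `F0`: clear if all
  `t ∈ F` have the same `t.1`. Otherwise `col t = col t'` and `kk t.1 = kk t'.1 → t = t'` for
  `t, t' ∈ F`; two elements `t ≠ t'` of `F` with `κ t = κ t' = 1` would have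
  `kk t.1, kk t'.1 ≤ n`, `kk t.1 ≠ kk t'.1`, `M ≤ t.2, t'.2`, so `col t ≠ col t'` by `exists_mn`,
  contradiction; so the support has at most one element.
* `v (b, a) = α b - β a`, `‖v x‖ ≤ 2 ‖x‖`.

`v (fP δ_t) = φ t • δ_t + κ t • δ_t = (if kk t.1 ≤ n then δ_t else 0) = ∑_{k < n+1} piP k δ_t`
(`fP δ_t = (δ (inl t), -δ_t)`: `iB_δ`, `iI_δ`; `piP_δ`); `Atom.apply_eq_of`.
`v` is a morphism: `isHom_of_in`, `AA.apply_eq_of`, and the basis of `P1M`: both `α` and `β` are
morphisms; e.g. `bA (inl t) · δ (inr x) = δ (inl t)` if `t.1 = x`, `α` of it is `φ t • δ_t`, and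
`bA (inl t) · ∑_{j<M} δ_{(x,j)} = δ_t` if `t.1 = x`, `t.2 < M`, and `0` otherwise.
-/

noncomputable section

namespace Pool.Agent.Lib.BF3

namespace VPAux

/-- a combination of the unit vectors of a face with coefficients bounded by one -/
theorem norm_face_le {S : Type} (K : Cx S) {G : Finset S} (hG : G ∈ K.faces) (c : S → ℂ)
    (hc : ∀ s, ‖c s‖ ≤ 1) : ‖∑ s ∈ G, c s • δ K s‖ ≤ 1 := by
  classical
  have hg : (Finsupp.indicator G fun s _ => c s) ∈ K.gen := by
    refine ⟨K.down G hG _ ?_, fun s => ?_⟩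
    · intro s hs
      by_contra h
      rw [Finsupp.mem_support_iff] at hs
      exact hs (Finsupp.indicator_of_notMem h _)
    · by_cases h : s ∈ G
      · rw [Finsupp.indicator_of_mem h]
        exact hc s
      · rw [Finsupp.indicator_of_notMem h]
        simp
  have h1 := norm_aι_le_one hg
  rw [aι_eq_sum] at h1
  have h2 : ((Finsupp.indicator G fun s _ => c s).sum fun s c => c • δ K s) =
      ∑ s ∈ G, c s • δ K s := by
    rw [Finsupp.sum_of_support_subset (s := G)]
    · refine Finset.sum_congr rfl fun s hs => ?_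
      rw [Finsupp.indicator_of_mem hs]
    · intro s hs
      by_contra h
      rw [Finsupp.mem_support_iff] at hs
      exact hs (Finsupp.indicator_of_notMem h _)
    · intro s _
      rw [zero_smul]
  rwa [h2] at h1

/-- the family of the map `α` -/
def zα (n M : ℕ) : SA → Atom F0
  | Sum.inl t => if kk t.1 ≤ n ∧ t.2 < M then δ F0 t else 0
  | Sum.inr x => if kk x ≤ n then ∑ j ∈ Finset.range M, δ F0 (x, j) else 0

/-- the family of the map `β` -/
def zβ (n M : ℕ) (t : Ts) : Atom F0 := if kk t.1 ≤ n ∧ M ≤ t.2 then δ F0 t else 0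

theorem bdd_zα (n M : ℕ) : Bdd (SG F0) (zα n M) 1 := by
  classical
  refine ⟨zero_le_one, fun g hg => ?_⟩
  obtain ⟨hsup, hle⟩ := hg
  rcases hsup with ⟨G, hG, hsub⟩ | ⟨G, hG, hsub⟩
  · have h1 : (g.sum fun s c => c • zα n M s) =
        ∑ t ∈ G, (if kk t.1 ≤ n ∧ t.2 < M then g (Sum.inl t) else 0) • δ F0 t := by
      rw [Finsupp.sum_of_support_subset g hsub (fun s c => c • zα n M s) (fun s _ => zero_smul _ _),
        Finset.sum_map]
      refine Finset.sum_congr rfl fun t _ => ?_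
      change g (Sum.inl t) • (if kk t.1 ≤ n ∧ t.2 < M then δ F0 t else 0) = _
      split_ifs
      · rfl
      · rw [smul_zero, zero_smul]
    rw [h1]
    refine norm_face_le F0 hG _ fun t => ?_
    split_ifs
    · exact hle _
    · simp
  · have h1 : (g.sum fun s c => c • zα n M s) = ∑ x ∈ G, g (Sum.inr x) • zα n M (Sum.inr x) := by
      rw [Finsupp.sum_of_support_subset g hsub (fun s c => c • zα n M s) (fun s _ => zero_smul _ _),
        Finset.sum_map]
      rfl
    rw [h1]
    rcases G.eq_empty_or_nonempty with h2 | ⟨x, hx⟩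
    · rw [h2, Finset.sum_empty, norm_zero]
      exact zero_le_one
    · have h3 : G = {x} := by
        ext y
        rw [Finset.mem_singleton]
        exact ⟨fun hy => hG y hy x hx, fun hy => hy ▸ hx⟩
      rw [h3, Finset.sum_singleton]
      change ‖g (Sum.inr x) • (if kk x ≤ n then ∑ j ∈ Finset.range M, δ F0 (x, j) else 0)‖ ≤ 1
      split_ifs
      · have h4 : ((Finset.range M).map ⟨fun j => ((x, j) : Ts), fun a b h => by
            exact (Prod.ext_iff.1 h).2⟩) ∈ F0.faces := by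
          intro t ht t' ht'
          rw [Finset.mem_map] at ht ht'
          obtain ⟨j, _, rfl⟩ := ht
          obtain ⟨j', _, rfl⟩ := ht'
          rfl
        have h5 := norm_face_le F0 h4 (fun _ => g (Sum.inr x)) (fun _ => hle _)
        rw [Finset.sum_map] at h5
        rw [Finset.smul_sum]
        exact h5
      · rw [smul_zero, norm_zero]
        exact zero_le_one

theorem bdd_zβ {n M : ℕ} (hM : ∀ t t' : Ts, kk t.1 ≤ n → kk t'.1 ≤ n → kk t.1 ≠ kk t'.1 →
    M ≤ t.2 → M ≤ t'.2 → col t ≠ col t') : Bdd F1 (zβ n M) 1 := by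
  classical
  refine ⟨zero_le_one, fun g hg => ?_⟩
  obtain ⟨hsup, hle⟩ := hg
  have h1 : (g.sum fun s c => c • zβ n M s) =
      ∑ t ∈ g.support.filter (fun t => kk t.1 ≤ n ∧ M ≤ t.2), g t • δ F0 t := by
    rw [Finset.sum_filter, Finsupp.sum]
    refine Finset.sum_congr rfl fun t _ => ?_
    unfold zβ
    split_ifs
    · rfl
    · rw [smul_zero]
  rw [h1]
  refine norm_face_le F0 ?_ (fun t => g t) hle
  intro t ht t' ht'
  rw [Finset.mem_filter] at ht ht'
  rcases hsup with h2 | h2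
  · exact h2 t ht.1 t' ht'.1
  · obtain ⟨h3, h4⟩ := h2 t ht.1 t' ht'.1
    by_cases h5 : kk t.1 = kk t'.1
    · rw [h4 h5]
    · exact absurd h3 (hM t t' ht.2.1 ht'.2.1 h5 ht.2.2 ht'.2.2)

/-- the map `α` -/
def mα (n M : ℕ) : Atom (SG F0) →L[ℂ] Atom F0 := alift (SG F0) (zα n M)

/-- the map `β` -/
def mβ (n M : ℕ) : Atom F1 →L[ℂ] Atom F0 := alift F1 (zβ n M)

theorem mα_δ (n M : ℕ) (s : SA) : mα n M (δ (SG F0) s) = zα n M s := alift_δ (bdd_zα n M) s

theorem mα_hom (n M : ℕ) (a : AA) (m : Atom (SG F0)) :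
    mα n M (mulA0 a m) = diagAct F0 Sum.inl a (mα n M m) := by
  classical
  refine AA.apply_eq_of (f := (mα n M).comp (mulA0.flip m))
    (g := (diagAct F0 Sum.inl).flip (mα n M m)) (fun s => ?_) a
  rw [ContinuousLinearMap.comp_apply, ContinuousLinearMap.flip_apply,
    ContinuousLinearMap.flip_apply]
  refine Atom.apply_eq_of (f := (mα n M).comp (mulA0 (bA s)))
    (g := (diagAct F0 Sum.inl (bA s)).comp (mα n M)) (fun s' => ?_) m
  rw [ContinuousLinearMap.comp_apply, ContinuousLinearMap.comp_apply, mulA0_δ, mα_δ]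
  rcases s with t | x <;> rcases s' with t' | x'
  · change mα n M (if t = t' then δ (SG F0) (Sum.inl t) else 0) =
      diagAct F0 Sum.inl (bA (Sum.inl t)) (if kk t'.1 ≤ n ∧ t'.2 < M then δ F0 t' else 0)
    by_cases h1 : t = t'
    · subst h1
      rw [if_pos rfl, mα_δ]
      change (if kk t.1 ≤ n ∧ t.2 < M then δ F0 t else 0) = _
      split_ifs
      · rw [diagAct_δ]
        change _ = (if t = t then (1 : ℂ) else 0) • _
        rw [if_pos rfl, one_smul]
      · rw [map_zero]
    · rw [if_neg h1, map_zero]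
      split_ifs
      · rw [diagAct_δ]
        change _ = (if t = t' then (1 : ℂ) else 0) • _
        rw [if_neg h1, zero_smul]
      · rw [map_zero]
  · change mα n M (if t.1 = x' then δ (SG F0) (Sum.inl t) else 0) =
      diagAct F0 Sum.inl (bA (Sum.inl t))
        (if kk x' ≤ n then ∑ j ∈ Finset.range M, δ F0 (x', j) else 0)
    have hval : ∀ j, diagAct F0 Sum.inl (bA (Sum.inl t)) (δ F0 (x', j)) =
        if t = (x', j) then δ F0 t else 0 := by
      intro j
      rw [diagAct_δ]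
      change (if t = (x', j) then (1 : ℂ) else 0) • _ = _
      split_ifs with h
      · rw [one_smul, h]
      · rw [zero_smul]
    by_cases h1 : t.1 = x'
    · subst h1
      rw [if_pos rfl, mα_δ]
      change (if kk t.1 ≤ n ∧ t.2 < M then δ F0 t else 0) = _
      by_cases h2 : kk t.1 ≤ n
      · rw [if_pos h2, map_sum, Finset.sum_congr rfl fun j _ => hval j]
        have h3 : ∀ j ∈ Finset.range M, (if t = (t.1, j) then δ F0 t else (0 : Atom F0)) =
            if t.2 = j then δ F0 t else 0 := by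
          intro j _
          refine if_congr ?_ rfl rfl
          constructor
          · intro h
            exact (Prod.ext_iff.1 h).2
          · intro h
            exact Prod.ext rfl h
        rw [Finset.sum_congr rfl h3, Finset.sum_ite_eq]
        refine if_congr ?_ rfl rfl
        rw [Finset.mem_range]
        exact ⟨fun h => h.2, fun h => ⟨h2, h⟩⟩
      · rw [if_neg h2, if_neg (fun h => h2 h.1), map_zero]
    · rw [if_neg h1, map_zero]
      split_ifs
      · rw [map_sum, Finset.sum_eq_zero]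
        intro j _
        rw [hval, if_neg]
        intro h
        exact h1 (by rw [h])
      · rw [map_zero]
  · change mα n M (if t'.1 = x then δ (SG F0) (Sum.inl t') else 0) =
      diagAct F0 Sum.inl (bA (Sum.inr x)) (if kk t'.1 ≤ n ∧ t'.2 < M then δ F0 t' else 0)
    by_cases h1 : t'.1 = x
    · rw [if_pos h1, mα_δ]
      change (if kk t'.1 ≤ n ∧ t'.2 < M then δ F0 t' else 0) = _
      split_ifs
      · rw [diagAct_δ]
        change _ = (if t'.1 = x then (1 : ℂ) else 0) • _
        rw [if_pos h1, one_smul]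
      · rw [map_zero]
    · rw [if_neg h1, map_zero]
      split_ifs
      · rw [diagAct_δ]
        change _ = (if t'.1 = x then (1 : ℂ) else 0) • _
        rw [if_neg h1, zero_smul]
      · rw [map_zero]
  · change mα n M (if x = x' then δ (SG F0) (Sum.inr x) else 0) =
      diagAct F0 Sum.inl (bA (Sum.inr x))
        (if kk x' ≤ n then ∑ j ∈ Finset.range M, δ F0 (x', j) else 0)
    have hval : ∀ j, diagAct F0 Sum.inl (bA (Sum.inr x)) (δ F0 (x', j)) =
        if x' = x then δ F0 (x', j) else 0 := by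
      intro j
      rw [diagAct_δ]
      change (if x' = x then (1 : ℂ) else 0) • _ = _
      split_ifs with h
      · rw [one_smul]
      · rw [zero_smul]
    by_cases h1 : x = x'
    · subst h1
      rw [if_pos rfl, mα_δ]
      change (if kk x ≤ n then ∑ j ∈ Finset.range M, δ F0 (x, j) else 0) = _
      split_ifs
      · rw [map_sum]
        refine Finset.sum_congr rfl fun j _ => ?_
        rw [hval, if_pos rfl]
      · rw [map_zero]
    · rw [if_neg h1, map_zero]
      split_ifs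
      · rw [map_sum, Finset.sum_eq_zero]
        intro j _
        rw [hval, if_neg (fun h => h1 h.symm)]
      · rw [map_zero]

theorem mβ_hom {n M : ℕ} (hM : ∀ t t' : Ts, kk t.1 ≤ n → kk t'.1 ≤ n → kk t.1 ≠ kk t'.1 →
    M ≤ t.2 → M ≤ t'.2 → col t ≠ col t') (a : AA) (m : Atom F1) :
    mβ n M (diagAct F1 Sum.inl a m) = diagAct F0 Sum.inl a (mβ n M m) := by
  have hδ : ∀ t, mβ n M (δ F1 t) = zβ n M t := fun t => alift_δ (bdd_zβ hM) t
  refine AA.apply_eq_of (f := (mβ n M).comp ((diagAct F1 Sum.inl).flip m))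
    (g := (diagAct F0 Sum.inl).flip (mβ n M m)) (fun s => ?_) a
  rw [ContinuousLinearMap.comp_apply, ContinuousLinearMap.flip_apply,
    ContinuousLinearMap.flip_apply]
  refine Atom.apply_eq_of (f := (mβ n M).comp (diagAct F1 Sum.inl (bA s)))
    (g := (diagAct F0 Sum.inl (bA s)).comp (mβ n M)) (fun t => ?_) m
  rw [ContinuousLinearMap.comp_apply, ContinuousLinearMap.comp_apply, diagAct_δ, map_smul, hδ]
  unfold zβ
  split_ifs
  · rw [diagAct_δ]
  · rw [map_zero, smul_zero]

/-- the map `v` on the underlying spaces -/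
def vv (n M : ℕ) : (Atom (SG F0) × Atom F1) →L[ℂ] Atom F0 :=
  (mα n M).comp (ContinuousLinearMap.fst ℂ _ _) - (mβ n M).comp (ContinuousLinearMap.snd ℂ _ _)

theorem vv_apply (n M : ℕ) (x : Atom (SG F0) × Atom F1) :
    vv n M x = mα n M x.1 - mβ n M x.2 := rfl

theorem norm_vv {n M : ℕ} (hM : ∀ t t' : Ts, kk t.1 ≤ n → kk t'.1 ≤ n → kk t.1 ≠ kk t'.1 →
    M ≤ t.2 → M ≤ t'.2 → col t ≠ col t') (x : Atom (SG F0) × Atom F1) :
    ‖vv n M x‖ ≤ 2 * ‖x‖ := by
  rw [vv_apply]
  have h1 : ‖mα n M x.1‖ ≤ 1 * ‖x.1‖ := norm_alift_le (bdd_zα n M) x.1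
  have h2 : ‖mβ n M x.2‖ ≤ 1 * ‖x.2‖ := norm_alift_le (bdd_zβ hM) x.2
  have h3 := norm_fst_le x
  have h4 := norm_snd_le x
  have h5 := norm_sub_le (mα n M x.1) (mβ n M x.2)
  linarith

/-- the projection, on the underlying space -/
def pp (k : ℕ) : Atom F0 →L[ℂ] Atom F0 := piP k

open Classical in
theorem pp_δ (k : ℕ) (t : Ts) : pp k (δ F0 t) = if kk t.1 = k then δ F0 t else 0 := piP_δ k t

theorem vv_fP {n M : ℕ} (hM : ∀ t t' : Ts, kk t.1 ≤ n → kk t'.1 ≤ n → kk t.1 ≠ kk t'.1 →
    M ≤ t.2 → M ≤ t'.2 → col t ≠ col t') (p : Atom F0) :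
    vv n M (iB p, -iI p) = ∑ k ∈ Finset.range (n + 1), pp k p := by
  classical
  have hβ : ∀ t, mβ n M (δ F1 t) = zβ n M t := fun t => alift_δ (bdd_zβ hM) t
  have key : ∀ t : Ts, mα n M (iB (δ F0 t)) + mβ n M (iI (δ F0 t)) =
      ∑ k ∈ Finset.range (n + 1), pp k (δ F0 t) := by
    intro t
    rw [iB_δ, iI_δ, mα_δ, hβ]
    have h1 : ∀ k ∈ Finset.range (n + 1), pp k (δ F0 t) =
        if kk t.1 = k then δ F0 t else 0 := fun k _ => pp_δ k t
    rw [Finset.sum_congr rfl h1, Finset.sum_ite_eq]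
    change (if kk t.1 ≤ n ∧ t.2 < M then δ F0 t else 0) +
      (if kk t.1 ≤ n ∧ M ≤ t.2 then δ F0 t else 0) = _
    by_cases h2 : kk t.1 ≤ n
    · rw [if_pos (Finset.mem_range.2 (by omega) : kk t.1 ∈ Finset.range (n + 1))]
      by_cases h3 : t.2 < M
      · rw [if_pos ⟨h2, h3⟩, if_neg (fun h => by omega), add_zero]
      · rw [if_neg (fun h => h3 h.2), if_pos ⟨h2, by omega⟩, zero_add]
    · rw [if_neg (fun h => h2 h.1), if_neg (fun h => h2 h.1), add_zero, if_neg]
      rw [Finset.mem_range]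
      omega
  have h1 := Atom.apply_eq_of (f := (mα n M).comp iB + (mβ n M).comp iI)
    (g := ∑ k ∈ Finset.range (n + 1), pp k) (fun t => by
      rw [sum_apply]
      exact key t) p
  rw [sum_apply] at h1
  rw [vv_apply]
  change mα n M (iB p) - mβ n M (-iI p) = _
  rw [map_neg, sub_neg_eq_add]
  exact h1

end VPAux

open VPAux

theorem exists_vP (n : ℕ) : ∃ v : P1M →L[ℂ] I0M, IsHom P1M I0M v ∧ (∀ x, ‖v x‖ ≤ 2 * ‖x‖) ∧
    ∀ p, v (fP p) = ∑ k ∈ Finset.range (n + 1), piP k p := by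
  obtain ⟨M, hM⟩ := exists_mn n
  refine ⟨vv n M, ?_, fun x => norm_vv hM x, fun p => vv_fP hM p⟩
  refine isHom_of_in _ ?_
  intro a x
  have h1 : ∀ (y : Atom (SG F0)) (z : Atom F1),
      vv n M (mulA0 a y, diagAct F1 Sum.inl a z) = diagAct F0 Sum.inl a (vv n M (y, z)) := by
    intro y z
    rw [vv_apply, vv_apply, map_sub]
    change mα n M (mulA0 a y) - mβ n M (diagAct F1 Sum.inl a z) = _
    rw [mα_hom, mβ_hom hM]
  have h2 : P1M.act (inA a) x = ((mulA0 a x.1, diagAct F1 Sum.inl a x.2) :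
      Atom (SG F0) × Atom F1) :=
    Prod.ext (ofA_act_in mulA0 (fun a b m => mulG_assoc F0 (fun _ h => h) a b m) a x.1)
      (ofA_act_in (diagAct F1 Sum.inl) (diagAct_mul F1 Sum.inl) a x.2)
  have h3 : I0M.act (inA a) (vv n M x) = diagAct F0 Sum.inl a (vv n M x) :=
    ofA_act_in (diagAct F0 Sum.inl) (diagAct_mul F0 Sum.inl) a (vv n M x)
  rw [h2]
  exact (h1 x.1 x.2).trans h3.symm

end Pool.Agent.Lib.BF3
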