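import Mathlib
import Pool.Agent.Lib.BF3.TensDh
import Pool.Agent.Lib.BF3.SymSES
import Pool.Agent.Lib.BF3.UnitSES
import Pool.Agent.Lib.BF3.Phantom
import Pool.Agent.Lib.BF3.PhSplit
import Pool.Agent.Lib.BF3.ProjDiag
import Pool.Agent.Lib.BF3.ProjB0
import Pool.Agent.Lib.BF3.SesE
import Pool.Agent.Lib.BF3.DiagRetr
import Pool.Agent.Lib.BF3.VP

/-!
# The bidimension is at most three
-/

noncomputable section

namespace Pool.Agent.Lib.BF3

theorem projective_P1M : Projective P1M := projective_B0M.prod projective_IM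

theorem dhLe_one_AM : DhLe 1 AM := by
  obtain ⟨σ, -⟩ := exists_sesP
  exact ⟨I0M, P1M, projective_P1M, ⟨σ⟩, projective_I0M⟩

theorem dhLe_one_AM_AM : DhLe 1 (tensM AM AM) := by
  obtain ⟨σ, hσ⟩ := exists_sesP
  choose v hv hC hvf using exists_vP
  obtain ⟨a, b, ha, hb, hab⟩ := exists_phantom fP piP isHom_piP sum_norm_piP hasSum_piP v hv 2 hC
    hvf
  rw [← hσ] at hab
  exact dhLe_one_of_split σ projective_I0M projective_P1M a b ha hb hab

theorem dhLe_two_triv : DhLe 2 (trivM AA) :=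
  DhLe.of_ses (unitSES AA) (DhLe.mono (by norm_num : 0 ≤ 2) projective_regM) dhLe_one_AM

theorem dhLe_two_AM_triv : DhLe 2 (tensM AM (trivM AA)) := by
  refine DhLe.of_ses ((unitSES AA).tensR AM) ?_ dhLe_one_AM_AM
  have h : DhLe (1 + 0) (tensM AM (regM UU)) :=
    DhLe.tens dhLe_one_AM (n := 0) projective_regM
  exact h.mono (by norm_num)

theorem dhLe_three_triv_triv : DhLe 3 (tensM (trivM AA) (trivM AA)) := by
  refine DhLe.of_ses ((unitSES AA).tensL (trivM AA)) ?_ dhLe_two_AM_triv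
  have h : DhLe (0 + 2) (tensM (regM UU) (trivM AA)) :=
    DhLe.tens (m := 0) projective_regM dhLe_two_triv
  exact h.mono (by norm_num)

theorem dhLe_three_sym_triv : DhLe 3 (symM (trivM AA)) := by
  obtain ⟨R⟩ := retr_triv AA
  exact DhLe.of_retr R dhLe_three_triv_triv

theorem dhLe_sym_IM : DhLe 0 (symM IM) := by
  obtain ⟨R⟩ := retr_diag F1 Sum.inl
  exact R.projective (projective_tensM projective_IM projective_IM)

theorem dhLe_one_EM : DhLe 1 EM := by
  obtain ⟨σ⟩ := sesI0B0E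
  exact ⟨I0M, B0M, projective_B0M, ⟨σ⟩, projective_I0M⟩

theorem dhLe_sym_EM : DhLe 2 (symM EM) := by
  obtain ⟨R⟩ := retr_diag (pts Xs) Sum.inr
  exact DhLe.of_retr R (DhLe.tens (m := 1) (n := 1) dhLe_one_EM dhLe_one_EM)

theorem dhLe_sym_AM : DhLe 2 (symM AM) := by
  obtain ⟨σ⟩ := sesIAE
  obtain ⟨τ⟩ := σ.sym
  exact DhLe.ext τ (dhLe_sym_IM.mono (by norm_num)) dhLe_sym_EM

theorem dhLe_three_self : DhLe 3 (selfBimod UU) := by
  obtain ⟨τ⟩ := (unitSES AA).sym
  obtain ⟨R⟩ := retr_selfBimod (U := UU)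
  refine DhLe.of_retr R (DhLe.ext τ ?_ dhLe_three_sym_triv)
  exact dhLe_sym_AM.mono (by norm_num)

end Pool.Agent.Lib.BF3
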