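import Mathlib
import Pool.Agent.Lib.BF3.Bal
import Pool.Agent.Lib.BF3.ProjBasic

/-!
# Projective bimodules are projective as right modules

PROOF. First `S = freeM (PTA U U) E = (U ⊗̂ U) ⊗̂ E`. The module `resR S` is a retract of
`freeM U (PT U E)`: `(a ⊗ b) ⊗ e ↦ b ⊗ (a ⊗ e)` and back (`lift (liftA ..)` and `lift` of a
suitable bounded bilinear map; the maps are inverse to each other on elementary tensors).
Here `u` acts on `resR S` by `1 ⊗ u`: `(a ⊗ b) ⊗ e ↦ (a ⊗ ub) ⊗ e`. So `resR S` is projective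
(`projective_free`, `Retr.projective`). If `S` is projective, with `ρ : S → (U ⊗̂ U) ⊗̂ S`, then
`resR S` is a retract of `resR (freeM (PTA U U) S)` by `ρ` and `actMap S`.
-/

noncomputable section

namespace Pool.Agent.Lib.BF3

variable {U : Type} [NormedCommRing U] [NormedAlgebra ℂ U]

private def riβ (E : Type) [NormedAddCommGroup E] [NormedSpace ℂ E] :
    U →L[ℂ] U →L[ℂ] (E →L[ℂ] PT U (PT U E)) :=
  ((ContinuousLinearMap.compL ℂ E (PT U E) (PT U (PT U E))).bilinearComp (ptL U (PT U E))
    (ptL U E)).flip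

private theorem riβ_apply (E : Type) [NormedAddCommGroup E] [NormedSpace ℂ E] (a b : U) (e : E) :
    riβ E a b e = pt b (pt a e) := rfl

/-- `(a ⊗ b) ⊗ e ↦ b ⊗ (a ⊗ e)` -/
private def ri (E : Type) [NormedAddCommGroup E] [NormedSpace ℂ E] :
    PT (PTA U U) E →L[ℂ] PT U (PT U E) := lift (liftA (riβ E))

private theorem ri_pt (E : Type) [NormedAddCommGroup E] [NormedSpace ℂ E] (a b : U) (e : E) :
    ri E (pt (ta a b) e) = pt b (pt a e) := by
  rw [ri, lift_pt, liftA_ta, riβ_apply]

/-- `b ⊗ (a ⊗ e) ↦ (a ⊗ b) ⊗ e` -/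
private def rq (E : Type) [NormedAddCommGroup E] [NormedSpace ℂ E] :
    PT U (PT U E) →L[ℂ] PT (PTA U U) E :=
  lift ((ptMapL U (PTA U U) E).comp ((taL U U).flip))

private theorem rq_pt (E : Type) [NormedAddCommGroup E] [NormedSpace ℂ E] (a b : U) (e : E) :
    rq E (pt b (pt a e)) = pt (ta a b) e := by
  rw [rq, lift_pt, ContinuousLinearMap.comp_apply, ptMapL_apply_pt]
  rfl

/-- extensionality for `(U ⊗̂ U) ⊗̂ E` -/
private theorem ext_left {E H : Type} [NormedAddCommGroup E] [NormedSpace ℂ E]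
    [NormedAddCommGroup H] [NormedSpace ℂ H] {f g : PT (PTA U U) E →L[ℂ] H}
    (h : ∀ a b e, f (pt (ta a b) e) = g (pt (ta a b) e)) (z : PT (PTA U U) E) : f z = g z := by
  refine PT.apply_eq_of (fun c e => ?_) z
  exact PTA.apply_eq_of (f := f.comp ((ptL (PTA U U) E).flip e))
    (g := g.comp ((ptL (PTA U U) E).flip e)) (fun a b => h a b e) c

/-- extensionality for `U ⊗̂ (U ⊗̂ E)` -/
private theorem ext_right {E H : Type} [NormedAddCommGroup E] [NormedSpace ℂ E]
    [NormedAddCommGroup H] [NormedSpace ℂ H] {f g : PT U (PT U E) →L[ℂ] H}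
    (h : ∀ a b e, f (pt b (pt a e)) = g (pt b (pt a e))) (z : PT U (PT U E)) : f z = g z := by
  refine PT.apply_eq_of (fun b w => ?_) z
  exact PT.apply_eq_of (f := f.comp (ptL U (PT U E) b))
    (g := g.comp (ptL U (PT U E) b)) (fun a e => h a b e) w

private def retrFree (E : Type) [NormedAddCommGroup E] [NormedSpace ℂ E] :
    Retr (resR (freeM (PTA U U) E)) (freeM U (PT U E)) where
  i := ri E
  q := rq E
  hi := by
    intro u x
    refine ext_left (f := (ri E).comp ((freeM (PTA U U) E).act (ta 1 u)))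
      (g := ((freeM U (PT U E)).act u).comp (ri E)) (fun a b e => ?_) x
    change ri E ((freeM (PTA U U) E).act (ta 1 u) (pt (ta a b) e : PT (PTA U U) E)) =
      (freeM U (PT U E)).act u (ri E (pt (ta a b) e))
    rw [freeM_act_pt, ta_mul_ta, ri_pt, ri_pt, one_mul]
    exact (freeM_act_pt (PT U E) u b (pt a e)).symm
  hq := by
    intro u x
    refine ext_right (f := (rq E).comp ((freeM U (PT U E)).act u))
      (g := ((freeM (PTA U U) E).act (ta 1 u)).comp (rq E)) (fun a b e => ?_) x
    change rq E ((freeM U (PT U E)).act u (pt b (pt a e) : PT U (PT U E))) =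
      (freeM (PTA U U) E).act (ta 1 u) (rq E (pt b (pt a e)))
    rw [freeM_act_pt, rq_pt, rq_pt]
    refine Eq.trans ?_ (freeM_act_pt E (ta 1 u) (ta a b) e).symm
    rw [ta_mul_ta, one_mul]
  qi := by
    intro y
    refine ext_left (f := (rq E).comp (ri E)) (g := ContinuousLinearMap.id ℂ _)
      (fun a b e => ?_) y
    change rq E (ri E (pt (ta a b) e)) = pt (ta a b) e
    rw [ri_pt, rq_pt]

theorem Projective.resR {S : BMod (PTA U U)} (hS : Projective S) : Projective (resR S) := by
  obtain ⟨ρ, hρ, hs⟩ := hS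
  have h1 : Projective (BF3.resR (freeM (PTA U U) S)) :=
    (retrFree S).projective (projective_free (PT U S))
  have hact : ∀ (b : PTA U U) (z : PT (PTA U U) S),
      actMap S ((freeM (PTA U U) S).act b z) = S.act b (actMap S z) := by
    intro b z
    refine PT.apply_eq_of (f := (actMap S).comp ((freeM (PTA U U) S).act b))
      (g := (S.act b).comp (actMap S)) (fun c s => ?_) z
    change actMap S ((freeM (PTA U U) S).act b (pt c s : PT (PTA U U) S)) =
      S.act b (actMap S (pt c s))
    rw [freeM_act_pt, actMap_pt, actMap_pt, S.act_mul]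
  let R : Retr (BF3.resR S) (BF3.resR (freeM (PTA U U) S)) :=
    { i := ρ
      q := actMap S
      hi := fun u x => hρ (ta 1 u) x
      hq := fun u z => hact (ta 1 u) z
      qi := hs }
  exact R.projective h1

end Pool.Agent.Lib.BF3
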