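import Mathlib
import Pool.Agent.Lib.BF3.BalFree
import Pool.Agent.Lib.BF3.ResRProj
import Pool.Agent.Lib.BF3.BalSes
import Pool.Agent.Lib.BF3.DhBasic

/-!
# The homological dimension of every module is at most the bidimension

PROOF. `DhLe.bal`: induction on `n`. `n = 0`: `S` is projective, with `ρ : S → (U ⊗̂ U) ⊗̂ S`; so
`S` is a retract of `freeM (PTA U U) S` (`ρ`, `actMap S`) and `balM S Z` is a retract of
`balM (freeM (PTA U U) S) Z` (`Retr.bal`), which is projective (`projective_balM_free`). `n + 1`:
`σ : SES K P S` with `P` projective, `DhLe n K`. `Projective (resR P)` (`Projective.resR`), so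
`Projective (resR K)` (`SES.resR_projective`) and by induction `DhLe n (balM K Z)`; `balM P Z` is
projective by the case `n = 0`; `SES.bal` gives `DhLe (n+1) (balM S Z)`.

`retr_balUnit`: `i z = balq (1 ⊗ z)`, `q (balq (u ⊗ z)) = u z` (`balLift` of `lift Z.act`; the
relation: `(selfBimod U).act (ta 1 u) s = 1 * (s * u)` and `(s u) z = s (u z)`). `i` is a morphism:
`u · balq (1 ⊗ z) = balq (u ⊗ z)` (`balM_act_balq`) and `balq (1 ⊗ u z) = balq (1u ⊗ z)`
(`balq_rel`).

`DhLe.of_selfBimod`: `resR (selfBimod U)` is projective, being `regM U` up to the identity map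
(`projective_regM`, `Retr.projective`); now `DhLe.bal`, `retr_balUnit`, `DhLe.of_retr`.
-/

noncomputable section

namespace Pool.Agent.Lib.BF3

variable {U : Type} [NormedCommRing U] [NormedAlgebra ℂ U]

namespace DgDbAux

private theorem isHom_actMap {B : Type} [NormedCommRing B] [NormedAlgebra ℂ B] (X : BMod B) :
    IsHom (freeM B X) X (actMap X) := by
  intro b x
  refine PT.apply_eq_of (f := (actMap X).comp ((freeM B X).act b))
    (g := (X.act b).comp (actMap X)) (fun c y => ?_) x
  change actMap X ((freeM B X).act b (pt c y : PT B X)) = X.act b (actMap X (pt c y))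
  rw [freeM_act_pt, actMap_pt, actMap_pt, X.act_mul]

private theorem bal_zero {S : BMod (PTA U U)} (hS : Projective S) (Z : BMod U) :
    Projective (balM S Z) := by
  obtain ⟨ρ, hρ, hρ'⟩ := hS
  obtain ⟨R⟩ := Retr.bal Z (S := S) (S' := freeM (PTA U U) S)
    ⟨ρ, actMap S, hρ, isHom_actMap S, hρ'⟩
  exact R.projective (projective_balM_free S Z)

/-- the identity map `U → selfBimod U` -/
private def toS [CompleteSpace U] : U →L[ℂ] (selfBimod U) := ContinuousLinearMap.id ℂ U

/-- the identity map `selfBimod U → U` -/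
private def ofS [CompleteSpace U] : (selfBimod U) →L[ℂ] U := ContinuousLinearMap.id ℂ U

private theorem ofS_act [CompleteSpace U] (a b : U) (x : selfBimod U) :
    ofS ((selfBimod U).act (ta a b) x) = a * (ofS x * b) := by
  change liftA (mulMul U) (ta a b) x = _
  rw [liftA_ta]
  rfl

private theorem ofS_toS [CompleteSpace U] (x : U) : ofS (toS x) = x := rfl

private theorem toS_ofS [CompleteSpace U] (x : selfBimod U) : toS (ofS x) = x := rfl

private theorem act_toS [CompleteSpace U] (a b x : U) :
    (selfBimod U).act (ta a b) (toS x) = toS (a * (x * b)) := by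
  rw [← toS_ofS ((selfBimod U).act (ta a b) (toS x)), ofS_act, ofS_toS]

/-- the identity map `regM U → U` -/
private def ofR [CompleteSpace U] : (regM U) →L[ℂ] U := ContinuousLinearMap.id ℂ U

/-- the identity map `U → regM U` -/
private def toR [CompleteSpace U] : U →L[ℂ] (regM U) := ContinuousLinearMap.id ℂ U

private theorem ofR_act [CompleteSpace U] (a : U) (x : regM U) :
    ofR ((regM U).act a x) = a * ofR x := rfl

private theorem toR_mul [CompleteSpace U] (a x : U) :
    toR (a * x) = (regM U).act a (toR x) := rfl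

private theorem aux1 [CompleteSpace U] (b : U) (x : selfBimod U) :
    toR (ofS ((selfBimod U).act (ta 1 b) x)) = (regM U).act b (toR (ofS x)) := by
  rw [ofS_act, one_mul, mul_comm, toR_mul]

private theorem aux2 [CompleteSpace U] (b : U) (x : regM U) :
    toS (ofR ((regM U).act b x)) = (selfBimod U).act (ta 1 b) (toS (ofR x)) := by
  rw [act_toS, one_mul, ofR_act, mul_comm]

private theorem projective_resR_self [CompleteSpace U] : Projective (resR (selfBimod U)) := by
  refine Retr.projective (X := regM U)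
    ⟨(toR : U →L[ℂ] regM U).comp (ofS : (selfBimod U) →L[ℂ] U),
      (toS : U →L[ℂ] (selfBimod U)).comp (ofR : (regM U) →L[ℂ] U), ?_, ?_, fun _ => rfl⟩
      projective_regM
  · exact fun b x => aux1 b x
  · exact fun b x => aux2 b x

end DgDbAux

theorem DhLe.bal {n : ℕ} {S : BMod (PTA U U)} (h : DhLe n S) (hS : Projective (resR S))
    (Z : BMod U) : DhLe n (balM S Z) := by
  induction n generalizing S with
  | zero => exact DgDbAux.bal_zero h Z
  | succ n ih =>
    obtain ⟨K, P, hP, ⟨σ⟩, hK⟩ := h
    exact ⟨balM K Z, balM P Z, DgDbAux.bal_zero hP Z, σ.bal Z hS,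
      ih hK (σ.resR_projective hS (Projective.resR hP))⟩

theorem retr_balUnit [CompleteSpace U] (Z : BMod U) :
    Nonempty (Retr Z (balM (selfBimod U) Z)) := by
  have hg : ∀ (u : U) (s : selfBimod U) (z : Z),
      lift (Z.act.comp DgDbAux.ofS) (pt ((selfBimod U).act (ta 1 u) s) z) =
        lift (Z.act.comp DgDbAux.ofS) (pt s (Z.act u z)) := by
    intro u s z
    rw [lift_pt, lift_pt, ContinuousLinearMap.comp_apply, ContinuousLinearMap.comp_apply,
      DgDbAux.ofS_act, one_mul, Z.act_mul]
  have h1 : ∀ (u : U) (z : Z),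
      balq (selfBimod U) Z (pt (DgDbAux.toS 1) (Z.act u z)) =
      (balM (selfBimod U) Z).act u (balq (selfBimod U) Z (pt (DgDbAux.toS 1) z)) := by
    intro u z
    rw [balM_act_balq, ← balq_rel, DgDbAux.act_toS, DgDbAux.act_toS, one_mul, one_mul, mul_one,
      mul_one]
  have h2 : ∀ (u : U) (s : selfBimod U) (z : Z),
      balLift (lift (Z.act.comp DgDbAux.ofS)) hg
        ((balM (selfBimod U) Z).act u (balq (selfBimod U) Z (pt s z))) =
      Z.act u (balLift (lift (Z.act.comp DgDbAux.ofS)) hg (balq (selfBimod U) Z (pt s z))) := by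
    intro u s z
    rw [balM_act_balq, balLift_balq, balLift_balq, lift_pt, lift_pt,
      ContinuousLinearMap.comp_apply, ContinuousLinearMap.comp_apply, DgDbAux.ofS_act, mul_one,
      Z.act_mul]
  have h3 : ∀ z : Z, balLift (lift (Z.act.comp DgDbAux.ofS)) hg
      (balq (selfBimod U) Z (pt (DgDbAux.toS 1) z)) = z := by
    intro z
    rw [balLift_balq, lift_pt, ContinuousLinearMap.comp_apply, DgDbAux.ofS_toS, Z.act_one]
  exact ⟨⟨(balq (selfBimod U) Z).comp (ptL (selfBimod U) Z (DgDbAux.toS 1)),
    balLift (lift (Z.act.comp DgDbAux.ofS)) hg, h1,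
    fun u w => BalT.apply_eq_of
      (f := (balLift (lift (Z.act.comp DgDbAux.ofS)) hg).comp ((balM (selfBimod U) Z).act u))
      (g := (Z.act u).comp (balLift (lift (Z.act.comp DgDbAux.ofS)) hg)) (h2 u) w, h3⟩⟩

theorem DhLe.of_selfBimod [CompleteSpace U] {n : ℕ} (h : DhLe n (selfBimod U)) (Z : BMod U) :
    DhLe n Z := by
  obtain ⟨R⟩ := retr_balUnit Z
  exact DhLe.of_retr R (h.bal DgDbAux.projective_resR_self Z)

end Pool.Agent.Lib.BF3
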