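import Mathlib
import Pool.Agent.Lib.BF3.SignAvg
import Pool.Agent.Lib.BF3.KerSES

/-!
# Averaging: `f` is a coretraction

PROOF. For a bounded functional `φ` on `X0` let `slice φ : PT P2 X0 → P2` be the bounded linear
map with `slice φ (p ⊗ y) = φ y • p` (`lift`), `‖slice φ w‖ ≤ ‖φ‖ ‖w‖` (`norm_lift_apply_le`), a
morphism `tenE P2 X0 → P2`, additive and homogeneous in `φ` (check on elementary tensors). For
`x ∈ X` the map `p ↦ p ⊗ x` is a morphism `P2 → tenE P2 X`. Put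
`κ_d p = slice (c d) (a (p ⊗ i (e0 d)))`, `λ_d q = slice (c d) (b (q ⊗ e0 d))`, morphisms with
`κ_d p + λ_d (f p) = slice (c d) (p ⊗ e0 d) = p` (by `hab` for `z = p ⊗ e0 d`).

For all signs `ε` and all `N`, the vector
`∑_{d,d' < N} ε_d ε_d' slice (c d) (a (p ⊗ i (e0 d')))
  = slice (∑_d ε_d c_d) (a (p ⊗ ∑_d' ε_d' i (e0 d')))` has norm at most `‖a‖ ‖p‖` (`he`, `hcc`). By
`sign_avg`, `‖∑_{d < N} κ_d p‖ ≤ ‖a‖ ‖p‖`. Let `N > ‖a‖`, `N ≥ 1`, `κ = (1/N) ∑_{d<N} κ_d`,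
`λ = (1/N) ∑_{d<N} λ_d`. Then `κ p + λ (f p) = p`, `‖κ p‖ ≤ (‖a‖/N) ‖p‖`, `‖κ‖ < 1`, so `1 - κ` is
invertible in the Banach algebra `P2 →L[ℂ] P2` (`isUnit_one_sub_of_norm_lt_one` or
`Units.oneSub`); its inverse `w` commutes with the action because `1 - κ` does. Take
`v = w ∘ λ`: `v (f p) = w (p - κ p) = p`.
-/

noncomputable section

namespace Pool.Agent.Lib.BF3

variable {U : Type} [NormedCommRing U] [NormedAlgebra ℂ U]

namespace LowAvgAux

variable {P2 P1 : BMod U} {X0 X : Type} [NormedAddCommGroup X0] [NormedSpace ℂ X0]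
  [NormedAddCommGroup X] [NormedSpace ℂ X]

/-- the slice map `p ⊗ y ↦ φ y • p` -/
def slice (P : BMod U) (X0 : Type) [NormedAddCommGroup X0] [NormedSpace ℂ X0]
    (φ : X0 →L[ℂ] ℂ) : PT P X0 →L[ℂ] P :=
  lift (ContinuousLinearMap.smulRightL ℂ X0 P φ)

theorem slice_pt (P : BMod U) (φ : X0 →L[ℂ] ℂ) (p : P) (y : X0) :
    slice P X0 φ (pt p y) = φ y • p := by
  simp [slice]

theorem norm_slice_le (P : BMod U) (φ : X0 →L[ℂ] ℂ) (C : ℝ) (hC : 0 ≤ C)
    (h : ∀ y, ‖φ y‖ ≤ C * ‖y‖) (z : PT P X0) : ‖slice P X0 φ z‖ ≤ C * ‖z‖ := by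
  refine norm_lift_apply_le _ _ (fun x y => ?_) hC z
  change ‖φ y • x‖ ≤ C * (‖x‖ * ‖y‖)
  rw [norm_smul]
  calc ‖φ y‖ * ‖x‖ ≤ (C * ‖y‖) * ‖x‖ := by gcongr; exact h y
    _ = C * (‖x‖ * ‖y‖) := by ring

theorem slice_hom (P : BMod U) (φ : X0 →L[ℂ] ℂ) (b : U) (z : PT P X0) :
    slice P X0 φ ((tenE P X0).act b z) = P.act b (slice P X0 φ z) := by
  refine PT.apply_eq_of (f := (slice P X0 φ).comp ((tenE P X0).act b))
    (g := (P.act b).comp (slice P X0 φ)) (fun x y => ?_) z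
  change slice P X0 φ ((tenE P X0).act b (pt x y : PT P X0)) = P.act b (slice P X0 φ (pt x y))
  rw [tenE_act_pt, slice_pt, slice_pt, map_smul]

theorem slice_sum (P : BMod U) (s : Finset ℕ) (ε : ℕ → ℂ) (c : ℕ → X0 →L[ℂ] ℂ) (z : PT P X0) :
    slice P X0 (∑ d ∈ s, ε d • c d) z = ∑ d ∈ s, ε d • slice P X0 (c d) z := by
  have := PT.apply_eq_of (f := slice P X0 (∑ d ∈ s, ε d • c d))
    (g := ∑ d ∈ s, ε d • slice P X0 (c d)) (fun x y => by
      simp [slice_pt, Finset.sum_smul, smul_smul]) z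
  simpa using this

/-- `p ↦ p ⊗ x` -/
def tl (P : BMod U) {X : Type} [NormedAddCommGroup X] [NormedSpace ℂ X] (x : X) :
    P →L[ℂ] PT P X := (ptL P X).flip x

theorem tl_apply (P : BMod U) (x : X) (p : P) : tl P x p = pt p x := rfl

end LowAvgAux

open LowAvgAux in
theorem low_avg {P2 P1 : BMod U} (f : P2 →L[ℂ] P1) (hf : IsHom P2 P1 f)
    {X0 X : Type} [NormedAddCommGroup X0] [NormedSpace ℂ X0] [NormedAddCommGroup X]
    [NormedSpace ℂ X] (i : X0 →L[ℂ] X)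
    (a : PT P2 X →L[ℂ] PT P2 X0) (b : PT P1 X0 →L[ℂ] PT P2 X0)
    (ha : IsHom (tenE P2 X) (tenE P2 X0) a) (hb : IsHom (tenE P1 X0) (tenE P2 X0) b)
    (hab : ∀ z : PT P2 X0, a (ptMap (ContinuousLinearMap.id ℂ P2) i z) +
        b (ptMap f (ContinuousLinearMap.id ℂ X0) z) = z)
    (e0 : ℕ → X0) (c : ℕ → X0 →L[ℂ] ℂ) (hc : ∀ d, c d (e0 d) = 1)
    (he : ∀ (N : ℕ) (ε : ℕ → ℂ), (∀ d, ε d = 1 ∨ ε d = -1) →
      ‖∑ d ∈ Finset.range N, ε d • i (e0 d)‖ ≤ 1)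
    (hcc : ∀ (N : ℕ) (ε : ℕ → ℂ), (∀ d, ε d = 1 ∨ ε d = -1) →
      ∀ y, ‖∑ d ∈ Finset.range N, ε d * c d y‖ ≤ ‖y‖) :
    ∃ v : P1 →L[ℂ] P2, IsHom P1 P2 v ∧ ∀ p, v (f p) = p := by
  classical
  -- the morphisms
  let κ : ℕ → P2 →L[ℂ] P2 := fun d => (slice P2 X0 (c d)).comp (a.comp (tl P2 (i (e0 d))))
  let lam : ℕ → P1 →L[ℂ] P2 := fun d => (slice P2 X0 (c d)).comp (b.comp (tl P1 (e0 d)))
  have hκapp : ∀ d p, κ d p = slice P2 X0 (c d) (a (pt p (i (e0 d)))) := fun d p => rfl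
  have hlapp : ∀ d q, lam d q = slice P2 X0 (c d) (b (pt q (e0 d))) := fun d q => rfl
  have hκh : ∀ d (u : U) p, κ d (P2.act u p) = P2.act u (κ d p) := by
    intro d u p
    rw [hκapp, hκapp, ← slice_hom]
    congr 1
    have := ha u (pt p (i (e0 d)) : PT P2 X)
    rw [tenE_act_pt] at this
    exact this
  have hlh : ∀ d (u : U) q, lam d (P1.act u q) = P2.act u (lam d q) := by
    intro d u q
    rw [hlapp, hlapp, ← slice_hom]
    congr 1
    have := hb u (pt q (e0 d) : PT P1 X0)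
    rw [tenE_act_pt] at this
    exact this
  have hsum : ∀ d p, κ d p + lam d (f p) = p := by
    intro d p
    have h1 := hab (pt p (e0 d))
    rw [ptMap_pt, ptMap_pt] at h1
    have h2 := congrArg (slice P2 X0 (c d)) h1
    rw [map_add, slice_pt, hc, one_smul] at h2
    exact h2
  -- the average
  obtain ⟨N, hN⟩ := exists_nat_gt ‖a‖
  have hNpos : (0 : ℝ) < N := lt_of_le_of_lt (norm_nonneg a) hN
  have hN0 : (N : ℂ) ≠ 0 := by
    have : N ≠ 0 := by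
      rintro rfl
      simp at hNpos
    exact_mod_cast this
  have hbd : ∀ p, ‖∑ d ∈ Finset.range N, κ d p‖ ≤ ‖a‖ * ‖p‖ := by
    intro p
    refine sign_avg (Finset.range N)
      (fun d d' => slice P2 X0 (c d) (a (pt p (i (e0 d'))))) (‖a‖ * ‖p‖) ?_
    intro ε hε
    have e1 : ∑ d ∈ Finset.range N, ∑ d' ∈ Finset.range N,
        (ε d * ε d') • slice P2 X0 (c d) (a (pt p (i (e0 d'))))
        = slice P2 X0 (∑ d ∈ Finset.range N, ε d • c d)
          (a (pt p (∑ d' ∈ Finset.range N, ε d' • i (e0 d')))) := by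
      rw [slice_sum]
      refine Finset.sum_congr rfl fun d _ => ?_
      have e2 : (pt p (∑ d' ∈ Finset.range N, ε d' • i (e0 d')) : PT P2 X)
          = ∑ d' ∈ Finset.range N, ε d' • (pt p (i (e0 d')) : PT P2 X) := by
        rw [← ptL_apply, map_sum]
        simp
      rw [e2, map_sum, map_sum, Finset.smul_sum]
      refine Finset.sum_congr rfl fun d' _ => ?_
      rw [map_smul, map_smul, smul_smul]
    rw [e1]
    refine (norm_slice_le P2 _ 1 zero_le_one (fun y => ?_) _).trans ?_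
    · rw [one_mul]
      have := hcc N ε hε y
      simpa using this
    · rw [one_mul]
      refine (a.le_opNorm _).trans ?_
      gcongr
      refine (norm_pt_le _ _).trans ?_
      calc ‖p‖ * ‖∑ d' ∈ Finset.range N, ε d' • i (e0 d')‖ ≤ ‖p‖ * 1 := by
            gcongr; exact he N ε hε
        _ = ‖p‖ := mul_one _
  let K : P2 →L[ℂ] P2 := (N : ℂ)⁻¹ • ∑ d ∈ Finset.range N, κ d
  let L : P1 →L[ℂ] P2 := (N : ℂ)⁻¹ • ∑ d ∈ Finset.range N, lam d
  have hKapp : ∀ p, K p = (N : ℂ)⁻¹ • ∑ d ∈ Finset.range N, κ d p := by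
    intro p
    simp [K]
  have hLapp : ∀ q, L q = (N : ℂ)⁻¹ • ∑ d ∈ Finset.range N, lam d q := by
    intro q
    simp [L]
  have hKL : ∀ p, K p + L (f p) = p := by
    intro p
    rw [hKapp, hLapp, ← smul_add, ← Finset.sum_add_distrib]
    simp only [hsum, Finset.sum_const, Finset.card_range]
    rw [← Nat.cast_smul_eq_nsmul ℂ, smul_smul, inv_mul_cancel₀ hN0, one_smul]
  have hKh : ∀ (u : U) p, K (P2.act u p) = P2.act u (K p) := by
    intro u p
    rw [hKapp, hKapp, map_smul, map_sum]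
    simp only [hκh]
  have hLh : ∀ (u : U) q, L (P1.act u q) = P2.act u (L q) := by
    intro u q
    rw [hLapp, hLapp, map_smul, map_sum]
    simp only [hlh]
  have hKnorm : ‖K‖ < 1 := by
    have h1 : ‖K‖ ≤ ‖a‖ / N := by
      refine ContinuousLinearMap.opNorm_le_bound _ (by positivity) fun p => ?_
      rw [hKapp, norm_smul, norm_inv, Complex.norm_natCast]
      calc (N : ℝ)⁻¹ * ‖∑ d ∈ Finset.range N, κ d p‖ ≤ (N : ℝ)⁻¹ * (‖a‖ * ‖p‖) := by
            gcongr; exact hbd p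
        _ = ‖a‖ / N * ‖p‖ := by ring
    refine h1.trans_lt ?_
    rw [div_lt_one hNpos]
    exact hN
  -- the inverse
  obtain ⟨w, hw⟩ := isUnit_one_sub_of_norm_lt_one hKnorm
  have hw1 : ∀ p, (w.inv : P2 →L[ℂ] P2) (p - K p) = p := by
    intro p
    have h1 : w.inv * w.val = 1 := w.inv_val
    rw [hw] at h1
    exact DFunLike.congr_fun h1 p
  have hw2 : ∀ p, (w.inv : P2 →L[ℂ] P2) p - K ((w.inv : P2 →L[ℂ] P2) p) = p := by
    intro p
    have h1 : w.val * w.inv = 1 := w.val_inv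
    rw [hw] at h1
    exact DFunLike.congr_fun h1 p
  have hwh : ∀ (u : U) p, (w.inv : P2 →L[ℂ] P2) (P2.act u p)
      = P2.act u ((w.inv : P2 →L[ℂ] P2) p) := by
    intro u p
    have h1 : P2.act u p = P2.act u ((w.inv : P2 →L[ℂ] P2) p)
        - K (P2.act u ((w.inv : P2 →L[ℂ] P2) p)) := by
      rw [hKh, ← map_sub, hw2]
    rw [h1, hw1]
  refine ⟨(w.inv : P2 →L[ℂ] P2).comp L, ?_, ?_⟩
  · intro u q
    change (w.inv : P2 →L[ℂ] P2) (L (P1.act u q)) = P2.act u ((w.inv : P2 →L[ℂ] P2) (L q))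
    rw [hLh, hwh]
  · intro p
    change (w.inv : P2 →L[ℂ] P2) (L (f p)) = p
    have h1 : L (f p) = p - K p := by
      rw [eq_sub_iff_add_eq, add_comm]
      exact hKL p
    rw [h1, hw1]

end Pool.Agent.Lib.BF3
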