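import Mathlib
import Pool.Agent.Lib.BF3.Unit
import Pool.Agent.Lib.BF3.KerSES
import Pool.Agent.Lib.BF3.ProjLift
import Pool.Agent.Lib.BF3.TensSES

/-!
# The complex of length three

`σ : SES P2 P1 (algM A)` with maps `f = σ.j`, `p = σ.p`, `r`, `s`; `D : LowD X0 X`: modules
`X₀ → X` with `A X ⊆ X₀`. The complex is
`0 → P₂⊗X₀ → (P₂⊗X) ⊕ (P₁⊗X₀) → (P₁⊗X) ⊕ (U⊗X₀) → (U⊗X) ⊕ X₀ → X`.

PROOFS. `muhom`: `i (mu (u a) x) = (u a) x = u (a x) = u i (mu a x) = i (u mu a x)`, where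
`(algM A).act u a ∈ A`, `inA ((algM A).act u a) = u * inA a` (`Up.ext_of`), and `i` is injective
(`D.inj` applied to the difference). `isHom_mumap`: elementary tensors (`PT.apply_eq_of`) and
`muhom`.

The maps `lowd0, ..., lowd3` are built from `ptMap` of morphisms (`isHom_ptMap_tenE`; the free
module `freeM U E` has the same action as `tenE (regM U) E`; or check on elementary tensors), from
`isHom_actMap`, `isHom_mumap`; they are morphisms since both components are. (For a fixed `b` all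
identities are identities between bounded linear maps on `PT _ _`; check them on
elementary tensors.)

`lowd0_lowd1`: on `(x ⊗ ξ, 0)`, `x ∈ P₁`, `ξ ∈ X`: `(p x) ξ - i (mu (p x) ξ) = 0` (`imu`); on
`(0, u ⊗ y)`: `u i(y) - i (u y) = 0`.
`lowd1_lowd2`: on `(x ⊗ ξ, 0)`, `x ∈ P₂`: `p (f x) = 0` (`SES.pj`); on `(0, x ⊗ y)`, `x ∈ P₁`,
`y ∈ X₀`: first component `p x ⊗ i y - p x ⊗ i y = 0`, second component
`-mu (p x) (i y) + (p x) y = 0` (`mui`).
`lowd2_lowd3`: on `x ⊗ y`: `(-(f x ⊗ i y) + f x ⊗ i y, -(p (f x)) ⊗ y) = 0`.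
-/

noncomputable section

namespace Pool.Agent.Lib.BF3

variable {A : Type} [NonUnitalNormedCommRing A] [NormedSpace ℂ A] [IsScalarTower ℂ A A]
  [SMulCommClass ℂ A A] [CompleteSpace A]

/-- modules `X₀ → X` (an injective morphism `i`) with `A X ⊆ X₀`: `mu a x = a x` -/
structure LowD (X0 X : BMod (Up A)) where
  i : X0 →L[ℂ] X
  hi : IsHom X0 X i
  inj : ∀ y, i y = 0 → y = 0
  mu : A →L[ℂ] X →L[ℂ] X0
  imu : ∀ a x, i (mu a x) = X.act (inA a) x
  mui : ∀ a y, mu a (i y) = X0.act (inA a) y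

variable {P2 P1 X0 X : BMod (Up A)}

/-- the map `A ⊗̂ X → X₀` -/
def LowD.mumap (D : LowD X0 X) : PT A X →L[ℂ] X0 := lift D.mu

@[simp] theorem LowD.mumap_pt (D : LowD X0 X) (a : A) (x : X) : D.mumap (pt a x) = D.mu a x :=
  lift_pt _ _ _

private theorem inA_algM (u : Up A) (a : A) :
    (inA : A →L[ℂ] Up A) ((algM A).act u (a : A)) = u * inA a := by
  have h : (inA : A →L[ℂ] Up A) ((algM A).act u (a : A))
    = (inA : A →L[ℂ] Up A) (fstU u • a + sndU u * a) := rfl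
  rw [h]
  apply Up.ext_of <;> simp

theorem LowD.muhom (D : LowD X0 X) (u : Up A) (a : A) (x : X) :
    D.mu ((algM A).act u (a : A) : A) x = X0.act u (D.mu a x) := by
  rw [← sub_eq_zero]
  apply D.inj
  rw [map_sub, D.imu, D.hi, D.imu, inA_algM, X.act_mul, sub_self]

theorem LowD.isHom_mumap (D : LowD X0 X) : IsHom (tenE (algM A) X) X0 D.mumap := by
  intro b x
  refine PT.apply_eq_of (f := D.mumap.comp ((tenE (algM A) X).act b)) (g := (X0.act b).comp D.mumap)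
    (fun a y => ?_) x
  change D.mumap ((tenE (algM A) X).act b (pt a y)) = X0.act b (D.mumap (pt a y))
  rw [tenE_act_pt, LowD.mumap_pt]
  exact (LowD.mumap_pt D _ _).trans (D.muhom b a y)

/-- `p ⊗ 1 : P₁ ⊗̂ E → U ⊗̂ E` -/
def pU (σ : SES P2 P1 (algM A)) (E : Type) [NormedAddCommGroup E] [NormedSpace ℂ E] :
    PT P1 E →L[ℂ] PT (Up A) E :=
  ptMap ((inA : A →L[ℂ] Up A).comp σ.p) (ContinuousLinearMap.id ℂ E)

theorem isHom_pU (σ : SES P2 P1 (algM A)) (E : Type) [NormedAddCommGroup E] [NormedSpace ℂ E] :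
    IsHom (tenE P1 E) (freeM (Up A) E) (pU σ E) := by
  intro b x
  refine PT.apply_eq_of (f := (pU σ E).comp ((tenE P1 E).act b))
    (g := ((freeM (Up A) E).act b).comp (pU σ E)) (fun a y => ?_) x
  change pU σ E ((tenE P1 E).act b (pt a y)) = (freeM (Up A) E).act b (pU σ E (pt a y))
  rw [tenE_act_pt, pU, ptMap_pt, ptMap_pt, freeM_act_pt]
  have h1 : (inA : A →L[ℂ] Up A) (σ.p (P1.act b a)) = b * (inA : A →L[ℂ] Up A) (σ.p a) :=
    (congrArg (fun a : A => inA a) (σ.hp b a)).trans (inA_algM b _)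
  exact congrArg (fun u => pt u y) h1

/-- the modules of the complex -/
abbrev M0 (X0 X : BMod (Up A)) : BMod (Up A) := prodM (freeM (Up A) X) X0
abbrev M1 (P1 X0 X : BMod (Up A)) : BMod (Up A) := prodM (tenE P1 X) (freeM (Up A) X0)
abbrev M2 (P2 P1 X0 X : BMod (Up A)) : BMod (Up A) := prodM (tenE P2 X) (tenE P1 X0)
abbrev M3 (P2 X0 : BMod (Up A)) : BMod (Up A) := tenE P2 X0

/-- `(w, y) ↦ m w + i y` -/
def lowd0 (D : LowD X0 X) : M0 X0 X →L[ℂ] X :=
  (actMap X).comp (ContinuousLinearMap.fst ℂ (PT (Up A) X) X0) +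
    D.i.comp (ContinuousLinearMap.snd ℂ (PT (Up A) X) X0)

/-- `(w, z) ↦ ((p ⊗ 1) w + (1 ⊗ i) z, -mu (p ⊗ 1) w - m z)` -/
def lowd1 (σ : SES P2 P1 (algM A)) (D : LowD X0 X) : M1 P1 X0 X →L[ℂ] M0 X0 X :=
  ContinuousLinearMap.prod
    ((pU σ X).comp (ContinuousLinearMap.fst ℂ (PT P1 X) (PT (Up A) X0)) +
      (ptMap (ContinuousLinearMap.id ℂ (Up A)) D.i).comp
        (ContinuousLinearMap.snd ℂ (PT P1 X) (PT (Up A) X0)))
    (-(D.mumap.comp (ptMap (E' := A) σ.p (ContinuousLinearMap.id ℂ X))).comp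
        (ContinuousLinearMap.fst ℂ (PT P1 X) (PT (Up A) X0)) -
      (actMap X0).comp (ContinuousLinearMap.snd ℂ (PT P1 X) (PT (Up A) X0)))

/-- `(v, w) ↦ ((f ⊗ 1) v + (1 ⊗ i) w, -(p ⊗ 1) w)` -/
def lowd2 (σ : SES P2 P1 (algM A)) (D : LowD X0 X) : M2 P2 P1 X0 X →L[ℂ] M1 P1 X0 X :=
  ContinuousLinearMap.prod
    ((ptMap σ.j (ContinuousLinearMap.id ℂ X)).comp
        (ContinuousLinearMap.fst ℂ (PT P2 X) (PT P1 X0)) +
      (ptMap (ContinuousLinearMap.id ℂ P1) D.i).comp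
        (ContinuousLinearMap.snd ℂ (PT P2 X) (PT P1 X0)))
    (-(pU σ X0).comp (ContinuousLinearMap.snd ℂ (PT P2 X) (PT P1 X0)))

/-- `z ↦ (-(1 ⊗ i) z, (f ⊗ 1) z)` -/
def lowd3 (σ : SES P2 P1 (algM A)) (D : LowD X0 X) : M3 P2 X0 →L[ℂ] M2 P2 P1 X0 X :=
  ContinuousLinearMap.prod
    (-ptMap (ContinuousLinearMap.id ℂ P2) D.i)
    (ptMap σ.j (ContinuousLinearMap.id ℂ X0))

private theorem isHom_freeM_map {E F : Type} [NormedAddCommGroup E] [NormedSpace ℂ E]
    [NormedAddCommGroup F] [NormedSpace ℂ F] (g : E →L[ℂ] F) (b : Up A) (z : PT (Up A) E) :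
    ptMap (ContinuousLinearMap.id ℂ (Up A)) g ((freeM (Up A) E).act b z) =
      (freeM (Up A) F).act b (ptMap (ContinuousLinearMap.id ℂ (Up A)) g z) :=
  isHom_freeMap g b z

theorem isHom_lowd0 (D : LowD X0 X) : IsHom (M0 X0 X) X (lowd0 D) := by
  rintro b ⟨w, y⟩
  exact (congrArg₂ (· + ·) (isHom_actMap X b w) (D.hi b y)).trans (map_add _ _ _).symm

theorem isHom_lowd1 (σ : SES P2 P1 (algM A)) (D : LowD X0 X) :
    IsHom (M1 P1 X0 X) (M0 X0 X) (lowd1 σ D) := by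
  rintro b ⟨w, z⟩
  have hpX : ptMap (E' := A) σ.p (ContinuousLinearMap.id ℂ X) ((tenE P1 X).act b w) =
      (tenE (algM A) X).act b (ptMap (E' := A) σ.p (ContinuousLinearMap.id ℂ X) w) :=
    isHom_ptMap_tenE σ.hp (ContinuousLinearMap.id ℂ X) b w
  refine Prod.ext ?_ ?_
  · change pU σ X ((tenE P1 X).act b w) +
      ptMap (ContinuousLinearMap.id ℂ (Up A)) D.i ((freeM (Up A) X0).act b z) =
      (freeM (Up A) X).act b (pU σ X w + ptMap (ContinuousLinearMap.id ℂ (Up A)) D.i z)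
    exact (congrArg₂ (fun q r : PT (Up A) X => q + r) (isHom_pU σ X b w)
      (isHom_freeM_map D.i b z)).trans
      (map_add _ _ _).symm
  · change -(D.mumap (ptMap (E' := A) σ.p (ContinuousLinearMap.id ℂ X) ((tenE P1 X).act b w))) -
      actMap X0 ((freeM (Up A) X0).act b z) =
      X0.act b (-(D.mumap (ptMap (E' := A) σ.p (ContinuousLinearMap.id ℂ X) w)) - actMap X0 z)
    have e1 : D.mumap (ptMap (E' := A) σ.p (ContinuousLinearMap.id ℂ X)
        ((tenE P1 X).act b w)) =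
        X0.act b (D.mumap (ptMap (E' := A) σ.p (ContinuousLinearMap.id ℂ X) w)) :=
      (congrArg (fun q => D.mumap q) hpX).trans (D.isHom_mumap b _)
    refine (congrArg₂ (fun q r => -q - r) e1 (isHom_actMap X0 b z)).trans ?_
    simp only [map_sub, map_neg]
    rfl

theorem isHom_lowd2 (σ : SES P2 P1 (algM A)) (D : LowD X0 X) :
    IsHom (M2 P2 P1 X0 X) (M1 P1 X0 X) (lowd2 σ D) := by
  rintro b ⟨v, w⟩
  refine Prod.ext ?_ ?_
  · change ptMap σ.j (ContinuousLinearMap.id ℂ X) ((tenE P2 X).act b v) +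
      ptMap (ContinuousLinearMap.id ℂ P1) D.i ((tenE P1 X0).act b w) =
      (tenE P1 X).act b (ptMap σ.j (ContinuousLinearMap.id ℂ X) v +
        ptMap (ContinuousLinearMap.id ℂ P1) D.i w)
    have h1 := isHom_ptMap_tenE σ.hj (ContinuousLinearMap.id ℂ X) b v
    have h2 := isHom_ptMap_tenE (isHom_id P1) D.i b w
    refine (congrArg₂ (· + ·) h1 h2).trans (map_add _ _ _).symm
  · change -(pU σ X0 ((tenE P1 X0).act b w)) = (freeM (Up A) X0).act b (-(pU σ X0 w))
    exact (congrArg (fun q => -q) (isHom_pU σ X0 b w)).trans (map_neg _ _).symm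

theorem isHom_lowd3 (σ : SES P2 P1 (algM A)) (D : LowD X0 X) :
    IsHom (M3 P2 X0) (M2 P2 P1 X0 X) (lowd3 σ D) := by
  intro b z
  refine Prod.ext ?_ ?_
  · change -(ptMap (ContinuousLinearMap.id ℂ P2) D.i ((tenE P2 X0).act b z)) =
      (tenE P2 X).act b (-(ptMap (ContinuousLinearMap.id ℂ P2) D.i z))
    have h2 := isHom_ptMap_tenE (isHom_id P2) D.i b z
    exact (congrArg (fun q => -q) h2).trans (map_neg _ _).symm
  · exact isHom_ptMap_tenE σ.hj (ContinuousLinearMap.id ℂ X0) b z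

theorem lowd0_lowd1 (σ : SES P2 P1 (algM A)) (D : LowD X0 X) (w : M1 P1 X0 X) :
    lowd0 D (lowd1 σ D w) = 0 := by
  obtain ⟨w, z⟩ := w
  have h1 : actMap X (pU σ X w) =
      D.i (D.mumap (ptMap (E' := A) σ.p (ContinuousLinearMap.id ℂ X) w)) := by
    refine PT.apply_eq_of (f := (actMap X).comp (pU σ X)) (g := D.i.comp (D.mumap.comp
      (ptMap (E' := A) σ.p (ContinuousLinearMap.id ℂ X)))) (fun a y => ?_) w
    simp only [ContinuousLinearMap.comp_apply, pU, ptMap_pt, actMap_pt,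
      ContinuousLinearMap.id_apply, LowD.mumap_pt, D.imu]
  have h2 : actMap X (ptMap (ContinuousLinearMap.id ℂ (Up A)) D.i z) = D.i (actMap X0 z) := by
    refine PT.apply_eq_of (f := (actMap X).comp (ptMap (ContinuousLinearMap.id ℂ (Up A)) D.i))
      (g := D.i.comp (actMap X0)) (fun a y => ?_) z
    simp only [ContinuousLinearMap.comp_apply, ptMap_pt, actMap_pt,
      ContinuousLinearMap.id_apply, D.hi a y]
  change actMap X (pU σ X w + ptMap (ContinuousLinearMap.id ℂ (Up A)) D.i z) +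
    D.i (-(D.mumap (ptMap (E' := A) σ.p (ContinuousLinearMap.id ℂ X) w)) - actMap X0 z) = 0
  rw [map_add, h1, h2, map_sub, map_neg]
  abel

theorem lowd1_lowd2 (σ : SES P2 P1 (algM A)) (D : LowD X0 X) (w : M2 P2 P1 X0 X) :
    lowd1 σ D (lowd2 σ D w) = 0 := by
  obtain ⟨v, w⟩ := w
  have h1 : pU σ X (ptMap σ.j (ContinuousLinearMap.id ℂ X) v) = 0 := by
    refine PT.apply_eq_of (f := (pU σ X).comp (ptMap σ.j (ContinuousLinearMap.id ℂ X)))
      (g := 0) (fun a y => ?_) v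
    have : (σ.p (σ.j a) : A) = 0 := σ.pj a
    simp only [ContinuousLinearMap.comp_apply, pU, ptMap_pt]
    exact (congrArg (fun q : A => pt (inA q) y) this).trans
      ((congrArg (fun q => pt q y) (map_zero (inA : A →L[ℂ] Up A))).trans (pt_zero_left y))
  have h2 : pU σ X (ptMap (ContinuousLinearMap.id ℂ P1) D.i w) =
      ptMap (ContinuousLinearMap.id ℂ (Up A)) D.i (pU σ X0 w) := by
    refine PT.apply_eq_of (f := (pU σ X).comp (ptMap (ContinuousLinearMap.id ℂ P1) D.i))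
      (g := (ptMap (ContinuousLinearMap.id ℂ (Up A)) D.i).comp (pU σ X0)) (fun a y => ?_) w
    simp only [ContinuousLinearMap.comp_apply, pU, ptMap_pt, ContinuousLinearMap.id_apply]
  have h3 : (ptMap (E' := A) σ.p (ContinuousLinearMap.id ℂ X)
      (ptMap σ.j (ContinuousLinearMap.id ℂ X) v)) = 0 := by
    refine PT.apply_eq_of (f := (ptMap (E' := A) σ.p (ContinuousLinearMap.id ℂ X)).comp
      (ptMap σ.j (ContinuousLinearMap.id ℂ X)))
      (g := 0) (fun a y => ?_) v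
    have : (σ.p (σ.j a) : A) = 0 := σ.pj a
    simp only [ContinuousLinearMap.comp_apply, ptMap_pt]
    exact (congrArg (fun q : A => pt q y) this).trans (pt_zero_left y)
  have h4 : D.mumap (ptMap (E' := A) σ.p (ContinuousLinearMap.id ℂ X)
      (ptMap (ContinuousLinearMap.id ℂ P1) D.i w)) = actMap X0 (pU σ X0 w) := by
    refine PT.apply_eq_of (f := D.mumap.comp ((ptMap (E' := A) σ.p
      (ContinuousLinearMap.id ℂ X)).comp (ptMap (ContinuousLinearMap.id ℂ P1) D.i)))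
      (g := (actMap X0).comp (pU σ X0)) (fun a y => ?_) w
    simp only [ContinuousLinearMap.comp_apply, pU, ptMap_pt, ContinuousLinearMap.id_apply,
      LowD.mumap_pt, D.mui, actMap_pt]
  refine Prod.ext ?_ ?_
  · change pU σ X (ptMap σ.j (ContinuousLinearMap.id ℂ X) v +
      ptMap (ContinuousLinearMap.id ℂ P1) D.i w) +
      ptMap (ContinuousLinearMap.id ℂ (Up A)) D.i (-(pU σ X0 w)) = 0
    rw [map_add, h1, h2, map_neg]
    abel
  · change -(D.mumap (ptMap (E' := A) σ.p (ContinuousLinearMap.id ℂ X)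
      (ptMap σ.j (ContinuousLinearMap.id ℂ X) v +
      ptMap (ContinuousLinearMap.id ℂ P1) D.i w))) - actMap X0 (-(pU σ X0 w)) = 0
    rw [map_add, h3, map_neg, map_add, map_zero, h4]
    abel

theorem lowd2_lowd3 (σ : SES P2 P1 (algM A)) (D : LowD X0 X) (w : M3 P2 X0) :
    lowd2 σ D (lowd3 σ D w) = 0 := by
  have h1 : pU σ X0 (ptMap σ.j (ContinuousLinearMap.id ℂ X0) w) = 0 := by
    refine PT.apply_eq_of (f := (pU σ X0).comp (ptMap σ.j (ContinuousLinearMap.id ℂ X0)))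
      (g := 0) (fun a y => ?_) w
    have : (σ.p (σ.j a) : A) = 0 := σ.pj a
    simp only [ContinuousLinearMap.comp_apply, pU, ptMap_pt]
    exact (congrArg (fun q : A => pt (inA q) y) this).trans
      ((congrArg (fun q => pt q y) (map_zero (inA : A →L[ℂ] Up A))).trans (pt_zero_left y))
  have h2 : ptMap σ.j (ContinuousLinearMap.id ℂ X) (ptMap (ContinuousLinearMap.id ℂ P2) D.i w) =
      ptMap (ContinuousLinearMap.id ℂ P1) D.i (ptMap σ.j (ContinuousLinearMap.id ℂ X0) w) := by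
    refine PT.apply_eq_of (f := (ptMap σ.j (ContinuousLinearMap.id ℂ X)).comp
      (ptMap (ContinuousLinearMap.id ℂ P2) D.i))
      (g := (ptMap (ContinuousLinearMap.id ℂ P1) D.i).comp
        (ptMap σ.j (ContinuousLinearMap.id ℂ X0))) (fun a y => ?_) w
    simp only [ContinuousLinearMap.comp_apply, ptMap_pt, ContinuousLinearMap.id_apply]
  refine Prod.ext ?_ ?_
  · change ptMap σ.j (ContinuousLinearMap.id ℂ X)
      (-(ptMap (ContinuousLinearMap.id ℂ P2) D.i w)) +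
      ptMap (ContinuousLinearMap.id ℂ P1) D.i (ptMap σ.j (ContinuousLinearMap.id ℂ X0) w) = 0
    rw [map_neg, h2]
    abel
  · change -(pU σ X0 (ptMap σ.j (ContinuousLinearMap.id ℂ X0) w)) = 0
    rw [h1, neg_zero]

end Pool.Agent.Lib.BF3
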