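import Mathlib
import Pool.Agent.Lib.BF3.Mods
import Pool.Agent.Lib.BF3.Coord
import Pool.Agent.Lib.BF3.LowDefs
import Pool.Agent.Lib.BF3.ProjDiag

/-!
# The module `X = c₀(ℕ)` and its submodule `X₀ = ℓ¹(ℕ)`

`tt n` is the atom `(([n], const []), 0)`; the `tt n` have distinct first components, and
`col (tt n) = [n, 0]`. `X = Atom (full ℕ)`, `X₀ = Atom (pts ℕ)`, where `u` acts on `δ_n` by its value
at the atom `tt n`.

PROOFS. `projective_X0M`: `projective_diagM` with `L = pts ℕ`, `q = tt`. (A face of `pts ℕ` is a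
subset of a singleton.)

`lowData`: `i = alift (pts ℕ) (fun n => δ (full ℕ) n)` (bounded by `1`); a morphism
(`isHom_of_in`, `diagAct_δ`); injective: `coord (full ℕ) n (i y) = coord (pts ℕ) n y`, so `i y = 0`
implies `y = 0` by `coord_sep`. `mu = aliftA₂ (full ℕ) (fun s n => val s (inl (tt n)) • δ (pts ℕ) n)`.
It is bounded by `1`: for a generator `g` of `SG F1` and any `h` with `|h n| ≤ 1` the double sum is
`∑_n h n γ_n δ_n`, `γ_n = ∑_s g s val s (inl (tt n))` (the value of `g` at the atom `tt n`),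
`|γ_n| ≤ 1`, and `γ_n ≠ 0` for at most one `n`: if the support of `g` is `inl F` with `F` a face of
`F1`, then `γ_n = g (inl (tt n))`, and for `tt n, tt n' ∈ F` either the first components agree or
`col (tt n) = col (tt n')`; in both cases `n = n'`; if `g = c • single (inr x)` then `γ_n ≠ 0`
implies `(tt n).1 = x`. So the vector is `c • δ_n` with `|c| ≤ 1`, or `0`. The identities `imu`,
`mui` are checked on the basis (`AA.apply_eq_of`, `Atom.apply_eq_of`; `ofA_act_in`).

`lowe`: `∑_{d<N} ε_d i (δ_d) = aι (full ℕ) (..)`, a generator. `lowc`: `atomSeminorm_le`-type bound: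
the functional `∑_{d<N} ε_d coord_d` has modulus at most `1` on the generators of `pts ℕ`
(multiples `c • single n`), e.g. `norm_alift_le` for `z n = if n < N then ε n else 0` and
`Atom.apply_eq_of`, or `∑_{d<N} ‖coord_d y‖ ≤ ‖y‖` by `atomSeminorm_le`.
-/

noncomputable section

namespace Pool.Agent.Lib.BF3

/-- the atom `(([n], const []), 0)` -/
def tt (n : ℕ) : Ts := (([n], fun _ => []), 0)

/-- the module `c₀(ℕ)` -/
def XM : BMod UU := diagM (full ℕ) (fun n => Sum.inl (tt n))

/-- the module `ℓ¹(ℕ)` -/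
def X0M : BMod UU := diagM (pts ℕ) (fun n => Sum.inl (tt n))

theorem projective_X0M : Projective X0M := by
  classical
  refine projective_diagM (pts ℕ) tt ?_ ?_
  · intro F hF y hy y' hy' _
    exact hF y hy y' hy'
  · intro F hF
    refine ⟨F.image tt, Or.inl ?_, fun y hy => Finset.mem_image_of_mem _ hy⟩
    intro t ht t' ht'
    obtain ⟨y, hy, rfl⟩ := Finset.mem_image.1 ht
    obtain ⟨y', hy', rfl⟩ := Finset.mem_image.1 ht'
    rw [hF y hy y' hy']

private theorem tt_inj1 {n n' : ℕ} (h : (tt n).1 = (tt n').1) : n = n' := by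
  have h1 : ([n] : List ℕ) = [n'] := congrArg Prod.fst h
  simpa using h1

private theorem tt_inj {n n' : ℕ} (h : tt n = tt n') : n = n' := tt_inj1 (congrArg Prod.fst h)

private theorem tt_col {n n' : ℕ} (h : col (tt n) = col (tt n')) : n = n' := by
  simpa [col, tt] using h

private theorem val_norm_le (s p : SA) : ‖val s p‖ ≤ 1 := by
  rcases s with t | x <;> rcases p with t' | x' <;> simp only [val] <;> try split_ifs <;> simp
  all_goals simp

private theorem val_ne {F : Finset SA} (hF : F ∈ (SG F1).faces) (p : SA) :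
    ∀ s ∈ F, ∀ s' ∈ F, val s p ≠ 0 → val s' p ≠ 0 → s = s' := by
  intro s hs s' hs' h h'
  rcases hF with ⟨G, hG, hFG⟩ | ⟨G, hG, hFG⟩
  · obtain ⟨t, ht, rfl⟩ := Finset.mem_map.1 (hFG hs)
    obtain ⟨t', ht', rfl⟩ := Finset.mem_map.1 (hFG hs')
    rcases p with t'' | x
    · simp only [val, Function.Embedding.inl_apply, ne_eq, ite_eq_right_iff, one_ne_zero, imp_false,
        not_not] at h h'
      rw [h, h']
    · simp [val] at h
  · obtain ⟨x, hx, rfl⟩ := Finset.mem_map.1 (hFG hs)
    obtain ⟨x', hx', rfl⟩ := Finset.mem_map.1 (hFG hs')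
    rw [hG x hx x' hx']

private theorem exists_n0 {F : Finset SA} (hF : F ∈ (SG F1).faces) :
    ∃ n0 : ℕ, ∀ s ∈ F, ∀ n, val s (Sum.inl (tt n)) ≠ 0 → n = n0 := by
  by_cases hex : ∃ n0, ∃ s ∈ F, val s (Sum.inl (tt n0)) ≠ 0
  · obtain ⟨n0, s0, hs0, h0⟩ := hex
    refine ⟨n0, fun s hs n hn => ?_⟩
    rcases hF with ⟨G, hG, hFG⟩ | ⟨G, hG, hFG⟩
    · obtain ⟨t, ht, rfl⟩ := Finset.mem_map.1 (hFG hs)
      obtain ⟨t0, ht0, rfl⟩ := Finset.mem_map.1 (hFG hs0)
      simp only [val, Function.Embedding.inl_apply, ne_eq, ite_eq_right_iff, one_ne_zero, imp_false,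
        not_not] at hn h0
      subst hn h0
      rcases hG with hG | hG
      · exact tt_inj1 (hG _ ht _ ht0)
      · exact tt_col (hG _ ht _ ht0).1
    · obtain ⟨x, hx, rfl⟩ := Finset.mem_map.1 (hFG hs)
      obtain ⟨x0, hx0, rfl⟩ := Finset.mem_map.1 (hFG hs0)
      simp only [val, Function.Embedding.inr_apply, ne_eq, ite_eq_right_iff, one_ne_zero, imp_false,
        not_not] at hn h0
      apply tt_inj1
      rw [hn, h0, hG x hx x0 hx0]
  · push Not at hex
    exact ⟨0, fun s hs n hn => absurd (hex n s hs) hn⟩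

private theorem bdd_mu : Bdd₂ (SG F1) (full ℕ)
    (fun s n => val s (Sum.inl (tt n)) • δ (pts ℕ) n) 1 := by
  refine ⟨zero_le_one, fun g hg h hh => ?_⟩
  obtain ⟨n0, hn0⟩ := exists_n0 hg.1
  have e : (g.sum fun s c => h.sum fun n d =>
      (c * d) • (val s (Sum.inl (tt n)) • δ (pts ℕ) n)) =
      ((∑ s ∈ g.support, g s * val s (Sum.inl (tt n0))) * h n0) • δ (pts ℕ) n0 := by
    rw [Finset.sum_mul, Finset.sum_smul, Finsupp.sum]
    refine Finset.sum_congr rfl fun s hs => ?_
    rw [Finsupp.sum, Finset.sum_eq_single n0]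
    · rw [smul_smul]
      congr 1
      ring
    · intro n _ hn
      have : val s (Sum.inl (tt n)) = 0 := by
        by_contra h0
        exact hn (hn0 s hs n h0)
      rw [this, zero_smul, smul_zero]
    · intro hn
      rw [Finsupp.notMem_support_iff.1 hn, mul_zero, zero_smul]
  have h1 : ‖∑ s ∈ g.support, g s * val s (Sum.inl (tt n0))‖ ≤ 1 := by
    by_cases hex : ∃ s ∈ g.support, val s (Sum.inl (tt n0)) ≠ 0
    · obtain ⟨s0, hs0, h0⟩ := hex
      rw [Finset.sum_eq_single_of_mem s0 hs0]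
      · rw [norm_mul]
        exact mul_le_one₀ (hg.2 s0) (norm_nonneg _) (val_norm_le _ _)
      · intro s hs hne
        have : val s (Sum.inl (tt n0)) = 0 := by
          by_contra h2
          exact hne (val_ne hg.1 _ s hs s0 hs0 h2 h0)
        rw [this, mul_zero]
    · push Not at hex
      rw [Finset.sum_eq_zero fun s hs => by rw [hex s hs, mul_zero]]
      simp
  rw [e, norm_smul, norm_mul]
  refine mul_le_one₀ (mul_le_one₀ h1 (norm_nonneg _) (hh.2 n0)) (norm_nonneg _) (norm_δ_le _ _)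

private theorem bdd_i : Bdd (pts ℕ) (fun n => δ (full ℕ) n) 1 := by
  refine ⟨zero_le_one, fun g hg => ?_⟩
  rw [← aι_eq_sum]
  exact norm_aι_le_one ⟨trivial, hg.2⟩

private def iX : Atom (pts ℕ) →L[ℂ] Atom (full ℕ) := alift (pts ℕ) (fun n => δ (full ℕ) n)

private theorem iX_δ (n : ℕ) : iX (δ (pts ℕ) n) = δ (full ℕ) n := alift_δ bdd_i n

private def muX : AA →L[ℂ] Atom (full ℕ) →L[ℂ] Atom (pts ℕ) :=
  aliftA₂ (full ℕ) (fun s n => val s (Sum.inl (tt n)) • δ (pts ℕ) n)

private theorem muX_δ (s : SA) (n : ℕ) : muX (bA s) (δ (full ℕ) n) =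
    val s (Sum.inl (tt n)) • δ (pts ℕ) n :=
  aliftA₂_δ bdd_mu s n

private theorem iX_hom (a : AA) (x : Atom (pts ℕ)) :
    iX (diagAct (pts ℕ) (fun n => Sum.inl (tt n)) a x) =
      diagAct (full ℕ) (fun n => Sum.inl (tt n)) a (iX x) := by
  have key : (((ContinuousLinearMap.compL ℂ (Atom (pts ℕ)) (Atom (pts ℕ)) (Atom (full ℕ))) iX).comp
      (diagAct (pts ℕ) (fun n => Sum.inl (tt n)))) =
      (((ContinuousLinearMap.compL ℂ (Atom (pts ℕ)) (Atom (full ℕ)) (Atom (full ℕ))).flip iX).comp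
      (diagAct (full ℕ) (fun n => Sum.inl (tt n)))) := by
    refine AA.ext₂_of fun s y => ?_
    simp only [ContinuousLinearMap.comp_apply, ContinuousLinearMap.compL_apply,
      ContinuousLinearMap.flip_apply]
    rw [iX_δ, diagAct_δ, diagAct_δ, map_smul, iX_δ]
  exact congrArg (fun T : AA →L[ℂ] Atom (pts ℕ) →L[ℂ] Atom (full ℕ) => T a x) key

private theorem imuX (a : AA) (x : Atom (full ℕ)) :
    iX (muX a x) = diagAct (full ℕ) (fun n => Sum.inl (tt n)) a x := by
  have key : (((ContinuousLinearMap.compL ℂ (Atom (full ℕ)) (Atom (pts ℕ)) (Atom (full ℕ))) iX).comp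
      muX) = (diagAct (full ℕ) (fun n => Sum.inl (tt n))) := by
    refine AA.ext₂_of fun s y => ?_
    simp only [ContinuousLinearMap.comp_apply, ContinuousLinearMap.compL_apply]
    rw [muX_δ, diagAct_δ, map_smul, iX_δ]
  exact congrArg (fun T : AA →L[ℂ] Atom (full ℕ) →L[ℂ] Atom (full ℕ) => T a x) key

private theorem muiX (a : AA) (y : Atom (pts ℕ)) :
    muX a (iX y) = diagAct (pts ℕ) (fun n => Sum.inl (tt n)) a y := by
  have key : (((ContinuousLinearMap.compL ℂ (Atom (pts ℕ)) (Atom (full ℕ)) (Atom (pts ℕ))).flip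
      iX).comp muX) = (diagAct (pts ℕ) (fun n => Sum.inl (tt n))) := by
    refine AA.ext₂_of fun s y => ?_
    simp only [ContinuousLinearMap.comp_apply, ContinuousLinearMap.compL_apply,
      ContinuousLinearMap.flip_apply]
    rw [iX_δ, muX_δ, diagAct_δ]
  exact congrArg (fun T : AA →L[ℂ] Atom (pts ℕ) →L[ℂ] Atom (pts ℕ) => T a y) key

private theorem iX_inj (y : Atom (pts ℕ)) (h : iX y = 0) : y = 0 := by
  refine coord_sep (K := pts ℕ) (a := y) fun n => ?_
  have e : coord (full ℕ) n (iX y) = coord (pts ℕ) n y :=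
    Atom.apply_eq_of (f := (coord (full ℕ) n).comp iX) (g := coord (pts ℕ) n) (fun m => by
      rw [ContinuousLinearMap.comp_apply, iX_δ, coord_δ, coord_δ]) y
  rw [← e, h, map_zero]

private def lowDX : LowD X0M XM where
  i := iX
  hi := isHom_of_in (X := X0M) (Y := XM) iX fun a x => by
    have h1 := iX_hom a x
    exact (congrArg iX (ofA_act_in (diagAct (pts ℕ) (fun n => Sum.inl (tt n)))
      (diagAct_mul (pts ℕ) (fun n => Sum.inl (tt n))) a x)).trans (h1.trans
      (ofA_act_in (diagAct (full ℕ) (fun n => Sum.inl (tt n)))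
      (diagAct_mul (full ℕ) (fun n => Sum.inl (tt n))) a (iX x)).symm)
  inj := iX_inj
  mu := muX
  imu := fun a x => (imuX a x).trans (ofA_act_in (diagAct (full ℕ) (fun n => Sum.inl (tt n)))
      (diagAct_mul (full ℕ) (fun n => Sum.inl (tt n))) a x).symm
  mui := fun a y => (muiX a y).trans (ofA_act_in (diagAct (pts ℕ) (fun n => Sum.inl (tt n)))
      (diagAct_mul (pts ℕ) (fun n => Sum.inl (tt n))) a y).symm

private theorem sum_iX (N : ℕ) (ε : ℕ → ℂ) :
    (∑ d ∈ Finset.range N, ε d • iX (δ (pts ℕ) d)) =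
      aι (full ℕ) (∑ d ∈ Finset.range N, Finsupp.single d (ε d)) := by
  rw [map_sum]
  refine Finset.sum_congr rfl fun d _ => ?_
  rw [aι_eq_sum, iX_δ]
  exact (Finsupp.sum_single_index (h := fun s c => c • δ (full ℕ) s) (zero_smul _ _)).symm

theorem lowData : ∃ D : LowD X0M XM,
    (∀ (N : ℕ) (ε : ℕ → ℂ), (∀ d, ε d = 1 ∨ ε d = -1) →
      ‖∑ d ∈ Finset.range N, ε d • D.i (δ (pts ℕ) d : Atom (pts ℕ))‖ ≤ 1) := by
  classical
  refine ⟨lowDX, fun N ε hε => ?_⟩
  refine le_trans (le_of_eq (congrArg (fun z : Atom (full ℕ) => ‖z‖) (sum_iX N ε))) ?_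
  refine norm_aι_le_one ⟨trivial, fun s => ?_⟩
  rw [Finsupp.finsetSum_apply]
  by_cases hs : s ∈ Finset.range N
  · rw [Finset.sum_eq_single_of_mem s hs]
    · rw [Finsupp.single_eq_same]
      rcases hε s with h | h <;> rw [h] <;> simp
    · intro d _ hd
      exact Finsupp.single_eq_of_ne' hd
  · rw [Finset.sum_eq_zero]
    · simp
    · intro d hd
      refine Finsupp.single_eq_of_ne' ?_
      rintro rfl
      exact hs hd

theorem lowc (N : ℕ) (ε : ℕ → ℂ) (hε : ∀ d, ε d = 1 ∨ ε d = -1) (y : Atom (pts ℕ)) :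
    ‖∑ d ∈ Finset.range N, ε d * coord (pts ℕ) d y‖ ≤ ‖y‖ := by
  classical
  have hb : Bdd (pts ℕ) (fun n => if n < N then ε n else 0) 1 := by
    refine ⟨zero_le_one, fun g hg => ?_⟩
    by_cases hex : ∃ s, s ∈ g.support
    · obtain ⟨s, hs⟩ := hex
      rw [Finsupp.sum, Finset.sum_eq_single_of_mem s hs]
      · rw [norm_smul]
        refine mul_le_one₀ (hg.2 s) (norm_nonneg _) ?_
        dsimp only
        split_ifs
        · rcases hε s with h | h <;> rw [h] <;> simp
        · simp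
      · intro s' hs' hne
        exact absurd (hg.1 s' hs' s hs) hne
    · push Not at hex
      rw [Finsupp.sum, Finset.sum_eq_zero fun s hs => absurd hs (hex s)]
      simp
  have e : (∑ d ∈ Finset.range N, ε d * coord (pts ℕ) d y) =
      alift (pts ℕ) (fun n => if n < N then ε n else 0) y := by
    have := Atom.apply_eq_of (f := ∑ d ∈ Finset.range N, ε d • coord (pts ℕ) d)
      (g := alift (pts ℕ) (fun n => if n < N then ε n else 0)) (fun m => by
        rw [alift_δ hb, sum_apply]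
        simp only [smul_apply, coord_δ, smul_eq_mul, mul_ite, mul_one, mul_zero]
        rw [Finset.sum_ite_eq]
        simp) y
    rw [← this, sum_apply]
    simp
  rw [e]
  have := norm_alift_le hb y
  rwa [one_mul] at this

end Pool.Agent.Lib.BF3
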