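import Mathlib
import Pool.Agent.Lib.BF3.LowDefs

/-!
# Exactness of the complex of length three

Notation as in `LowDefs`: `f = σ.j`, `p = σ.p`, `r = σ.r`, `s = σ.s`; `ι = inA : A → U`. For
`w ∈ U ⊗ E` write `w_A = (snd ⊗ 1) w ∈ A ⊗ E` (`ptMap sndU id`) and `w_1 ∈ E` for the image of `w`
under `u ⊗ e ↦ fstU u • e`; then `w = (ι ⊗ 1) w_A + 1 ⊗ w_1` (elementary tensors, `Up.decomp`).
`K1 = ker d0`, `K2 = ker (d1 : M1 → K1)`.

PROOF of `low_ses1` (`exists_ses_ker` for `d1' : M1 → K1`; a section is needed): for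
`(w, y) ∈ ker d0`, `m w + i y = 0`, put `ℓ (w, y) = ((s ⊗ 1) w_A, -1 ⊗ (mu w_A + y))`. Then
`d1 (ℓ (w, y)) = (w_A - 1 ⊗ i (mu w_A + y), -mu w_A + (mu w_A + y))` and the second component is
`y`; for the first: `m w = i (mu w_A) + w_1` (elementary tensors: `u ξ = (inA (sndU u)) ξ +
fstU u • ξ`, `imu`), so `w_1 = -i (mu w_A + y)`.

PROOF of `low_ses2` (`exists_ses` with `j = lowd3` with values in `M2`, `p = lowd2` with values in
`K2`). Section `K2 → M2`: `(w, z) ↦ ((r ⊗ 1) w, -(s ⊗ 1) z_A)`. For `(w, z) ∈ K2`: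
`(p ⊗ 1) w + (1 ⊗ i) z = 0` in `U ⊗ X`; applying `u ⊗ e ↦ fstU u • e` gives `i (z_1) = 0`, so
`z_1 = 0`, `z = (ι ⊗ 1) z_A`; applying `snd ⊗ 1`: `(p ⊗ 1) w = -(1 ⊗ i) z_A` in `A ⊗ X`. Hence
`(f r ⊗ 1) w = w - (s p ⊗ 1) w = w + (s ⊗ i) z_A`, and
`d2 ((r ⊗ 1) w, -(s ⊗ 1) z_A) = ((f r ⊗ 1) w - (s ⊗ i) z_A, (ι p s ⊗ 1) z_A) = (w, z)`.
Retraction `M2 → M3`: `(v, w) ↦ (r ⊗ 1) w`; `r f = 1` gives `r (d3 z) = z`. If `d2 (v, w) = 0`:
`(ι p ⊗ 1) w = 0`, so `(p ⊗ 1) w = 0` (apply `snd ⊗ 1`), `(f r ⊗ 1) w = w`, and from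
`(f ⊗ 1) v = -(1 ⊗ i) w`: `v = (r f ⊗ 1) v = -(1 ⊗ i)((r ⊗ 1) w)`. So `d3 ((r ⊗ 1) w) = (v, w)`.
-/

noncomputable section

namespace Pool.Agent.Lib.BF3

variable {A : Type} [NonUnitalNormedCommRing A] [NormedSpace ℂ A] [IsScalarTower ℂ A A]
  [SMulCommClass ℂ A A] [CompleteSpace A] {P2 P1 X0 X : BMod (Up A)}

/-- the kernel of `d0` -/
abbrev LK1 (D : LowD X0 X) : BMod (Up A) := kerM (lowd0 D) (isHom_lowd0 D)

/-- `d1` with values in the kernel of `d0` -/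
def lowe1 (σ : SES P2 P1 (algM A)) (D : LowD X0 X) : M1 P1 X0 X →L[ℂ] LK1 D :=
  kerLift (lowd0 D) (isHom_lowd0 D) (lowd1 σ D) (lowd0_lowd1 σ D)

theorem isHom_lowe1 (σ : SES P2 P1 (algM A)) (D : LowD X0 X) :
    IsHom (M1 P1 X0 X) (LK1 D) (lowe1 σ D) := fun b x =>
  Subtype.ext (isHom_lowd1 σ D b x)

/-- the kernel of `d1` -/
abbrev LK2 (σ : SES P2 P1 (algM A)) (D : LowD X0 X) : BMod (Up A) :=
  kerM (lowe1 σ D) (isHom_lowe1 σ D)
namespace LowSesAux

/-- `(snd ⊗ 1) : U ⊗̂ E → A ⊗̂ E` -/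
def spt (A : Type) [NonUnitalNormedCommRing A] [NormedSpace ℂ A] [IsScalarTower ℂ A A]
    [SMulCommClass ℂ A A] (E : Type) [NormedAddCommGroup E] [NormedSpace ℂ E] :
    PT (Up A) E →L[ℂ] PT A E :=
  ptMap sndU (ContinuousLinearMap.id ℂ E)

/-- `u ⊗ e ↦ fstU u • e` -/
def fpt (A : Type) [NonUnitalNormedCommRing A] [NormedSpace ℂ A] [IsScalarTower ℂ A A]
    [SMulCommClass ℂ A A] (E : Type) [NormedAddCommGroup E] [NormedSpace ℂ E] [CompleteSpace E] :
    PT (Up A) E →L[ℂ] E :=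
  lift (fstU.smulRight (ContinuousLinearMap.id ℂ E))

@[simp] theorem spt_pt (E : Type) [NormedAddCommGroup E] [NormedSpace ℂ E] (u : Up A) (e : E) :
    spt A E (pt u e) = pt (sndU u) e := by
  simp [spt]

@[simp] theorem fpt_pt (E : Type) [NormedAddCommGroup E] [NormedSpace ℂ E] [CompleteSpace E]
    (u : Up A) (e : E) : fpt A E (pt u e) = fstU u • e := by
  simp [fpt]

theorem decomp (E : Type) [NormedAddCommGroup E] [NormedSpace ℂ E] [CompleteSpace E]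
    (w : PT (Up A) E) :
    ptMap (inA : A →L[ℂ] Up A) (ContinuousLinearMap.id ℂ E) (spt A E w) + pt 1 (fpt A E w) = w := by
  refine PT.apply_eq_of
    (f := (ptMap (inA : A →L[ℂ] Up A) (ContinuousLinearMap.id ℂ E)).comp (spt A E) +
      (ptL (Up A) E 1).comp (fpt A E))
    (g := ContinuousLinearMap.id ℂ _) (fun u e => ?_) w
  simp only [add_apply, ContinuousLinearMap.comp_apply, spt_pt, fpt_pt, ptMap_pt,
    ContinuousLinearMap.id_apply, ptL_apply, pt_smul_right]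
  rw [← pt_smul_left, ← pt_add_left, add_comm, ← Up.decomp]

/-- `m w = i (mu w_A) + w_1` -/
theorem act_decomp (D : LowD X0 X) (w : PT (Up A) X) :
    actMap X w = D.i (D.mumap (spt A X w)) + fpt A X w := by
  refine PT.apply_eq_of (f := actMap X)
    (g := D.i.comp (D.mumap.comp (spt A X)) + fpt A X) (fun u e => ?_) w
  simp only [add_apply, ContinuousLinearMap.comp_apply, spt_pt, fpt_pt, actMap_pt,
    LowD.mumap_pt, D.imu]
  conv_lhs => rw [Up.decomp u]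
  rw [map_add, map_smul, add_apply, smul_apply, X.act_one, add_comm]

theorem pU_s (σ : SES P2 P1 (algM A)) (E : Type) [NormedAddCommGroup E] [NormedSpace ℂ E]
    (w : PT A E) : pU σ E (ptMap (E := A) σ.s (ContinuousLinearMap.id ℂ E) w) =
      ptMap (inA : A →L[ℂ] Up A) (ContinuousLinearMap.id ℂ E) w := by
  refine PT.apply_eq_of (f := (pU σ E).comp (ptMap (E := A) σ.s (ContinuousLinearMap.id ℂ E)))
    (g := ptMap (inA : A →L[ℂ] Up A) (ContinuousLinearMap.id ℂ E)) (fun a e => ?_) w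
  simp only [ContinuousLinearMap.comp_apply, pU, ptMap_pt, ContinuousLinearMap.id_apply]
  exact congrArg (fun a : A => pt (inA a) e) (σ.ps a)

theorem p_s (σ : SES P2 P1 (algM A)) (E : Type) [NormedAddCommGroup E] [NormedSpace ℂ E]
    (w : PT A E) : ptMap (E' := A) σ.p (ContinuousLinearMap.id ℂ E)
      (ptMap (E := A) σ.s (ContinuousLinearMap.id ℂ E) w) = w := by
  refine PT.apply_eq_of (f := (ptMap (E' := A) σ.p (ContinuousLinearMap.id ℂ E)).comp
    (ptMap (E := A) σ.s (ContinuousLinearMap.id ℂ E)))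
    (g := ContinuousLinearMap.id ℂ _) (fun a e => ?_) w
  simp only [ContinuousLinearMap.comp_apply, ptMap_pt, ContinuousLinearMap.id_apply]
  exact congrArg (fun a : A => pt a e) (σ.ps a)

theorem spt_pU (σ : SES P2 P1 (algM A)) (E : Type) [NormedAddCommGroup E] [NormedSpace ℂ E]
    (w : PT P1 E) : spt A E (pU σ E w) = ptMap (E' := A) σ.p (ContinuousLinearMap.id ℂ E) w := by
  refine PT.apply_eq_of (f := (spt A E).comp (pU σ E))
    (g := ptMap (E' := A) σ.p (ContinuousLinearMap.id ℂ E)) (fun a e => ?_) w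
  simp only [ContinuousLinearMap.comp_apply, pU, ptMap_pt, ContinuousLinearMap.id_apply, spt_pt,
    sndU_inA]

theorem fpt_pU (σ : SES P2 P1 (algM A)) (E : Type) [NormedAddCommGroup E] [NormedSpace ℂ E]
    [CompleteSpace E] (w : PT P1 E) : fpt A E (pU σ E w) = 0 := by
  refine PT.apply_eq_of (f := (fpt A E).comp (pU σ E)) (g := 0) (fun a e => ?_) w
  simp only [ContinuousLinearMap.comp_apply, pU, ptMap_pt, ContinuousLinearMap.id_apply, fpt_pt,
    fstU_inA, zero_smul, zero_apply]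

theorem jrsp (σ : SES P2 P1 (algM A)) (E : Type) [NormedAddCommGroup E] [NormedSpace ℂ E]
    (w : PT P1 E) : ptMap σ.j (ContinuousLinearMap.id ℂ E)
      (ptMap σ.r (ContinuousLinearMap.id ℂ E) w) +
      ptMap (E := A) σ.s (ContinuousLinearMap.id ℂ E)
        (ptMap (E' := A) σ.p (ContinuousLinearMap.id ℂ E) w) = w := by
  refine PT.apply_eq_of
    (f := (ptMap σ.j (ContinuousLinearMap.id ℂ E)).comp
        (ptMap σ.r (ContinuousLinearMap.id ℂ E)) +
      (ptMap (E := A) σ.s (ContinuousLinearMap.id ℂ E)).comp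
        (ptMap (E' := A) σ.p (ContinuousLinearMap.id ℂ E)))
    (g := ContinuousLinearMap.id ℂ _) (fun a e => ?_) w
  simp only [add_apply, ContinuousLinearMap.comp_apply, ptMap_pt, ContinuousLinearMap.id_apply]
  exact (pt_add_left _ _ e).symm.trans (congrArg (fun q : P1 => pt q e) (σ.jrsp a))

theorem rj (σ : SES P2 P1 (algM A)) (E : Type) [NormedAddCommGroup E] [NormedSpace ℂ E]
    (w : PT P2 E) : ptMap σ.r (ContinuousLinearMap.id ℂ E)
      (ptMap σ.j (ContinuousLinearMap.id ℂ E) w) = w := by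
  refine PT.apply_eq_of
    (f := (ptMap σ.r (ContinuousLinearMap.id ℂ E)).comp
        (ptMap σ.j (ContinuousLinearMap.id ℂ E)))
    (g := ContinuousLinearMap.id ℂ _) (fun a e => ?_) w
  simp only [ContinuousLinearMap.comp_apply, ptMap_pt, ContinuousLinearMap.id_apply, σ.rj]

theorem s_i (σ : SES P2 P1 (algM A)) (D : LowD X0 X) (z : PT (Up A) X0) :
    ptMap (ContinuousLinearMap.id ℂ P1) D.i
      (ptMap (E := A) σ.s (ContinuousLinearMap.id ℂ X0) (spt A X0 z)) =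
    ptMap (E := A) σ.s (ContinuousLinearMap.id ℂ X)
      (spt A X (ptMap (ContinuousLinearMap.id ℂ (Up A)) D.i z)) := by
  refine PT.apply_eq_of
    (f := (ptMap (ContinuousLinearMap.id ℂ P1) D.i).comp
      ((ptMap (E := A) σ.s (ContinuousLinearMap.id ℂ X0)).comp (spt A X0)))
    (g := (ptMap (E := A) σ.s (ContinuousLinearMap.id ℂ X)).comp
      ((spt A X).comp (ptMap (ContinuousLinearMap.id ℂ (Up A)) D.i))) (fun a e => ?_) z
  simp only [ContinuousLinearMap.comp_apply, ptMap_pt, ContinuousLinearMap.id_apply, spt_pt]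

theorem i_fpt (D : LowD X0 X) (z : PT (Up A) X0) :
    D.i (fpt A X0 z) = fpt A X (ptMap (ContinuousLinearMap.id ℂ (Up A)) D.i z) := by
  refine PT.apply_eq_of
    (f := D.i.comp (fpt A X0))
    (g := (fpt A X).comp (ptMap (ContinuousLinearMap.id ℂ (Up A)) D.i)) (fun a e => ?_) z
  simp only [ContinuousLinearMap.comp_apply, ptMap_pt, ContinuousLinearMap.id_apply, fpt_pt,
    map_smul]

theorem r_i (σ : SES P2 P1 (algM A)) (D : LowD X0 X) (w : PT P1 X0) :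
    ptMap σ.r (ContinuousLinearMap.id ℂ X) (ptMap (ContinuousLinearMap.id ℂ P1) D.i w) =
    ptMap (ContinuousLinearMap.id ℂ P2) D.i (ptMap σ.r (ContinuousLinearMap.id ℂ X0) w) := by
  refine PT.apply_eq_of
    (f := (ptMap σ.r (ContinuousLinearMap.id ℂ X)).comp
      (ptMap (ContinuousLinearMap.id ℂ P1) D.i))
    (g := (ptMap (ContinuousLinearMap.id ℂ P2) D.i).comp
      (ptMap σ.r (ContinuousLinearMap.id ℂ X0))) (fun a e => ?_) w
  simp only [ContinuousLinearMap.comp_apply, ptMap_pt, ContinuousLinearMap.id_apply]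

/-- the section of `d0` -/
def sec0 (X0 X : BMod (Up A)) : X →L[ℂ] M0 X0 X :=
  ContinuousLinearMap.prod (ptL (Up A) X 1) (0 : X →L[ℂ] X0)

theorem lowd0_sec0 (D : LowD X0 X) (x : X) : lowd0 D (sec0 X0 X x) = x := by
  change actMap X (pt 1 x) + D.i 0 = x
  rw [actMap_pt, X.act_one, map_zero, add_zero]

/-- the section of `d1` -/
def sec1 (σ : SES P2 P1 (algM A)) (D : LowD X0 X) : M0 X0 X →L[ℂ] M1 P1 X0 X :=
  ContinuousLinearMap.prod
    ((ptMap (E := A) σ.s (ContinuousLinearMap.id ℂ X)).comp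
      ((spt A X).comp (ContinuousLinearMap.fst ℂ (PT (Up A) X) X0)))
    (-((ptL (Up A) X0 1).comp
      (D.mumap.comp ((spt A X).comp (ContinuousLinearMap.fst ℂ (PT (Up A) X) X0)) +
        ContinuousLinearMap.snd ℂ (PT (Up A) X) X0)))

theorem lowd1_sec1 (σ : SES P2 P1 (algM A)) (D : LowD X0 X) (k : M0 X0 X)
    (hk : lowd0 D k = 0) : lowd1 σ D (sec1 σ D k) = k := by
  obtain ⟨w, y⟩ := k
  have hk' : actMap X w + D.i y = 0 := hk
  refine Prod.ext ?_ ?_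
  · change pU σ X (ptMap (E := A) σ.s (ContinuousLinearMap.id ℂ X) (spt A X w)) +
      ptMap (ContinuousLinearMap.id ℂ (Up A)) D.i (-(pt 1 (D.mumap (spt A X w) + y))) = w
    rw [pU_s, map_neg, ptMap_pt, ContinuousLinearMap.id_apply, map_add]
    have h1 : D.i (D.mumap (spt A X w)) + D.i y = -(fpt A X w) := by
      rw [act_decomp D w] at hk'
      rw [eq_neg_iff_add_eq_zero, ← hk']
      abel
    rw [h1, pt_neg_right, neg_neg]
    exact decomp X w
  · change -(D.mumap (ptMap (E' := A) σ.p (ContinuousLinearMap.id ℂ X)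
      (ptMap (E := A) σ.s (ContinuousLinearMap.id ℂ X) (spt A X w)))) -
      actMap X0 (-(pt 1 (D.mumap (spt A X w) + y))) = y
    rw [p_s, map_neg, actMap_pt, X0.act_one]
    abel

/-- the section of `d2` -/
def sec2 (σ : SES P2 P1 (algM A)) : M1 P1 X0 X →L[ℂ] M2 P2 P1 X0 X :=
  ContinuousLinearMap.prod
    ((ptMap σ.r (ContinuousLinearMap.id ℂ X)).comp
      (ContinuousLinearMap.fst ℂ (PT P1 X) (PT (Up A) X0)))
    (-((ptMap (E := A) σ.s (ContinuousLinearMap.id ℂ X0)).comp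
      ((spt A X0).comp (ContinuousLinearMap.snd ℂ (PT P1 X) (PT (Up A) X0)))))

theorem lowd2_sec2 (σ : SES P2 P1 (algM A)) (D : LowD X0 X) (k : M1 P1 X0 X)
    (hk : lowd1 σ D k = 0) : lowd2 σ D (sec2 (X0 := X0) (X := X) σ k) = k := by
  obtain ⟨w, z⟩ := k
  have hk' : pU σ X w + ptMap (ContinuousLinearMap.id ℂ (Up A)) D.i z = 0 :=
    congrArg Prod.fst hk
  have hz : ptMap (ContinuousLinearMap.id ℂ (Up A)) D.i z = -(pU σ X w) :=
    eq_neg_of_add_eq_zero_right hk'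
  refine Prod.ext ?_ ?_
  · change ptMap σ.j (ContinuousLinearMap.id ℂ X) (ptMap σ.r (ContinuousLinearMap.id ℂ X) w) +
      ptMap (ContinuousLinearMap.id ℂ P1) D.i
        (-(ptMap (E := A) σ.s (ContinuousLinearMap.id ℂ X0) (spt A X0 z))) = w
    rw [map_neg, s_i, hz, map_neg, map_neg, neg_neg, spt_pU]
    exact jrsp σ X w
  · change -(pU σ X0 (-(ptMap (E := A) σ.s (ContinuousLinearMap.id ℂ X0) (spt A X0 z)))) = z
    have hf : fpt A X0 z = 0 := by
      apply D.inj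
      rw [i_fpt, hz, map_neg, fpt_pU, neg_zero]
    have h := decomp X0 z
    rw [hf, pt_zero_right, add_zero] at h
    rw [map_neg, neg_neg, pU_s]
    exact h

/-- the retraction of `d3` -/
def ret3 (σ : SES P2 P1 (algM A)) : M2 P2 P1 X0 X →L[ℂ] M3 P2 X0 :=
  (ptMap σ.r (ContinuousLinearMap.id ℂ X0)).comp
    (ContinuousLinearMap.snd ℂ (PT P2 X) (PT P1 X0))

theorem ret3_lowd3 (σ : SES P2 P1 (algM A)) (D : LowD X0 X) (z : M3 P2 X0) :
    ret3 (X0 := X0) (X := X) σ (lowd3 σ D z) = z :=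
  rj σ X0 z

theorem lowd3_ret3 (σ : SES P2 P1 (algM A)) (D : LowD X0 X) (k : M2 P2 P1 X0 X)
    (hk : lowd2 σ D k = 0) : lowd3 σ D (ret3 (X0 := X0) (X := X) σ k) = k := by
  obtain ⟨v, w⟩ := k
  have h1 : ptMap σ.j (ContinuousLinearMap.id ℂ X) v +
      ptMap (ContinuousLinearMap.id ℂ P1) D.i w = 0 := congrArg Prod.fst hk
  have h2 : -(pU σ X0 w) = 0 := congrArg Prod.snd hk
  have h3 : ptMap (E' := A) σ.p (ContinuousLinearMap.id ℂ X0) w = 0 := by
    rw [← spt_pU, neg_eq_zero.1 h2, map_zero]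
  refine Prod.ext ?_ ?_
  · change -(ptMap (ContinuousLinearMap.id ℂ P2) D.i
      (ptMap σ.r (ContinuousLinearMap.id ℂ X0) w)) = v
    rw [← r_i, ← map_neg, ← eq_neg_of_add_eq_zero_left h1]
    exact rj σ X v
  · change ptMap σ.j (ContinuousLinearMap.id ℂ X0)
      (ptMap σ.r (ContinuousLinearMap.id ℂ X0) w) = w
    have h := jrsp σ X0 w
    rw [h3, map_zero, add_zero] at h
    exact h

end LowSesAux

open LowSesAux

theorem low_ses0 (D : LowD X0 X) : Nonempty (SES (LK1 D) (M0 X0 X) X) := by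
  obtain ⟨τ, -⟩ := exists_ses_ker (lowd0 D) (isHom_lowd0 D) (sec0 X0 X) (lowd0_sec0 D)
  exact ⟨τ⟩

theorem low_ses1 (σ : SES P2 P1 (algM A)) (D : LowD X0 X) :
    Nonempty (SES (LK2 σ D) (M1 P1 X0 X) (LK1 D)) := by
  obtain ⟨τ, -⟩ := exists_ses_ker (lowe1 σ D) (isHom_lowe1 σ D)
    ((sec1 σ D).comp (kerι (lowd0 D) (isHom_lowd0 D))) (fun k =>
      kerι_inj (lowd0 D) (isHom_lowd0 D)
        (lowd1_sec1 σ D (kerι (lowd0 D) (isHom_lowd0 D) k) (f_kerι (lowd0 D) (isHom_lowd0 D) k)))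
  exact ⟨τ⟩

theorem low_ses2 (σ : SES P2 P1 (algM A)) (D : LowD X0 X) :
    ∃ τ : SES (M3 P2 X0) (M2 P2 P1 X0 X) (LK2 σ D), τ.j = lowd3 σ D := by
  have hk1 : ∀ k : LK2 σ D, lowd1 σ D (kerι (lowe1 σ D) (isHom_lowe1 σ D) k) = 0 := fun k =>
    congrArg (kerι (lowd0 D) (isHom_lowd0 D)) (f_kerι (lowe1 σ D) (isHom_lowe1 σ D) k)
  have he : ∀ x : M2 P2 P1 X0 X, lowe1 σ D (lowd2 σ D x) = 0 := fun x =>
    Subtype.ext (lowd1_lowd2 σ D x)
  obtain ⟨τ, h, -, -⟩ := exists_ses (lowd3 σ D)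
    (kerLift (lowe1 σ D) (isHom_lowe1 σ D) (lowd2 σ D) he)
    (isHom_lowd3 σ D) (fun b x => Subtype.ext (isHom_lowd2 σ D b x))
    ((sec2 (X0 := X0) (X := X) σ).comp (kerι (lowe1 σ D) (isHom_lowe1 σ D)))
    (fun k => Subtype.ext (lowd2_sec2 σ D _ (hk1 k)))
    (fun x => Subtype.ext (lowd2_lowd3 σ D x))
    (ret3 (X0 := X0) (X := X) σ) (ret3_lowd3 σ D)
    (fun x hx => lowd3_ret3 σ D x (congrArg Subtype.val hx))
  exact ⟨τ, h⟩

end Pool.Agent.Lib.BF3
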