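import Mathlib
import Pool.Agent.Lib.BF3.HDefs

/-!
# The module `P ⊗̂ E` is projective if `P` is

PROOF. Associator `α : (B ⊗̂ P) ⊗̂ E → B ⊗̂ (P ⊗̂ E)`, `(b ⊗ p) ⊗ e ↦ b ⊗ (p ⊗ e)`: it is
`lift (lift β)` for the bounded bilinear map `β b p = (ptL B (PT P E) b) ∘ (ptL P E p)`,
`β = (ContinuousLinearMap.compL ℂ E (PT P E) (PT B (PT P E))).bilinearComp (ptL B (PT P E))
(ptL P E)`. For `ρ : P → B ⊗̂ P` take `α ∘ (ρ ⊗ 1)`: it is a morphism
(`α (ptMap (b·) 1 w) = b · α w` for all `w : PT (PT B P) E`, check on `(b' ⊗ p) ⊗ e`,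
`PT.ext₃_of`), and `actMap (tenE P E) (α w) = ptMap (actMap P) 1 w` (same check).
-/

noncomputable section

namespace Pool.Agent.Lib.BF3

variable {B : Type} [NormedCommRing B] [NormedAlgebra ℂ B]

/-- the associator `(B ⊗̂ P) ⊗̂ E → B ⊗̂ (P ⊗̂ E)` -/
private def assoc (F G H : Type) [NormedAddCommGroup F] [NormedSpace ℂ F] [NormedAddCommGroup G]
    [NormedSpace ℂ G] [NormedAddCommGroup H] [NormedSpace ℂ H] :
    PT (PT F G) H →L[ℂ] PT F (PT G H) :=
  lift (lift ((ContinuousLinearMap.compL ℂ H (PT G H) (PT F (PT G H))).bilinearComp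
    (ptL F (PT G H)) (ptL G H)))

private theorem assoc_pt {F G H : Type} [NormedAddCommGroup F] [NormedSpace ℂ F]
    [NormedAddCommGroup G] [NormedSpace ℂ G] [NormedAddCommGroup H] [NormedSpace ℂ H]
    (x : F) (y : G) (z : H) : assoc F G H (pt (pt x y) z) = pt x (pt y z) := by
  simp [assoc]

theorem projective_tenE {P : BMod B} (hP : Projective P) (E : Type) [NormedAddCommGroup E]
    [NormedSpace ℂ E] : Projective (tenE P E) := by
  obtain ⟨ρ, hρ, hρ1⟩ := hP
  have hρ' : ∀ (b : B) (p : P),
      ρ (P.act b p) = ptMapL B B P (ContinuousLinearMap.mul ℂ B b) (ρ p) := hρ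
  have hA : ∀ (b : B) (w : PT (PT B P) E),
      assoc B P E (ptMapL (PT B P) (PT B P) E (ptMapL B B P (ContinuousLinearMap.mul ℂ B b)) w)
        = ptMapL B B (PT P E) (ContinuousLinearMap.mul ℂ B b) (assoc B P E w) := by
    intro b w
    have h := PT.ext₃_of
      (f := (assoc B P E).comp (ptMapL (PT B P) (PT B P) E
        (ptMapL B B P (ContinuousLinearMap.mul ℂ B b))))
      (g := (ptMapL B B (PT P E) (ContinuousLinearMap.mul ℂ B b)).comp (assoc B P E))
      (fun x y z => by
        simp only [ContinuousLinearMap.comp_apply, ptMapL_apply_pt, assoc_pt])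
    exact congrArg (fun T => T w) h
  have hB : ∀ (w : PT (PT B P) E),
      actMap (tenE P E) (assoc B P E w) = ptMapL (PT B P) P E (actMap P) w := by
    intro w
    have h := PT.ext₃_of
      (f := (actMap (tenE P E)).comp (assoc B P E))
      (g := ptMapL (PT B P) P E (actMap P))
      (fun x y z => by
        refine (congrArg (actMap (tenE P E)) (assoc_pt x y z)).trans ?_
        refine (actMap_pt (tenE P E) x (pt y z)).trans ?_
        refine (tenE_act_pt P E x y z).trans ?_
        refine Eq.trans ?_ (ptMapL_apply_pt (actMap P) (pt x y) z).symm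
        exact congrArg (fun t => (pt t z : PT P E)) (actMap_pt P x y).symm)
    exact congrArg (fun T => T w) h
  refine ⟨(assoc B P E).comp (ptMapL P (PT B P) E ρ), ?_, ?_⟩
  · intro b x
    have h : (ptMapL P (PT B P) E ρ).comp (ptMapL P P E (P.act b))
        = (ptMapL (PT B P) (PT B P) E (ptMapL B B P (ContinuousLinearMap.mul ℂ B b))).comp
          (ptMapL P (PT B P) E ρ) := by
      refine PT.ext_of fun p e => ?_
      simp only [ContinuousLinearMap.comp_apply, ptMapL_apply_pt]
      rw [hρ']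
    have h2 := congrArg (fun T => T x) h
    change assoc B P E (ptMapL P (PT B P) E ρ (ptMapL P P E (P.act b) x))
      = ptMapL B B (PT P E) (ContinuousLinearMap.mul ℂ B b) (assoc B P E (ptMapL P (PT B P) E ρ x))
    rw [← hA]
    exact congrArg (assoc B P E) h2
  · intro x
    have h : (ptMapL (PT B P) P E (actMap P)).comp (ptMapL P (PT B P) E ρ)
        = ContinuousLinearMap.id ℂ (PT P E) := by
      refine PT.ext_of fun p e => ?_
      simp only [ContinuousLinearMap.comp_apply, ptMapL_apply_pt]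
      rw [hρ1]
      rfl
    have h2 := congrArg (fun T => T x) h
    exact (hB _).trans h2

end Pool.Agent.Lib.BF3
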