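import Mathlib
import Pool.Agent.Lib.BF3.LowSes
import Pool.Agent.Lib.BF3.DhBasic
import Pool.Agent.Lib.BF3.TenE

/-!
# If `dh X ≤ 2` then the last map of the complex is a coretraction

PROOF. `M0`, `M1` are projective (`Projective.prod`, `projective_free`, `projective_tenE`). By
`DhLe.ker` with `low_ses0` and `low_ses1`, `LK2 σ D` is projective. By `SES.coretr` for the sequence
of `low_ses2` there is a morphism `v : M2 → M3` with `v (lowd3 z) = z`. Put
`a x = -v (x, 0)`, `b y = v (0, y)`.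
-/

noncomputable section

namespace Pool.Agent.Lib.BF3

variable {A : Type} [NonUnitalNormedCommRing A] [NormedSpace ℂ A] [IsScalarTower ℂ A A]
  [SMulCommClass ℂ A A] [CompleteSpace A] {P2 P1 X0 X : BMod (Up A)}

theorem low_split (σ : SES P2 P1 (algM A)) (D : LowD X0 X) (h1 : Projective P1)
    (h0 : Projective X0) (h : DhLe 2 X) :
    ∃ (a : PT P2 X →L[ℂ] PT P2 X0) (b : PT P1 X0 →L[ℂ] PT P2 X0),
      IsHom (tenE P2 X) (tenE P2 X0) a ∧ IsHom (tenE P1 X0) (tenE P2 X0) b ∧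
      ∀ z : PT P2 X0, a (ptMap (ContinuousLinearMap.id ℂ P2) D.i z) +
        b (ptMap σ.j (ContinuousLinearMap.id ℂ X0) z) = z := by
  obtain ⟨σ0⟩ := low_ses0 (X0 := X0) (X := X) D
  obtain ⟨σ1⟩ := low_ses1 σ D
  obtain ⟨τ, hτ⟩ := low_ses2 σ D
  have hM0 : Projective (M0 X0 X) := Projective.prod (projective_free X) h0
  have hM1 : Projective (M1 P1 X0 X) := Projective.prod (projective_tenE h1 X) (projective_free X0)
  have hK1 : DhLe 1 (LK1 D) := DhLe.ker σ0 hM0 h
  have hK2 : Projective (LK2 σ D) := DhLe.ker σ1 hM1 hK1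
  obtain ⟨v, hv, hvj⟩ := SES.coretr τ hK2
  let v' : PT P2 X × PT P1 X0 →L[ℂ] PT P2 X0 := v
  have hvj' : ∀ z : PT P2 X0, v' (-ptMap (ContinuousLinearMap.id ℂ P2) D.i z,
      ptMap σ.j (ContinuousLinearMap.id ℂ X0) z) = z := by
    intro z
    have := hvj z
    rw [hτ] at this
    exact this
  refine ⟨-(v'.comp (ContinuousLinearMap.inl ℂ (PT P2 X) (PT P1 X0))),
    v'.comp (ContinuousLinearMap.inr ℂ (PT P2 X) (PT P1 X0)), ?_, ?_, ?_⟩
  · intro b x
    have e := hv b ((x, 0) : PT P2 X × PT P1 X0)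
    have e2 : (M2 P2 P1 X0 X).act b ((x, 0) : PT P2 X × PT P1 X0) =
        (((tenE P2 X).act b x, 0) : PT P2 X × PT P1 X0) :=
      Prod.ext rfl (map_zero ((tenE P1 X0).act b))
    rw [e2] at e
    exact (congrArg (fun q => -q) e).trans (map_neg _ _).symm
  · intro b x
    have e := hv b ((0, x) : PT P2 X × PT P1 X0)
    have e2 : (M2 P2 P1 X0 X).act b ((0, x) : PT P2 X × PT P1 X0) =
        ((0, (tenE P1 X0).act b x) : PT P2 X × PT P1 X0) :=
      Prod.ext (map_zero ((tenE P2 X).act b)) rfl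
    rw [e2] at e
    exact e
  · intro z
    have e := hvj' z
    change -(v' (ptMap (ContinuousLinearMap.id ℂ P2) D.i z, 0)) +
      v' (0, ptMap σ.j (ContinuousLinearMap.id ℂ X0) z) = z
    rw [← map_neg, ← map_add]
    simpa using e

end Pool.Agent.Lib.BF3
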