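import Mathlib
import Pool.Agent.Lib.BF3.Mods
import Pool.Agent.Lib.BF3.Comb1
import Pool.Agent.Lib.BF3.Coord
import Pool.Agent.Lib.BF3.SesP

/-!
# `f : P₂ → P₁` is not a coretraction

PROOF. Let `v : P1M → I0M` be a morphism with `v (fP p) = p`. Write `c t = coord F0 t`,
`μ t = c t (v (δ (inl t), 0))`, `κ t = -c t (v (0, δ_t))`. From `fP δ_t = (δ (inl t), -δ_t)`
(`iB_δ`, `iI_δ`): `μ t + κ t = c t (v (fP δ_t)) = 1`.

(1) For every `m : I0M`, `(I0M).act (inA (bA (inl t))) m = c t m • δ_t` (`Atom.apply_eq_of`,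
`diagAct_δ`). (2) `bA (inl t) · (δ (inr t.1), 0) = (δ (inl t), 0)` in `P1M` (`mulA0_δ`), so
`v (δ (inl t), 0) = c t (v (δ (inr t.1), 0)) • δ_t`, hence `μ t = c t (v (δ (inr t.1), 0))`. By
`coord_tendsto` for `v (δ (inr x), 0)`, along the injective map `j ↦ (x, j)`: there is `m x` with
`‖μ (x, j)‖ ≤ 1/2` for all `j ≥ m x`; then `‖κ (x, j)‖ ≥ 1/2`. (3) `bA (inl t) · (0, δ_t) = (0, δ_t)`,
so `v (0, δ_t) = -κ t • δ_t`.

(4) Let `C : ℕ` and let `F` be the transversal of `exists_transversal m C`. Two elements of `F` with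
the same first component are equal (their codes are equal). `F ∈ F1.faces`, so
`a = ∑_{t ∈ F} δ F1 t` has norm at most `1` (`norm_aι_le_one`, `aι_eq_sum`). By `atomSeminorm_le`
for `K = F0`, `s = F`, `T t = c t` (`Z = ℂ`; a generator of `F0` is supported on atoms with one
first component, so at most one `t ∈ F` contributes, and `‖g t‖ ≤ 1`):
`∑_{t ∈ F} ‖c t (v (0, a))‖ ≤ ‖v (0, a)‖ ≤ ‖v‖`, and `c t (v (0, a)) = -κ t` for `t ∈ F`. So
`C / 2 ≤ ‖v‖` for all `C`, absurd.
-/

noncomputable section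

namespace Pool.Agent.Lib.BF3

private theorem diag_coord (t : Ts) (m : Atom F0) :
    diagAct F0 Sum.inl (bA (Sum.inl t)) m = coord F0 t m • δ F0 t := by
  classical
  refine Atom.apply_eq_of (f := diagAct F0 Sum.inl (bA (Sum.inl t)))
    (g := (coord F0 t).smulRight (δ F0 t)) (fun t' => ?_) m
  rw [diagAct_δ, ContinuousLinearMap.smulRight_apply, coord_δ]
  simp only [val]
  by_cases h : t' = t
  · subst h
    simp
  · rw [if_neg h, if_neg (fun h' => h h'.symm), zero_smul, zero_smul]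

private theorem mulA0_inr (t : Ts) :
    mulA0 (bA (Sum.inl t)) (δ (SG F0) (Sum.inr t.1)) = δ (SG F0) (Sum.inl t) := by
  rw [mulA0_δ]
  simp [tab]

private theorem diag_self (t : Ts) :
    diagAct F1 Sum.inl (bA (Sum.inl t)) (δ F1 t) = δ F1 t := by
  rw [diagAct_δ]
  simp [val]

private theorem core (v : Atom (SG F0) × Atom F1 →L[ℂ] Atom F0)
    (h1 : ∀ a z1 z2, v (mulA0 a z1, diagAct F1 Sum.inl a z2) = diagAct F0 Sum.inl a (v (z1, z2)))
    (h2 : ∀ t, v (δ (SG F0) (Sum.inl t), -δ F1 t) = δ F0 t) : False := by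
  classical
  have hcc : ∀ t, coord F0 t (δ F0 t) = 1 := fun t => by rw [coord_δ]; simp
  have hmu : ∀ t, v (δ (SG F0) (Sum.inl t), 0) =
      coord F0 t (v (δ (SG F0) (Sum.inr t.1), 0)) • δ F0 t := fun t => by
    have := h1 (bA (Sum.inl t)) (δ (SG F0) (Sum.inr t.1)) 0
    rwa [mulA0_inr, map_zero, diag_coord] at this
  have hka : ∀ t, v (0, δ F1 t) = coord F0 t (v (0, δ F1 t)) • δ F0 t := fun t => by
    have := h1 (bA (Sum.inl t)) 0 (δ F1 t)
    rwa [diag_self, map_zero, diag_coord] at this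
  have hsum : ∀ t, coord F0 t (v (δ (SG F0) (Sum.inr t.1), 0)) - coord F0 t (v (0, δ F1 t)) = 1 := by
    intro t
    have e : ((δ (SG F0) (Sum.inl t), -δ F1 t) : Atom (SG F0) × Atom F1) =
        (δ (SG F0) (Sum.inl t), 0) - (0, δ F1 t) := by
      simp
    have := congrArg (coord F0 t) (h2 t)
    rw [e, map_sub, map_sub, hcc, hmu t, map_smul, hcc, smul_eq_mul, mul_one] at this
    exact this
  have hm : ∀ x : Xs, ∃ m : ℕ, ∀ j, m ≤ j →
      ‖coord F0 (x, j) (v (δ (SG F0) (Sum.inr x), 0))‖ ≤ 1 / 2 := by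
    intro x
    have ht := coord_tendsto F0 (v (δ (SG F0) (Sum.inr x), 0))
    have hinj : Function.Injective (fun j : ℕ => ((x, j) : Ts)) := fun j j' h =>
      congrArg Prod.snd h
    have h3 := ht.comp hinj.tendsto_cofinite
    rw [Nat.cofinite_eq_atTop] at h3
    have h4 := (Metric.tendsto_atTop.1 h3) (1 / 2) (by norm_num)
    obtain ⟨N, hN⟩ := h4
    refine ⟨N, fun j hj => ?_⟩
    have := hN j hj
    rw [dist_zero_right] at this
    exact this.le
  choose m hm using hm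
  have hk : ∀ t : Ts, m t.1 ≤ t.2 → 1 / 2 ≤ ‖coord F0 t (v (0, δ F1 t))‖ := by
    intro t ht
    have h5 := hm t.1 t.2 ht
    have h6 := hsum t
    have h7 : (1 : ℂ) = coord F0 t (v (δ (SG F0) (Sum.inr t.1), 0)) +
        -coord F0 t (v (0, δ F1 t)) := by rw [← h6]; ring
    have h8 := norm_add_le (coord F0 t (v (δ (SG F0) (Sum.inr t.1), 0)))
      (-coord F0 t (v (0, δ F1 t)))
    rw [← h7, norm_neg, norm_one] at h8
    have h9 : ‖coord F0 t (v (δ (SG F0) (Sum.inr t.1), 0))‖ ≤ 1 / 2 := h5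
    linarith
  obtain ⟨C, hC⟩ := exists_nat_gt (2 * ‖v‖)
  obtain ⟨F, hFC, hFm, hF⟩ := exists_transversal m C
  have hfst : ∀ t ∈ F, ∀ t' ∈ F, t.1 = t'.1 → t = t' := fun t ht t' ht' h =>
    (hF t ht t' ht').2 (by rw [h])
  -- the vector
  have hg : (∑ t ∈ F, Finsupp.single t (1 : ℂ) : Ts →₀ ℂ) ∈ F1.gen := by
    have happ : ∀ s, (∑ t ∈ F, Finsupp.single t (1 : ℂ) : Ts →₀ ℂ) s = if s ∈ F then 1 else 0 := by
      intro s
      rw [Finsupp.finsetSum_apply]
      simp only [Finsupp.single_apply]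
      rw [Finset.sum_ite_eq']
    refine ⟨F1.down F (Or.inr hF) _ fun s hs => ?_, fun s => ?_⟩
    · rw [Finsupp.mem_support_iff, happ] at hs
      by_contra h
      exact hs (if_neg h)
    · rw [happ]
      split_ifs <;> simp
  have ha : ‖∑ t ∈ F, δ F1 t‖ ≤ 1 := by
    have := norm_aι_le_one hg
    rwa [map_sum] at this
  have hva : ∀ t ∈ F, coord F0 t (v (0, ∑ t ∈ F, δ F1 t)) = coord F0 t (v (0, δ F1 t)) := by
    intro t ht
    have e : ((0, ∑ t ∈ F, δ F1 t) : Atom (SG F0) × Atom F1) = ∑ t ∈ F, (0, δ F1 t) := by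
      refine Prod.ext ?_ ?_
      · rw [Prod.fst_sum]; simp
      · rw [Prod.snd_sum]
    rw [e, map_sum, map_sum, Finset.sum_eq_single_of_mem t ht]
    intro t' ht' hne
    rw [hka t', map_smul, coord_δ, if_neg hne, smul_zero]
  have hle := atomSeminorm_le F0 F (fun t => coord F0 t) (fun g hg => by
    by_cases hex : ∃ t ∈ F, t ∈ g.support
    · obtain ⟨t0, ht0, ht0g⟩ := hex
      have hval : ∀ t, coord F0 t (aι F0 g) = g t := by
        intro t
        rw [aι_eq_sum, Finsupp.sum, map_sum]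
        rw [Finset.sum_eq_single t]
        · rw [map_smul, hcc, smul_eq_mul, mul_one]
        · intro t' _ hne
          rw [map_smul, coord_δ, if_neg hne, smul_zero]
        · intro hn
          rw [Finsupp.notMem_support_iff.1 hn, zero_smul, map_zero]
      rw [Finset.sum_eq_single_of_mem t0 ht0]
      · rw [hval]
        exact hg.2 t0
      · intro t ht hne
        rw [hval, norm_eq_zero]
        by_contra h0
        exact hne (hfst t ht t0 ht0 (hg.1 t (Finsupp.mem_support_iff.2 h0) t0 ht0g))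
    · push Not at hex
      have hval : ∀ t, coord F0 t (aι F0 g) = g t := by
        intro t
        rw [aι_eq_sum, Finsupp.sum, map_sum]
        rw [Finset.sum_eq_single t]
        · rw [map_smul, hcc, smul_eq_mul, mul_one]
        · intro t' _ hne
          rw [map_smul, coord_δ, if_neg hne, smul_zero]
        · intro hn
          rw [Finsupp.notMem_support_iff.1 hn, zero_smul, map_zero]
      rw [Finset.sum_eq_zero fun t ht => by
        rw [hval, Finsupp.notMem_support_iff.1 (hex t ht), norm_zero]]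
      exact zero_le_one) (v (0, ∑ t ∈ F, δ F1 t))
  have h10 : (C : ℝ) * (1 / 2) ≤ ∑ t ∈ F, ‖coord F0 t (v (0, ∑ t ∈ F, δ F1 t))‖ := by
    rw [← hFC, ← nsmul_eq_mul, ← Finset.sum_const]
    refine Finset.sum_le_sum fun t ht => ?_
    rw [hva t ht]
    exact hk t (hFm t ht)
  have h11 : ‖v (0, ∑ t ∈ F, δ F1 t)‖ ≤ ‖v‖ := by
    refine (v.le_opNorm _).trans ?_
    have : ‖((0, ∑ t ∈ F, δ F1 t) : Atom (SG F0) × Atom F1)‖ ≤ 1 := by
      rw [Prod.norm_mk, norm_zero]
      exact max_le zero_le_one ha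
    calc ‖v‖ * ‖((0, ∑ t ∈ F, δ F1 t) : Atom (SG F0) × Atom F1)‖ ≤ ‖v‖ * 1 := by gcongr
      _ = ‖v‖ := mul_one _
  linarith [h10.trans (hle.trans h11)]

theorem nonsplit : ¬ ∃ v : P1M →L[ℂ] I0M, IsHom P1M I0M v ∧ ∀ p, v (fP p) = p := by
  rintro ⟨v, hv, hf⟩
  refine core v (fun a z1 z2 => ?_) (fun t => ?_)
  · have h := hv (inA a) ((z1, z2) : Atom (SG F0) × Atom F1)
    have e1 : P1M.act (inA a) ((z1, z2) : Atom (SG F0) × Atom F1) =
        ((mulA0 a z1, diagAct F1 Sum.inl a z2) : Atom (SG F0) × Atom F1) := by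
      refine Prod.ext ?_ ?_
      · exact ofA_act_in mulA0 (fun a b m => mulG_assoc F0 (fun _ h => h) a b m) a z1
      · exact ofA_act_in (diagAct F1 Sum.inl) (diagAct_mul F1 Sum.inl) a z2
    have e2 := ofA_act_in (diagAct F0 Sum.inl) (diagAct_mul F0 Sum.inl) a
      (v ((z1, z2) : Atom (SG F0) × Atom F1))
    exact ((congrArg v e1).symm.trans h).trans e2
  · have h := hf (δ F0 t : Atom F0)
    have e : fP (δ F0 t : Atom F0) = ((δ (SG F0) (Sum.inl t), -δ F1 t) : Atom (SG F0) × Atom F1) := by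
      refine Prod.ext ?_ ?_
      · exact iB_δ t
      · exact congrArg (fun z : Atom F1 => -z) (iI_δ t)
    exact (congrArg v e).symm.trans h

end Pool.Agent.Lib.BF3
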