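import Mathlib
import Pool.Agent.Lib.BF3.LowSplit
import Pool.Agent.Lib.BF3.LowAvg
import Pool.Agent.Lib.BF3.LowData
import Pool.Agent.Lib.BF3.Nonsplit
import Pool.Agent.Lib.BF3.ProjB0
import Pool.Agent.Lib.BF3.ProjDiag
import Pool.Agent.Lib.BF3.SesP

/-!
# The module `c₀(ℕ)` has homological dimension at least three
-/

noncomputable section

namespace Pool.Agent.Lib.BF3

theorem not_dhLe_two_XM : ¬ DhLe 2 XM := by
  intro h
  obtain ⟨σ, hσ⟩ := exists_sesP
  obtain ⟨D, hD⟩ := lowData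
  obtain ⟨a, b, ha, hb, hab⟩ := low_split σ D (projective_B0M.prod projective_IM) projective_X0M h
  rw [hσ] at hab
  refine nonsplit (low_avg fP isHom_fP D.i a b ha hb hab (fun d => δ (pts ℕ) d)
    (fun d => coord (pts ℕ) d) (fun d => (coord_δ (pts ℕ) d d).trans (if_pos rfl)) hD lowc)

end Pool.Agent.Lib.BF3
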