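import Mathlib
import Pool.Agent.Lib.BF3.ProjBasic
import Pool.Agent.Lib.BF3.Schan

/-!
# `DhLe n X` iff there is an admissible projective resolution of length `n`

PROOF. `DhLe.res` by induction on `n`. `n = 0`: `P 0 = X`, `P (i+1) = 0` (for a module with one
element: the kernel of the identity of `X`, `exists_ses_ker`, or `kerM`), `ε = σ = id`, all `d`,
`s` are `0`. `n + 1`: `τ : SES K P X`, `R : Res K n`. Take `P' 0 = P`, `P' (i+1) = R.P i`,
`ε' = τ.p`, `d' 0 = τ.j ∘ R.ε`, `d' (i+1) = R.d i`, `σ' = τ.s`, `s' 0 = R.σ ∘ τ.r`,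
`s' (i+1) = R.s i` (define them with `Nat.rec` or by pattern matching). The identities:
`σ' (ε' x) + d' 0 (s' 0 x) = s (p x) + j (R.ε (R.σ (r x))) = x`;
`s' 0 (d' 0 x) + d' 1 (s' 1 x) = R.σ (r (j (R.ε x))) + R.d 0 (R.s 0 x) = x`.

`Res.dhLe` by induction on `n`. `n = 0`: `P 1` has only the element `0`, so `σ (ε x) = x`; `σ` is a
morphism, as it is the inverse of the morphism `ε`; `X` is a retract of `P 0` (`i = σ`, `q = ε`).
`n + 1`: let `K = kerM ε` (`exists_ses_ker` with the section `σ`). `Res K n`: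
`P' i = P (i+1)`, `ε' = kerLift` of `d 0`, `d' i = d (i+1)`, `σ' = s 0 ∘ kerι`,
`s' i = s (i+1)`; `d 0 (s 0 x) = x` for `x ∈ ker ε` by `h0`, and `σ' (ε' x) + d' 0 (s' 0 x) = x` by
`hs 0`.

`dh_le_iff`: `dh X` is an infimum in `ℕ∞`. If `dh X ≤ n` then the set is not empty (otherwise
`sInf ∅ = ⊤`), so it contains its infimum (`csInf_mem`), `dh X = m` with `Nonempty (Res X m)`, and
`m ≤ n`; use `Res.dhLe` and `hmono`. Conversely `sInf_le`.
-/

noncomputable section

namespace Pool.Agent.Lib.BF3

variable {B : Type} [NormedCommRing B] [NormedAlgebra ℂ B]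

namespace DhResAux

/-- the sequence of modules `P0, P 0, P 1, ...` -/
def consP (P0 : BMod B) (P : ℕ → BMod B) : ℕ → BMod B
  | 0 => P0
  | i + 1 => P i

/-- the differentials -/
def consD {P0 : BMod B} {P : ℕ → BMod B} (d0 : P 0 →L[ℂ] P0) (d : ∀ i, P (i + 1) →L[ℂ] P i) :
    ∀ i, consP P0 P (i + 1) →L[ℂ] consP P0 P i
  | 0 => d0
  | i + 1 => d i

/-- the homotopy -/
def consS {P0 : BMod B} {P : ℕ → BMod B} (s0 : P0 →L[ℂ] P 0) (s : ∀ i, P i →L[ℂ] P (i + 1)) :
    ∀ i, consP P0 P i →L[ℂ] consP P0 P (i + 1)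
  | 0 => s0
  | i + 1 => s i

/-- the zero module -/
def zeroM (X : BMod B) : BMod B := kerM (ContinuousLinearMap.id ℂ X) (isHom_id X)

theorem zeroM_eq (X : BMod B) (x : zeroM X) : x = 0 := by
  have key : ∀ x : kerM (ContinuousLinearMap.id ℂ X) (isHom_id X), x = 0 := by
    intro x
    apply kerι_inj (ContinuousLinearMap.id ℂ X) (isHom_id X)
    have := f_kerι (ContinuousLinearMap.id ℂ X) (isHom_id X) x
    rw [map_zero]
    exact this
  exact key x

/-- the resolution of length `0` of a projective module -/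
def baseRes (X : BMod B) (hX : Projective X) : Res X 0 where
  P := consP X (fun _ => zeroM X)
  proj i := by
    cases i with
    | zero => exact hX
    | succ i => exact projective_of_zero (zeroM_eq X)
  zero i hi x := by
    cases i with
    | zero => omega
    | succ i => exact zeroM_eq X x
  ε := ContinuousLinearMap.id ℂ X
  d := consD (P := fun _ => zeroM X) 0 (fun _ => 0)
  hε := isHom_id X
  hd i := by
    cases i with
    | zero =>
      intro b x
      change (0 : X) = X.act b 0
      rw [map_zero]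
    | succ i =>
      intro b x
      change (0 : zeroM X) = (zeroM X).act b 0
      rw [map_zero]
  εd x := by
    rfl
  dd i x := by
    cases i with
    | zero => rfl
    | succ i => rfl
  σ := ContinuousLinearMap.id ℂ X
  s := consS (P := fun _ => zeroM X) 0 (fun _ => 0)
  hσ x := rfl
  h0 x := add_zero (M := X) x
  hs i x := by
    cases i with
    | zero => exact (zeroM_eq X _).trans (zeroM_eq X _).symm
    | succ i => exact (zeroM_eq X _).trans (zeroM_eq X _).symm

/-- splicing -/
def consRes {K P X : BMod B} {n : ℕ} (τ : SES K P X) (hP : Projective P) (R : Res K n) :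
    Res X (n + 1) where
  P := consP P R.P
  proj i := by
    cases i with
    | zero => exact hP
    | succ i => exact R.proj i
  zero i hi x := by
    cases i with
    | zero => omega
    | succ i => exact R.zero i (by omega) x
  ε := τ.p
  d := consD (τ.j.comp R.ε) R.d
  hε := τ.hp
  hd i := by
    cases i with
    | zero =>
      have key : ∀ (b : B) (x : R.P 0), τ.j (R.ε ((R.P 0).act b x)) = P.act b (τ.j (R.ε x)) := by
        intro b x
        rw [R.hε, τ.hj]
      exact key
    | succ i => exact R.hd i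
  εd x := by
    change τ.p (τ.j (R.ε x)) = 0
    exact τ.pj _
  dd i x := by
    cases i with
    | zero =>
      have key : ∀ x : R.P 1, τ.j (R.ε (R.d 0 x)) = 0 := by
        intro x
        rw [R.εd, map_zero]
      exact key x
    | succ i => exact R.dd i x
  σ := τ.s
  s := consS (R.σ.comp τ.r) R.s
  hσ := τ.ps
  h0 x := by
    have key : ∀ x : P, τ.s (τ.p x) + τ.j (R.ε (R.σ (τ.r x))) = x := by
      intro x
      rw [R.hσ, add_comm]
      exact τ.jrsp x
    exact key x
  hs i x := by
    cases i with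
    | zero =>
      have key : ∀ x : R.P 0, R.σ (τ.r (τ.j (R.ε x))) + R.d 0 (R.s 0 x) = x := by
        intro x
        rw [τ.rj]
        exact R.h0 x
      exact key x
    | succ i => exact R.hs i x

/-- the truncation of a resolution -/
def tailRes {X : BMod B} {n : ℕ} (R : Res X (n + 1)) : Res (kerM R.ε R.hε) n where
  P i := R.P (i + 1)
  proj i := R.proj (i + 1)
  zero i hi x := R.zero (i + 1) (by omega) x
  ε := kerLift R.ε R.hε (R.d 0) R.εd
  d i := R.d (i + 1)
  hε b x := by
    apply kerι_inj R.ε R.hε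
    rw [kerι_kerLift, isHom_kerι R.ε R.hε, kerι_kerLift, R.hd]
  hd i := R.hd (i + 1)
  εd x := by
    apply kerι_inj R.ε R.hε
    rw [kerι_kerLift, R.dd, map_zero]
  dd i x := R.dd (i + 1) x
  σ := (R.s 0).comp (kerι R.ε R.hε)
  s i := R.s (i + 1)
  hσ x := by
    apply kerι_inj R.ε R.hε
    rw [kerι_kerLift]
    have h := R.h0 (kerι R.ε R.hε x)
    rw [f_kerι, map_zero, zero_add] at h
    exact h
  h0 x := by
    have h := R.hs 0 x
    exact h
  hs i x := R.hs (i + 1) x

end DhResAux

theorem DhLe.res {n : ℕ} {X : BMod B} (h : DhLe n X) : Nonempty (Res X n) := by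
  induction n generalizing X with
  | zero => exact ⟨DhResAux.baseRes X h⟩
  | succ n ih =>
    obtain ⟨K, P, hP, ⟨τ⟩, hK⟩ := h
    obtain ⟨R⟩ := ih hK
    exact ⟨DhResAux.consRes τ hP R⟩

theorem Res.dhLe {n : ℕ} {X : BMod B} (R : Res X n) : DhLe n X := by
  induction n generalizing X with
  | zero =>
    have h1 : ∀ x : R.P 0, R.σ (R.ε x) = x := by
      intro x
      have h := R.h0 x
      rw [R.zero 1 (by omega) (R.s 0 x), map_zero, add_zero] at h
      exact h
    refine Retr.projective (X := R.P 0) ⟨R.σ, R.ε, ?_, R.hε, R.hσ⟩ (R.proj 0)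
    intro b x
    have h := h1 ((R.P 0).act b (R.σ x))
    rw [R.hε, R.hσ] at h
    exact h
  | succ n ih =>
    obtain ⟨τ, -, -, -⟩ := exists_ses_ker R.ε R.hε R.σ R.hσ
    exact ⟨kerM R.ε R.hε, R.P 0, R.proj 0, ⟨τ⟩, ih (DhResAux.tailRes R)⟩

theorem dh_le_iff {X : BMod B} (hmono : ∀ {m n : ℕ}, m ≤ n → DhLe m X → DhLe n X) (n : ℕ) :
    dh X ≤ n ↔ DhLe n X := by
  constructor
  · intro h
    by_cases hne : {m : ℕ∞ | ∃ n : ℕ, Nonempty (Res X n) ∧ m = n}.Nonempty
    · obtain ⟨m, ⟨R⟩, hm⟩ := csInf_mem hne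
      have h2 : (m : ℕ∞) ≤ n := by
        rw [← hm]; exact h
      exact hmono (by exact_mod_cast h2) R.dhLe
    · rw [Set.not_nonempty_iff_eq_empty] at hne
      rw [dh, hne, sInf_empty] at h
      exact absurd h (by simp)
  · intro h
    exact sInf_le ⟨n, h.res, rfl⟩

end Pool.Agent.Lib.BF3
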