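import Mathlib
import Pool.Agent.Lib.BF3.Alg
import Pool.Agent.Lib.BF3.Coord

/-!
# The algebra is semisimple

PROOF. For a point `p : SA` put `χ = aliftA (fun s => val s p)`. The family is bounded by `1`: for a
generator `g` of `SG F1` the sum `∑ g s val s p` has at most one nonzero term, of modulus at most
`1` (the support of `g` consists of elements `inl t`, for which `val (inl t) p ≠ 0` iff
`p = inl t`, or it is contained in `{inr x}`). `χ` is multiplicative:
both `χ (a * b)` and `χ a * χ b` are bounded bilinear, so `AA.apply_eq_of` (twice) reduces to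
`a = bA s`, `b = bA s'` and the products `bA_mul_inl_inl`, ... So there is a character
`φ_p : AA →ₙₐ[ℂ] ℂ` with `φ_p a = χ_p a` (`exists_char`).

`semisimple_AA`: `χ_(inr x) a = coord (SG F1) (inr x) a` and
`χ_(inl t) a = coord (SG F1) (inl t) a + coord (SG F1) (inr t.1) a` (check on `bA s`,
`AA.apply_eq_of`; `coord_δ`). If all characters vanish at `a`, all coordinates vanish and `a = 0` by
`coord_sep`.
-/

noncomputable section

namespace Pool.Agent.Lib.BF3

namespace SemiAux

/-- a sum with at most one nonzero term -/
private theorem norm_sum_le {S : Type} {g : S →₀ ℂ} (hg : ∀ s, ‖g s‖ ≤ 1) {z : S → ℂ}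
    (hz : ∀ s, ‖z s‖ ≤ 1)
    (h : ∀ s ∈ g.support, ∀ s' ∈ g.support, z s ≠ 0 → z s' ≠ 0 → s = s') :
    ‖g.sum fun s c => c • z s‖ ≤ 1 := by
  by_cases he : ∃ s₀ ∈ g.support, z s₀ ≠ 0
  · obtain ⟨s₀, h0, h1⟩ := he
    rw [Finsupp.sum, Finset.sum_eq_single s₀]
    · rw [norm_smul]
      calc ‖g s₀‖ * ‖z s₀‖ ≤ 1 * 1 :=
            mul_le_mul (hg s₀) (hz s₀) (norm_nonneg _) zero_le_one
        _ = 1 := one_mul 1
    · intro s hs hne
      by_cases hs0 : z s = 0
      · rw [hs0, smul_zero]
      · exact absurd (h s hs s₀ h0 hs0 h1) hne
    · intro h2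
      exact absurd h0 h2
  · push Not at he
    rw [Finsupp.sum, Finset.sum_eq_zero]
    · simp
    · intro s hs
      rw [he s hs, smul_zero]

open Classical in
private theorem val_ne_zero_inl {t : Ts} {p : SA} (h : val (Sum.inl t) p ≠ 0) : p = Sum.inl t := by
  rcases p with q | x
  · by_cases e : t = q
    · rw [e]
    · exfalso
      apply h
      simp only [val]
      rw [if_neg e]
  · exfalso
    apply h
    simp only [val]

open Classical in
private theorem norm_val_le (s p : SA) : ‖val s p‖ ≤ 1 := by
  rcases s with t | x <;> rcases p with t' | x' <;> simp only [val]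
  all_goals first
    | (split_ifs <;> simp; done)
    | (simp; done)

end SemiAux

open SemiAux in
theorem bdd_val (p : SA) : Bdd (SG F1) (fun s => val s p) 1 := by
  refine ⟨zero_le_one, fun g hg => ?_⟩
  obtain ⟨hsupp, hb⟩ := hg
  refine norm_sum_le hb (fun s => norm_val_le s p) fun s hs s' hs' h1 h2 => ?_
  rcases hsupp with ⟨G, _, hF⟩ | ⟨G, hG, hF⟩
  · have e1 := hF hs
    have e2 := hF hs'
    rw [Finset.mem_map] at e1 e2
    obtain ⟨t, _, rfl⟩ := e1
    obtain ⟨t', _, rfl⟩ := e2
    have e3 := val_ne_zero_inl (t := t) h1
    have e4 := val_ne_zero_inl (t := t') h2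
    exact e3.symm.trans e4
  · have e1 := hF hs
    have e2 := hF hs'
    rw [Finset.mem_map] at e1 e2
    obtain ⟨x, hx, rfl⟩ := e1
    obtain ⟨x', hx', rfl⟩ := e2
    rw [hG x hx x' hx']

namespace SemiAux

/-- the functional -/
private abbrev chi (p : SA) : AA →L[ℂ] ℂ := aliftA (fun s => val s p)

private theorem chi_bA (p s : SA) : chi p (bA s) = val s p := aliftA_bA (bdd_val p) s

open Classical in
private theorem chi_mul_basis (p s s' : SA) :
    chi p (bA s * bA s') = chi p (bA s) * chi p (bA s') := by
  rw [chi_bA, chi_bA]
  rcases s with t | x <;> rcases s' with t' | x'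
  · rw [bA_mul_inl_inl]
    by_cases h : t = t'
    · subst h
      rw [if_pos rfl, chi_bA]
      rcases p with q | y
      · simp only [val]
        split_ifs <;> simp
      · simp only [val, mul_zero]
    · rw [if_neg h, map_zero]
      rcases p with q | y
      · simp only [val]
        by_cases h1 : t = q
        · have h2 : t' ≠ q := fun e => h (h1.trans e.symm)
          rw [if_neg h2, mul_zero]
        · rw [if_neg h1, zero_mul]
      · simp only [val, mul_zero]
  · rw [bA_mul_inl_inr]
    by_cases h : t.1 = x'
    · rw [if_pos h, chi_bA]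
      rcases p with q | y
      · simp only [val]
        by_cases h1 : t = q
        · subst h1
          rw [if_pos rfl, if_pos h, mul_one]
        · rw [if_neg h1, zero_mul]
      · simp only [val, zero_mul]
    · rw [if_neg h, map_zero]
      rcases p with q | y
      · simp only [val]
        by_cases h1 : t = q
        · subst h1
          rw [if_neg h, mul_zero]
        · rw [if_neg h1, zero_mul]
      · simp only [val, zero_mul]
  · rw [bA_mul_inr_inl]
    by_cases h : t'.1 = x
    · rw [if_pos h, chi_bA]
      rcases p with q | y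
      · simp only [val]
        by_cases h1 : t' = q
        · subst h1
          rw [if_pos rfl, if_pos h, mul_one]
        · rw [if_neg h1, mul_zero]
      · simp only [val, mul_zero]
    · rw [if_neg h, map_zero]
      rcases p with q | y
      · simp only [val]
        by_cases h1 : t' = q
        · subst h1
          rw [if_neg h, zero_mul]
        · rw [if_neg h1, mul_zero]
      · simp only [val, mul_zero]
  · rw [bA_mul_inr_inr]
    by_cases h : x = x'
    · subst h
      rw [if_pos rfl, chi_bA]
      rcases p with q | y
      · simp only [val]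
        split_ifs <;> simp
      · simp only [val]
        split_ifs <;> simp
    · rw [if_neg h, map_zero]
      rcases p with q | y
      · simp only [val]
        by_cases h1 : q.1 = x
        · have h2 : q.1 ≠ x' := fun e => h (h1.symm.trans e)
          rw [if_neg h2, mul_zero]
        · rw [if_neg h1, zero_mul]
      · simp only [val]
        by_cases h1 : x = y
        · have h2 : x' ≠ y := fun e => h (h1.trans e.symm)
          rw [if_neg h2, mul_zero]
        · rw [if_neg h1, zero_mul]

private theorem chi_mul (p : SA) (a b : AA) : chi p (a * b) = chi p a * chi p b := by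
  have h1 : ∀ (s : SA) (b : AA), chi p (bA s * b) = chi p (bA s) * chi p b := by
    intro s b
    exact AA.apply_eq_of (f := (chi p).comp (ContinuousLinearMap.mul ℂ AA (bA s)))
      (g := chi p (bA s) • chi p) (fun s' => chi_mul_basis p s s') b
  have h2 := AA.apply_eq_of (f := (chi p).comp ((ContinuousLinearMap.mul ℂ AA).flip b))
    (g := chi p b • chi p) (fun s => by
      change chi p (bA s * b) = chi p b * chi p (bA s)
      rw [h1, mul_comm]) a
  change chi p (a * b) = chi p b * chi p a at h2
  rw [h2, mul_comm]

end SemiAux

open SemiAux in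
theorem exists_char (p : SA) : ∃ φ : AA →ₙₐ[ℂ] ℂ, ∀ a, φ a = aliftA (fun s => val s p) a :=
  ⟨{ toFun := chi p
     map_smul' := fun c a => map_smul (chi p) c a
     map_zero' := map_zero (chi p)
     map_add' := fun a b => map_add (chi p) a b
     map_mul' := fun a b => chi_mul p a b }, fun _ => rfl⟩

open SemiAux Classical in
theorem semisimple_AA : Semisimple AA := by
  intro a ha
  have h0 : ∀ p : SA, chi p a = 0 := by
    intro p
    obtain ⟨φ, hφ⟩ := exists_char p
    rw [← hφ a]
    exact ha φ
  have h1 : ∀ (x : Xs) (b : Atom (SG F1)), alift (SG F1) (fun s => val s (Sum.inr x)) b =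
      coord (SG F1) (Sum.inr x) b := by
    intro x b
    refine Atom.apply_eq_of (fun s => ?_) b
    rw [alift_δ (bdd_val _), coord_δ]
    rcases s with t | x'
    · simp [val]
    · by_cases h : x' = x
      · simp [val, h]
      · simp [val, h]
  have h2 : ∀ (t : Ts) (b : Atom (SG F1)), alift (SG F1) (fun s => val s (Sum.inl t)) b =
      (coord (SG F1) (Sum.inl t) + coord (SG F1) (Sum.inr t.1)) b := by
    intro t b
    refine Atom.apply_eq_of (fun s => ?_) b
    rw [alift_δ (bdd_val _), add_apply, coord_δ, coord_δ]
    rcases s with t' | x'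
    · by_cases h : t' = t
      · simp [val, h]
      · simp [val, h]
    · by_cases h : x' = t.1
      · simp [val, h]
      · simp [val, h, Ne.symm h]
  have h3 : ∀ x : Xs, coord (SG F1) (Sum.inr x) a = 0 := by
    intro x
    rw [← h1 x]
    exact h0 (Sum.inr x)
  refine coord_sep (K := SG F1) (a := a) ?_
  rintro (t | x)
  · have h4 := h2 t a
    rw [add_apply, h3 t.1, add_zero] at h4
    rw [← h4]
    exact h0 (Sum.inl t)
  · exact h3 x

end Pool.Agent.Lib.BF3
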