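import Mathlib
import Pool.Agent.Lib.BF3.DbLe
import Pool.Agent.Lib.BF3.DgGe
import Pool.Agent.Lib.BF3.DgDb
import Pool.Agent.Lib.BF3.DhRes
import Pool.Agent.Lib.BF3.Semi

/-!
# `dg A = db A = 3`
-/

noncomputable section

namespace Pool.Agent.Lib.BF3

section

variable {B : Type} [NormedCommRing B] [NormedAlgebra ℂ B]

theorem dh_le_iff_dhLe {X : BMod B} (n : ℕ) : dh X ≤ n ↔ DhLe n X :=
  dh_le_iff (fun h h' => h'.mono h) n

end

theorem dg_AA_le : dg AA ≤ 3 := by
  refine iSup_le fun Z => ?_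
  have h : dh Z ≤ (3 : ℕ) := (dh_le_iff_dhLe 3).2 (DhLe.of_selfBimod dhLe_three_self Z)
  exact_mod_cast h

theorem db_AA_le : db AA ≤ 3 := by
  have h : dh (selfBimod UU) ≤ (3 : ℕ) := (dh_le_iff_dhLe 3).2 dhLe_three_self
  exact_mod_cast h

theorem three_le_dh_XM : 3 ≤ dh XM := by
  by_contra h
  have h1 : dh XM < (3 : ℕ∞) := not_le.1 h
  have h2 : dh XM ≤ (2 : ℕ) := by
    have : dh XM < (2 : ℕ∞) + 1 := by
      have e : (2 : ℕ∞) + 1 = 3 := by norm_num
      rw [e]; exact h1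
    have := Order.le_of_lt_add_one this
    exact_mod_cast this
  exact not_dhLe_two_XM ((dh_le_iff_dhLe 2).1 h2)

theorem three_le_dg : 3 ≤ dg AA := three_le_dh_XM.trans (le_iSup (fun Z : BMod UU => dh Z) XM)

theorem three_le_db : 3 ≤ db AA := by
  by_contra h
  have h1 : db AA < (3 : ℕ∞) := not_le.1 h
  have h2 : dh (selfBimod UU) ≤ (2 : ℕ) := by
    have : dh (selfBimod UU) < (2 : ℕ∞) + 1 := by
      have e : (2 : ℕ∞) + 1 = 3 := by norm_num
      rw [e]; exact h1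
    have := Order.le_of_lt_add_one this
    exact_mod_cast this
  exact not_dhLe_two_XM (DhLe.of_selfBimod ((dh_le_iff_dhLe 2).1 h2) XM)

theorem dg_AA : dg AA = 3 := le_antisymm dg_AA_le three_le_dg

theorem db_AA : db AA = 3 := le_antisymm db_AA_le three_le_db

end Pool.Agent.Lib.BF3
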